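import Pool.Agent.H456.PP.Stm

/-!
(T1) By `S_pt` (twice) there are `s₁', s₂'` equivalent to `s₁, s₂` with `D A_i' = z_i²`, `z_i ≠ 0`, `sx s_i' ≠ 0`; the relations `s_i'.1.res = (f.sc 4).tr s_i'.2` hold (`PE.res` with `f.sc 4`). By `S_inv` (with `PE.symm`, from `s_i'` to `s_i`) it is enough to find a zero of `Tq f s₁' s₂'`. Drop the primes. `x_i = hh s_i/(16A_i)`, `hh s_i - 16A_iθ = 16A_i(x_i - θ)`. From `N(h - 16Aθ) = h³ + 16Aah² + 256A²bh + 4096A³c = (sx)²` (identity from the relation, see Tq): `f(x_i) = sx_i²/(16A_i)³`,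
so `D f(x_i) = Y_i²` with `Y_i = D² sx_i/(64 z_i³) ≠ 0` (`(16A)³ = (16 z²/D)³ = (64 z³)²/D³`). `q_i(θ) = θ² + (a + x_i)θ + (x_i² + a x_i + b)`, `(x_i - θ) q_i(θ) = f(x_i)` modulo `f(θ)`. Zero: `w = q₁(θ)/Y₁ + q₂(θ)/Y₂` if `x₁ ≠ x₂` (then `w ≠ 0`: the coefficients of `θ²` and `θ` vanish only if `Y₂ = -Y₁` and `x₁ = x₂`), i.e. `(x,y,z) = (∑ (x_i² + a x_i + b)/Y_i, ∑ (a + x_i)/Y_i, ∑ 1/Y_i)`. Check: the coefficient of `θ²` of `(x₁-θ)(x₂-θ)w²`: `(x₁-θ)(x₂-θ)q₁²/Y₁² = f(x₁)(x₂-θ)q₁/Y₁²`, coefficient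
of `θ²` of `(x₂ - θ) q₁(θ) = (x₂-x₁) q₁ + f(x₁)` is `x₂ - x₁`: total `(x₂-x₁) f(x₁)/Y₁² = (x₂-x₁)/D`; the other square gives `(x₁-x₂)/D`; the mixed term `2 f(x₁)f(x₂)/(Y₁Y₂)` has no `θ²`. Sum `0`. If `x₁ = x₂`: `w = q₁(θ)`, `(x₁-θ)²q₁² = f(x₁)²`: no `θ²`. In both cases `Tq f s₁ s₂ = Tz f (256A₁A₂ (x₁-θ)(x₂-θ))`. Verify with `simp [Tq, Tz, TF.ev]; field_simp; ring` using `sx_i²` relations or, better, work in `AdjoinRoot`. (T2) Let `(u,v)` be a root of `s₁.1`; choose `M₁` with first column `(u,v)` and `det = 1` (cases `u = 0`), `s₁' = (s₁.1.sub M₁, ρ + tau)`,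
`PE M₁ s₁ s₁'`, `A₁' = s₁.1.ev u v = 0`, `sx s₁' = B₁'³ ≠ 0` (`B₁' = 0` and `A₁' = 0` give `res.disc = 0`, but `res.disc = 4^6 f.disc ≠ 0`). `Tq f s₁' s₂` has `A`-coefficient `256A₁'A₂ = 0`, so `(1,0,0)` is a zero. Go back with `S_inv` (`PE.symm`, `PE.refl`).
-/

set_option autoImplicit false
set_option linter.all false

open Polynomial Finset Filter
open Pool.Agent.H456.EC (toK toK_inj sig toK_eq reflect_toK cls)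
open Pool.Agent.H456.RN
open Pool.Agent.H456.BQ
open Pool.Agent.H456.Coh (TF)

namespace Pool.Agent.H456.PP

/-- the norm of a class -/
theorem T12_norm {R : Type*} [CommRing R] (A B C D E ρ t a b c : R)
    (r1 : C = 4 * a + 3 * ρ) (r2 : B * D - 4 * A * E = 4 ^ 2 * b + 2 * (4 * a) * ρ + 3 * ρ ^ 2)
    (r3 : A * D ^ 2 + B ^ 2 * E - 4 * A * C * E = 4 ^ 3 * c + 4 ^ 2 * b * ρ + 4 * a * ρ ^ 2 + ρ ^ 3)
    (h0 : t = B ^ 2 - 4 * A * C + 4 * A * ρ) :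
    t ^ 3 + a * t ^ 2 * (16 * A) + b * t * (16 * A) ^ 2 + c * (16 * A) ^ 3 =
      (B ^ 3 - 4 * A * B * C + 8 * A ^ 2 * D) ^ 2 := by
  have e1 : 16 * A * a = 4 * A * (C - 3 * ρ) := by linear_combination -4 * A * r1
  have e2 : (16 * A) ^ 2 * b = 16 * A ^ 2 * (B * D - 4 * A * E - 2 * (C - 3 * ρ) * ρ - 3 * ρ ^ 2) := by
    linear_combination -16 * A ^ 2 * r2 + 32 * A ^ 2 * ρ * r1
  have e3 : (16 * A) ^ 3 * c = 64 * A ^ 3 * ((A * D ^ 2 + B ^ 2 * E - 4 * A * C * E)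
      - ρ * (B * D - 4 * A * E - 2 * (C - 3 * ρ) * ρ - 3 * ρ ^ 2) - ρ ^ 2 * (C - 3 * ρ) - ρ ^ 3) := by
    linear_combination -64 * A ^ 3 * r3 + 64 * A ^ 3 * ρ * r2 - 64 * A ^ 3 * ρ ^ 2 * r1
  have e4 : t ^ 3 + 4 * A * (C - 3 * ρ) * t ^ 2 +
      16 * A ^ 2 * (B * D - 4 * A * E - 2 * (C - 3 * ρ) * ρ - 3 * ρ ^ 2) * t +
      64 * A ^ 3 * ((A * D ^ 2 + B ^ 2 * E - 4 * A * C * E)
      - ρ * (B * D - 4 * A * E - 2 * (C - 3 * ρ) * ρ - 3 * ρ ^ 2) - ρ ^ 2 * (C - 3 * ρ) - ρ ^ 3) =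
      (B ^ 3 - 4 * A * B * C + 8 * A ^ 2 * D) ^ 2 := by
    rw [h0]; ring
  linear_combination e4 + t ^ 2 * e1 + t * e2 + e3

/-- the point of the twisted curve -/
theorem T12_pt {K : Type} [Field K] (h2 : (2 : K) ≠ 0) {f : Cub K} {s : Q4 K × K} (hs : s.1.res = (f.sc 4).tr s.2)
    (hx : sx s.1 ≠ 0) {D z : K} (hD : D ≠ 0) (hz : z ≠ 0) (hA : D * s.1.A = z ^ 2) :
    ∃ x Y : K, hh s = 16 * s.1.A * x ∧ Y ≠ 0 ∧ D * f.ev x = Y ^ 2 := by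
  have r1 := congrArg Cub.a hs
  have r2 := congrArg Cub.b hs
  have r3 := congrArg Cub.c hs
  simp only [Q4.res, Cub.tr, Cub.sc] at r1 r2 r3
  have h16 : (16 : K) ≠ 0 := by
    have : (16 : K) = 2 ^ 4 := by norm_num
    rw [this]; exact pow_ne_zero _ h2
  have h64 : (64 : K) ≠ 0 := by
    have : (64 : K) = 2 ^ 6 := by norm_num
    rw [this]; exact pow_ne_zero _ h2
  have hA0 : s.1.A ≠ 0 := by
    intro h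
    rw [h, mul_zero] at hA
    exact pow_ne_zero 2 hz hA.symm
  have h16A : 16 * s.1.A ≠ 0 := mul_ne_zero h16 hA0
  have hn := T12_norm s.1.A s.1.B s.1.C s.1.D s.1.E s.2 (hh s) f.a f.b f.c r1 r2 r3 rfl
  have hf : f.ev (hh s / (16 * s.1.A)) * (16 * s.1.A) ^ 3 = sx s.1 ^ 2 := by
    have e : f.ev (hh s / (16 * s.1.A)) * (16 * s.1.A) ^ 3 = hh s ^ 3 + f.a * hh s ^ 2 * (16 * s.1.A) +
        f.b * hh s * (16 * s.1.A) ^ 2 + f.c * (16 * s.1.A) ^ 3 := by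
      simp only [Cub.ev]
      field_simp
    rw [e, hn]
    rfl
  refine ⟨hh s / (16 * s.1.A), D ^ 2 * sx s.1 / (64 * z ^ 3), ?_, ?_, ?_⟩
  · field_simp
  · exact div_ne_zero (mul_ne_zero (pow_ne_zero 2 hD) hx) (mul_ne_zero h64 (pow_ne_zero 3 hz))
  · have h3 : (16 * s.1.A) ^ 3 * D ^ 3 = (64 * z ^ 3) ^ 2 := by
      have : (16 * s.1.A) ^ 3 * D ^ 3 = 4096 * (D * s.1.A) ^ 3 := by ring
      rw [this, hA]; ring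
    rw [div_pow, eq_div_iff (pow_ne_zero 2 (mul_ne_zero h64 (pow_ne_zero 3 hz))), ← h3]
    linear_combination D ^ 4 * hf

/-- the value of the form at the sum of the two vectors -/
theorem T12_val {K : Type} [Field K] (f : Cub K) (x₁ x₂ u₁ u₂ : K) :
    (Tz f (x₁ * x₂) (-(x₁ + x₂)) 1).ev (u₁ * (x₁ ^ 2 + f.a * x₁ + f.b) + u₂ * (x₂ ^ 2 + f.a * x₂ + f.b))
      (u₁ * (f.a + x₁) + u₂ * (f.a + x₂)) (u₁ + u₂) =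
      u₁ ^ 2 * ((x₂ - x₁) * f.ev x₁) + u₂ ^ 2 * ((x₁ - x₂) * f.ev x₂) := by
  simp only [Tz, TF.ev, Cub.ev]
  ring

theorem T12_scale {K : Type} [Field K] (f : Cub K) (k z₀ z₁ z₂ x y z : K) :
    (Tz f (k * z₀) (k * z₁) (k * z₂)).ev x y z = k * (Tz f z₀ z₁ z₂).ev x y z := by
  simp only [Tz, TF.ev]
  ring

theorem T12_iso {K : Type} [Field K] {f : Cub K} {x₁ x₂ Y₁ Y₂ D : K} (hD : D ≠ 0) (h1 : Y₁ ≠ 0) (h2 : Y₂ ≠ 0)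
    (e1 : D * f.ev x₁ = Y₁ ^ 2) (e2 : D * f.ev x₂ = Y₂ ^ 2) :
    ∃ x y z : K, ¬ (x = 0 ∧ y = 0 ∧ z = 0) ∧ (Tz f (x₁ * x₂) (-(x₁ + x₂)) 1).ev x y z = 0 := by
  by_cases hx : x₁ = x₂
  · refine ⟨x₁ ^ 2 + f.a * x₁ + f.b, f.a + x₁, 1, fun h => one_ne_zero h.2.2, ?_⟩
    have h := T12_val f x₁ x₂ 1 0
    rw [← hx] at h ⊢
    simp only [one_mul, zero_mul, add_zero, sub_self, mul_zero] at h
    rw [h]
  · refine ⟨Y₁⁻¹ * (x₁ ^ 2 + f.a * x₁ + f.b) + Y₂⁻¹ * (x₂ ^ 2 + f.a * x₂ + f.b),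
      Y₁⁻¹ * (f.a + x₁) + Y₂⁻¹ * (f.a + x₂), Y₁⁻¹ + Y₂⁻¹, ?_, ?_⟩
    · rintro ⟨-, hb, hc⟩
      have h3 : Y₁⁻¹ * (x₁ - x₂) = 0 := by linear_combination hb - (f.a + x₂) * hc
      rcases mul_eq_zero.1 h3 with h4 | h4
      · exact inv_ne_zero h1 h4
      · exact hx (sub_eq_zero.1 h4)
    · rw [T12_val]
      apply mul_left_cancel₀ hD
      have g1 : Y₁⁻¹ ^ 2 * Y₁ ^ 2 = 1 := by rw [← mul_pow, inv_mul_cancel₀ h1, one_pow]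
      have g2 : Y₂⁻¹ ^ 2 * Y₂ ^ 2 = 1 := by rw [← mul_pow, inv_mul_cancel₀ h2, one_pow]
      linear_combination (x₂ - x₁) * Y₁⁻¹ ^ 2 * e1 + (x₁ - x₂) * Y₂⁻¹ ^ 2 * e2 + (x₂ - x₁) * g1 + (x₁ - x₂) * g2

theorem T12_Tq {K : Type} [Field K] {f : Cub K} {s₁ s₂ : Q4 K × K} {x₁ x₂ : K} (h1 : hh s₁ = 16 * s₁.1.A * x₁)
    (h2 : hh s₂ = 16 * s₂.1.A * x₂) (x y z : K) :
    (Tq f s₁ s₂).ev x y z = (256 * s₁.1.A * s₂.1.A) * (Tz f (x₁ * x₂) (-(x₁ + x₂)) 1).ev x y z := by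
  rw [← T12_scale, Tq, h1, h2]
  congr 2 <;> ring

/-- the roots of a quartic can be moved to `(1, 0)` -/
theorem T12_root {K : Type} [Field K] {s : Q4 K × K} {u v : K} (huv : ¬ (u = 0 ∧ v = 0)) (h : s.1.ev u v = 0) :
    ∃ (M : M2 K) (s' : Q4 K × K), PE M s s' ∧ s'.1.A = 0 := by
  obtain ⟨M₁, hM₁, e1, e2⟩ : ∃ M₁ : M2 K, M₁.det = 1 ∧ M₁.α = u ∧ M₁.γ = v := by
    by_cases hu : u = 0
    · have hv : v ≠ 0 := fun hv => huv ⟨hu, hv⟩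
      refine ⟨⟨u, -v⁻¹, v, 0⟩, ?_, rfl, rfl⟩
      simp only [M2.det]; field_simp; ring
    · refine ⟨⟨u, 0, v, u⁻¹⟩, ?_, rfl, rfl⟩
      simp only [M2.det]; field_simp; ring
  refine ⟨M₁, (s.1.sub M₁, s.2 + s.1.tau M₁), ⟨by rw [hM₁]; exact one_ne_zero, ?_, ?_⟩, ?_⟩
  · rw [hM₁, one_pow, Q4.smul_one]
  · rw [hM₁]; ring
  · have : (s.1.sub M₁).A = s.1.ev M₁.α M₁.γ := by simp only [Q4.sub, Q4.ev]; ring
    show (s.1.sub M₁).A = 0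
    rw [this, e1, e2, h]

theorem T12_T1 (hpt : S_pt) (hinv : S_inv) : S_T1 := by
  intro F _ h2 P O L _ _ _ _ _ π ι hL f hf s₁ s₂ hs₁ hs₂ hx₁ hx₂ D hD hS₁ hS₂
  have h2L : (2 : L) ≠ 0 := by
    have hj : Function.Injective (((algebraMap O L).comp ι).comp (C : F →+* F[X])) := RingHom.injective _
    intro h
    apply h2
    apply hj
    rw [map_ofNat, map_zero]
    exact h
  obtain ⟨M₁, s₁', z₁, hM₁, hz₁, hA₁, hx₁'⟩ := hpt F h2 P O L π ι hL f hf s₁ hs₁ hx₁ D hD hS₁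
  obtain ⟨M₂, s₂', z₂, hM₂, hz₂, hA₂, hx₂'⟩ := hpt F h2 P O L π ι hL f hf s₂ hs₂ hx₂ D hD hS₂
  have hs₁' := hM₁.res hs₁
  have hs₂' := hM₂.res hs₂
  refine hinv L h2L f hf s₁' s₂' s₁ s₂ hs₁' hs₂' M₁.adj M₂.adj hM₁.symm hM₂.symm hx₁' hx₂' hx₁ hx₂ ?_
  obtain ⟨x₁, Y₁, g1, hY₁, k1⟩ := T12_pt h2L hs₁' hx₁' hD hz₁ hA₁
  obtain ⟨x₂, Y₂, g2, hY₂, k2⟩ := T12_pt h2L hs₂' hx₂' hD hz₂ hA₂
  obtain ⟨x, y, z, hne, h0⟩ := T12_iso hD hY₁ hY₂ k1 k2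
  exact ⟨x, y, z, hne, by rw [T12_Tq g1 g2, h0, mul_zero]⟩

theorem T12_T2 (hinv : S_inv) : S_T2 := by
  intro L _ h2 f hf s₁ s₂ hs₁ hs₂ hx₁ hx₂ hr
  obtain ⟨u, v, huv, h0⟩ := hr
  obtain ⟨M₁, s₁', hM₁, hA⟩ := T12_root huv h0
  have hs₁' := hM₁.res hs₁
  have h4 : (4 : L) ≠ 0 := by
    have : (4 : L) = 2 ^ 2 := by norm_num
    rw [this]; exact pow_ne_zero _ h2
  have hB : s₁'.1.B ≠ 0 := by
    intro hB
    apply hf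
    have h3 : s₁'.1.res.disc = 0 := by
      simp only [Q4.res, Cub.disc, hA, hB]; ring
    rw [hs₁', Cub.disc_tr, Cub.disc_sc] at h3
    exact (mul_eq_zero.1 h3).resolve_left (pow_ne_zero _ h4)
  have hx₁' : sx s₁'.1 ≠ 0 := by
    have : sx s₁'.1 = s₁'.1.B ^ 3 := by simp only [sx, hA]; ring
    rw [this]; exact pow_ne_zero 3 hB
  refine hinv L h2 f hf s₁' s₂ s₁ s₂ hs₁' hs₂ M₁.adj ⟨1, 0, 0, 1⟩ hM₁.symm (PE.refl s₂) hx₁' hx₂ hx₁ hx₂ ?_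
  refine ⟨1, 0, 0, fun h => one_ne_zero h.1, ?_⟩
  simp only [Tq, Tz, TF.ev, hA]
  ring

theorem t_T12 : (S_pt → S_inv → S_T1) ∧ (S_inv → S_T2) := ⟨T12_T1, T12_T2⟩

end Pool.Agent.H456.PP
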