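import Pool.Agent.H456.PP.Stm
import Pool.Agent.H456.BQ.T_sep
import Pool.Agent.H456.BQ.T_nz
import Pool.Agent.H456.BQ.T_lang
import Pool.Agent.H456.BQ.Bad

/-!
(T3) `S_T3`: the local symbol at a place of good reduction. By `S_pt` and `S_inv` the first coefficients are squares up to
the twist, `S_gpr` gives the points `(x₁, y₁)` of `y² = f(x)` and `(D x₂, Y₂)` of the twist, `S_cusp` shows that `x₁`, `x₂`
are integral, and the form is diagonal in the basis `1, q₁(θ), q₂(θ)`, `(x_i - θ) q_i = f(x_i)`.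
-/

set_option autoImplicit false
set_option linter.all false

open Polynomial Finset Filter
open Pool.Agent.H456.EC (toK toK_inj sig toK_eq reflect_toK cls)
open Pool.Agent.H456.RN
open Pool.Agent.H456.BQ
open Pool.Agent.H456.Coh (TF)

namespace Pool.Agent.H456.PP

/-- the properties of the local ring which are used -/
structure T3V (O : Type) [CommRing O] (π : O) : Prop where
  two : IsUnit (2 : O)
  pow : ∀ x : O, x ≠ 0 → ∃ (k : ℕ) (u : O), IsUnit u ∧ x = u * π ^ k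
  nonunit : ¬ IsUnit π
  ne : π ≠ 0
  hensel : ∀ c₀ c₁ c₂ c₃ : O, π ∣ c₀ → IsUnit c₁ → ∃ w, π ∣ w ∧ c₀ + c₁ * w + c₂ * w ^ 2 + c₃ * w ^ 3 = 0
  un : ∀ x : O, ¬ π ∣ x → IsUnit x
  sqc : ∀ c r : O, IsUnit c → π ∣ c - r ^ 2 → ∃ s : O, s ^ 2 = c
  nsq : ∀ x y : O, IsUnit x → IsUnit y → (¬ ∃ s : O, s ^ 2 = x) → (¬ ∃ s : O, s ^ 2 = y) → ∃ s : O, s ^ 2 = x * y

/-- squares by Hensel's lemma -/
theorem T3_sqc {F : Type} [Field F] (h2 : (2 : F) ≠ 0) {P : F[X]} {O : Type} [CommRing O] {π : O} {ι : F[X] →+* O}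
    (h : Lc P π ι) (c r : O) (hc : IsUnit c) (hd : π ∣ c - r ^ 2) : ∃ s : O, s ^ 2 = c := by
  have hr : IsUnit r := by
    apply sep_unit h
    intro hr
    apply h.nonunit
    have h1 : π ∣ c := by
      have e : c = (c - r ^ 2) + r * r := by ring
      rw [e]
      exact dvd_add hd (Dvd.dvd.mul_right hr r)
    exact isUnit_of_dvd_unit h1 hc
  obtain ⟨w, -, hw⟩ := h.hensel (r ^ 2 - c) (2 * r) 1 0 (by
    have e : r ^ 2 - c = -(c - r ^ 2) := by ring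
    rw [e]
    exact hd.neg_right) ((nz_two h2 ι).mul hr)
  exact ⟨r + w, by linear_combination hw⟩

theorem T3_V {F : Type} [Field F] [Fintype F] (h2 : (2 : F) ≠ 0) (P : Pl F) {O : Type} [CommRing O] {π : O}
    {ι : F[X] →+* O} (h : Lc P.1 π ι) : T3V O π := by
  classical
  refine ⟨nz_two h2 ι, h.pow, h.nonunit, h.ne, h.hensel, fun x hx => sep_unit h hx, T3_sqc h2 h, ?_⟩
  intro x y hx hy nx ny
  obtain ⟨x', hx'⟩ := h.dense 1 x
  obtain ⟨y', hy'⟩ := h.dense 1 y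
  rw [pow_one] at hx' hy'
  letI : Field (Rq (P.1 ^ 1)) := (isField_Rq P).toField
  have key : ∀ z z' r' : F[X], Ideal.Quotient.mk (Ideal.span {P.1 ^ 1}) (z * z') =
      Ideal.Quotient.mk (Ideal.span {P.1 ^ 1}) (r' ^ 2) → π ∣ ι z * ι z' - ι r' ^ 2 := by
    intro z z' r' e
    rw [Ideal.Quotient.mk_eq_mk_iff_sub_mem, Ideal.mem_span_singleton] at e
    have := (h.dvd 1 (z * z' - r' ^ 2)).2 e
    rw [pow_one, map_sub, map_mul, map_pow] at this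
    exact this
  have aux : ∀ (z : O) (z' : F[X]), IsUnit z → π ∣ z - ι z' → (¬ ∃ s : O, s ^ 2 = z) →
      ¬ IsSquare (Ideal.Quotient.mk (Ideal.span {P.1 ^ 1}) z' : Rq (P.1 ^ 1)) := by
    rintro z z' hz hzz nz ⟨r, hr⟩
    obtain ⟨r', rfl⟩ := Ideal.Quotient.mk_surjective r
    apply nz
    apply T3_sqc h2 h z (ι r') hz
    have h1 := key z' 1 r' (by rw [mul_one, hr, map_pow, sq])
    have e : z - ι r' ^ 2 = (z - ι z') + (ι z' * ι 1 - ι r' ^ 2) := by rw [map_one]; ring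
    rw [e]
    exact dvd_add hzz h1
  have hnx := aux x x' hx hx' nx
  have hny := aux y y' hy hy' ny
  have hny' : ¬ IsSquare ((Ideal.Quotient.mk (Ideal.span {P.1 ^ 1}) y' : Rq (P.1 ^ 1))⁻¹) := by
    rintro ⟨r, hr⟩
    apply hny
    refine ⟨r⁻¹, ?_⟩
    rw [← mul_inv, ← hr, inv_inv]
  obtain ⟨r, -, hr⟩ := lang_nonsq hnx hny'
  rw [div_inv_eq_mul] at hr
  obtain ⟨r', rfl⟩ := Ideal.Quotient.mk_surjective r
  have h1 := key x' y' r' (by rw [map_mul, ← hr, map_pow])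
  apply T3_sqc h2 h (x * y) (ι r') (hx.mul hy)
  have e : x * y - ι r' ^ 2 = (x - ι x') * y + ι x' * (y - ι y') + (ι x' * ι y' - ι r' ^ 2) := by ring
  rw [e]
  exact dvd_add (dvd_add (Dvd.dvd.mul_right hx' _) (Dvd.dvd.mul_left hy' _)) h1

section loc

variable {O : Type} [CommRing O] [IsDomain O] {π : O}

theorem T3V.nd (V : T3V O π) {x : O} (hx : IsUnit x) : ¬ π ∣ x := fun h => V.nonunit (isUnit_of_dvd_unit h hx)

theorem T3V.ucg (V : T3V O π) {x y : O} (hx : IsUnit x) (h : π ∣ y - x) : IsUnit y := by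
  apply V.un
  intro hy
  apply V.nd hx
  have e : x = y - (y - x) := by ring
  rw [e]
  exact dvd_sub hy h

theorem T3V.pu (V : T3V O π) {u : O} {k : ℕ} (hk : IsUnit (u * π ^ k)) : k = 0 := by
  rcases k with _ | k
  · rfl
  · exact absurd (isUnit_of_dvd_unit (Dvd.intro_left (u * π ^ k) (by ring)) hk) V.nonunit

theorem T3V.uniq (V : T3V O π) {u v : O} {k l : ℕ} (hu : IsUnit u) (hv : IsUnit v) (h : u * π ^ k = v * π ^ l) :
    k = l ∧ u = v := by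
  have aux : ∀ (u v : O) (k l : ℕ), IsUnit u → IsUnit v → u * π ^ k = v * π ^ l → k ≤ l → k = l ∧ u = v := by
    intro u v k l hu hv h hkl
    obtain ⟨m, rfl⟩ := Nat.exists_eq_add_of_le hkl
    have h1 : u = v * π ^ m := by
      apply mul_right_cancel₀ (pow_ne_zero k V.ne)
      rw [h, pow_add]; ring
    have hm := V.pu (h1 ▸ hu)
    subst hm
    exact ⟨rfl, by rw [h1, pow_zero, mul_one]⟩
  rcases le_total k l with hkl | hkl
  · exact aux u v k l hu hv h hkl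
  · obtain ⟨a, b⟩ := aux v u l k hv hu h.symm hkl
    exact ⟨a.symm, b.symm⟩

theorem T3V.un_ne (V : T3V O π) {u : O} (hu : IsUnit u) : u ≠ 0 := by
  rintro rfl
  exact V.nd hu (dvd_zero _)

/-- the quadratic factor -/
def T3g (f : Cub O) (α x : O) : O := x ^ 2 + (f.a + α) * x + (α ^ 2 + f.a * α + f.b)

theorem T3_fac {f : Cub O} {α : O} (hα : f.ev α = 0) (x : O) : f.ev x = (x - α) * T3g f α x := by
  simp only [Cub.ev] at hα ⊢
  simp only [T3g]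
  linear_combination hα

theorem T3_disc_dvd {f : Cub O} {r : O} (h1 : π ∣ f.ev r) (h2 : π ∣ f.dev r) : π ∣ f.disc := by
  have e : f.disc = f.ev r * (-4 * (f.a + 3 * r) ^ 3 - 27 * f.ev r + 18 * (f.a + 3 * r) * f.dev r) +
      f.dev r * ((f.a + 3 * r) ^ 2 * f.dev r - 4 * f.dev r ^ 2) := by
    simp only [Cub.disc, Cub.ev, Cub.dev]; ring
  rw [e]
  exact dvd_add (Dvd.dvd.mul_right h1 _) (Dvd.dvd.mul_right h2 _)

theorem T3_root (V : T3V O π) {f : Cub O} (hf : OneR π f) : ∃ α, f.ev α = 0 := by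
  obtain ⟨hd, ⟨r, hr⟩, -⟩ := hf
  have hu : IsUnit (f.dev r) := V.un _ fun h => hd (T3_disc_dvd hr h)
  obtain ⟨w, -, hw⟩ := V.hensel (f.ev r) (f.dev r) (3 * r + f.a) 1 hr hu
  refine ⟨r + w, ?_⟩
  simp only [Cub.ev, Cub.dev] at hw ⊢
  linear_combination hw

theorem T3_gu (V : T3V O π) {f : Cub O} (hf : OneR π f) {α : O} (hα : f.ev α = 0) (x : O) : IsUnit (T3g f α x) := by
  apply V.un
  intro h
  have h1 : π ∣ f.ev x := by rw [T3_fac hα]; exact Dvd.dvd.mul_left h _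
  have h2 : π ∣ f.ev α := by rw [hα]; exact dvd_zero _
  have h3 := hf.2.2 x α h1 h2
  apply hf.1
  apply T3_disc_dvd h2
  have e : f.dev α = T3g f α x - (x - α) * (x + α + (f.a + α)) := by
    simp only [Cub.dev, T3g]; ring
  rw [e]
  exact dvd_sub h (Dvd.dvd.mul_right h3 _)

/-- the discriminant of the quadratic factor -/
def T3d (f : Cub O) (α : O) : O := (f.a + α) ^ 2 - 4 * (α ^ 2 + f.a * α + f.b)

theorem T3_du (V : T3V O π) {f : Cub O} (hf : OneR π f) {α : O} (hα : f.ev α = 0) : IsUnit (T3d f α) := by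
  apply V.un
  intro h
  apply hf.1
  have hc : f.c = -(α ^ 3 + f.a * α ^ 2 + f.b * α) := by
    simp only [Cub.ev] at hα
    linear_combination hα
  have e : f.disc = T3d f α * T3g f α α ^ 2 := by
    simp only [Cub.disc, T3d, T3g, hc]; ring
  rw [e]
  exact Dvd.dvd.mul_right h _

theorem T3_dn (V : T3V O π) {f : Cub O} (hf : OneR π f) {α : O} (hα : f.ev α = 0) : ¬ ∃ s : O, s ^ 2 = T3d f α := by
  rintro ⟨m, hm⟩
  obtain ⟨t, ht⟩ := V.two.exists_right_inv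
  have h := T3_gu V hf hα (t * (m - (f.a + α)))
  have e : T3g f α (t * (m - (f.a + α))) = 0 := by
    simp only [T3d] at hm
    have h4 : (2 * t) ^ 2 = 1 := by rw [ht, one_pow]
    have e2 : 4 * T3g f α (t * (m - (f.a + α))) = 0 := by
      simp only [T3g]
      linear_combination (m - (f.a + α)) ^ 2 * h4 + 2 * (f.a + α) * (m - (f.a + α)) * ht + hm
    have h40 : (4 : O) ≠ 0 := by
      have : (4 : O) = 2 ^ 2 := by norm_num
      rw [this]; exact pow_ne_zero _ (V.un_ne V.two)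
    exact (mul_eq_zero.1 e2).resolve_left h40
  exact V.un_ne h e

theorem T3_key (V : T3V O π) {f : Cub O} (hf : OneR π f) {α : O} (hα : f.ev α = 0) (x e η : O)
    (he : e ^ 2 = x - α) (hη : η ^ 2 = T3g f α x) : ∃ h : O, (gp f x (e * η)).ev h 1 = 0 := by
  have h40 : (4 : O) ≠ 0 := by
    have : (4 : O) = 2 ^ 2 := by norm_num
    rw [this]; exact pow_ne_zero _ (V.un_ne V.two)
  have hp : (2 * x + f.a + α + 2 * η) * (2 * x + f.a + α - 2 * η) = T3d f α := by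
    simp only [T3g] at hη
    simp only [T3d]
    linear_combination -4 * hη
  have hu := T3_du V hf hα
  rw [← hp] at hu
  have u1 := isUnit_of_mul_isUnit_left hu
  have u2 := isUnit_of_mul_isUnit_right hu
  have fac : ∀ h : O, 4 * (gp f x (e * η)).ev h 1 = (2 * h ^ 2 - 4 * e * h + (-2 * x - 2 * f.a - 4 * α) - 4 * η) *
      (2 * h ^ 2 + 4 * e * h + (-2 * x - 2 * f.a - 4 * α) + 4 * η) := by
    intro h
    simp only [T3g] at hη
    simp only [Q4.ev, gp]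
    linear_combination (16 * h ^ 2) * he + 16 * hη
  by_cases h1 : ∃ s : O, s ^ 2 = 2 * x + f.a + α + 2 * η
  · obtain ⟨m, hm⟩ := h1
    refine ⟨e + m, (mul_eq_zero.1 ?_).resolve_left h40⟩
    rw [fac]
    have : 2 * (e + m) ^ 2 - 4 * e * (e + m) + (-2 * x - 2 * f.a - 4 * α) - 4 * η = 0 := by
      linear_combination 2 * hm - 2 * he
    rw [this, zero_mul]
  by_cases h2 : ∃ s : O, s ^ 2 = 2 * x + f.a + α - 2 * η
  · obtain ⟨m, hm⟩ := h2
    refine ⟨m - e, (mul_eq_zero.1 ?_).resolve_left h40⟩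
    rw [fac]
    have : 2 * (m - e) ^ 2 + 4 * e * (m - e) + (-2 * x - 2 * f.a - 4 * α) + 4 * η = 0 := by
      linear_combination 2 * hm - 2 * he
    rw [this, mul_zero]
  exfalso
  apply T3_dn V hf hα
  rw [← hp]
  exact V.nsq _ _ u1 u2 h1 h2

/-- valuations of the sides of `y² = f(x)` -/
theorem T3_even (V : T3V O π) {y w z : O} {k : ℕ} (hy : y ≠ 0) (hw : IsUnit w) (hz : IsUnit z)
    (h : y ^ 2 = w * π ^ k * z) : ∃ (j : ℕ) (b : O), k = 2 * j ∧ IsUnit b ∧ y = b * π ^ j ∧ b ^ 2 = w * z := by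
  obtain ⟨j, b, hb, rfl⟩ := V.pow y hy
  have h1 : b ^ 2 * π ^ (2 * j) = w * z * π ^ k := by
    linear_combination h + (b ^ 2) * (pow_mul' π 2 j)
  obtain ⟨e1, e2⟩ := V.uniq (hb.pow 2) (hw.mul hz) h1
  exact ⟨j, b, e1.symm, hb, rfl, e2⟩

theorem T3_s1 (V : T3V O π) {f : Cub O} (hf : OneR π f) {α : O} (hα : f.ev α = 0) (x y : O) (hy : y ≠ 0)
    (hxy : y ^ 2 = f.ev x) (hn : ∀ h : O, (gp f x y).ev h 1 ≠ 0) :
    ∃ (j : ℕ) (w b : O), IsUnit w ∧ (¬ ∃ s : O, s ^ 2 = w) ∧ IsUnit b ∧ x - α = w * π ^ (2 * j) ∧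
      b ^ 2 = w * T3g f α x := by
  rw [T3_fac hα] at hxy
  have h0 : x - α ≠ 0 := by
    intro h0
    rw [h0, zero_mul] at hxy
    exact hy (pow_eq_zero_iff (by norm_num) |>.1 hxy)
  obtain ⟨k, w, hw, e⟩ := V.pow _ h0
  rw [e] at hxy
  obtain ⟨j, b, rfl, hb, hyb, hb2⟩ := T3_even V hy hw (T3_gu V hf hα x) hxy
  refine ⟨j, w, b, hw, ?_, hb, e, hb2⟩
  rintro ⟨m, hm⟩
  have hmu : IsUnit m := by
    rw [← hm] at hw
    exact (isUnit_pow_iff (by norm_num)).1 hw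
  obtain ⟨m', hm'⟩ := hmu.exists_right_inv
  obtain ⟨h, hh⟩ := T3_key V hf hα x (m * π ^ j) (b * m') (by rw [e, mul_pow, hm, ← pow_mul']) (by
    have h1 : m ^ 2 * (b * m') ^ 2 = m ^ 2 * T3g f α x := by
      have e1 : (m * m') ^ 2 = 1 := by rw [hm', one_pow]
      rw [hm]
      linear_combination b ^ 2 * e1 + hb2 + (-(b * m') ^ 2) * hm
    exact mul_left_cancel₀ (pow_ne_zero 2 (V.un_ne hmu)) h1)
  apply hn h
  have e3 : y = m * π ^ j * (b * m') := by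
    rw [hyb]
    linear_combination (-(b * π ^ j)) * hm'
  rw [e3]
  exact hh

theorem T3_s2 (V : T3V O π) {f : Cub O} (hf : OneR π f) {α : O} (hα : f.ev α = 0) (x y d : O) (hd : IsUnit d)
    (hy : y ≠ 0) (hxy : y ^ 2 = (d * π) ^ 3 * f.ev x) :
    ∃ (j : ℕ) (w b : O), IsUnit w ∧ IsUnit b ∧ x - α = w * π ^ (2 * j + 1) ∧
      b ^ 2 = d ^ 3 * w * T3g f α x := by
  rw [T3_fac hα] at hxy
  have h0 : x - α ≠ 0 := by
    intro h0
    rw [h0, zero_mul, mul_zero] at hxy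
    exact hy (pow_eq_zero_iff (by norm_num) |>.1 hxy)
  obtain ⟨k, w, hw, e⟩ := V.pow _ h0
  rw [e] at hxy
  obtain ⟨j, b, hj, hb, hyb, hb2⟩ := T3_even (k := k + 3) V hy ((hd.pow 3).mul hw) (T3_gu V hf hα x) (by
    rw [hxy]; ring)
  obtain ⟨i, rfl⟩ : ∃ i, k = 2 * i + 1 := ⟨j - 2, by omega⟩
  exact ⟨i, w, b, hw, hb, e, hb2⟩

/-- comparison of the two points -/
theorem T3_s7 (V : T3V O π) {f : Cub O} (hf : OneR π f) {α : O} (hα : f.ev α = 0) (x₁ x₂ d : O) (hd : IsUnit d)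
    {j₁ : ℕ} {w₁ b₁ : O} (hw₁ : IsUnit w₁) (hn : ¬ ∃ s : O, s ^ 2 = w₁) (hb₁ : IsUnit b₁)
    (e₁ : x₁ - α = w₁ * π ^ (2 * j₁)) (g₁ : b₁ ^ 2 = w₁ * T3g f α x₁)
    {j₂ : ℕ} {w₂ b₂ : O} (hw₂ : IsUnit w₂) (hb₂ : IsUnit b₂) (e₂ : x₂ - α = w₂ * π ^ (2 * j₂ + 1))
    (g₂ : b₂ ^ 2 = d ^ 3 * w₂ * T3g f α x₂) :
    ∃ ν e : O, IsUnit ν ∧ (¬ ∃ s : O, s ^ 2 = ν) ∧ e ≠ 0 ∧ (x₁ - x₂ = ν * e ^ 2 ∨ d * π * (x₁ - x₂) = -(ν * e ^ 2)) := by
  rcases le_or_gt j₁ j₂ with h | h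
  · -- the first case
    obtain ⟨i, rfl⟩ := Nat.exists_eq_add_of_le h
    obtain ⟨v, hv⟩ := hw₁.exists_right_inv
    obtain ⟨m, hm⟩ := V.sqc (1 - v * w₂ * π ^ (2 * i + 1)) 1 (V.ucg isUnit_one (by
      refine ⟨-(v * w₂ * π ^ (2 * i)), by ring⟩)) ⟨-(v * w₂ * π ^ (2 * i)), by ring⟩
    refine ⟨w₁, m * π ^ j₁, hw₁, hn, ?_, Or.inl ?_⟩
    · apply mul_ne_zero _ (pow_ne_zero _ V.ne)
      rintro rfl
      have hm' : (1 : O) - v * w₂ * π ^ (2 * i + 1) = 0 := by rw [← hm]; ring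
      apply V.nonunit
      exact IsUnit.of_mul_eq_one (v * w₂ * π ^ (2 * i)) (by linear_combination -hm')
    · have e3 : x₁ - x₂ = w₁ * π ^ (2 * j₁) - w₂ * π ^ (2 * (j₁ + i) + 1) := by
        rw [← e₁, ← e₂]; ring
      rw [e3, mul_pow, hm]
      have e4 : (π ^ j₁) ^ 2 = π ^ (2 * j₁) := by ring
      have e5 : π ^ (2 * (j₁ + i) + 1) = π ^ (2 * j₁) * π ^ (2 * i + 1) := by ring
      rw [e4, e5]
      linear_combination (w₂ * π ^ (2 * i + 1) * π ^ (2 * j₁)) * hv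
  · -- the second case
    obtain ⟨i, rfl⟩ := Nat.exists_eq_add_of_lt h
    have hgu₁ := T3_gu V hf hα x₁
    have hgu₂ := T3_gu V hf hα x₂
    obtain ⟨v, hv⟩ := hw₂.exists_right_inv
    obtain ⟨m, hm⟩ := V.sqc (1 - v * w₁ * π ^ (2 * i + 1)) 1 (V.ucg isUnit_one (by
      refine ⟨-(v * w₁ * π ^ (2 * i)), by ring⟩)) ⟨-(v * w₁ * π ^ (2 * i)), by ring⟩
    obtain ⟨c, hc⟩ := (hd.mul hgu₂).exists_right_inv
    refine ⟨T3g f α x₂, b₂ * c * π ^ (j₂ + 1) * m, hgu₂, ?_, ?_, Or.inr ?_⟩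
    · rintro ⟨s, hs⟩
      obtain ⟨s', hs'⟩ := V.sqc (T3g f α x₁) s hgu₁ (by
        rw [hs]
        have e3 : T3g f α x₁ - T3g f α x₂ = (x₁ - x₂) * (x₁ + x₂ + (f.a + α)) := by
          simp only [T3g]; ring
        rw [e3]
        apply Dvd.dvd.mul_right
        have e4 : x₁ - x₂ = (x₁ - α) - (x₂ - α) := by ring
        rw [e4, e₁, e₂]
        exact ⟨w₁ * π ^ (2 * (j₂ + i) + 1) - w₂ * π ^ (2 * j₂), by ring⟩)
      have hsu : IsUnit s' := by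
        rw [← hs'] at hgu₁
        exact (isUnit_pow_iff (by norm_num)).1 hgu₁
      obtain ⟨s'', hs''⟩ := hsu.exists_right_inv
      apply hn
      refine ⟨b₁ * s'', ?_⟩
      have e5 : (s' * s'') ^ 2 = 1 := by rw [hs'', one_pow]
      rw [← hs'] at g₁
      linear_combination s'' ^ 2 * g₁ + w₁ * e5
    · have hcu : c ≠ 0 := by
        rintro rfl
        rw [mul_zero] at hc
        exact zero_ne_one hc
      refine mul_ne_zero (mul_ne_zero (mul_ne_zero (V.un_ne hb₂) hcu) (pow_ne_zero _ V.ne)) ?_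
      rintro rfl
      have hm' : (1 : O) - v * w₁ * π ^ (2 * i + 1) = 0 := by rw [← hm]; ring
      apply V.nonunit
      exact IsUnit.of_mul_eq_one (v * w₁ * π ^ (2 * i)) (by linear_combination -hm')
    · have e3 : x₁ - x₂ = w₁ * π ^ (2 * (j₂ + i + 1)) - w₂ * π ^ (2 * j₂ + 1) := by
        rw [← e₁, ← e₂]; ring
      have e6 : (b₂ * c * π ^ (j₂ + 1) * m) ^ 2 = b₂ ^ 2 * c ^ 2 * (π ^ (2 * j₂ + 1) * π) * m ^ 2 := by ring
      have e7 : π ^ (2 * (j₂ + i + 1)) = π ^ (2 * j₂ + 1) * π ^ (2 * i + 1) := by ring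
      rw [e3, e6, hm, g₂, e7]
      have e8 : (d * T3g f α x₂ * c) ^ 2 = 1 := by rw [hc, one_pow]
      linear_combination (w₂ * d * π * π ^ (2 * j₂ + 1) * (1 - v * w₁ * π ^ (2 * i + 1))) * e8 -
        (d * π * w₁ * π ^ (2 * j₂ + 1) * π ^ (2 * i + 1)) * hv

/-- the form over the ring -/
theorem T3_an (V : T3V O π) {ν d : O} (hν : IsUnit ν) (hn : ¬ ∃ s : O, s ^ 2 = ν) (hd : IsUnit d) {r s t : O}
    (h : r ^ 2 - ν * s ^ 2 + ν * (d * π) * t ^ 2 = 0) : r = 0 ∧ s = 0 ∧ t = 0 := by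
  have step : ∀ r s t : O, r ^ 2 - ν * s ^ 2 + ν * (d * π) * t ^ 2 = 0 → π ∣ r ∧ π ∣ s ∧ π ∣ t := by
    intro r s t h
    have hs : π ∣ s := by
      by_contra hs
      have hsu := V.un _ hs
      obtain ⟨s', hs'⟩ := hsu.exists_right_inv
      apply hn
      apply V.sqc ν (r * s') hν
      refine ⟨(ν * d * t ^ 2) * s' ^ 2, ?_⟩
      have e5 : (s * s') ^ 2 = 1 := by rw [hs', one_pow]
      linear_combination (-ν) * e5 - s' ^ 2 * h
    have hr : π ∣ r := by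
      by_contra hr
      have hru := V.un _ hr
      apply V.nd (hru.pow 2)
      obtain ⟨s', rfl⟩ := hs
      exact ⟨ν * π * s' ^ 2 - ν * d * t ^ 2, by linear_combination h⟩
    refine ⟨hr, hs, ?_⟩
    by_contra ht
    have htu := V.un _ ht
    apply V.nd ((hν.mul hd).mul (htu.pow 2))
    obtain ⟨s', rfl⟩ := hs
    obtain ⟨r', rfl⟩ := hr
    refine ⟨ν * s' ^ 2 - r' ^ 2, ?_⟩
    apply mul_left_cancel₀ V.ne
    linear_combination h
  have all : ∀ (k : ℕ) (r s t : O), r ^ 2 - ν * s ^ 2 + ν * (d * π) * t ^ 2 = 0 →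
      π ^ k ∣ r ∧ π ^ k ∣ s ∧ π ^ k ∣ t := by
    intro k
    induction k with
    | zero => intro r s t h; simp
    | succ k ih =>
      intro r s t h
      obtain ⟨⟨r', rfl⟩, ⟨s', rfl⟩, ⟨t', rfl⟩⟩ := step r s t h
      obtain ⟨a, b, c⟩ := ih r' s' t' (by
        apply mul_left_cancel₀ (pow_ne_zero 2 V.ne)
        linear_combination h)
      rw [pow_succ']
      exact ⟨mul_dvd_mul_left _ a, mul_dvd_mul_left _ b, mul_dvd_mul_left _ c⟩
  have z : ∀ x : O, (∀ k : ℕ, π ^ k ∣ x) → x = 0 := by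
    intro x hx
    by_contra h0
    obtain ⟨k, u, hu, rfl⟩ := V.pow x h0
    obtain ⟨y, hy⟩ := hx (k + 1)
    apply V.nd hu
    refine ⟨y, ?_⟩
    apply mul_right_cancel₀ (pow_ne_zero k V.ne)
    rw [hy, pow_succ]; ring
  exact ⟨z r fun k => (all k r s t h).1, z s fun k => (all k r s t h).2.1, z t fun k => (all k r s t h).2.2⟩

end loc

theorem T3_rt {K : Type} [Field K] {g g' : Q4 K} {M : M2 K} {c : K} (hM : M.det ≠ 0) (hc : c ≠ 0)
    (h : g.sub M = g'.smul c) (hg : HasRt g) : HasRt g' := by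
  obtain ⟨u, v, huv, h0⟩ := hg
  refine ⟨M.δ * u - M.β * v, -M.γ * u + M.α * v, ?_, ?_⟩
  · rintro ⟨a, b⟩
    apply huv
    have e1 : M.det * u = 0 := by simp only [M2.det]; linear_combination M.α * a + M.β * b
    have e2 : M.det * v = 0 := by simp only [M2.det]; linear_combination M.γ * a + M.δ * b
    exact ⟨(mul_eq_zero.1 e1).resolve_left hM, (mul_eq_zero.1 e2).resolve_left hM⟩
  · have h1 : (g.sub M).ev (M.δ * u - M.β * v) (-M.γ * u + M.α * v) = M.det ^ 4 * g.ev u v := by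
      rw [Q4.ev_sub]
      simp only [Q4.ev, M2.det]; ring
    rw [h, Q4.ev_smul, h0, mul_zero] at h1
    exact (mul_eq_zero.1 h1).resolve_left hc

theorem T3_rt' {K : Type} [Field K] {g g' : Q4 K} {M : M2 K} {c : K} (hM : M.det ≠ 0)
    (h : g.sub M = g'.smul c) (hg : HasRt g') : HasRt g := by
  obtain ⟨u, v, huv, h0⟩ := hg
  refine ⟨M.α * u + M.β * v, M.γ * u + M.δ * v, ?_, ?_⟩
  · rintro ⟨a, b⟩
    apply huv
    have e1 : M.det * u = 0 := by simp only [M2.det]; linear_combination M.δ * a - M.β * b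
    have e2 : M.det * v = 0 := by simp only [M2.det]; linear_combination M.α * b - M.γ * a
    exact ⟨(mul_eq_zero.1 e1).resolve_left hM, (mul_eq_zero.1 e2).resolve_left hM⟩
  · rw [← Q4.ev_sub, h, Q4.ev_smul, h0, mul_zero]

/-- the form in a diagonal basis -/
theorem T3_tz {K : Type} [Field K] (f : Cub K) (k x₁ x₂ r s t : K) :
    (Tz f (k * (x₁ * x₂)) (-(k * (x₁ + x₂))) k).ev
      (r + s * (x₁ ^ 2 + f.a * x₁ + f.b) + t * (x₂ ^ 2 + f.a * x₂ + f.b)) (s * (f.a + x₁) + t * (f.a + x₂)) (s + t) =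
      k * (r ^ 2 - (x₁ - x₂) * f.ev x₁ * s ^ 2 + (x₁ - x₂) * f.ev x₂ * t ^ 2) := by
  simp only [Tz, TF.ev, Cub.ev]
  ring

section fld

variable {O L : Type} [CommRing O] [IsDomain O] [Field L] [Algebra O L] [IsFractionRing O L] {π : O}

theorem T3_inj : Function.Injective (algebraMap O L) := IsFractionRing.injective O L

theorem T3_cases (V : T3V O π) (x : L) : (∃ r : O, algebraMap O L r = x) ∨
    ∃ (u : O) (n : ℕ), IsUnit u ∧ 1 ≤ n ∧ x * algebraMap O L π ^ n = algebraMap O L u := by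
  obtain ⟨p, i, hp⟩ := nz_frac (L := L) V.pow x
  have hπ : algebraMap O L π ≠ 0 := (map_ne_zero_iff _ T3_inj).2 V.ne
  by_cases h0 : p = 0
  · left
    refine ⟨0, ?_⟩
    rw [h0, map_zero] at hp
    rw [map_zero, (mul_eq_zero.1 hp).resolve_left (pow_ne_zero _ hπ)]
  obtain ⟨k, u, hu, rfl⟩ := V.pow p h0
  rw [map_mul, map_pow] at hp
  rcases le_or_gt i k with h | h
  · left
    obtain ⟨m, rfl⟩ := Nat.exists_eq_add_of_le h
    refine ⟨u * π ^ m, ?_⟩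
    apply mul_left_cancel₀ (pow_ne_zero i hπ)
    rw [hp, map_mul, map_pow, pow_add]; ring
  · right
    obtain ⟨m, rfl⟩ := Nat.exists_eq_add_of_lt h
    refine ⟨u, m + 1, hu, by omega, ?_⟩
    apply mul_left_cancel₀ (pow_ne_zero k hπ)
    rw [mul_comm _ (algebraMap O L u), ← hp]; ring

theorem T3_sqin (V : T3V O π) {y : L} {c : O} (h : y ^ 2 = algebraMap O L c) : ∃ b : O, algebraMap O L b = y := by
  rcases T3_cases V y with h1 | ⟨u, n, hu, hn, h1⟩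
  · exact h1
  exfalso
  have h2 : u ^ 2 = c * π ^ (2 * n) := by
    apply T3_inj (O := O) (L := L)
    rw [map_pow, ← h1, map_mul, ← h, map_pow]; ring
  apply V.nd (hu.pow 2)
  rw [h2]
  exact Dvd.dvd.mul_left (dvd_pow_self _ (by omega)) _

theorem T3_anL (V : T3V O π) {ν d : O} (hν : IsUnit ν) (hn : ¬ ∃ s : O, s ^ 2 = ν) (hd : IsUnit d) {r s t : L}
    (h : r ^ 2 - algebraMap O L ν * s ^ 2 + algebraMap O L ν * algebraMap O L (d * π) * t ^ 2 = 0) :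
    r = 0 ∧ s = 0 ∧ t = 0 := by
  have hπ : algebraMap O L π ≠ 0 := (map_ne_zero_iff _ T3_inj).2 V.ne
  obtain ⟨p₁, i₁, h₁⟩ := nz_frac (L := L) V.pow r
  obtain ⟨p₂, i₂, h₂⟩ := nz_frac (L := L) V.pow s
  obtain ⟨p₃, i₃, h₃⟩ := nz_frac (L := L) V.pow t
  have e₁ : algebraMap O L (p₁ * π ^ (i₂ + i₃)) = algebraMap O L π ^ (i₁ + i₂ + i₃) * r := by
    rw [map_mul, ← h₁, map_pow]; ring
  have e₂ : algebraMap O L (p₂ * π ^ (i₁ + i₃)) = algebraMap O L π ^ (i₁ + i₂ + i₃) * s := by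
    rw [map_mul, ← h₂, map_pow]; ring
  have e₃ : algebraMap O L (p₃ * π ^ (i₁ + i₂)) = algebraMap O L π ^ (i₁ + i₂ + i₃) * t := by
    rw [map_mul, ← h₃, map_pow]; ring
  obtain ⟨z₁, z₂, z₃⟩ := T3_an V hν hn hd (r := p₁ * π ^ (i₂ + i₃)) (s := p₂ * π ^ (i₁ + i₃))
    (t := p₃ * π ^ (i₁ + i₂)) (by
      apply T3_inj (O := O) (L := L)
      rw [map_add, map_sub, map_mul, map_mul, map_mul, map_pow, map_pow, map_pow, e₁, e₂, e₃, map_zero]
      linear_combination (algebraMap O L π ^ (i₁ + i₂ + i₃)) ^ 2 * h)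
  rw [z₁, map_zero] at e₁
  rw [z₂, map_zero] at e₂
  rw [z₃, map_zero] at e₃
  exact ⟨(mul_eq_zero.1 e₁.symm).resolve_left (pow_ne_zero _ hπ),
    (mul_eq_zero.1 e₂.symm).resolve_left (pow_ne_zero _ hπ), (mul_eq_zero.1 e₃.symm).resolve_left (pow_ne_zero _ hπ)⟩

theorem T3_gpmap (f : Cub O) (x y h : O) : (gp (f.map (algebraMap O L)) (algebraMap O L x) (algebraMap O L y)).ev
    (algebraMap O L h) 1 = algebraMap O L ((gp f x y).ev h 1) := by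
  simp only [gp, Q4.ev, Cub.map, map_add, map_sub, map_mul, map_pow, map_neg, map_one, map_zero, map_ofNat]

theorem T3_gpsc {K : Type} [Field K] (f : Cub K) (x y h κ : K) :
    (gp (f.sc (κ ^ 2)) (κ ^ 2 * x) (κ ^ 3 * y)).ev (κ * h) 1 = κ ^ 4 * (gp f x y).ev h 1 := by
  simp only [gp, Q4.ev, Cub.sc]
  ring

theorem T3_cu {F : Type} [Field F] (h2 : (2 : F) ≠ 0) {P : F[X]} {ι : F[X] →+* O} (hL : Lc4 P π ι) (V : T3V O π)
    (hcusp : S_cusp) (f : Cub O) (x y : L) (u : O) (n : ℕ) (hu : IsUnit u)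
    (hx : x * algebraMap O L π ^ n = algebraMap O L u)
    (hn : 1 ≤ n ∨ (π ∣ f.a ∧ π ∣ f.b ∧ π ∣ f.c)) (hxy : y ^ 2 = (f.map (algebraMap O L)).ev x) :
    ∃ h : L, (gp (f.map (algebraMap O L)) x y).ev h 1 = 0 := by
  have hπ : algebraMap O L π ≠ 0 := (map_ne_zero_iff _ T3_inj).2 V.ne
  obtain ⟨U, hU⟩ : ∃ U : O, U = u ^ 3 + f.a * π ^ n * u ^ 2 + f.b * π ^ (2 * n) * u + f.c * π ^ (3 * n) := ⟨_, rfl⟩
  have hUu : IsUnit U := by
    apply V.ucg (hu.pow 3)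
    have e : U - u ^ 3 = f.a * π ^ n * u ^ 2 + f.b * π ^ (2 * n) * u + f.c * π ^ (3 * n) := by rw [hU]; ring
    rw [e]
    rcases hn with hn | ⟨h1, h3, h4⟩
    · refine dvd_add (dvd_add (Dvd.dvd.mul_right (Dvd.dvd.mul_left (dvd_pow_self _ (by omega)) _) _)
        (Dvd.dvd.mul_right (Dvd.dvd.mul_left (dvd_pow_self _ (by omega)) _) _))
        (Dvd.dvd.mul_left (dvd_pow_self _ (by omega)) _)
    · exact dvd_add (dvd_add (Dvd.dvd.mul_right (Dvd.dvd.mul_right h1 _) _)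
        (Dvd.dvd.mul_right (Dvd.dvd.mul_right h3 _) _)) (Dvd.dvd.mul_right h4 _)
  have hy : y ^ 2 * algebraMap O L π ^ (3 * n) = algebraMap O L U := by
    rw [hxy, hU]
    simp only [Cub.ev, Cub.map, map_add, map_mul, map_pow]
    rw [← hx]; ring
  obtain ⟨k, u', hk, hu', hyk⟩ : ∃ (k : ℕ) (u' : O), n = 2 * k ∧ IsUnit u' ∧
      y * algebraMap O L π ^ (3 * k) = algebraMap O L u' := by
    rcases T3_cases V y with ⟨b, hb⟩ | ⟨u', m, hu', hm, hb⟩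
    · have h1 : b ^ 2 * π ^ (3 * n) = U := by
        apply T3_inj (O := O) (L := L)
        rw [map_mul, map_pow, map_pow, hb, hy]
      have h3 := V.pu (h1 ▸ hUu)
      have h4 : n = 0 := by omega
      subst h4
      refine ⟨0, b, by norm_num, ?_, by rw [hb]; ring⟩
      rw [← h1, mul_zero, pow_zero, mul_one] at hUu
      exact (isUnit_pow_iff (by norm_num)).1 hUu
    · have h1 : u' ^ 2 * π ^ (3 * n) = U * π ^ (2 * m) := by
        apply T3_inj (O := O) (L := L)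
        rw [map_mul, map_mul, ← hy, map_pow, map_pow, map_pow, ← hb]; ring
      obtain ⟨h3, -⟩ := V.uniq (hu'.pow 2) hUu h1
      refine ⟨m / 3, u', by omega, hu', ?_⟩
      have h4 : 3 * (m / 3) = m := by omega
      rw [h4]
      exact hb
  obtain ⟨h, hh⟩ := hcusp F h2 P O π ι hL (f.sc (π ^ (2 * k))) u u' (by
      simp only [Cub.sc]
      rcases hn with hn | ⟨h1, -, -⟩
      · exact Dvd.dvd.mul_right (dvd_pow_self _ (by omega)) _
      · exact Dvd.dvd.mul_left h1 _) (by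
      simp only [Cub.sc]
      rcases hn with hn | ⟨-, h1, -⟩
      · exact Dvd.dvd.mul_right (dvd_pow (dvd_pow_self _ (by omega)) (by norm_num)) _
      · exact Dvd.dvd.mul_left h1 _) (by
      simp only [Cub.sc]
      rcases hn with hn | ⟨-, -, h1⟩
      · exact Dvd.dvd.mul_right (dvd_pow (dvd_pow_self _ (by omega)) (by norm_num)) _
      · exact Dvd.dvd.mul_left h1 _) (by
      apply T3_inj (O := O) (L := L)
      have e1 : (f.sc (π ^ (2 * k))).ev u = U := by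
        rw [hU, hk]
        simp only [Cub.sc, Cub.ev]; ring
      rw [e1, ← hy, map_pow, ← hyk, hk]; ring) hu
  refine ⟨algebraMap O L h / algebraMap O L π ^ k, ?_⟩
  have hκ : algebraMap O L π ^ k ≠ 0 := pow_ne_zero _ hπ
  have h1 := T3_gpsc (f.map (algebraMap O L)) x y (algebraMap O L h / algebraMap O L π ^ k) (algebraMap O L π ^ k)
  have e1 : (f.map (algebraMap O L)).sc ((algebraMap O L π ^ k) ^ 2) = (f.sc (π ^ (2 * k))).map (algebraMap O L) := by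
    ext <;> simp only [Cub.sc, Cub.map, map_mul, map_pow] <;> ring
  have e2 : (algebraMap O L π ^ k) ^ 2 * x = algebraMap O L u := by rw [← hx, hk]; ring
  have e3 : (algebraMap O L π ^ k) ^ 3 * y = algebraMap O L u' := by rw [← hyk]; ring
  have e4 : algebraMap O L π ^ k * (algebraMap O L h / algebraMap O L π ^ k) = algebraMap O L h := by
    field_simp
  rw [e1, e2, e3, e4, T3_gpmap, hh, map_zero] at h1
  exact (mul_eq_zero.1 h1.symm).resolve_left (pow_ne_zero _ hκ)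

theorem T3_hh {K : Type} [Field K] (s : Q4 K × K) (k : K) : hh (s.1.smul k, k * s.2) = k ^ 2 * hh s := by
  simp only [hh, Q4.smul]; ring

theorem T3_sx {K : Type} [Field K] (g : Q4 K) (k : K) : sx (g.smul k) = k ^ 3 * sx g := by
  simp only [sx, Q4.smul]; ring

theorem T3_fin {K : Type} [Field K] (f : Cub K) (k x₁ x₂ : K) (hk : k ≠ 0) (hx : x₁ - x₂ ≠ 0)
    (h : ∀ r s t : K, r ^ 2 - (x₁ - x₂) * f.ev x₁ * s ^ 2 + (x₁ - x₂) * f.ev x₂ * t ^ 2 = 0 → r = 0 ∧ s = 0 ∧ t = 0) :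
    ¬ Iso3 (Tz f (k * (x₁ * x₂)) (-(k * (x₁ + x₂))) k) := by
  rintro ⟨x, y, z, hne, h0⟩
  obtain ⟨s, hs⟩ : ∃ s : K, s = (y - (f.a + x₂) * z) / (x₁ - x₂) := ⟨_, rfl⟩
  have hs' : s * (x₁ - x₂) = y - (f.a + x₂) * z := by rw [hs]; field_simp
  obtain ⟨t, ht⟩ : ∃ t : K, t = z - s := ⟨_, rfl⟩
  obtain ⟨r, hr⟩ : ∃ r : K, r = x - s * (x₁ ^ 2 + f.a * x₁ + f.b) - t * (x₂ ^ 2 + f.a * x₂ + f.b) := ⟨_, rfl⟩
  have e1 : x = r + s * (x₁ ^ 2 + f.a * x₁ + f.b) + t * (x₂ ^ 2 + f.a * x₂ + f.b) := by rw [hr]; ring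
  have e2 : y = s * (f.a + x₁) + t * (f.a + x₂) := by rw [ht]; linear_combination -hs'
  have e3 : z = s + t := by rw [ht]; ring
  rw [e1, e2, e3, T3_tz] at h0
  obtain ⟨z₁, z₂, z₃⟩ := h r s t ((mul_eq_zero.1 h0).resolve_left hk)
  apply hne
  rw [e1, e2, e3, z₁, z₂, z₃]
  refine ⟨by ring, by ring, by ring⟩

theorem T3_main {F : Type} [Field F] (h2 : (2 : F) ≠ 0) {P : F[X]} {ι : F[X] →+* O} (hL : Lc4 P π ι) (V : T3V O π)
    (hgpr : S_gpr) (hcusp : S_cusp) (f : Cub O) (hf : OneR π f) (s₁ s₂ : Q4 L × L)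
    (r₁ : s₁.1.res = ((f.map (algebraMap O L)).sc 4).tr s₁.2) (r₂ : s₂.1.res = ((f.map (algebraMap O L)).sc 4).tr s₂.2)
    (q₁ : sx s₁.1 ≠ 0) (q₂ : sx s₂.1 ≠ 0) (n₁ : ¬ HasRt s₁.1) (n₂ : ¬ HasRt s₂.1) (d : O) (hd : IsUnit d)
    (z₁ z₂ : L) (hz₁ : z₁ ≠ 0) (hz₂ : z₂ ≠ 0) (a₁ : s₁.1.A = z₁ ^ 2) (a₂ : algebraMap O L (d * π) * s₂.1.A = z₂ ^ 2) :
    ¬ Iso3 (Tq (f.map (algebraMap O L)) s₁ s₂) := by
  have h2L : (2 : L) ≠ 0 := by
    have h := (map_ne_zero_iff _ (T3_inj (O := O) (L := L))).2 (V.un_ne V.two)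
    rwa [map_ofNat] at h
  have h16 : (16 : L) ≠ 0 := by
    have : (16 : L) = 2 ^ 4 := by norm_num
    rw [this]; exact pow_ne_zero _ h2L
  have h64 : (64 : L) ≠ 0 := by
    have : (64 : L) = 2 ^ 6 := by norm_num
    rw [this]; exact pow_ne_zero _ h2L
  have hπ : algebraMap O L π ≠ 0 := (map_ne_zero_iff _ T3_inj).2 V.ne
  have hdL : algebraMap O L d ≠ 0 := (map_ne_zero_iff _ T3_inj).2 (V.un_ne hd)
  obtain ⟨E, hE⟩ : ∃ E : L, E = algebraMap O L (d * π) := ⟨_, rfl⟩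
  have hE' : E = algebraMap O L d * algebraMap O L π := by rw [hE, map_mul]
  have hE0 : E ≠ 0 := by rw [hE']; exact mul_ne_zero hdL hπ
  rw [← hE] at a₂
  have hA₁ : s₁.1.A ≠ 0 := by rw [a₁]; exact pow_ne_zero _ hz₁
  have hA₂ : s₂.1.A ≠ 0 := by
    intro h
    rw [h, mul_zero] at a₂
    exact pow_ne_zero 2 hz₂ a₂.symm
  -- the first point
  obtain ⟨c₁, rep₁⟩ := hgpr L h2L (f.map (algebraMap O L)) s₁ r₁ z₁ hz₁ a₁
  obtain ⟨x₁, hx₁⟩ : ∃ x : L, x = hh s₁ / (16 * z₁ ^ 2) := ⟨_, rfl⟩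
  obtain ⟨y₁, hy₁⟩ : ∃ y : L, y = -(sx s₁.1 / (64 * z₁ ^ 3)) := ⟨_, rfl⟩
  rw [← hx₁, ← hy₁] at c₁ rep₁
  have hy₁0 : y₁ ≠ 0 := by
    rw [hy₁]
    exact neg_ne_zero.2 (div_ne_zero q₁ (mul_ne_zero h64 (pow_ne_zero _ hz₁)))
  have hr₁ : ∀ h : L, (gp (f.map (algebraMap O L)) x₁ y₁).ev h 1 ≠ 0 := by
    intro h h0
    exact n₁ (T3_rt rep₁.det (pow_ne_zero 2 rep₁.det) rep₁.sub ⟨h, 1, fun h => one_ne_zero h.2, h0⟩)
  have hh₁ : hh s₁ = 16 * s₁.1.A * x₁ := by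
    rw [hx₁, a₁]
    have := pow_ne_zero 2 hz₁
    field_simp
  -- the second point
  have r₂' : (s₂.1.smul E, E * s₂.2).1.res =
      (((f.map (algebraMap O L)).sc E).sc 4).tr (s₂.1.smul E, E * s₂.2).2 := by
    simp only
    rw [Q4.res_smul, r₂, Cub.sc_tr, Cub.sc_sc, Cub.sc_sc, mul_comm (4 : L) E]
  obtain ⟨c₂, rep₂⟩ := hgpr L h2L ((f.map (algebraMap O L)).sc E) (s₂.1.smul E, E * s₂.2) r₂' z₂ hz₂ a₂
  rw [T3_hh, T3_sx] at c₂ rep₂
  obtain ⟨X₂, hX₂⟩ : ∃ x : L, x = E ^ 2 * hh s₂ / (16 * z₂ ^ 2) := ⟨_, rfl⟩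
  obtain ⟨Y₂, hY₂⟩ : ∃ y : L, y = -(E ^ 3 * sx s₂.1 / (64 * z₂ ^ 3)) := ⟨_, rfl⟩
  rw [← hX₂, ← hY₂] at c₂ rep₂
  obtain ⟨x₂, hx₂⟩ : ∃ x : L, x = X₂ / E := ⟨_, rfl⟩
  have hXx : X₂ = E * x₂ := by rw [hx₂]; field_simp
  have hY₂0 : Y₂ ≠ 0 := by
    rw [hY₂]
    exact neg_ne_zero.2 (div_ne_zero (mul_ne_zero (pow_ne_zero _ hE0) q₂) (mul_ne_zero h64 (pow_ne_zero _ hz₂)))
  have hmap : (f.map (algebraMap O L)).sc E = (f.sc (d * π)).map (algebraMap O L) := by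
    rw [hE]
    ext <;> simp only [Cub.sc, Cub.map, map_mul, map_pow]
  have hr₂ : ∀ h : L, (gp ((f.sc (d * π)).map (algebraMap O L)) X₂ Y₂).ev h 1 ≠ 0 := by
    intro h h0
    rw [← hmap] at h0
    obtain ⟨u, v, huv, h3⟩ := T3_rt rep₂.det (pow_ne_zero 2 rep₂.det) rep₂.sub ⟨h, 1, fun h => one_ne_zero h.2, h0⟩
    apply n₂
    refine ⟨u, v, huv, ?_⟩
    rw [Q4.ev_smul] at h3
    exact (mul_eq_zero.1 h3).resolve_left hE0
  have hh₂ : hh s₂ = 16 * s₂.1.A * x₂ := by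
    have e1 : x₂ = hh s₂ / (16 * s₂.1.A) := by
      rw [hx₂, hX₂, ← a₂]
      field_simp
    rw [e1]; field_simp
  -- integrality
  obtain ⟨α, hα⟩ := T3_root V hf
  obtain ⟨α₁, hα₁⟩ : ∃ r : O, algebraMap O L r = x₁ := by
    rcases T3_cases V x₁ with h | ⟨u, n, hu, hn, hx⟩
    · exact h
    exfalso
    obtain ⟨h, h0⟩ := T3_cu h2 hL V hcusp f x₁ y₁ u n hu hx (Or.inl hn) c₁
    exact hr₁ h h0
  obtain ⟨α₂, hα₂⟩ : ∃ r : O, algebraMap O L r = x₂ := by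
    rcases T3_cases V x₂ with h | ⟨u, n, hu, hn, hx⟩
    · exact h
    exfalso
    obtain ⟨m, rfl⟩ : ∃ m, n = m + 1 := ⟨n - 1, by omega⟩
    obtain ⟨h, h0⟩ := T3_cu h2 hL V hcusp (f.sc (d * π)) X₂ Y₂ (d * u) m (hd.mul hu) (by
        rw [hXx, hE', map_mul, ← hx]; ring) (Or.inr ⟨by
        simp only [Cub.sc]; exact ⟨d * f.a, by ring⟩, by
        simp only [Cub.sc]; exact ⟨d ^ 2 * π * f.b, by ring⟩, by
        simp only [Cub.sc]; exact ⟨d ^ 3 * π ^ 2 * f.c, by ring⟩⟩) (by rw [c₂, hmap])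
    exact hr₂ h h0
  have c₁' : y₁ ^ 2 = algebraMap O L (f.ev α₁) := by
    rw [c₁, ← hα₁, Cub.map_ev]
  have hfx₂ : Y₂ ^ 2 = E ^ 3 * (f.map (algebraMap O L)).ev x₂ := by
    rw [c₂, hXx]
    simp only [Cub.ev, Cub.sc]; ring
  have c₂' : Y₂ ^ 2 = algebraMap O L ((d * π) ^ 3 * f.ev α₂) := by
    rw [hfx₂, ← hα₂, Cub.map_ev, map_mul, map_pow, ← hE]
  obtain ⟨β₁, hβ₁⟩ := T3_sqin V c₁'
  obtain ⟨β₂, hβ₂⟩ := T3_sqin V c₂'
  obtain ⟨j₁, w₁, b₁, hw₁, hn₁, hb₁, e₁, g₁⟩ := T3_s1 V hf hα α₁ β₁ (by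
      rintro rfl
      rw [map_zero] at hβ₁
      exact hy₁0 hβ₁.symm) (by
      apply T3_inj (O := O) (L := L)
      rw [map_pow, hβ₁, c₁']) (by
      intro h h0
      apply hr₁ (algebraMap O L h)
      rw [← hα₁, ← hβ₁, T3_gpmap, h0, map_zero])
  obtain ⟨j₂, w₂, b₂, hw₂, hb₂, e₂, g₂⟩ := T3_s2 V hf hα α₂ β₂ d hd (by
      rintro rfl
      rw [map_zero] at hβ₂
      exact hY₂0 hβ₂.symm) (by
      apply T3_inj (O := O) (L := L)
      rw [map_pow, hβ₂, c₂'])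
  obtain ⟨ν, e, hν, hνn, he, hcase⟩ := T3_s7 V hf hα α₁ α₂ d hd hw₁ hn₁ hb₁ e₁ g₁ hw₂ hb₂ e₂ g₂
  have heL : algebraMap O L e ≠ 0 := (map_ne_zero_iff _ T3_inj).2 he
  have hνL : algebraMap O L ν ≠ 0 := (map_ne_zero_iff _ T3_inj).2 (V.un_ne hν)
  -- the form
  have hTq : Tq (f.map (algebraMap O L)) s₁ s₂ = Tz (f.map (algebraMap O L))
      ((256 * s₁.1.A * s₂.1.A) * (x₁ * x₂)) (-((256 * s₁.1.A * s₂.1.A) * (x₁ + x₂))) (256 * s₁.1.A * s₂.1.A) := by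
    rw [Tq, hh₁, hh₂]
    congr 1 <;> ring
  rw [hTq]
  have h256 : (256 : L) ≠ 0 := by
    have : (256 : L) = 2 ^ 8 := by norm_num
    rw [this]; exact pow_ne_zero _ h2L
  have fx₂ : (f.map (algebraMap O L)).ev x₂ = Y₂ ^ 2 / E ^ 3 := by
    rw [hfx₂]; field_simp
  rcases hcase with hc | hc
  · have hδ : x₁ - x₂ = algebraMap O L ν * algebraMap O L e ^ 2 := by
      rw [← hα₁, ← hα₂, ← map_sub, hc, map_mul, map_pow]
    apply T3_fin _ _ _ _ (mul_ne_zero (mul_ne_zero h256 hA₁) hA₂)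
    · rw [hδ]; exact mul_ne_zero hνL (pow_ne_zero _ heL)
    intro r s t h0
    obtain ⟨w1, w2, w3⟩ := T3_anL (L := L) V hν hνn hd (r := r) (s := algebraMap O L e * y₁ * s)
      (t := algebraMap O L e * Y₂ * t / E ^ 2) (by
        rw [← hE]
        rw [← c₁, fx₂, hδ] at h0
        rw [← h0]
        field_simp)
    refine ⟨w1, (mul_eq_zero.1 w2).resolve_left (mul_ne_zero heL hy₁0), ?_⟩
    rw [div_eq_zero_iff] at w3
    exact (mul_eq_zero.1 (w3.resolve_right (pow_ne_zero _ hE0))).resolve_left (mul_ne_zero heL hY₂0)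
  · have hδ : x₁ - x₂ = -(algebraMap O L ν * algebraMap O L e ^ 2) / E := by
      rw [eq_div_iff hE0, ← hα₁, ← hα₂, hE, ← map_sub, ← map_mul, mul_comm (α₁ - α₂), hc, map_neg, map_mul, map_pow]
    apply T3_fin _ _ _ _ (mul_ne_zero (mul_ne_zero h256 hA₁) hA₂)
    · rw [hδ]; exact div_ne_zero (neg_ne_zero.2 (mul_ne_zero hνL (pow_ne_zero _ heL))) hE0
    intro r s t h0
    obtain ⟨w1, w2, w3⟩ := T3_anL (L := L) V hν hνn hd (r := r) (s := algebraMap O L e * Y₂ * t / E ^ 2)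
      (t := algebraMap O L e * y₁ * s / E) (by
        rw [← hE]
        rw [← c₁, fx₂, hδ] at h0
        rw [← h0]
        field_simp
        ring)
    rw [div_eq_zero_iff] at w2 w3
    refine ⟨w1, ?_, ?_⟩
    · exact (mul_eq_zero.1 (w3.resolve_right hE0)).resolve_left (mul_ne_zero heL hy₁0)
    · exact (mul_eq_zero.1 (w2.resolve_right (pow_ne_zero _ hE0))).resolve_left (mul_ne_zero heL hY₂0)

end fld

theorem t_T3 : S_pt → S_inv → S_gpr → S_cusp → S_T3 := by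
  intro hpt hinv hgpr hcusp F _ _ h2 P O L _ _ _ _ _ π ι hL f hf s₁ s₂ r₁ r₂ q₁ q₂ sol₁ n₁ D hD hD2 sol₂ n₂ hiso
  have V := T3_V h2 P hL.toLc
  have h2L : (2 : L) ≠ 0 := by
    have h := (map_ne_zero_iff _ (T3_inj (O := O) (L := L))).2 (V.un_ne V.two)
    rwa [map_ofNat] at h
  obtain ⟨d, rfl⟩ := hD
  have hd : IsUnit d := by
    apply V.un
    rintro ⟨c, rfl⟩
    exact hD2 ⟨c, by ring⟩
  have hdisc : (f.map (algebraMap O L)).disc ≠ 0 := by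
    have e : (f.map (algebraMap O L)).disc = algebraMap O L f.disc := by
      simp only [Cub.disc, Cub.map, map_add, map_sub, map_mul, map_pow, map_ofNat]
    rw [e]
    apply (map_ne_zero_iff _ T3_inj).2
    intro h
    apply hf.1
    rw [h]
    exact dvd_zero _
  have hE0 : algebraMap O L (π * d) ≠ 0 := (map_ne_zero_iff _ T3_inj).2 (mul_ne_zero V.ne (V.un_ne hd))
  obtain ⟨M₁, s₁', z₁, p₁, hz₁, a₁, q₁'⟩ := hpt F h2 P.1 O L π ι hL (f.map (algebraMap O L)) hdisc s₁ r₁ q₁ 1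
    one_ne_zero (by rw [Q4.smul_one]; exact sol₁)
  obtain ⟨M₂, s₂', z₂, p₂, hz₂, a₂, q₂'⟩ := hpt F h2 P.1 O L π ι hL (f.map (algebraMap O L)) hdisc s₂ r₂ q₂
    (algebraMap O L (π * d)) hE0 sol₂
  have hiso' := hinv L h2L (f.map (algebraMap O L)) hdisc s₁ s₂ s₁' s₂' r₁ r₂ M₁ M₂ p₁ p₂ q₁ q₂ q₁' q₂' hiso
  rw [one_mul] at a₁
  rw [mul_comm π d] at a₂
  exact T3_main h2 hL V hgpr hcusp f hf s₁' s₂' (p₁.res r₁) (p₂.res r₂) q₁' q₂'
    (fun h => n₁ (T3_rt' p₁.det p₁.sub h)) (fun h => n₂ (T3_rt' p₂.det p₂.sub h)) d hd z₁ z₂ hz₁ hz₂ a₁ a₂ hiso'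

end Pool.Agent.H456.PP
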