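import Pool.Agent.H456.PP.Stm
import Pool.Agent.H456.BQ.T_avc
import Pool.Agent.H456.BQ.T_phi
import Pool.Agent.H456.BQ.T_star

/-!
(avr2) `S_avr2`. See T_avc.lean / Asm1.lean. The factor `R2` is a function of the components at the two special
places; the local averages at these places are computed by `S_rho`.
-/

set_option autoImplicit false
set_option linter.all false

open Polynomial Finset Filter
open Pool.Agent.H456.EC (toK toK_inj sig toK_eq reflect_toK cls)
open Pool.Agent.H456.RN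
open Pool.Agent.H456.BQ
open Pool.Agent.H456.Coh (TF)

namespace Pool.Agent.H456.PP

section avr2

variable {F : Type} [Field F] [Fintype F]

open Classical in
/-- the local factor -/
noncomputable def avr2_rho (P : Pl F) {M : ℕ} (hM : 1 ≤ M) (g : Q4 (Rq (P.1 ^ M))) : ℝ :=
  if P = PlX F ∨ P = PlO F then (nr (g.map (redP P.1 hM)) : ℝ) / 2 else 1

open Classical in
/-- the value of the local factor -/
noncomputable def avr2_fac (P : Pl F) : ℝ := if P = PlX F ∨ P = PlO F then 1 / 2 else 1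

theorem avr2_ne : PlX F ≠ PlO F := by
  intro h
  have h1 : (X : F[X]) = X - C 1 := congrArg Subtype.val h
  have h2 := congrArg (fun p => p.coeff 0) h1
  simp at h2

open Classical in
theorem avr2_prod (S : Finset (Pl F)) (hX : PlX F ∈ S) (hO : PlO F ∈ S) (a : Pl F → ℝ) :
    ∏ P : S, (if P.1 = PlX F ∨ P.1 = PlO F then a P.1 else 1) = a (PlX F) * a (PlO F) := by
  have h1 : ∏ P : S, (if P.1 = PlX F ∨ P.1 = PlO F then a P.1 else 1) =
      ∏ P ∈ S, (if P = PlX F ∨ P = PlO F then a P else 1) :=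
    prod_coe_sort S (fun P => if P = PlX F ∨ P = PlO F then a P else 1)
  have h2 : ∀ P ∈ S, (if P = PlX F ∨ P = PlO F then a P else 1) =
      (if P = PlX F then a P else 1) * (if P = PlO F then a P else 1) := by
    intro P _
    by_cases hx : P = PlX F
    · have ho : P ≠ PlO F := fun h => avr2_ne (hx.symm.trans h)
      rw [if_pos (Or.inl hx), if_pos hx, if_neg ho, mul_one]
    · by_cases ho : P = PlO F
      · rw [if_pos (Or.inr ho), if_neg hx, if_pos ho, one_mul]
      · rw [if_neg (fun h => h.elim hx ho), if_neg hx, if_neg ho, one_mul]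
  rw [h1, prod_congr rfl h2, prod_mul_distrib, prod_ite_eq_of_mem' S (PlX F) a hX,
    prod_ite_eq_of_mem' S (PlO F) a hO]

theorem avr2_R2 (S : Finset (Pl F)) (hX : PlX F ∈ S) (hO : PlO F ∈ S) {M : ℕ} (hM : 1 ≤ M) (n e : ℕ)
    (G : Q4 F[X]) : ∏ P : S, avr2_rho P.1 hM ((redV S M n e G).at P) = R2 G := by
  classical
  have h := avr2_prod S hX hO (fun P => (nrP P G : ℝ) / 2)
  unfold R2
  rw [← h]
  apply prod_congr rfl
  intro P _
  unfold avr2_rho
  rw [redV_at, map_redP]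
  rfl

theorem avr2_unit (h2 : (2 : F) ≠ 0) (P : Pl F) (M : ℕ) {c : Cub F[X] → Prop}
    (hd : ∀ f, c f → ¬ P.1 ∣ f.disc) (f : Cub (Rq (P.1 ^ M))) (hf : ¬ IsUnit f.disc) : WPc P M c f = 0 := by
  unfold WPc
  have h0 : Tht P.1 M c (f.sc (Ideal.Quotient.mk _ (C (4 : F)⁻¹))) = 0 := by
    unfold Tht
    rw [if_neg]
    rintro ⟨f', he, hc⟩
    apply hf
    have hco : IsCoprime f'.disc (P.1 ^ M) := by
      have := (P.2.2.coprime_iff_not_dvd).2 (hd f' hc)
      exact (this.symm).pow_right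
    obtain ⟨a, b, hab⟩ := hco
    have hu : IsUnit (Ideal.Quotient.mk (Ideal.span {P.1 ^ M}) f'.disc : Rq (P.1 ^ M)) := by
      refine isUnit_iff_exists_inv'.2 ⟨Ideal.Quotient.mk (Ideal.span {P.1 ^ M}) a, ?_⟩
      rw [← map_mul, ← map_one (Ideal.Quotient.mk (Ideal.span {P.1 ^ M})), mk_eq]
      exact ⟨-b, by linear_combination hab⟩
    rw [← Cub.map_disc, he, Cub.disc_sc] at hu
    exact isUnit_of_mul_isUnit_right hu
  rw [h0, zero_mul]

theorem avr2_tr (P : Pl F) {m : ℕ} (M : ℕ) {c : Cub F[X] → Prop} (hc : Cnd P.1 m c)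
    (f : Cub (Rq (P.1 ^ M))) (r : Rq (P.1 ^ M)) : WPc P M c (f.tr r) = WPc P M c f := by
  unfold WPc WP
  rw [Cub.sc_tr, Tht_tr hc, chi_tr, nA_tr]

open Classical in
theorem avr2_loc (hr : S_rho) (h2 : (2 : F) ≠ 0) (P : Pl F) {m M : ℕ} (hM : 1 ≤ M) {c : Cub F[X] → Prop}
    (hc : Cnd P.1 m c) (hd : P = PlX F ∨ P = PlO F → ∀ f, c f → ¬ P.1 ∣ f.disc) :
    ∑ g, phP P hM (WPc P M c) g * avr2_rho P hM g = avr2_fac P * ∑ g, phP P hM (WPc P M c) g := by
  unfold avr2_fac avr2_rho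
  by_cases h : P = PlX F ∨ P = PlO F
  · have h1 := hr F h2 P M hM (WPc P M c) (avr2_tr P M hc) (avr2_unit h2 P M (hd h))
    rw [if_pos h]
    have h3 : ∀ g : Q4 (Rq (P.1 ^ M)), phP P hM (WPc P M c) g *
        (if P = PlX F ∨ P = PlO F then (nr (g.map (redP P.1 hM)) : ℝ) / 2 else 1) =
        (1 / 2) * (((g.map (redP P.1 hM)).sp : ℝ) * (nr (g.map (redP P.1 hM)) : ℝ) * WPc P M c g.res) := by
      intro g
      rw [if_pos h]
      unfold phP
      ring
    rw [sum_congr rfl (fun g _ => h3 g), ← mul_sum, h1]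
    rfl
  · rw [if_neg h, one_mul]
    apply sum_congr rfl
    intro g _
    rw [if_neg h, mul_one]

end avr2

theorem t_avr2 : S_rho → S_avc → S_avr2 := by
  intro hr hav F _ _ h2 m c ci hc hci hdX hdO S hX hO M hM n e hm he hN
  classical
  rw [← hav F h2 m c ci hc hci S M hM n e hm he hN]
  have hq2 : 2 ≤ (Fintype.card F : ℝ) := q_ge
  have key : ∀ G : Q4 F[X], Ph S hM (fun P => WPc P M (c P)) (WPc (PlX F) M ci) (redV S M n e G) * R2 G =
      (∏ P : S, phP P.1 hM (WPc P.1 M (c P.1)) ((redV S M n e G).at P) *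
        avr2_rho P.1 hM ((redV S M n e G).at P)) * phX F hM (WPc (PlX F) M ci) (redV S M n e G).inf := by
    intro G
    rw [prod_mul_distrib, avr2_R2 S hX hO hM n e G]
    unfold Ph
    ring
  unfold AV
  rw [sum_congr rfl (fun G _ => key G),
    sum_redV S M n e he hN (fun g => (∏ P : S, phP P.1 hM (WPc P.1 M (c P.1)) (g.at P) *
        avr2_rho P.1 hM (g.at P)) * phX F hM (WPc (PlX F) M ci) g.inf),
    sum_redV S M n e he hN (fun g => Ph S hM (fun P => WPc P M (c P)) (WPc (PlX F) M ci) g)]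
  have h1 : ∑ g : Q4 (RB S M), Ph S hM (fun P => WPc P M (c P)) (WPc (PlX F) M ci) g =
      (∏ P : S, ∑ g, phP P.1 hM (WPc P.1 M (c P.1)) g) * ∑ g, phX F hM (WPc (PlX F) M ci) g :=
    sum_split S M (fun P g => phP P.1 hM (WPc P.1 M (c P.1)) g) (fun g => phX F hM (WPc (PlX F) M ci) g)
  have h3 := sum_split S M (fun P g => phP P.1 hM (WPc P.1 M (c P.1)) g * avr2_rho P.1 hM g)
    (fun g => phX F hM (WPc (PlX F) M ci) g)
  have h4 : ∀ P : S, ∑ g, phP P.1 hM (WPc P.1 M (c P.1)) g * avr2_rho P.1 hM g =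
      avr2_fac P.1 * ∑ g, phP P.1 hM (WPc P.1 M (c P.1)) g := by
    intro P
    refine avr2_loc hr h2 P.1 hM (hc P.1) ?_
    rintro (h | h)
    · rw [h]
      exact hdX
    · rw [h]
      exact hdO
  have h5 : ∏ P : S, avr2_fac P.1 = 1 / 4 := by
    have := avr2_prod S hX hO (fun _ => (1 / 2 : ℝ))
    unfold avr2_fac
    rw [this]
    norm_num
  rw [h3, h1, prod_congr rfl (fun P _ => h4 P), prod_mul_distrib, h5]
  ring

end Pool.Agent.H456.PP
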