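import Pool.Agent.H456.PP.Stm
import Pool.Agent.H456.BQ.T_clsC
import Pool.Agent.H456.BQ.Asm4

/-!
(clsT) `S_clsT`: adaptation of the proof of `S_clsL` in T_clsC.lean.
-/

set_option autoImplicit false
set_option linter.all false

open Polynomial Finset Filter
open Pool.Agent.H456.EC (toK toK_inj sig toK_eq reflect_toK cls Eqn st st_le)
open Pool.Agent.H456.RN
open Pool.Agent.H456.BQ
open Pool.Agent.H456.Coh (TF)

namespace Pool.Agent.H456.PP

/-- lower bounds for partial sums from lower bounds for two consecutive terms -/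
theorem clsT_lower (x y : ℕ → ℝ) {c K : ℝ} (hc : 0 < c) (hK : 0 < K) (hx0 : ∀ n, 0 ≤ x n)
    (hy0 : ∀ n, 0 ≤ y n) (h : ∀ᶠ n in atTop, c * y n ≤ x n + x (n + 1))
    (hy : ∀ᶠ n in atTop, y (n + 1) ≤ K * y n)
    (hyinf : Tendsto (fun d => ∑ e ∈ range (d + 1), y e) atTop atTop) :
    ∃ δ' : ℝ, 0 < δ' ∧
      ∀ᶠ d in atTop, δ' * ∑ e ∈ range (d + 1), y e ≤ ∑ e ∈ range (d + 1), x e := by
  refine ⟨c / (4 * (1 + K)), by positivity, ?_⟩
  have h1 := clsC_lower (fun n => x n + x (n + 1)) y hc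
    (fun n => add_nonneg (hx0 n) (hx0 (n + 1))) hy0 h hyinf
  obtain ⟨N, hN⟩ := eventually_atTop.1 (h1.and hy)
  filter_upwards [eventually_ge_atTop (N + 1)] with d hd
  obtain ⟨d', rfl⟩ : ∃ d', d = d' + 1 := ⟨d - 1, by omega⟩
  obtain ⟨h2, h3⟩ := hN d' (by omega)
  obtain ⟨Y, hY⟩ : ∃ Y : ℝ, Y = ∑ e ∈ range (d' + 1), y e := ⟨_, rfl⟩
  have h4 : y d' ≤ Y := by
    rw [hY]
    exact single_le_sum (f := y) (fun i _ => hy0 i) (mem_range.2 (Nat.lt_succ_self d'))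
  have h5 : ∑ e ∈ range (d' + 1 + 1), y e ≤ (1 + K) * Y := by
    rw [sum_range_succ, ← hY]
    have : K * y d' ≤ K * Y := mul_le_mul_of_nonneg_left h4 hK.le
    linarith
  have h6 : ∑ e ∈ range (d' + 1), (x e + x (e + 1)) ≤ 2 * ∑ e ∈ range (d' + 1 + 1), x e := by
    rw [sum_add_distrib, two_mul]
    apply add_le_add
    · rw [sum_range_succ _ (d' + 1)]
      have := hx0 (d' + 1)
      linarith
    · rw [sum_range_succ' x (d' + 1)]
      have := hx0 0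
      linarith
  rw [← hY] at h2
  calc c / (4 * (1 + K)) * ∑ e ∈ range (d' + 1 + 1), y e
      ≤ c / (4 * (1 + K)) * ((1 + K) * Y) := mul_le_mul_of_nonneg_left h5 (by positivity)
    _ = c / 4 * Y := by field_simp
    _ ≤ ∑ e ∈ range (d' + 1 + 1), x e := by
        have h7 := h2.trans h6
        linarith

section

variable {F : Type} [Field F] [Fintype F]

theorem clsT_k (n : ℕ) : clsC_k F n = (Fintype.card F : ℝ) ^ 2 * clsC_k F (n + 1) := by
  have hq2 : 2 ≤ (Fintype.card F : ℝ) := q_ge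
  have hq1 : 0 < (Fintype.card F : ℝ) - 1 := by linarith
  have hq0 : (0 : ℝ) < Fintype.card F := by linarith
  unfold clsC_k
  rw [mul_div_assoc', div_eq_div_iff (by positivity) (by positivity)]
  have e1 : 4 * (n + 1) + 2 = (4 * n + 2) + 4 := by ring
  have e2 : 6 * (n + 1) + 3 = (6 * n + 3) + 6 := by ring
  rw [e1, e2, pow_add _ (4 * n + 2) 4, pow_add _ (6 * n + 3) 6]
  ring

open Classical in
theorem clsT_x (h2 : (2 : F) ≠ 0) (v : KC F → ℝ) (hv : ∀ κ, 0 ≤ v κ) (n : ℕ) :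
    2 * clsC_k F n * ∑ f ∈ Msh F n, v (cls (crv f)) ≤ ∑ κ ∈ CLe F n, v κ := by
  rw [clsC_x h2 v n]
  have h1 : ∑ f ∈ Msh F n, v (cls (crv f)) * 2 ≤ ∑ f ∈ Msh F n, v (cls (crv f)) * (st n (crv f) : ℝ) := by
    apply sum_le_sum
    intro f _
    apply mul_le_mul_of_nonneg_left _ (hv _)
    exact_mod_cast st_ge h2 n f
  rw [← sum_mul] at h1
  have h3 := clsC_k_pos (F := F) n
  calc 2 * clsC_k F n * ∑ f ∈ Msh F n, v (cls (crv f))
      = clsC_k F n * ((∑ f ∈ Msh F n, v (cls (crv f))) * 2) := by ring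
    _ ≤ clsC_k F n * ∑ f ∈ Msh F n, v (cls (crv f)) * (st n (crv f) : ℝ) :=
      mul_le_mul_of_nonneg_left h1 h3.le

open Classical in
theorem clsT_yu (h2 : (2 : F) ≠ 0) (n : ℕ) :
    ((CLe F n).card : ℝ) ≤ clsC_k F n * (16 * (Fintype.card F : ℝ) * (Fintype.card F : ℝ) ^ (12 * n + 3)) := by
  have hq2 : 2 ≤ (Fintype.card F : ℝ) := q_ge
  have hM : ((Msh F n).card : ℝ) ≤ (Fintype.card F : ℝ) ^ (12 * n + 3) := by
    have h1 : (Msh F n).card ≤ (Sb F n).card := by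
      apply card_le_card
      intro f hf
      exact mem_Sb.2 (mem_Msh.1 hf).1
    rw [card_Sb] at h1
    exact_mod_cast h1
  rw [clsC_y (F := F) h2 n]
  apply mul_le_mul_of_nonneg_left _ (clsC_k_pos (F := F) n).le
  calc ∑ f ∈ Msh F n, (st n (crv f) : ℝ) ≤ ∑ f ∈ Msh F n, (16 * (Fintype.card F : ℝ)) :=
        sum_le_sum fun f _ => clsC_st (F := F) n f
    _ = (Msh F n).card * (16 * (Fintype.card F : ℝ)) := by rw [sum_const, nsmul_eq_mul]
    _ ≤ (Fintype.card F : ℝ) ^ (12 * n + 3) * (16 * (Fintype.card F : ℝ)) :=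
        mul_le_mul_of_nonneg_right hM (by positivity)
    _ = 16 * (Fintype.card F : ℝ) * (Fintype.card F : ℝ) ^ (12 * n + 3) := by ring

end

open Classical in
theorem t_clsT : S_clsT := by
  intro F _ _ h2 v hv δ hδ H
  have hq2 : 2 ≤ (Fintype.card F : ℝ) := q_ge
  have hk0 := fun n => clsC_k_pos (F := F) n
  have hk1 := fun n => clsT_k (F := F) n
  have hy0 : ∀ n, 0 ≤ ((CLe F n).card : ℝ) := fun n => Nat.cast_nonneg _
  have hxl := fun n => clsT_x (F := F) h2 v hv n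
  have hyl := fun n => clsC_yl (F := F) h2 n
  have hyu := fun n => clsT_yu (F := F) h2 n
  have hH3 := H3 (F := F) h2
  obtain ⟨q, hq⟩ : ∃ q : ℝ, q = (Fintype.card F : ℝ) := ⟨_, rfl⟩
  rw [← hq] at hq2 H hk1 hyu hH3
  have hq0 : 0 < q := by linarith
  -- two consecutive terms
  have hcy : ∀ᶠ n in atTop, δ / (8 * q ^ 3) * ((CLe F n).card : ℝ) ≤
      (∑ κ ∈ CLe F n, v κ) + ∑ κ ∈ CLe F (n + 1), v κ := by
    filter_upwards [H] with n hn
    have a1 := hxl n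
    have a2 := hxl (n + 1)
    have a3 := hyu n
    have a4 := hk0 (n + 1)
    rw [hk1 n] at a1 a3
    obtain ⟨k, hk⟩ : ∃ k : ℝ, k = clsC_k F (n + 1) := ⟨_, rfl⟩
    rw [← hk] at a1 a2 a3 a4
    obtain ⟨V, hV⟩ : ∃ V : ℝ, V = ∑ f ∈ Msh F n, v (cls (crv f)) := ⟨_, rfl⟩
    obtain ⟨V', hV'⟩ : ∃ V : ℝ, V = ∑ f ∈ Msh F (n + 1), v (cls (crv f)) := ⟨_, rfl⟩
    rw [← hV, ← hV'] at hn
    rw [← hV] at a1
    rw [← hV'] at a2
    have hV0 : 0 ≤ V := by
      rw [hV]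
      exact sum_nonneg fun f _ => hv _
    have b1 : 2 * k * V ≤ 2 * (q ^ 2 * k) * V := by
      apply mul_le_mul_of_nonneg_right _ hV0
      have : 1 ≤ q ^ 2 := one_le_pow₀ (by linarith)
      nlinarith
    have b2 : 2 * k * (δ * q ^ (12 * n + 3)) ≤ 2 * k * (V + V') :=
      mul_le_mul_of_nonneg_left hn (by positivity)
    calc δ / (8 * q ^ 3) * ((CLe F n).card : ℝ)
        ≤ δ / (8 * q ^ 3) * (q ^ 2 * k * (16 * q * q ^ (12 * n + 3))) :=
          mul_le_mul_of_nonneg_left a3 (by positivity)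
      _ = 2 * k * (δ * q ^ (12 * n + 3)) := by field_simp; ring
      _ ≤ 2 * k * (V + V') := b2
      _ ≤ (∑ κ ∈ CLe F n, v κ) + ∑ κ ∈ CLe F (n + 1), v κ := by linarith
  -- consecutive numbers of classes
  have hyy : ∀ᶠ n in atTop, ((CLe F (n + 1)).card : ℝ) ≤ 32 * q ^ 11 * ((CLe F n).card : ℝ) := by
    filter_upwards [hH3] with n hn
    have a1 := hyu (n + 1)
    have a2 := hyl n
    have a4 := hk0 (n + 1)
    rw [hk1 n] at a2
    obtain ⟨k, hk⟩ : ∃ k : ℝ, k = clsC_k F (n + 1) := ⟨_, rfl⟩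
    rw [← hk] at a1 a2 a4
    have b1 : 2 * (q ^ 2 * k) * ((1 / 4) * q ^ (12 * n + 3)) ≤ ((CLe F n).card : ℝ) :=
      le_trans (mul_le_mul_of_nonneg_left hn (by positivity)) a2
    have e1 : 12 * (n + 1) + 3 = (12 * n + 3) + 12 := by ring
    rw [e1, pow_add] at a1
    calc ((CLe F (n + 1)).card : ℝ) ≤ k * (16 * q * (q ^ (12 * n + 3) * q ^ 12)) := a1
      _ = 32 * q ^ 11 * (2 * (q ^ 2 * k) * ((1 / 4) * q ^ (12 * n + 3))) := by ring
      _ ≤ 32 * q ^ 11 * ((CLe F n).card : ℝ) := mul_le_mul_of_nonneg_left b1 (by positivity)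
  have hyinf : Tendsto (fun d => ∑ e ∈ range (d + 1), ((CLe F e).card : ℝ)) atTop atTop := by
    refine clsC_inf _ hy0 (b := 1) (by norm_num) ?_
    filter_upwards [hH3] with n hn
    have h3 := hk0 n
    have h4 : (0 : ℝ) < ((CLe F n).card : ℝ) := by
      refine lt_of_lt_of_le ?_ (hyl n)
      have h6 : (0 : ℝ) < ((Msh F n).card : ℝ) := lt_of_lt_of_le (by positivity) hn
      exact mul_pos (mul_pos two_pos h3) h6
    have h5 : 0 < (CLe F n).card := by exact_mod_cast h4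
    exact_mod_cast h5
  obtain ⟨δ', hδ', hfin⟩ := clsT_lower (fun n => ∑ κ ∈ CLe F n, v κ) (fun n => ((CLe F n).card : ℝ))
    (c := δ / (8 * q ^ 3)) (K := 32 * q ^ 11) (by positivity) (by positivity)
    (fun n => sum_nonneg fun κ _ => hv κ) hy0 hcy hyy hyinf
  refine ⟨δ', hδ', ?_⟩
  filter_upwards [hfin] with d hd
  rw [clsC_card d, sum_CL]
  exact hd

end Pool.Agent.H456.PP
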