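import Pool.Agent.H456.PP.Stm
import Pool.Agent.H456.BQ.T_large
import Pool.Agent.H456.BQ.SLow3

/-!
(csq) `S_csq`: the proportion of the cubics `f = (a,b,c)` in the box `Sb F n` (`deg a ≤ 2n`, `deg b ≤ 4n`, `deg c ≤ 6n`; `#Sb = q^(12n+3)`) with `P² ∣ disc f` for some place `P` of degree `> D` is small. Analogous to T_large*.lean (quartics; reuse the lemmas `large_*`: `large_PL`, `large_class`, `large_places`, `large_inj`, `large_im`, `large_fib_le`, `large_union`, `large_cubic`, …). `q = #F`, `p = char F ≥ 3`.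
`Δ(c) = -27c² + B c + C`, `B = 18ab - 4a³`, `C = a²b² - 4b³`; `Δ'(c)² + 108 Δ(c) = 16 (a²-3b)³`, `Δ'(c) = -54 c + B`. The number of monic `P` of degree `m` is `≤ q^m`.
(E0) `a² = 3b` or `a = 0`: if `3 ≠ 0`: `b` is determined by `a` resp. `a = 0`; if `3 = 0`: `a = 0`. At most `q^(2n+1) q^(6n+1) + q^(10n+2)` cubics: `o(q^(12n+3))`. Let `a ≠ 0`, `a² ≠ 3b`.
(E1) `P ∣ a² - 3b`, `P² ∣ Δ`, `deg P = m > D`. If `3 ≠ 0`: `m ≤ 4n` (as `a² - 3b ≠ 0` has degree `≤ 4n`); for fixed `a`, `b` lies in one class modulo `P`: `≤ q^(4n+1-m)` values; and `Δ'(c) ≡ 0` mod `P`, so `c` lies in one class modulo `P`: `≤ q^(6n+1-m)` values. Sum over `P`: `∑_{m > D} q^m q^(2n+1) q^(4n+1-m) q^(6n+1-m) = q^(12n+3) ∑_{m>D} q^(-m) ≤ 2 q^(-D) q^(12n+3)`. If `3 = 0`: `P ∣ a`, then `Δ ≡ -4b³` so `P ∣ b`: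
`m ≤ 2n`, `≤ q^(2n+1-m) q^(4n+1-m) q^(6n+1)`, the same sum. (E2) `P ∤ a² - 3b`, `D < deg P = m ≤ 3n`, `P² ∣ Δ(c)`: for fixed `(a,b)`: `c` lies in at most `2` classes modulo `P²` (modulo `P` at most two roots of the nonzero polynomial `Δ`, `Δ'(c)` is not divisible by `P`, so each lifts to at most one class modulo `P²`), and `2m ≤ 6n < 6n + 1`, so `≤ 2 q^(6n+1-2m)` values; sum over `P`: `≤ 2 ∑_{m > D} q^m q^(-2m) q^(12n+3) ≤ 4 q^(-D) q^(12n+3)`.
(You do not need `S_dloc`; keep it as a hypothesis.) (E3) `P ∤ a² - 3b`, `deg P = m > 3n`, `P² ∣ Δ(c)` (derivative trick). Fix `(a,b)` with `a ≠ 0`, `a² ≠ 3b`. Write `c = c₀ + c₁^p` (`c₀` without monomials of exponent divisible by `p`, `deg c₁ ≤ 6n/p ≤ 2n`; as in T_largeC.lean), `c' = c₀' =: w`. `P` divides `Δ(c)` and its derivative `Δ(c)' = H₁ c + H₀`, where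
`H₁ = -54 w + (18ab - 4a³)'`, hmm: precisely `(Δ(c))' = -54 c w + B w + B' c + C' = (B' - 54 w) c + (B w + C')` (derivatives of polynomials in `t`). So `P` divides `Rs(w) := -27 H₀² - B H₀ H₁ + C H₁²` (`H₁ = B' - 54 w`, `H₀ = B w + C'`), the resultant: `H₁² Δ(c) = -27 (H₁c)² + B H₁ (H₁ c) + C H₁²` and `H₁ c ≡ -H₀` mod `P`. `Rs(w)` is a polynomial in `w` of degree `≤ 2` with coefficient of `w²`: `-27B² + 54 B² + 54² C = 27 (B² + 108 C) = 27·16 (a²-3b)³`.
CASE `3 ≠ 0`: the leading coefficient is `≠ 0`, so `Rs(w) ≠ 0` for all but at most two `w = c₀'`; for each of these `w` there are at most `q^(6n/p + 1)` polynomials `c` of degree `≤ 6n` with `c' = w` (`large_fib_le`): negligible. If `Rs(w) ≠ 0`: its degree is `≤ K n` (`K` absolute, e.g. 24), so at most `K/3` places `P` of degree `> 3n` divide it. For each of them `c` modulo `P` is one of `≤ 2` roots of `Δ` mod `P` (`-27 ≠ 0`), and then `c₁^p ≡ c - c₀` determines `c₁` modulo `P` (`large_inj`),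 hence `c₁`
(degree `≤ 2n < 3n < m`). So for each `c₀` at most `2K/3` values of `c₁` out of `q^(6n/p+1)`: for fixed `(a,b)` at most `(2K/3) · #{c₀}` and `#{c₀} · q^(⌊6n/p⌋+1) = q^(6n+1)` (`large_im` or similar): proportion `≤ (2K/3) q^(-⌊6n/p⌋-1) → 0`. CASE `3 = 0` (`p = 3`): `Δ(c) = -4a³ c + a²b² - 4b³ = -a³ c + C`, so `(Δ(c))' = -a³ w + C'` (`(a³)' = 0`), `C' = (a²b²)'` (`(b³)' = 0`). `P ∤ a` (here `a² - 3b = a²`). `-a³ w + C' = 0` for at most one `w`; otherwise `P` is one of at most `K/3` divisors of degree `> 3n` of `-a³ w + C'`,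
`c` modulo `P` is determined by `a³ c ≡ C`, and we conclude as before. Altogether the proportion is at most `6 q^(-D) + o(1)`; choose `D` with `6 q^(-D) ≤ ε/2`. (The file may be split in several files T_csqA.lean, ….)
-/

set_option autoImplicit false
set_option linter.all false

open Polynomial Finset Filter
open Pool.Agent.H456.EC (toK toK_inj sig toK_eq reflect_toK cls)
open Pool.Agent.H456.RN
open Pool.Agent.H456.BQ
open Pool.Agent.H456.Coh (TF)

namespace Pool.Agent.H456.PP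

section alg

variable {R : Type} [CommRing R]

/-- the coefficients of the discriminant as a polynomial in `c` -/
def csq_B (a b : R) : R := 18 * a * b - 4 * a ^ 3
def csq_C (a b : R) : R := a ^ 2 * b ^ 2 - 4 * b ^ 3

/-- the discriminant as a polynomial in `c` -/
def csq_f (a b c : R) : R := -27 * c ^ 2 + csq_B a b * c + csq_C a b

theorem csq_disc (f : Cub R) : f.disc = csq_f f.a f.b f.c := by
  simp only [Cub.disc, csq_f, csq_B, csq_C]
  ring

theorem csq_sq (a b c : R) :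
    (-54 * c + csq_B a b) ^ 2 + 108 * csq_f a b c = 16 * (a ^ 2 - 3 * b) ^ 3 := by
  simp only [csq_f, csq_B, csq_C]
  ring

theorem csq_sq2 (a b : R) : csq_B a b ^ 2 + 108 * csq_C a b = 16 * (a ^ 2 - 3 * b) ^ 3 := by
  simp only [csq_B, csq_C]
  ring

theorem csq_sub (a b c c' : R) : csq_f a b c - csq_f a b c' =
    (c - c') * (-27 * (c + c') + csq_B a b) := by
  simp only [csq_f]
  ring

end alg

section dvd

variable {F : Type} [Field F] [Fintype F]

theorem csq_ndvd {P a b : F[X]} (hP : Irreducible P) (h2 : (2 : F) ≠ 0) (h : ¬ P ∣ a ^ 2 - 3 * b) :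
    ¬ P ∣ 16 * (a ^ 2 - 3 * b) ^ 3 := by
  intro hd
  rw [show (16 : F[X]) = 2 ^ 4 by norm_num] at hd
  rcases hP.prime.dvd_or_dvd hd with h1 | h1
  · exact large_two_ndvd hP h2 4 h1
  · exact h (hP.prime.dvd_of_dvd_pow h1)

theorem csq_ne {P a b : F[X]} (hP : Irreducible P) (h2 : (2 : F) ≠ 0) (h : ¬ P ∣ a ^ 2 - 3 * b) :
    ¬ (P ∣ 0 ∧ P ∣ (-27 : F[X]) ∧ P ∣ csq_B a b ∧ P ∣ csq_C a b) := by
  rintro ⟨-, -, h3, h4⟩
  apply csq_ndvd hP h2 h
  rw [← csq_sq2]
  exact dvd_add (Dvd.dvd.trans h3 (dvd_pow_self _ two_ne_zero)) (Dvd.dvd.mul_left h4 _)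

theorem csq_nd {P a b c : F[X]} (hP : Irreducible P) (h2 : (2 : F) ≠ 0) (h : ¬ P ∣ a ^ 2 - 3 * b)
    (hd : P ∣ csq_f a b c) : ¬ P ∣ -54 * c + csq_B a b := by
  intro h3
  apply csq_ndvd hP h2 h
  rw [← csq_sq a b c]
  exact dvd_add (Dvd.dvd.trans h3 (dvd_pow_self _ two_ne_zero)) (Dvd.dvd.mul_left hd _)

theorem csq_lift {P a b c c' : F[X]} (hP : Irreducible P) (h2 : (2 : F) ≠ 0)
    (h : ¬ P ∣ a ^ 2 - 3 * b) (hc : P ^ 2 ∣ csq_f a b c) (hc' : P ^ 2 ∣ csq_f a b c')
    (hd : P ∣ c - c') : P ^ 2 ∣ c - c' := by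
  have h1 : P ^ 2 ∣ (c - c') * (-27 * (c + c') + csq_B a b) := by
    rw [← csq_sub]
    exact dvd_sub hc hc'
  have h3 : ¬ P ∣ -27 * (c + c') + csq_B a b := by
    intro h4
    apply csq_nd hP h2 h ((dvd_pow_self P two_ne_zero).trans hc)
    have e : -54 * c + csq_B a b = (-27 * (c + c') + csq_B a b) - 27 * (c - c') := by ring
    rw [e]
    exact dvd_sub h4 (Dvd.dvd.mul_left hd _)
  exact ((hP.coprime_iff_not_dvd.2 h3).pow_left).dvd_of_dvd_mul_right h1

/-- the number of the solutions modulo the square -/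
theorem csq_cong2 {d : ℕ} {P a b : F[X]} (hm : P.Monic) (hP : Irreducible P) (h2 : (2 : F) ≠ 0)
    (h : ¬ P ∣ a ^ 2 - 3 * b) (hd : 2 * P.natDegree ≤ d) (V : Finset F[X])
    (hV : ∀ c ∈ V, c.natDegree ≤ d ∧ P ^ 2 ∣ csq_f a b c) :
    V.card * Fintype.card F ^ (2 * P.natDegree) ≤ 3 * Fintype.card F ^ (d + 1) := by
  classical
  obtain ⟨T, hT, hr⟩ := large_roots hP 0 (-27) (csq_B a b) (csq_C a b) (csq_ne hP h2 h)
  have hdeg : (P ^ 2).natDegree = 2 * P.natDegree := hm.natDegree_pow 2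
  have h1 := Finset.card_le_mul_card_image_of_maps_to (s := V) (t := T)
    (f := fun E => AdjoinRoot.mk P E)
    (fun E hE => hr E (by
      have h3 := (dvd_pow_self P two_ne_zero).trans (hV E hE).2
      convert h3 using 1
      unfold csq_f
      ring)) (Fintype.card F ^ (d - 2 * P.natDegree + 1)) (by
      intro t ht
      rw [← hdeg]
      apply large_class (hm.pow 2)
      · intro f hf
        exact (hV f (Finset.mem_filter.1 hf).1).1
      · intro f hf g hg
        have e1 := (Finset.mem_filter.1 hf).2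
        have e2 := (Finset.mem_filter.1 hg).2
        exact csq_lift hP h2 h (hV f (Finset.mem_filter.1 hf).1).2
          (hV g (Finset.mem_filter.1 hg).1).2 (AdjoinRoot.mk_eq_mk.1 (e1.trans e2.symm)))
  calc V.card * Fintype.card F ^ (2 * P.natDegree)
      ≤ (Fintype.card F ^ (d - 2 * P.natDegree + 1) * 3) * Fintype.card F ^ (2 * P.natDegree) :=
        Nat.mul_le_mul_right _ (h1.trans (Nat.mul_le_mul_left _ hT))
    _ = 3 * Fintype.card F ^ (d - 2 * P.natDegree + 1 + 2 * P.natDegree) := by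
        rw [pow_add _ (d - 2 * P.natDegree + 1)]
        ring
    _ = 3 * Fintype.card F ^ (d + 1) := by
        congr 2
        omega

end dvd

section cnt

variable {F : Type} [Field F] [Fintype F]

theorem csq_fiber {α β : Type} [DecidableEq α] (S : Finset β) (π : β → α) (U : Finset α)
    (hmaps : ∀ G ∈ S, π G ∈ U) (M K : ℕ)
    (hf : ∀ u ∈ U, (S.filter (fun G => π G = u)).card * M ≤ K) : S.card * M ≤ U.card * K := by
  rw [Finset.card_eq_sum_card_fiberwise (f := π) (t := U) (s := S) (fun x hx => hmaps x hx),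
    Finset.sum_mul]
  calc _ ≤ ∑ u ∈ U, K := Finset.sum_le_sum hf
    _ = U.card * K := by rw [Finset.sum_const, smul_eq_mul]

/-- the class of a polynomial, the product form -/
theorem csq_class {d : ℕ} {P : F[X]} (hm : P.Monic) (hd : P.natDegree ≤ d) (V : Finset F[X])
    (hV : ∀ f ∈ V, f.natDegree ≤ d) (hc : ∀ f ∈ V, ∀ g ∈ V, P ∣ f - g) :
    V.card * Fintype.card F ^ P.natDegree ≤ Fintype.card F ^ (d + 1) := by
  have h1 := large_class hm V hV hc
  calc V.card * Fintype.card F ^ P.natDegree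
      ≤ Fintype.card F ^ (d - P.natDegree + 1) * Fintype.card F ^ P.natDegree :=
        Nat.mul_le_mul_right _ h1
    _ = Fintype.card F ^ (d - P.natDegree + 1 + P.natDegree) := (pow_add _ _ _).symm
    _ = Fintype.card F ^ (d + 1) := by
        congr 1
        omega

theorem csq_cntC {n : ℕ} (S : Finset (Cub F[X])) (hbox : ∀ f ∈ S, CDg n f) (M K : ℕ)
    (h : ∀ a b : F[X], a.natDegree ≤ 2 * n → b.natDegree ≤ 4 * n →
      ∀ V : Finset F[X], (∀ x ∈ V, (⟨a, b, x⟩ : Cub F[X]) ∈ S) →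
      V.card * M ≤ K * Fintype.card F ^ (6 * n + 1)) :
    S.card * M ≤ K * Fintype.card F ^ (12 * n + 3) := by
  classical
  have h1 := csq_fiber S (fun G => (G.a, G.b)) (large_PL F (2 * n) ×ˢ large_PL F (4 * n))
    (by
      intro G hG
      obtain ⟨ha, hb, hc⟩ := hbox G hG
      simp only [Finset.mem_product, large_mem]
      exact ⟨ha, hb⟩) M (K * Fintype.card F ^ (6 * n + 1)) (by
      rintro ⟨a, b⟩ hu
      simp only [Finset.mem_product, large_mem] at hu
      obtain ⟨ha, hb⟩ := hu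
      rw [← Finset.card_image_of_injOn (f := Cub.c)]
      · apply h a b ha hb
        intro x hx
        obtain ⟨G, hG, rfl⟩ := Finset.mem_image.1 hx
        obtain ⟨hG1, hG2⟩ := Finset.mem_filter.1 hG
        simp only [Prod.mk.injEq] at hG2
        obtain ⟨rfl, rfl⟩ := hG2
        exact hG1
      · intro G hG G' hG' hx
        obtain ⟨hG1, hG2⟩ := Finset.mem_filter.1 (Finset.mem_coe.1 hG)
        obtain ⟨hG1', hG2'⟩ := Finset.mem_filter.1 (Finset.mem_coe.1 hG')
        simp only [Prod.mk.injEq] at hG2 hG2'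
        exact Cub.ext (hG2.1.trans hG2'.1.symm) (hG2.2.trans hG2'.2.symm) hx)
  refine h1.trans (le_of_eq ?_)
  simp only [Finset.card_product, large_card]
  rw [← pow_add]
  rw [show Fintype.card F ^ (2 * n + 1 + (4 * n + 1)) * (K * Fintype.card F ^ (6 * n + 1)) =
    K * Fintype.card F ^ ((2 * n + 1 + (4 * n + 1)) + (6 * n + 1)) by ring]
  congr 2
  omega

/-- two coordinates determine the cubic -/
theorem csq_inj (S : Finset (Cub F[X])) (x y : Cub F[X] → F[X]) (dx dy : ℕ)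
    (hx : ∀ f ∈ S, (x f).natDegree ≤ dx) (hy : ∀ f ∈ S, (y f).natDegree ≤ dy)
    (hinj : ∀ f ∈ S, ∀ g ∈ S, x f = x g → y f = y g → f = g) :
    S.card ≤ Fintype.card F ^ ((dx + 1) + (dy + 1)) := by
  classical
  rw [pow_add, ← large_card (F := F) dx, ← large_card (F := F) dy, ← Finset.card_product]
  apply Finset.card_le_card_of_injOn (fun f => (x f, y f))
  · intro f hf
    rw [Finset.mem_coe, Finset.mem_product, large_mem, large_mem]
    exact ⟨hx f hf, hy f hf⟩
  · intro f hf g hg h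
    simp only [Prod.mk.injEq] at h
    exact hinj f hf g hg h.1 h.2

/-- two coordinates in residue classes -/
theorem csq_two (S : Finset (Cub F[X])) (x y z : Cub F[X] → F[X])
    (hinj : ∀ f g, x f = x g → y f = y g → z f = z g → f = g) (dx dy dz : ℕ)
    (hx : ∀ f ∈ S, (x f).natDegree ≤ dx) (hy : ∀ f ∈ S, (y f).natDegree ≤ dy)
    (hz : ∀ f ∈ S, (z f).natDegree ≤ dz) {P : F[X]} (hm : P.Monic) (hPy : P.natDegree ≤ dy)
    (hPz : P.natDegree ≤ dz) (h1 : ∀ f ∈ S, ∀ g ∈ S, x f = x g → P ∣ y f - y g)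
    (h2 : ∀ f ∈ S, ∀ g ∈ S, x f = x g → y f = y g → P ∣ z f - z g) :
    S.card * Fintype.card F ^ (2 * P.natDegree) ≤
      Fintype.card F ^ ((dx + 1) + (dy + 1) + (dz + 1)) := by
  classical
  set U := S.image (fun f => (x f, y f)) with hU
  have a1 : S.card * Fintype.card F ^ P.natDegree ≤ U.card * Fintype.card F ^ (dz + 1) := by
    apply csq_fiber S (fun f => (x f, y f)) U (fun f hf => Finset.mem_image_of_mem _ hf)
    intro u _
    rw [← Finset.card_image_of_injOn (f := z)]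
    · apply csq_class hm hPz
      · intro v hv
        obtain ⟨f, hf, rfl⟩ := Finset.mem_image.1 hv
        exact hz f (Finset.mem_filter.1 hf).1
      · intro v hv v' hv'
        obtain ⟨f, hf, rfl⟩ := Finset.mem_image.1 hv
        obtain ⟨g, hg, rfl⟩ := Finset.mem_image.1 hv'
        obtain ⟨hf1, hf2⟩ := Finset.mem_filter.1 hf
        obtain ⟨hg1, hg2⟩ := Finset.mem_filter.1 hg
        have e := hf2.trans hg2.symm
        simp only [Prod.mk.injEq] at e
        exact h2 f hf1 g hg1 e.1 e.2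
    · intro f hf g hg e'
      obtain ⟨hf1, hf2⟩ := Finset.mem_filter.1 (Finset.mem_coe.1 hf)
      obtain ⟨hg1, hg2⟩ := Finset.mem_filter.1 (Finset.mem_coe.1 hg)
      have e := hf2.trans hg2.symm
      simp only [Prod.mk.injEq] at e
      exact hinj f g e.1 e.2 e'
  have a2 : U.card * Fintype.card F ^ P.natDegree ≤
      (large_PL F dx).card * Fintype.card F ^ (dy + 1) := by
    apply csq_fiber U (fun u => u.1) (large_PL F dx)
    · intro u hu
      obtain ⟨f, hf, rfl⟩ := Finset.mem_image.1 hu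
      exact large_mem.2 (hx f hf)
    · intro v _
      rw [← Finset.card_image_of_injOn (f := Prod.snd)]
      · apply csq_class hm hPy
        · intro w hw
          obtain ⟨u, hu, rfl⟩ := Finset.mem_image.1 hw
          obtain ⟨f, hf, rfl⟩ := Finset.mem_image.1 (Finset.mem_filter.1 hu).1
          exact hy f hf
        · intro w hw w' hw'
          obtain ⟨u, hu, rfl⟩ := Finset.mem_image.1 hw
          obtain ⟨u', hu', rfl⟩ := Finset.mem_image.1 hw'
          obtain ⟨hu1, hu2⟩ := Finset.mem_filter.1 hu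
          obtain ⟨hu1', hu2'⟩ := Finset.mem_filter.1 hu'
          obtain ⟨f, hf, rfl⟩ := Finset.mem_image.1 hu1
          obtain ⟨g, hg, rfl⟩ := Finset.mem_image.1 hu1'
          exact h1 f hf g hg (hu2.trans hu2'.symm)
      · intro u hu u' hu' e
        obtain ⟨hu1, hu2⟩ := Finset.mem_filter.1 (Finset.mem_coe.1 hu)
        obtain ⟨hu1', hu2'⟩ := Finset.mem_filter.1 (Finset.mem_coe.1 hu')
        exact Prod.ext (hu2.trans hu2'.symm) e
  rw [large_card] at a2
  calc S.card * Fintype.card F ^ (2 * P.natDegree)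
      = (S.card * Fintype.card F ^ P.natDegree) * Fintype.card F ^ P.natDegree := by
        rw [two_mul, pow_add]
        ring
    _ ≤ (U.card * Fintype.card F ^ (dz + 1)) * Fintype.card F ^ P.natDegree :=
        Nat.mul_le_mul_right _ a1
    _ = (U.card * Fintype.card F ^ P.natDegree) * Fintype.card F ^ (dz + 1) := by ring
    _ ≤ (Fintype.card F ^ (dx + 1) * Fintype.card F ^ (dy + 1)) * Fintype.card F ^ (dz + 1) :=
        Nat.mul_le_mul_right _ a2
    _ = Fintype.card F ^ ((dx + 1) + (dy + 1) + (dz + 1)) := by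
        rw [pow_add _ (dx + 1 + (dy + 1)), pow_add _ (dx + 1)]

end cnt

section der

variable {F : Type} [Field F]

noncomputable def csq_H1 (a b w : F[X]) : F[X] := derivative (csq_B a b) - 54 * w
noncomputable def csq_H0 (a b w : F[X]) : F[X] := csq_B a b * w + derivative (csq_C a b)

/-- the resultant -/
noncomputable def csq_Rs (a b w : F[X]) : F[X] :=
  -27 * csq_H0 a b w ^ 2 - csq_B a b * csq_H0 a b w * csq_H1 a b w +
    csq_C a b * csq_H1 a b w ^ 2

theorem csq_der (a b c : F[X]) : derivative (csq_f a b c) =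
    csq_H1 a b (derivative c) * c + csq_H0 a b (derivative c) := by
  unfold csq_f csq_H1 csq_H0
  have e : derivative (-27 : F[X]) = 0 := by
    have : (-27 : F[X]) = C (-27 : F) := by
      rw [C_neg]
      congr 1
    rw [this, derivative_C]
  rw [derivative_add, derivative_add, derivative_mul, derivative_mul, e, derivative_pow]
  simp only [Nat.cast_ofNat, map_ofNat]
  ring

theorem csq_Rs_dvd {P a b c : F[X]} (h1 : P ∣ csq_f a b c) (h2 : P ∣ derivative (csq_f a b c)) :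
    P ∣ csq_Rs a b (derivative c) := by
  rw [csq_der] at h2
  obtain ⟨u, hu⟩ := h1
  obtain ⟨v, hv⟩ := h2
  set H1 := csq_H1 a b (derivative c) with hH1
  set H0 := csq_H0 a b (derivative c) with hH0
  refine ⟨H1 ^ 2 * u - v * (-27 * (H1 * c - H0) + csq_B a b * H1), ?_⟩
  have e : csq_Rs a b (derivative c) = H1 ^ 2 * csq_f a b c -
      (H1 * c + H0) * (-27 * (H1 * c - H0) + csq_B a b * H1) := by
    unfold csq_Rs csq_f
    rw [← hH1, ← hH0]
    ring
  rw [e, hu, hv]
  ring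

open Classical in
/-- the polynomial which is divisible by the large places -/
noncomputable def csq_R (a b w : F[X]) : F[X] :=
  if (3 : F) = 0 then csq_H0 a b w else csq_Rs a b w

theorem csq_3 (h3 : (3 : F) = 0) : (3 : F[X]) = 0 := by
  have : (3 : F[X]) = C (3 : F) := (map_ofNat C 3).symm
  rw [this, h3, C_0]

theorem csq_H1_0 (h3 : (3 : F) = 0) (a b w : F[X]) : csq_H1 a b w = 0 := by
  have h := csq_3 h3
  have e1 : csq_B a b = C (-1) * a ^ 3 := by
    unfold csq_B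
    rw [C_neg, C_1]
    linear_combination (6 * a * b - a ^ 3) * h
  unfold csq_H1
  rw [e1, derivative_C_mul, derivative_pow]
  simp only [Nat.cast_ofNat, map_ofNat]
  linear_combination (C (-1) * (a ^ (3 - 1) * derivative a) - 18 * w) * h

theorem csq_R_dvd {P a b c : F[X]} (h1 : P ∣ csq_f a b c) (h2 : P ∣ derivative (csq_f a b c)) :
    P ∣ csq_R a b (derivative c) := by
  unfold csq_R
  split_ifs with h3
  · rw [csq_der, csq_H1_0 h3, zero_mul, zero_add] at h2
    exact h2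
  · exact csq_Rs_dvd h1 h2

theorem csq_num {k : ℕ} (h2 : (2 : F) ≠ 0) : ((2 : F[X]) ^ k) ≠ 0 := by
  have : (2 : F[X]) = Polynomial.C (2 : F) := (map_ofNat Polynomial.C 2).symm
  rw [this]
  exact pow_ne_zero _ (Polynomial.C_ne_zero.2 h2)

theorem csq_R_roots {a b : F[X]} (h2 : (2 : F) ≠ 0) (ha : a ≠ 0) (hab : a ^ 2 - 3 * b ≠ 0)
    (S : Finset F[X]) (hS : ∀ w ∈ S, csq_R a b w = 0) : S.card ≤ 3 := by
  classical
  by_cases h3 : (3 : F) = 0
  · have h := csq_3 h3
    have hB : csq_B a b ≠ 0 := by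
      have e1 : csq_B a b = -(2 ^ 2 * a ^ 3) := by
        unfold csq_B
        linear_combination (6 * a * b) * h
      rw [e1]
      exact neg_ne_zero.2 (mul_ne_zero (csq_num h2) (pow_ne_zero _ ha))
    have h1 : S.card ≤ 1 := by
      rw [Finset.card_le_one]
      intro w hw w' hw'
      have e1 := hS w hw
      have e2 := hS w' hw'
      unfold csq_R at e1 e2
      rw [if_pos h3] at e1 e2
      unfold csq_H0 at e1 e2
      apply mul_left_cancel₀ hB
      linear_combination e1 - e2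
    omega
  · have h3' : (3 : F[X]) ≠ 0 := by
      have : (3 : F[X]) = C (3 : F) := (map_ofNat C 3).symm
      rw [this]
      exact C_ne_zero.2 h3
    set B := csq_B a b with hB
    set D := csq_C a b with hD
    apply large_cubic (3 ^ 3 * (2 ^ 4 * (a ^ 2 - 3 * b) ^ 3))
      (-(B ^ 2 + 108 * D) * derivative B)
      (-27 * derivative D ^ 2 - B * derivative D * derivative B + D * derivative B ^ 2) 0
      (mul_ne_zero (pow_ne_zero _ h3') (mul_ne_zero (csq_num h2) (pow_ne_zero _ hab)))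
    intro w hw
    have e1 := hS w hw
    unfold csq_R at e1
    rw [if_neg h3] at e1
    unfold csq_Rs csq_H0 csq_H1 at e1
    rw [← hB, ← hD] at e1
    have e2 := csq_sq2 a b
    rw [← hB, ← hD] at e2
    linear_combination w * e1 - 27 * w ^ 3 * e2

theorem csq_R_deg {a b w : F[X]} {n : ℕ} (ha : a.natDegree ≤ 2 * n) (hb : b.natDegree ≤ 4 * n)
    (hw : w.natDegree ≤ 6 * n) : (csq_R a b w).natDegree ≤ 24 * n := by
  have hB : (csq_B a b).natDegree ≤ 6 * n := by
    unfold csq_B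
    refine large_dg_sub ?_ ?_
    · exact large_dg_mul (large_dg_mul (large_dg_num 18 (k := 0)) ha (m := 2 * n) (by omega)) hb
        (by omega)
    · exact large_dg_mul (large_dg_num 4 (k := 0)) (large_dg_pow 3 ha (m := 6 * n) (by omega))
        (by omega)
  have hC : (csq_C a b).natDegree ≤ 12 * n := by
    unfold csq_C
    refine large_dg_sub ?_ ?_
    · exact large_dg_mul (large_dg_pow 2 ha (m := 4 * n) (by omega))
        (large_dg_pow 2 hb (m := 8 * n) (by omega)) (by omega)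
    · exact large_dg_mul (large_dg_num 4 (k := 0)) (large_dg_pow 3 hb (m := 12 * n) (by omega))
        (by omega)
  have h1 : (csq_H1 a b w).natDegree ≤ 6 * n := by
    unfold csq_H1
    exact large_dg_sub (large_dg_der hB) (large_dg_mul (large_dg_num 54 (k := 0)) hw (by omega))
  have h0 : (csq_H0 a b w).natDegree ≤ 12 * n := by
    unfold csq_H0
    exact large_dg_add (large_dg_mul hB hw (by omega)) (large_dg_der hC)
  unfold csq_R
  split_ifs
  · omega
  · unfold csq_Rs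
    refine large_dg_add (large_dg_sub ?_ ?_) ?_
    · rw [neg_mul]
      exact large_dg_neg (large_dg_mul (large_dg_num 27 (k := 0))
        (large_dg_pow 2 h0 (m := 24 * n) (by omega)) (by omega))
    · exact large_dg_mul (large_dg_mul hB h0 (m := 18 * n) (by omega)) h1 (by omega)
    · exact large_dg_mul hC (large_dg_pow 2 h1 (m := 12 * n) (by omega)) (by omega)

end der

section ev

variable {F : Type} [Field F] [Fintype F]

theorem csq_S0 {p n : ℕ} (hp3 : 3 ≤ p) (hn : 1 ≤ n) (S : Finset (Cub F[X]))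
    (hS : ∀ f ∈ S, CDg n f ∧ f.a = 0) :
    S.card * Fintype.card F ^ (n / p) ≤ 1 * Fintype.card F ^ (12 * n + 3) := by
  have h1 := csq_inj S Cub.b Cub.c (4 * n) (6 * n) (fun f hf => (hS f hf).1.2.1)
    (fun f hf => (hS f hf).1.2.2) (fun f hf g hg e1 e2 =>
      Cub.ext ((hS f hf).2.trans (hS g hg).2.symm) e1 e2)
  have h2 : n / p ≤ n := Nat.div_le_self _ _
  calc S.card * Fintype.card F ^ (n / p)
      ≤ Fintype.card F ^ ((4 * n + 1) + (6 * n + 1)) * Fintype.card F ^ (n / p) :=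
        Nat.mul_le_mul_right _ h1
    _ = Fintype.card F ^ ((4 * n + 1) + (6 * n + 1) + n / p) := (pow_add _ _ _).symm
    _ ≤ 1 * Fintype.card F ^ (12 * n + 3) := by
        rw [one_mul]
        exact large_pw (by omega)

theorem csq_S1 {p n : ℕ} (hp3 : 3 ≤ p) (hn : 1 ≤ n) (S : Finset (Cub F[X]))
    (hS : ∀ f ∈ S, CDg n f ∧ f.a ≠ 0 ∧ f.a ^ 2 - 3 * f.b = 0) :
    S.card * Fintype.card F ^ (n / p) ≤ 1 * Fintype.card F ^ (12 * n + 3) := by
  have h1 := csq_inj S Cub.a Cub.c (2 * n) (6 * n) (fun f hf => (hS f hf).1.1)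
    (fun f hf => (hS f hf).1.2.2) (fun f hf g hg e1 e2 => by
      obtain ⟨-, hf1, hf2⟩ := hS f hf
      obtain ⟨-, hg1, hg2⟩ := hS g hg
      have h3 : (3 : F[X]) ≠ 0 := by
        intro h3
        rw [h3, zero_mul, sub_zero] at hf2
        exact hf1 (pow_eq_zero_iff two_ne_zero |>.1 hf2)
      refine Cub.ext e1 (mul_left_cancel₀ h3 ?_) e2
      rw [← e1] at hg2
      linear_combination hg2 - hf2)
  have h2 : n / p ≤ n := Nat.div_le_self _ _
  calc S.card * Fintype.card F ^ (n / p)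
      ≤ Fintype.card F ^ ((2 * n + 1) + (6 * n + 1)) * Fintype.card F ^ (n / p) :=
        Nat.mul_le_mul_right _ h1
    _ = Fintype.card F ^ ((2 * n + 1) + (6 * n + 1) + n / p) := (pow_add _ _ _).symm
    _ ≤ 1 * Fintype.card F ^ (12 * n + 3) := by
        rw [one_mul]
        exact large_pw (by omega)

theorem csq_d6 {p n : ℕ} (hp3 : 3 ≤ p) : (6 * n) / p ≤ 2 * n := by
  have h : (6 * n) / p * 3 ≤ 6 * n := (Nat.mul_le_mul_left _ hp3).trans (Nat.div_mul_le_self _ p)
  omega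

theorem csq_S7 (p : ℕ) [Fact p.Prime] [CharP F p] {n : ℕ} (hp3 : 3 ≤ p) (hn : 1 ≤ n)
    (h2 : (2 : F) ≠ 0) (S : Finset (Cub F[X]))
    (hS : ∀ f ∈ S, CDg n f ∧ f.a ≠ 0 ∧ f.a ^ 2 - 3 * f.b ≠ 0 ∧
      csq_R f.a f.b (derivative f.c) = 0) :
    S.card * Fintype.card F ^ (n / p) ≤ 3 * Fintype.card F ^ (12 * n + 3) := by
  classical
  apply csq_cntC S (fun f hf => (hS f hf).1)
  intro a b _ _ V hV
  rcases V.eq_empty_or_nonempty with h0 | ⟨x₀, hx₀⟩
  · rw [h0]; simp
  obtain ⟨-, ha, hab, -⟩ := hS _ (hV x₀ hx₀)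
  have h3 : (V.image derivative).card ≤ 3 := by
    apply csq_R_roots h2 ha hab
    intro w hw
    obtain ⟨x, hx, rfl⟩ := Finset.mem_image.1 hw
    exact (hS _ (hV x hx)).2.2.2
  have h4 : V.card ≤ Fintype.card F ^ ((6 * n) / p + 1) * (V.image derivative).card := by
    apply Finset.card_le_mul_card_image
    intro w hw
    apply large_fib_le p (d := 6 * n) w
    intro f hf
    obtain ⟨hf1, hf2⟩ := Finset.mem_filter.1 hf
    exact ⟨(hS _ (hV f hf1)).1.2.2, hf2⟩
  have d1 := csq_d6 (n := n) hp3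
  have d2 : n / p ≤ n := Nat.div_le_self _ _
  calc V.card * Fintype.card F ^ (n / p)
      ≤ (Fintype.card F ^ ((6 * n) / p + 1) * 3) * Fintype.card F ^ (n / p) :=
        Nat.mul_le_mul_right _ (h4.trans (Nat.mul_le_mul_left _ h3))
    _ = 3 * Fintype.card F ^ ((6 * n) / p + 1 + n / p) := by
        rw [pow_add _ ((6 * n) / p + 1)]
        ring
    _ ≤ 3 * Fintype.card F ^ (6 * n + 1) := Nat.mul_le_mul_left _ (large_pw (by omega))

theorem csq_S8 (p : ℕ) [Fact p.Prime] [CharP F p] {n : ℕ} (hp3 : 3 ≤ p) (hn : 1 ≤ n)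
    (h2 : (2 : F) ≠ 0) (S : Finset (Cub F[X]))
    (hS : ∀ f ∈ S, CDg n f ∧ csq_R f.a f.b (derivative f.c) ≠ 0 ∧
      ∃ P : F[X], P.Monic ∧ Irreducible P ∧ 3 * n + 1 ≤ P.natDegree ∧ ¬ P ∣ f.a ^ 2 - 3 * f.b ∧
      P ∣ csq_f f.a f.b f.c ∧ P ∣ derivative (csq_f f.a f.b f.c)) :
    S.card * Fintype.card F ^ (n / p) ≤ 21 * Fintype.card F ^ (12 * n + 3) := by
  classical
  apply csq_cntC S (fun f hf => (hS f hf).1)
  intro a b ha hb V hV
  have d1 := csq_d6 (n := n) hp3
  have d2 : n / p ≤ (6 * n) / p := Nat.div_le_div_right (by omega)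
  have h4 : V.card ≤ 21 * (V.image derivative).card := by
    apply Finset.card_le_mul_card_image
    intro w hw
    obtain ⟨x₀, hx₀, hw0⟩ := Finset.mem_image.1 hw
    have hRs : csq_R a b w ≠ 0 := by
      rw [← hw0]
      exact (hS _ (hV x₀ hx₀)).2.1
    have hwd : w.natDegree ≤ 6 * n := by
      rw [← hw0]
      exact large_dg_der (hS _ (hV x₀ hx₀)).1.2.2
    have hdeg := csq_R_deg ha hb hwd
    obtain ⟨T, hT1, hT2, hT3⟩ := large_places hRs (3 * n + 1)
    have hT : T.card ≤ 7 := by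
      by_contra hcon
      have h5 : 8 * (3 * n + 1) ≤ T.card * (3 * n + 1) := Nat.mul_le_mul_right _ (by omega)
      omega
    refine (large_union _ T (fun P x => derivative x = w ∧ ¬ P ∣ a ^ 2 - 3 * b ∧
      P ∣ csq_f a b x) ?_ 3 ?_).trans (by omega)
    · intro x hx
      obtain ⟨hx1, hx2⟩ := Finset.mem_filter.1 hx
      obtain ⟨-, -, P, hm, hi, hd, hPA, hPf, hPf'⟩ := hS _ (hV x hx1)
      refine ⟨P, hT1 P hm hi ?_ hd, hx2, hPA, hPf⟩
      rw [← hx2]
      exact csq_R_dvd hPf hPf'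
    · intro P hP W hW
      rcases W.eq_empty_or_nonempty with h0 | ⟨y₀, hy₀⟩
      · rw [h0]; simp
      obtain ⟨-, -, q2, -⟩ := hW y₀ hy₀
      obtain ⟨hm, hi, -, hd⟩ := hT2 P hP
      apply large_congr_der p (d := 6 * n) hi (by omega) _ _ _ _ w (csq_ne hi h2 q2)
      intro f hf
      obtain ⟨hf1, hf2, hf3, hf4⟩ := hW f hf
      refine ⟨(hS _ (hV f (Finset.mem_filter.1 hf1).1)).1.2.2, hf2, ?_⟩
      convert hf4 using 1
      unfold csq_f
      ring
  have h5 : (V.image derivative).card ≤ ((large_PL F (6 * n)).image derivative).card := by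
    apply Finset.card_le_card
    apply Finset.image_subset_image
    intro x hx
    exact large_mem.2 (hS _ (hV x hx)).1.2.2
  have h6 := large_im (F := F) p (6 * n)
  calc V.card * Fintype.card F ^ (n / p)
      ≤ (21 * ((large_PL F (6 * n)).image derivative).card) *
          Fintype.card F ^ ((6 * n) / p + 1) :=
        Nat.mul_le_mul (h4.trans (Nat.mul_le_mul_left _ h5)) (large_pw (by omega))
    _ = 21 * (((large_PL F (6 * n)).image derivative).card *
          Fintype.card F ^ ((6 * n) / p + 1)) := by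
        ring
    _ ≤ 21 * Fintype.card F ^ (6 * n + 1) := Nat.mul_le_mul_left _ h6

/-- the places of small degree which do not divide `a² - 3b` -/
theorem csq_S2 {n : ℕ} (h2 : (2 : F) ≠ 0) {P : F[X]} (hm : P.Monic) (hi : Irreducible P)
    (hd : P.natDegree ≤ 3 * n) (S : Finset (Cub F[X]))
    (hS : ∀ f ∈ S, CDg n f ∧ ¬ P ∣ f.a ^ 2 - 3 * f.b ∧ P ^ 2 ∣ csq_f f.a f.b f.c) :
    S.card * Fintype.card F ^ (2 * P.natDegree) ≤ 3 * Fintype.card F ^ (12 * n + 3) := by
  apply csq_cntC S (fun f hf => (hS f hf).1)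
  intro a b ha hb V hV
  rcases V.eq_empty_or_nonempty with h0 | ⟨x₀, hx₀⟩
  · rw [h0]; simp
  apply csq_cong2 hm hi h2 (hS _ (hV x₀ hx₀)).2.1 (by omega)
  intro c hc
  exact ⟨(hS _ (hV c hc)).1.2.2, (hS _ (hV c hc)).2.2⟩

/-- the places which divide `a² - 3b` -/
theorem csq_S3 {n : ℕ} (h2 : (2 : F) ≠ 0) {P : F[X]} (hm : P.Monic) (hi : Irreducible P)
    (S : Finset (Cub F[X]))
    (hS : ∀ f ∈ S, CDg n f ∧ f.a ≠ 0 ∧ f.a ^ 2 - 3 * f.b ≠ 0 ∧ P ∣ f.a ^ 2 - 3 * f.b ∧
      P ∣ csq_f f.a f.b f.c) :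
    S.card * Fintype.card F ^ (2 * P.natDegree) ≤ 1 * Fintype.card F ^ (12 * n + 3) := by
  rcases S.eq_empty_or_nonempty with h0 | ⟨f₀, hf₀⟩
  · rw [h0]; simp
  obtain ⟨⟨da, db, dc⟩, ha0, hab0, hP0, -⟩ := hS f₀ hf₀
  rw [one_mul]
  by_cases h3 : (3 : F) = 0
  · have h := csq_3 h3
    have key : ∀ f ∈ S, P ∣ f.a ∧ P ∣ f.b := by
      intro f hf
      obtain ⟨-, -, -, h4, h5⟩ := hS f hf
      have h6 : P ∣ f.a := by
        rw [h, zero_mul, sub_zero] at h4
        exact hi.prime.dvd_of_dvd_pow h4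
      refine ⟨h6, ?_⟩
      have h7 : P ∣ 2 ^ 2 * f.b ^ 3 := by
        have e : 2 ^ 2 * f.b ^ 3 = f.a * (18 * f.b * f.c - 4 * f.a ^ 2 * f.c + f.a * f.b ^ 2) -
            csq_f f.a f.b f.c := by
          unfold csq_f csq_B csq_C
          linear_combination (-9 * f.c ^ 2) * h
        rw [e]
        exact dvd_sub (Dvd.dvd.mul_right h6 _) h5
      rcases hi.prime.dvd_or_dvd h7 with h8 | h8
      · exact absurd h8 (large_two_ndvd hi h2 2)
      · exact hi.prime.dvd_of_dvd_pow h8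
    have hd : P.natDegree ≤ 2 * n := (natDegree_le_of_dvd (key f₀ hf₀).1 ha0).trans da
    refine (csq_two S Cub.c Cub.a Cub.b (fun f g e1 e2 e3 => Cub.ext e2 e3 e1)
      (6 * n) (2 * n) (4 * n) (fun f hf => (hS f hf).1.2.2) (fun f hf => (hS f hf).1.1)
      (fun f hf => (hS f hf).1.2.1) hm hd (by omega)
      (fun f hf g hg _ => dvd_sub (key f hf).1 (key g hg).1)
      (fun f hf g hg _ _ => dvd_sub (key f hf).2 (key g hg).2)).trans (large_pw (by omega))
  · have h3' : ∀ k : ℕ, ¬ P ∣ (3 : F[X]) ^ k := by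
      intro k hd
      have h1 := hi.prime.dvd_of_dvd_pow hd
      have : (3 : F[X]) = C (3 : F) := (map_ofNat C 3).symm
      rw [this] at h1
      exact h3 (large_cst hi h1)
    have hd : P.natDegree ≤ 4 * n := by
      refine (natDegree_le_of_dvd hP0 hab0).trans ?_
      exact large_dg_sub (large_dg_pow 2 da (by omega))
        (large_dg_mul (large_dg_num 3 (k := 0)) db (by omega))
    have key : ∀ f ∈ S, P ∣ -54 * f.c + csq_B f.a f.b := by
      intro f hf
      obtain ⟨-, -, -, h4, h5⟩ := hS f hf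
      have h6 : P ∣ (-54 * f.c + csq_B f.a f.b) ^ 2 := by
        have e : (-54 * f.c + csq_B f.a f.b) ^ 2 = 16 * (f.a ^ 2 - 3 * f.b) ^ 3 -
            108 * csq_f f.a f.b f.c := by
          rw [← csq_sq f.a f.b f.c]
          ring
        rw [e]
        exact dvd_sub (Dvd.dvd.mul_left (Dvd.dvd.trans h4 (dvd_pow_self _ (by norm_num))) _)
          (Dvd.dvd.mul_left h5 _)
      exact hi.prime.dvd_of_dvd_pow h6
    refine (csq_two S Cub.a Cub.b Cub.c (fun f g e1 e2 e3 => Cub.ext e1 e2 e3)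
      (2 * n) (4 * n) (6 * n) (fun f hf => (hS f hf).1.1) (fun f hf => (hS f hf).1.2.1)
      (fun f hf => (hS f hf).1.2.2) hm hd (by omega)
      (fun f hf g hg e1 => ?_)
      (fun f hf g hg e1 e2 => ?_)).trans (large_pw (by omega))
    · have h4 := (hS f hf).2.2.2.1
      have h5 := (hS g hg).2.2.2.1
      have h6 : P ∣ 3 ^ 1 * (f.b - g.b) := by
        have e : 3 ^ 1 * (f.b - g.b) = (g.a ^ 2 - 3 * g.b) - (f.a ^ 2 - 3 * f.b) := by
          rw [e1]
          ring
        rw [e]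
        exact dvd_sub h5 h4
      exact (hi.prime.dvd_or_dvd h6).resolve_left (h3' 1)
    · have h4 := key f hf
      have h5 := key g hg
      have h6 : P ∣ 2 ^ 1 * (3 ^ 3 * (f.c - g.c)) := by
        have e : 2 ^ 1 * (3 ^ 3 * (f.c - g.c)) = (-54 * g.c + csq_B g.a g.b) -
            (-54 * f.c + csq_B f.a f.b) := by
          rw [e1, e2]
          ring
        rw [e]
        exact dvd_sub h5 h4
      rcases hi.prime.dvd_or_dvd h6 with h7 | h7
      · exact absurd h7 (large_two_ndvd hi h2 1)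
      · exact (hi.prime.dvd_or_dvd h7).resolve_left (h3' 3)

end ev

theorem csq_main {F : Type} [Field F] [Fintype F] (p : ℕ) [Fact p.Prime] [CharP F p]
    (hp3 : 3 ≤ p) (h2 : (2 : F) ≠ 0) {n D : ℕ} (hn : 1 ≤ n) (A : Finset (Cub F[X]))
    (hA : ∀ f ∈ A, f ∈ Sb F n ∧ ∃ P : Pl F, D < P.1.natDegree ∧ P.1 ^ 2 ∣ f.disc) :
    (A.card : ℝ) ≤ 26 * (Fintype.card F : ℝ) ^ (12 * n + 3) / (Fintype.card F : ℝ) ^ (n / p) +
      8 * (1 / 2 : ℝ) ^ (D + 1) * (Fintype.card F : ℝ) ^ (12 * n + 3) := by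
  classical
  have hq0 : (0 : ℝ) < Fintype.card F := by exact_mod_cast Fintype.card_pos
  have hq : ∀ k : ℕ, (0 : ℝ) < (Fintype.card F : ℝ) ^ k := fun k => pow_pos hq0 k
  have hcd : ∀ f ∈ A, CDg n f := fun f hf => mem_Sb.1 (hA f hf).1
  set T : Finset (Pl F) := (PlD F (4 * n)).filter (fun P => D < P.1.natDegree) with hT
  have hTD : ∀ P ∈ T, D < P.1.natDegree := fun P hP => (Finset.mem_filter.1 hP).2
  set S0 := A.filter (fun f => f.a = 0) with hS0
  set S1 := A.filter (fun f => f.a ≠ 0 ∧ f.a ^ 2 - 3 * f.b = 0) with hS1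
  set S7 := A.filter (fun f => f.a ≠ 0 ∧ f.a ^ 2 - 3 * f.b ≠ 0 ∧
    csq_R f.a f.b (derivative f.c) = 0) with hS7
  set S8 := A.filter (fun f => csq_R f.a f.b (derivative f.c) ≠ 0 ∧
    ∃ P : F[X], P.Monic ∧ Irreducible P ∧ 3 * n + 1 ≤ P.natDegree ∧ ¬ P ∣ f.a ^ 2 - 3 * f.b ∧
      P ∣ csq_f f.a f.b f.c ∧ P ∣ derivative (csq_f f.a f.b f.c)) with hS8
  set X3 : Pl F → Finset (Cub F[X]) := fun P => A.filter (fun f => f.a ≠ 0 ∧
    f.a ^ 2 - 3 * f.b ≠ 0 ∧ P.1 ∣ f.a ^ 2 - 3 * f.b ∧ P.1 ∣ csq_f f.a f.b f.c) with hX3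
  set X2 : Pl F → Finset (Cub F[X]) := fun P => A.filter (fun f => P.1.natDegree ≤ 3 * n ∧
    ¬ P.1 ∣ f.a ^ 2 - 3 * f.b ∧ P.1 ^ 2 ∣ csq_f f.a f.b f.c) with hX2
  have hcov : A ⊆ S0 ∪ (S1 ∪ (S7 ∪ (S8 ∪ (T.biUnion X3 ∪ T.biUnion X2)))) := by
    intro f hf
    obtain ⟨-, P, hdeg, hP⟩ := hA f hf
    rw [csq_disc] at hP
    have hPf : P.1 ∣ csq_f f.a f.b f.c := (dvd_pow_self P.1 two_ne_zero).trans hP
    have hPf' : P.1 ∣ derivative (csq_f f.a f.b f.c) := by
      obtain ⟨u, hu⟩ := hP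
      rw [hu, derivative_mul, derivative_pow]
      refine dvd_add (Dvd.dvd.mul_right ?_ _) (Dvd.dvd.mul_right (dvd_pow_self P.1 two_ne_zero) _)
      refine Dvd.dvd.mul_right (Dvd.dvd.mul_left ?_ _) _
      simp
    obtain ⟨da, db, dc⟩ := hcd f hf
    rw [Finset.mem_union, Finset.mem_union, Finset.mem_union, Finset.mem_union, Finset.mem_union]
    by_cases ha : f.a = 0
    · exact Or.inl (Finset.mem_filter.2 ⟨hf, ha⟩)
    refine Or.inr ?_
    by_cases hab : f.a ^ 2 - 3 * f.b = 0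
    · exact Or.inl (Finset.mem_filter.2 ⟨hf, ha, hab⟩)
    refine Or.inr ?_
    by_cases hR : csq_R f.a f.b (derivative f.c) = 0
    · exact Or.inl (Finset.mem_filter.2 ⟨hf, ha, hab, hR⟩)
    refine Or.inr ?_
    by_cases hPd : P.1 ∣ f.a ^ 2 - 3 * f.b
    · refine Or.inr (Or.inl (Finset.mem_biUnion.2 ⟨P, ?_, Finset.mem_filter.2
        ⟨hf, ha, hab, hPd, hPf⟩⟩))
      refine Finset.mem_filter.2 ⟨mem_PlD.2 ?_, hdeg⟩
      refine (natDegree_le_of_dvd hPd hab).trans ?_
      exact large_dg_sub (large_dg_pow 2 da (by omega))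
        (large_dg_mul (large_dg_num 3 (k := 0)) db (by omega))
    · by_cases hd : P.1.natDegree ≤ 3 * n
      · refine Or.inr (Or.inr (Finset.mem_biUnion.2 ⟨P, ?_, Finset.mem_filter.2
          ⟨hf, hd, hPd, hP⟩⟩))
        exact Finset.mem_filter.2 ⟨mem_PlD.2 (hd.trans (by omega)), hdeg⟩
      · exact Or.inl (Finset.mem_filter.2 ⟨hf, hR, P.1, P.2.1, P.2.2, by omega, hPd, hPf, hPf'⟩)
  have b0 := csq_S0 (p := p) hp3 hn S0 (fun f hf =>
    ⟨hcd f (Finset.mem_filter.1 hf).1, (Finset.mem_filter.1 hf).2⟩)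
  have b1 := csq_S1 (p := p) hp3 hn S1 (fun f hf =>
    ⟨hcd f (Finset.mem_filter.1 hf).1, (Finset.mem_filter.1 hf).2⟩)
  have b7 := csq_S7 p hp3 hn h2 S7 (fun f hf =>
    ⟨hcd f (Finset.mem_filter.1 hf).1, (Finset.mem_filter.1 hf).2⟩)
  have b8 := csq_S8 p hp3 hn h2 S8 (fun f hf =>
    ⟨hcd f (Finset.mem_filter.1 hf).1, (Finset.mem_filter.1 hf).2⟩)
  have b3 : ∀ P ∈ T, ((X3 P).card : ℝ) ≤ ((Fintype.card F : ℝ) ^ (2 * P.1.natDegree))⁻¹ *
      (Fintype.card F : ℝ) ^ (12 * n + 3) := by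
    intro P hP
    have h := csq_S3 (n := n) h2 P.2.1 P.2.2 (X3 P) (fun f hf =>
      ⟨hcd f (Finset.mem_filter.1 hf).1, (Finset.mem_filter.1 hf).2⟩)
    have h' : ((X3 P).card : ℝ) * (Fintype.card F : ℝ) ^ (2 * P.1.natDegree) ≤
        1 * (Fintype.card F : ℝ) ^ (12 * n + 3) := by exact_mod_cast h
    rw [inv_mul_eq_div, le_div_iff₀ (hq _)]
    linarith
  have b2 : ∀ P ∈ T, ((X2 P).card : ℝ) ≤ ((Fintype.card F : ℝ) ^ (2 * P.1.natDegree))⁻¹ *
      (3 * (Fintype.card F : ℝ) ^ (12 * n + 3)) := by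
    intro P hP
    rw [inv_mul_eq_div, le_div_iff₀ (hq _)]
    rcases (X2 P).eq_empty_or_nonempty with h0 | ⟨f₀, hf₀⟩
    · rw [h0, Finset.card_empty, Nat.cast_zero, zero_mul]
      exact mul_nonneg (by norm_num) (hq _).le
    · have h := csq_S2 (n := n) h2 P.2.1 P.2.2 (Finset.mem_filter.1 hf₀).2.1 (X2 P) (fun f hf =>
        ⟨hcd f (Finset.mem_filter.1 hf).1, (Finset.mem_filter.1 hf).2.2⟩)
      exact_mod_cast h
  have t3 : ((T.biUnion X3).card : ℝ) ≤ 2 * (1 / 2 : ℝ) ^ (D + 1) *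
      (Fintype.card F : ℝ) ^ (12 * n + 3) := by
    calc ((T.biUnion X3).card : ℝ) ≤ ∑ P ∈ T, ((X3 P).card : ℝ) := by
          exact_mod_cast Finset.card_biUnion_le
      _ ≤ ∑ P ∈ T, ((Fintype.card F : ℝ) ^ (2 * P.1.natDegree))⁻¹ *
          (Fintype.card F : ℝ) ^ (12 * n + 3) := Finset.sum_le_sum b3
      _ = (∑ P ∈ T, ((Fintype.card F : ℝ) ^ (2 * P.1.natDegree))⁻¹) *
          (Fintype.card F : ℝ) ^ (12 * n + 3) := (Finset.sum_mul _ _ _).symm
      _ ≤ _ := mul_le_mul_of_nonneg_right (sum_tail2 T D hTD) (hq _).le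
  have t2 : ((T.biUnion X2).card : ℝ) ≤ 2 * (1 / 2 : ℝ) ^ (D + 1) *
      (3 * (Fintype.card F : ℝ) ^ (12 * n + 3)) := by
    calc ((T.biUnion X2).card : ℝ) ≤ ∑ P ∈ T, ((X2 P).card : ℝ) := by
          exact_mod_cast Finset.card_biUnion_le
      _ ≤ ∑ P ∈ T, ((Fintype.card F : ℝ) ^ (2 * P.1.natDegree))⁻¹ *
          (3 * (Fintype.card F : ℝ) ^ (12 * n + 3)) := Finset.sum_le_sum b2
      _ = (∑ P ∈ T, ((Fintype.card F : ℝ) ^ (2 * P.1.natDegree))⁻¹) *
          (3 * (Fintype.card F : ℝ) ^ (12 * n + 3)) := (Finset.sum_mul _ _ _).symm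
      _ ≤ _ := mul_le_mul_of_nonneg_right (sum_tail2 T D hTD)
          (mul_nonneg (by norm_num) (hq _).le)
  have hsum : A.card ≤ S0.card + (S1.card + (S7.card + (S8.card + ((T.biUnion X3).card +
      (T.biUnion X2).card)))) := by
    refine (Finset.card_le_card hcov).trans ?_
    refine (Finset.card_union_le _ _).trans (Nat.add_le_add_left ?_ _)
    refine (Finset.card_union_le _ _).trans (Nat.add_le_add_left ?_ _)
    refine (Finset.card_union_le _ _).trans (Nat.add_le_add_left ?_ _)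
    refine (Finset.card_union_le _ _).trans (Nat.add_le_add_left ?_ _)
    exact Finset.card_union_le _ _
  have hsum' : (A.card : ℝ) ≤ S0.card + (S1.card + (S7.card + (S8.card +
      ((T.biUnion X3).card + (T.biUnion X2).card)))) := by exact_mod_cast hsum
  have hb : ((S0.card : ℝ) + S1.card + S7.card + S8.card) ≤
      26 * (Fintype.card F : ℝ) ^ (12 * n + 3) / (Fintype.card F : ℝ) ^ (n / p) := by
    rw [le_div_iff₀ (hq _)]
    have h : (S0.card + S1.card + S7.card + S8.card) * Fintype.card F ^ (n / p) ≤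
        26 * Fintype.card F ^ (12 * n + 3) := by
      simp only [add_mul]
      omega
    exact_mod_cast h
  linarith

theorem t_csq : S_dloc → S_csq := by
  intro _ F _ _ h2 ε hε
  obtain ⟨p, hpc⟩ := CharP.exists F
  have hpp : p.Prime :=
    (CharP.char_is_prime_or_zero F p).resolve_right (CharP.char_ne_zero_of_finite F p)
  haveI : Fact p.Prime := ⟨hpp⟩
  have hp3 : 3 ≤ p := by
    by_contra hcon
    have h2' := hpp.two_le
    have : p = 2 := by omega
    subst this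
    apply h2
    have := CharP.cast_eq_zero F 2
    exact_mod_cast this
  obtain ⟨D, hD⟩ : ∃ D : ℕ, (1 / 2 : ℝ) ^ D < ε / 16 :=
    exists_pow_lt_of_lt_one (by positivity) (by norm_num)
  refine ⟨D, ?_⟩
  obtain ⟨N, hN⟩ := exists_nat_gt (26 / (ε / 2))
  filter_upwards [eventually_ge_atTop (p * N + 1)] with n hn
  have hNn : N ≤ n / p := by
    rw [Nat.le_div_iff_mul_le hpp.pos, mul_comm]
    omega
  refine le_trans (csq_main p hp3 h2 (n := n) (D := D) (by omega) _ ?_) ?_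
  · intro f hf
    classical
    exact Finset.mem_filter.1 hf
  have hq : (2 : ℝ) ≤ Fintype.card F := by exact_mod_cast Fintype.one_lt_card
  have hqp : (0 : ℝ) < (Fintype.card F : ℝ) ^ (n / p) := by positivity
  have hQ : (0 : ℝ) < (Fintype.card F : ℝ) ^ (12 * n + 3) := by positivity
  have h1 : 26 / (ε / 2) ≤ (Fintype.card F : ℝ) ^ (n / p) := by
    have h3 : ((n / p : ℕ) : ℝ) < 2 ^ (n / p) := by exact_mod_cast Nat.lt_two_pow_self
    have h4 : (2 : ℝ) ^ (n / p) ≤ (Fintype.card F : ℝ) ^ (n / p) :=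
      pow_le_pow_left₀ (by norm_num) hq _
    have h5 : (N : ℝ) ≤ ((n / p : ℕ) : ℝ) := by exact_mod_cast hNn
    linarith
  have h6 : 26 * (Fintype.card F : ℝ) ^ (12 * n + 3) / (Fintype.card F : ℝ) ^ (n / p) ≤
      (ε / 2) * (Fintype.card F : ℝ) ^ (12 * n + 3) := by
    rw [div_le_iff₀ hqp]
    rw [div_le_iff₀ (by positivity)] at h1
    nlinarith [mul_le_mul_of_nonneg_right h1 hQ.le]
  have h7 : 8 * (1 / 2 : ℝ) ^ (D + 1) * (Fintype.card F : ℝ) ^ (12 * n + 3) ≤
      (ε / 2) * (Fintype.card F : ℝ) ^ (12 * n + 3) := by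
    apply mul_le_mul_of_nonneg_right _ hQ.le
    rw [pow_succ]
    linarith
  linarith

end Pool.Agent.H456.PP
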