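import Pool.Agent.H456.PP.Stm

/-!
(cusp) `S_cusp`. `x` is a unit and `y² = f(x) ≡ x³` mod `π`, so `y` is a unit; `λ = y/x` (a unit of `O`): `λ² ≡ x`, `λ³ ≡ y` mod `π`. `gp f x y = h⁴ - (6x + 2a)h² - 8y h + (a² - 2ax - 3x² - 4b)` at `(h, 1)` `≡ h⁴ - 6λ²h² - 8λ³h - 3λ⁴ = (h + λ)³(h - 3λ)` mod `π`. Put `h = 3λ + w`: `gp(h) = c₀ + c₁w + c₂w² + c₃w³ + w⁴` with `π ∣ c₀` and `c₁ ≡ (4λ)³ = 64λ³` mod `π`, a unit (`2` is a unit in `O` as `2 ≠ 0` in `F`). `hensel4` gives `w`. (An element congruent to a unit modulo `π` is a unit: by `Lc.pow` a nonunit is divisible by `π` (or zero).)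
-/

set_option autoImplicit false
set_option linter.all false

open Polynomial Finset Filter
open Pool.Agent.H456.EC (toK toK_inj sig toK_eq reflect_toK cls)
open Pool.Agent.H456.RN
open Pool.Agent.H456.BQ
open Pool.Agent.H456.Coh (TF)

namespace Pool.Agent.H456.PP

/-- a unit plus a multiple of the uniformizer is a unit -/
theorem cusp_unit_add {F : Type} [Field F] {P : F[X]} {O : Type} [CommRing O] {π : O}
    {ι : F[X] →+* O} (h : Lc4 P π ι) {u z : O} (hu : IsUnit u) (hz : π ∣ z) : IsUnit (u + z) := by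
  have key : ¬ π ∣ u + z := by
    intro h1
    have h2 : π ∣ u := by
      have h3 := dvd_sub h1 hz
      rwa [add_sub_cancel_right] at h3
    exact h.nonunit (isUnit_of_dvd_unit h2 hu)
  by_cases h0 : u + z = 0
  · exact absurd (by rw [h0]; exact dvd_zero π) key
  · obtain ⟨k, v, hv, hk⟩ := h.pow (u + z) h0
    rcases Nat.eq_zero_or_pos k with hk0 | hk0
    · rw [hk, hk0, pow_zero, mul_one]
      exact hv
    · exfalso
      apply key
      rw [hk]
      exact (dvd_pow_self π (by omega)).mul_left v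

theorem cusp_two_unit {F : Type} [Field F] (h2 : (2 : F) ≠ 0) {O : Type} [CommRing O]
    (ι : F[X] →+* O) : IsUnit (2 : O) := by
  have h3 : IsUnit (C (2 : F)) := Polynomial.isUnit_C.mpr (isUnit_iff_ne_zero.mpr h2)
  have h4 := h3.map ι
  have e : ι (C (2 : F)) = 2 := by
    have e1 : (C (2 : F) : F[X]) = 2 := by
      rw [← map_ofNat (C : F →+* F[X]) 2]
    rw [e1, map_ofNat]
  rwa [e] at h4

theorem t_cusp : S_cusp := by
  intro F _ h2 P O _ _ π ι hL f x y ha hb hc hy hx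
  obtain ⟨x', hx'⟩ := hx.exists_right_inv
  have h2u : IsUnit (2 : O) := cusp_two_unit h2 ι
  simp only [Cub.ev] at hy
  -- `y` is a unit
  have hz : π ∣ f.a * x ^ 2 + f.b * x + f.c :=
    dvd_add (dvd_add (ha.mul_right _) (hb.mul_right _)) hc
  have hyu : IsUnit y := by
    have h3 : IsUnit (x ^ 3 + (f.a * x ^ 2 + f.b * x + f.c)) := cusp_unit_add hL (hx.pow 3) hz
    have h4 : y ^ 2 = x ^ 3 + (f.a * x ^ 2 + f.b * x + f.c) := by rw [hy]; ring
    rw [← h4] at h3
    exact (isUnit_pow_iff (two_ne_zero)).mp h3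
  have hx'u : IsUnit x' := IsUnit.of_mul_eq_one x (by rw [mul_comm]; exact hx')
  set l : O := y * x' with hl
  have hlu : IsUnit l := hyu.mul hx'u
  have hyl : y = l * x := by
    rw [hl]
    linear_combination (-y) * hx'
  have hlx : π ∣ l ^ 2 - x := by
    have e : l ^ 2 - x = x' ^ 2 * (f.a * x ^ 2 + f.b * x + f.c) := by
      rw [hl]
      linear_combination (x' ^ 2) * hy + (x * x' * x + x) * hx'
    rw [e]
    exact hz.mul_left _
  obtain ⟨w, _, hw⟩ := hL.hensel4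
    (81 * l ^ 4 - (6 * x + 2 * f.a) * 9 * l ^ 2 - 24 * y * l +
      (f.a ^ 2 - 2 * f.a * x - 3 * x ^ 2 - 4 * f.b))
    (108 * l ^ 3 - (6 * x + 2 * f.a) * 6 * l - 8 * y)
    (54 * l ^ 2 - (6 * x + 2 * f.a)) (12 * l) 1
    (by
      have e : 81 * l ^ 4 - (6 * x + 2 * f.a) * 9 * l ^ 2 - 24 * y * l +
          (f.a ^ 2 - 2 * f.a * x - 3 * x ^ 2 - 4 * f.b) =
          (l ^ 2 - x) * (81 * l ^ 2 + 3 * x) + f.a * (f.a - 2 * x - 18 * l ^ 2) + f.b * (-4) := by
        rw [hyl]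
        ring
      rw [e]
      exact dvd_add (dvd_add (hlx.mul_right _) (ha.mul_right _)) (hb.mul_right _))
    (by
      have e : 108 * l ^ 3 - (6 * x + 2 * f.a) * 6 * l - 8 * y =
          2 ^ 6 * l ^ 3 + ((l ^ 2 - x) * (44 * l) + f.a * (-(12 * l))) := by
        rw [hyl]
        ring
      rw [e]
      exact cusp_unit_add hL ((h2u.pow 6).mul (hlu.pow 3))
        (dvd_add (hlx.mul_right _) (ha.mul_right _)))
  refine ⟨3 * l + w, ?_⟩
  simp only [Q4.ev, gp]
  linear_combination hw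

end Pool.Agent.H456.PP
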