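import Pool.Agent.H456.PP.Stm
import Pool.Agent.H456.BQ.T_dsq

/-!
(dloc) `S_dloc`: at most `3 Q⁴` monic cubics modulo `P²` have zero discriminant, `Q` the number of residue classes modulo `P`.

Let `ρ : R → κ` be the reduction. With `Δ'(c) = -54 c + 18 a b - 4 a³` one has `Δ'² + 108 Δ = 16 (a² - 3b)³`. If `a² - 3b` is a unit, the
cubic is determined by `(a, b)` and the choice of one of the two square roots of `16 ρ(a² - 3b)³`: at most `2 Q⁴` cubics. If `ρ(a² - 3b) = 0` then
either `3 ≠ 0` and `ρ b`, `ρ c` are determined by `a`, `b`, or `3 = 0` and `ρ a = ρ b = 0`: at most `Q⁴` cubics.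
-/

set_option autoImplicit false
set_option linter.all false

open Polynomial Finset Filter
open Pool.Agent.H456.EC (toK toK_inj sig toK_eq reflect_toK cls)
open Pool.Agent.H456.RN
open Pool.Agent.H456.BQ
open Pool.Agent.H456.Coh (TF)

namespace Pool.Agent.H456.PP

section cnt

variable {R κ : Type} [CommRing R] [Finite R] [Field κ] [Finite κ]

theorem dloc_fin : Finite (Cub R) := Finite.of_equiv _ (Cub.equiv R).symm

/-- the derivative of the discriminant with respect to the last coefficient -/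
def dlocD (g : Cub R) : R := -54 * g.c + 18 * g.a * g.b - 4 * g.a ^ 3

theorem dloc_id (g : Cub R) : dlocD g ^ 2 + 108 * g.disc = 16 * (g.a ^ 2 - 3 * g.b) ^ 3 := by
  simp only [dlocD, Cub.disc]
  ring

open Classical in
/-- a choice of square roots -/
noncomputable def dlocS (y : κ) : κ := if h : ∃ x : κ, x ^ 2 = y then h.choose else 0

theorem dlocS_spec (x : κ) : dlocS (x ^ 2) ^ 2 = x ^ 2 := by
  classical
  unfold dlocS
  have h : ∃ z : κ, z ^ 2 = x ^ 2 := ⟨x, rfl⟩
  rw [dif_pos h]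
  exact h.choose_spec

theorem dloc_one (ρ : R →+* κ) (hρ : Function.Surjective ρ) (hnil : ∀ x y, ρ x = 0 → ρ y = 0 → x * y = 0)
    (h2 : (2 : κ) ≠ 0) (Q : ℕ) (hR : Nat.card R ≤ Q ^ 2) :
    {g : Cub R | g.disc = 0 ∧ ρ (g.a ^ 2 - 3 * g.b) ≠ 0}.ncard ≤ 2 * Q ^ 4 := by
  classical
  haveI : Finite (Cub R) := dloc_fin
  have hU : (Set.univ : Set R).ncard ≤ Q ^ 2 := by rw [Set.ncard_univ]; exact hR
  have hB : (Set.univ : Set Bool).ncard = 2 := by
    rw [Set.ncard_univ, Nat.card_eq_fintype_card, Fintype.card_bool]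
  have hsq : ∀ g : Cub R, g.disc = 0 → (ρ (dlocD g)) ^ 2 = 16 * (ρ (g.a ^ 2 - 3 * g.b)) ^ 3 := by
    intro g hg
    have h := congrArg ρ (dloc_id g)
    rw [hg, mul_zero, add_zero, map_pow, map_mul, map_pow, map_ofNat] at h
    exact h
  have h16 : (16 : κ) ≠ 0 := by
    have : (16 : κ) = 2 ^ 4 := by norm_num
    rw [this]
    exact pow_ne_zero 4 h2
  have h := Set.ncard_le_ncard_of_injOn (s := {g : Cub R | g.disc = 0 ∧ ρ (g.a ^ 2 - 3 * g.b) ≠ 0})
    (t := (Set.univ : Set R) ×ˢ (Set.univ : Set R) ×ˢ (Set.univ : Set Bool))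
    (fun g => (g.a, g.b, decide (ρ (dlocD g) = dlocS (16 * (ρ (g.a ^ 2 - 3 * g.b)) ^ 3)))) (fun g hg => by
      simp only [Set.mem_prod, Set.mem_univ, and_true]) (by
      intro g hg g' hg' h
      simp only [Prod.mk.injEq] at h
      obtain ⟨ha, hb, hbit⟩ := h
      obtain ⟨hd, hu⟩ := hg
      obtain ⟨hd', hu'⟩ := hg'
      have e1 := hsq g hd
      have e2 := hsq g' hd'
      rw [ha, hb] at e1 hbit
      set y := 16 * (ρ (g'.a ^ 2 - 3 * g'.b)) ^ 3 with hy
      have hy0 : y ≠ 0 := mul_ne_zero h16 (pow_ne_zero 3 hu')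
      have e3 : dlocS y ^ 2 = y := by
        have := dlocS_spec (ρ (dlocD g))
        rw [e1] at this
        exact this
      have e4 : ρ (dlocD g) = ρ (dlocD g') := by
        by_cases hc : ρ (dlocD g) = dlocS y
        · have hc' : ρ (dlocD g') = dlocS y := by
            have : decide (ρ (dlocD g') = dlocS y) = true := by
              rw [← hbit]
              exact decide_eq_true hc
            exact of_decide_eq_true this
          rw [hc, hc']
        · have hc' : ¬ ρ (dlocD g') = dlocS y := by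
            have : decide (ρ (dlocD g') = dlocS y) = false := by
              rw [← hbit]
              exact decide_eq_false hc
            exact of_decide_eq_false this
          have n1 : ρ (dlocD g) = - dlocS y :=
            (sq_eq_sq_iff_eq_or_eq_neg.mp (e1.trans e3.symm)).resolve_left hc
          have n2 : ρ (dlocD g') = - dlocS y :=
            (sq_eq_sq_iff_eq_or_eq_neg.mp (e2.trans e3.symm)).resolve_left hc'
          rw [n1, n2]
      have e0 : ρ (dlocD g') ≠ 0 := by
        intro h0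
        rw [h0] at e2
        apply hy0
        rw [← e2]
        ring
      have hm : IsUnit (dlocD g + dlocD g') := by
        apply dsq_unit ρ hρ hnil
        rw [map_add, e4, ← two_mul]
        exact mul_ne_zero h2 e0
      have hdiff : (dlocD g + dlocD g') * (g.c - g'.c) = 0 := by
        have h5 : g.disc - g'.disc = 0 := by rw [hd, hd', sub_zero]
        have h6 : (dlocD g + dlocD g') * (g.c - g'.c) = 2 * (g.disc - g'.disc) := by
          simp only [dlocD, Cub.disc, ha, hb]
          ring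
        rw [h6, h5, mul_zero]
      have hc : g.c = g'.c := sub_eq_zero.mp (hm.mul_right_eq_zero.1 hdiff)
      ext
      · exact ha
      · exact hb
      · exact hc) (Set.toFinite _)
  refine h.trans ?_
  rw [Set.ncard_prod, Set.ncard_prod, hB]
  calc (Set.univ : Set R).ncard * ((Set.univ : Set R).ncard * 2) ≤ Q ^ 2 * (Q ^ 2 * 2) := by gcongr
    _ = 2 * Q ^ 4 := by ring

theorem dloc_two (ρ : R →+* κ) (hρ : Function.Surjective ρ) (hnil : ∀ x y, ρ x = 0 → ρ y = 0 → x * y = 0)
    (h2 : (2 : κ) ≠ 0) (Q : ℕ) (hK : {x : R | ρ x = 0}.ncard ≤ Q) (hR : Nat.card R ≤ Q ^ 2) :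
    {g : Cub R | g.disc = 0 ∧ ρ (g.a ^ 2 - 3 * g.b) = 0}.ncard ≤ Q ^ 4 := by
  haveI : Finite (Cub R) := dloc_fin
  set K : Set R := {x : R | ρ x = 0} with hKdef
  have hU : (Set.univ : Set R).ncard ≤ Q ^ 2 := by rw [Set.ncard_univ]; exact hR
  by_cases h3 : (3 : κ) = 0
  · have h := Set.ncard_le_ncard_of_injOn (s := {g : Cub R | g.disc = 0 ∧ ρ (g.a ^ 2 - 3 * g.b) = 0})
      (t := K ×ˢ K ×ˢ (Set.univ : Set R))
      (fun g => (g.a, g.b, g.c)) (fun g hg => by
        simp only [Set.mem_prod, Set.mem_univ, and_true]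
        obtain ⟨hd, hu⟩ := hg
        rw [map_sub, map_mul, map_ofNat, map_pow, h3, zero_mul, sub_zero] at hu
        have ha : ρ g.a = 0 := pow_eq_zero_iff (by norm_num) |>.mp hu
        refine ⟨ha, ?_⟩
        have h5 := congrArg ρ hd
        simp only [Cub.disc, map_sub, map_add, map_mul, map_pow, map_ofNat, map_zero, ha] at h5
        have h27 : (27 : κ) = 0 := by
          have : (27 : κ) = 3 * 9 := by norm_num
          rw [this, h3, zero_mul]
        rw [h27] at h5
        have h4 : (4 : κ) ≠ 0 := by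
          have : (4 : κ) = 2 * 2 := by norm_num
          rw [this]; exact mul_ne_zero h2 h2
        have h6 : 4 * (ρ g.b) ^ 3 = 0 := by linear_combination -h5
        have h7 := (mul_eq_zero.mp h6).resolve_left h4
        exact pow_eq_zero_iff (by norm_num) |>.mp h7) (by
        intro g hg g' hg' h
        simp only [Prod.mk.injEq] at h
        obtain ⟨h0, h1, h2⟩ := h
        ext
        · exact h0
        · exact h1
        · exact h2) (Set.toFinite _)
    refine h.trans ?_
    rw [Set.ncard_prod, Set.ncard_prod]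
    calc K.ncard * (K.ncard * (Set.univ : Set R).ncard) ≤ Q * (Q * Q ^ 2) := by gcongr
      _ = Q ^ 4 := by ring
  · choose s hs using hρ
    have h54 : (54 : κ) ≠ 0 := by
      have : (54 : κ) = 2 * 3 ^ 3 := by norm_num
      rw [this]
      exact mul_ne_zero h2 (pow_ne_zero 3 h3)
    have h := Set.ncard_le_ncard_of_injOn (s := {g : Cub R | g.disc = 0 ∧ ρ (g.a ^ 2 - 3 * g.b) = 0})
      (t := (Set.univ : Set R) ×ˢ K ×ˢ K)
      (fun g => (g.a, g.b - s (ρ g.a ^ 2 / 3), g.c - s (ρ (18 * g.a * g.b - 4 * g.a ^ 3) / 54))) (fun g hg => by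
        simp only [Set.mem_prod, Set.mem_univ, true_and]
        obtain ⟨hd, hu⟩ := hg
        refine ⟨?_, ?_⟩
        · show ρ (g.b - s (ρ g.a ^ 2 / 3)) = 0
          rw [map_sub, hs, sub_eq_zero, eq_div_iff h3]
          rw [map_sub, map_mul, map_ofNat, map_pow] at hu
          linear_combination -hu
        · show ρ (g.c - s (ρ (18 * g.a * g.b - 4 * g.a ^ 3) / 54)) = 0
          rw [map_sub, hs, sub_eq_zero, eq_div_iff h54]
          have h5 := congrArg ρ (dloc_id g)
          rw [hd, mul_zero, add_zero, map_pow, map_mul, map_pow, hu] at h5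
          have h6 : ρ (dlocD g) = 0 := by
            have : ρ (dlocD g) ^ 2 = 0 := by rw [h5]; ring
            exact pow_eq_zero_iff (by norm_num) |>.mp this
          simp only [dlocD, map_sub, map_add, map_mul, map_neg, map_pow, map_ofNat] at h6 ⊢
          linear_combination -h6) (by
        intro g hg g' hg' h
        simp only [Prod.mk.injEq] at h
        obtain ⟨h0, h1, h2⟩ := h
        rw [h0] at h1
        have h4 : g.b = g'.b := sub_left_inj.1 h1
        rw [h0, h4] at h2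
        ext
        · exact h0
        · exact h4
        · exact sub_left_inj.1 h2) (Set.toFinite _)
    refine h.trans ?_
    rw [Set.ncard_prod, Set.ncard_prod]
    calc (Set.univ : Set R).ncard * (K.ncard * K.ncard) ≤ Q ^ 2 * (Q * Q) := by gcongr
      _ = Q ^ 4 := by ring

theorem dloc_abs (ρ : R →+* κ) (hρ : Function.Surjective ρ) (hnil : ∀ x y, ρ x = 0 → ρ y = 0 → x * y = 0)
    (h2 : (2 : κ) ≠ 0) (Q : ℕ) (hK : {x : R | ρ x = 0}.ncard ≤ Q) (hR : Nat.card R ≤ Q ^ 2) :
    {g : Cub R | g.disc = 0}.ncard ≤ 3 * Q ^ 4 := by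
  haveI : Finite (Cub R) := dloc_fin
  have hsub : {g : Cub R | g.disc = 0} ⊆ {g : Cub R | g.disc = 0 ∧ ρ (g.a ^ 2 - 3 * g.b) ≠ 0} ∪
      {g : Cub R | g.disc = 0 ∧ ρ (g.a ^ 2 - 3 * g.b) = 0} := by
    intro g hg
    by_cases h : ρ (g.a ^ 2 - 3 * g.b) = 0
    · exact Or.inr ⟨hg, h⟩
    · exact Or.inl ⟨hg, h⟩
  calc {g : Cub R | g.disc = 0}.ncard ≤ _ := Set.ncard_le_ncard hsub (Set.toFinite _)
    _ ≤ _ := Set.ncard_union_le _ _
    _ ≤ 2 * Q ^ 4 + Q ^ 4 := by
      gcongr
      · exact dloc_one ρ hρ hnil h2 Q hR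
      · exact dloc_two ρ hρ hnil h2 Q hK hR
    _ = 3 * Q ^ 4 := by ring

end cnt

theorem t_dloc : S_dloc := by
  intro F _ _ h2 P
  haveI hmax : (Ideal.span {P.1} : Ideal F[X]).IsMaximal :=
    PrincipalIdealRing.isMaximal_of_irreducible P.2.2
  letI : Field (Rq P.1) := Ideal.Quotient.field _
  haveI : Finite (Rq P.1) := finite_Rq P.2.1
  haveI : Finite (Rq (P.1 ^ 2)) := finite_Rq (P.2.1.pow 2)
  have hle : (Ideal.span {P.1 ^ 2} : Ideal F[X]) ≤ Ideal.span {P.1} := by
    rw [Ideal.span_singleton_le_span_singleton]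
    exact dvd_pow_self _ two_ne_zero
  set ρ : Rq (P.1 ^ 2) →+* Rq P.1 := Ideal.Quotient.factor hle with hρ
  have hρmk : ∀ a : F[X], ρ (Ideal.Quotient.mk _ a) = Ideal.Quotient.mk _ a := fun a => rfl
  have hsurj : Function.Surjective ρ := by
    intro y
    obtain ⟨a, rfl⟩ := Ideal.Quotient.mk_surjective y
    exact ⟨Ideal.Quotient.mk _ a, rfl⟩
  have hnil : ∀ x y, ρ x = 0 → ρ y = 0 → x * y = 0 := by
    intro x y hx hy
    obtain ⟨a, rfl⟩ := Ideal.Quotient.mk_surjective x
    obtain ⟨b, rfl⟩ := Ideal.Quotient.mk_surjective y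
    rw [hρmk, BQ.mk_zero] at hx hy
    rw [← map_mul, BQ.mk_zero, pow_two]
    exact mul_dvd_mul hx hy
  have h2' : (2 : Rq P.1) ≠ 0 := by
    have h3 : (2 : Rq P.1) = Ideal.Quotient.mk _ (C (2 : F)) := by
      rw [C_ofNat, map_ofNat]
    rw [h3, Ne, BQ.mk_zero]
    intro h4
    have h5 : IsUnit (C (2 : F)) := isUnit_C.2 (IsUnit.mk0 _ h2)
    exact P.2.2.not_isUnit (isUnit_of_dvd_unit h4 h5)
  have hcard : Nat.card (Rq P.1) = Fintype.card F ^ P.1.natDegree := dsq_cardRq P.2.1
  have hcard2 : Nat.card (Rq (P.1 ^ 2)) ≤ (Fintype.card F ^ P.1.natDegree) ^ 2 := by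
    rw [dsq_cardRq (P.2.1.pow 2), P.2.1.natDegree_pow, ← pow_mul]
    apply le_of_eq
    congr 1
    ring
  have hK : {x : Rq (P.1 ^ 2) | ρ x = 0}.ncard ≤ Fintype.card F ^ P.1.natDegree := by
    rw [← hcard]
    choose lf hlf using (Ideal.Quotient.mk_surjective (I := Ideal.span {P.1}))
    have hs : {x : Rq (P.1 ^ 2) | ρ x = 0} ⊆
        (fun t : Rq P.1 => (Ideal.Quotient.mk (Ideal.span {P.1 ^ 2}) (P.1 * lf t) : Rq (P.1 ^ 2))) '' Set.univ := by
      intro x hx
      obtain ⟨a, rfl⟩ := Ideal.Quotient.mk_surjective x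
      have hx' : ρ (Ideal.Quotient.mk _ a) = 0 := hx
      rw [hρmk, BQ.mk_zero] at hx'
      obtain ⟨b, rfl⟩ := hx'
      refine ⟨Ideal.Quotient.mk _ b, Set.mem_univ _, ?_⟩
      show (Ideal.Quotient.mk (Ideal.span {P.1 ^ 2}) (P.1 * lf (Ideal.Quotient.mk _ b)) : Rq (P.1 ^ 2)) =
        Ideal.Quotient.mk _ (P.1 * b)
      rw [mk_eq, ← mul_sub, pow_two]
      exact mul_dvd_mul_left _ (mk_eq.1 (hlf _))
    refine (Set.ncard_le_ncard hs (Set.toFinite _)).trans ((Set.ncard_image_le (Set.toFinite _)).trans ?_)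
    rw [Set.ncard_univ]
  have h := dloc_abs ρ hsurj hnil h2' _ hK hcard2
  exact_mod_cast h

end Pool.Agent.H456.PP
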