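import Pool.Agent.H456.PP.Stm

/-!
(ff1) `S_ff1`: over a finite field of odd characteristic a quartic whose resolvent cubic has no root has a root on the projective line.
-/

set_option autoImplicit false
set_option linter.all false

open Polynomial Finset Filter
open Pool.Agent.H456.EC (toK toK_inj sig toK_eq reflect_toK cls)
open Pool.Agent.H456.RN
open Pool.Agent.H456.BQ
open Pool.Agent.H456.Coh (TF)

namespace Pool.Agent.H456.PP

theorem ff1_fix {κ Ω : Type} [Field κ] [Fintype κ] [Field Ω] [Algebra κ Ω] (x : Ω)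
    (hx : x ^ Fintype.card κ = x) : ∃ t : κ, algebraMap κ Ω t = x := by
  classical
  by_contra hcon
  push Not at hcon
  have hq : 1 < Fintype.card κ := Fintype.one_lt_card
  have hinj : Function.Injective (algebraMap κ Ω) := (algebraMap κ Ω).injective
  have hni : x ∉ (univ : Finset κ).image (algebraMap κ Ω) := by
    intro h
    rw [mem_image] at h
    obtain ⟨t, -, ht⟩ := h
    exact hcon t ht
  have hcard : (insert x ((univ : Finset κ).image (algebraMap κ Ω))).card = Fintype.card κ + 1 := by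
    rw [card_insert_of_notMem hni, card_image_of_injective _ hinj, card_univ]
  have h0 : (X ^ Fintype.card κ - X : Polynomial Ω) = 0 := by
    apply Polynomial.eq_zero_of_natDegree_lt_card_of_eval_eq_zero' _
      (insert x ((univ : Finset κ).image (algebraMap κ Ω)))
    · intro i hi
      rw [mem_insert, mem_image] at hi
      rcases hi with rfl | ⟨t, -, rfl⟩
      · simp [hx]
      · simp only [eval_sub, eval_pow, eval_X]
        rw [← map_pow, FiniteField.pow_card, sub_self]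
    · rw [hcard, FiniteField.X_pow_card_sub_X_natDegree_eq Ω hq]
      exact Nat.lt_succ_self _
  exact FiniteField.X_pow_card_sub_X_ne_zero Ω hq h0

theorem ff1_vieta {Ω : Type} [Field Ω] (a b c x y z : Ω) (hxy : x ≠ y) (hxz : x ≠ z) (hyz : y ≠ z)
    (hx : x ^ 3 + a * x ^ 2 + b * x + c = 0) (hy : y ^ 3 + a * y ^ 2 + b * y + c = 0)
    (hz : z ^ 3 + a * z ^ 2 + b * z + c = 0) :
    x + y + z = -a ∧ x * y + x * z + y * z = b ∧ x * y * z = -c := by
  have h1 : x ^ 2 + x * y + y ^ 2 + a * (x + y) + b = 0 := by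
    apply mul_left_cancel₀ (sub_ne_zero.mpr hxy)
    linear_combination hx - hy
  have h2 : x ^ 2 + x * z + z ^ 2 + a * (x + z) + b = 0 := by
    apply mul_left_cancel₀ (sub_ne_zero.mpr hxz)
    linear_combination hx - hz
  have h3 : x + y + z + a = 0 := by
    apply mul_left_cancel₀ (sub_ne_zero.mpr hyz)
    linear_combination h1 - h2
  have h4 : x * y + x * z + y * z = b := by
    linear_combination (x + y) * h3 - h1
  refine ⟨by linear_combination h3, h4, ?_⟩
  linear_combination hx - x ^ 2 * h3 + x * h4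

theorem ff1_eval {κ Ω : Type} [Field κ] [Field Ω] (a b c : κ) (φ : κ →+* Ω) (x : Ω) :
    eval₂ φ x (Polynomial.C 1 * X ^ 3 + Polynomial.C a * X ^ 2 + Polynomial.C b * X + Polynomial.C c) =
      x ^ 3 + φ a * x ^ 2 + φ b * x + φ c := by
  simp only [eval₂_add, eval₂_mul, eval₂_C, eval₂_pow, eval₂_X, map_one, eval₂_one, one_mul]

theorem ff1_main {κ : Type} [Field κ] [Fintype κ] (h2 : (2 : κ) ≠ 0) (f : Cub κ) (hf : ∀ r, f.ev r ≠ 0)
    (s : Q4 κ × κ) (hs : s.1.res = (f.sc 4).tr s.2) : HasRt s.1 := by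
  classical
  obtain ⟨a, b, c⟩ := f
  obtain ⟨⟨A, B, C', D, E⟩, ρ⟩ := s
  simp only [Q4.res, Cub.sc, Cub.tr, Cub.mk.injEq] at hs
  obtain ⟨hC, hb, hc⟩ := hs
  by_cases hA : A = 0
  · refine ⟨1, 0, ?_, ?_⟩
    · rintro ⟨h, -⟩
      exact one_ne_zero h
    · simp only [Q4.ev]
      rw [hA]
      ring
  subst hC
  have h4 : (4 : κ) ≠ 0 := by
    have : (4 : κ) = 2 ^ 2 := by norm_num
    rw [this]
    exact pow_ne_zero 2 h2
  have h16 : (16 : κ) ≠ 0 := by
    have : (16 : κ) = 2 ^ 4 := by norm_num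
    rw [this]
    exact pow_ne_zero 4 h2
  -- the cubic polynomial
  set p : κ[X] := Polynomial.C 1 * X ^ 3 + Polynomial.C a * X ^ 2 + Polynomial.C b * X + Polynomial.C c with hp
  have hpd : p.natDegree = 3 := natDegree_cubic one_ne_zero
  have hp0 : p ≠ 0 := by
    intro h
    rw [h, natDegree_zero] at hpd
    omega
  have hirr : Irreducible p := by
    rw [Polynomial.irreducible_iff_roots_eq_zero_of_degree_le_three (by omega) (by omega)]
    rw [Multiset.eq_zero_iff_forall_notMem]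
    intro r hr
    rw [mem_roots hp0] at hr
    apply hf r
    simp only [Cub.ev]
    have := hr
    rw [IsRoot.def, hp] at this
    simp only [eval_add, eval_mul, eval_C, eval_pow, eval_X] at this
    linear_combination this
  have : Fact (Irreducible p) := ⟨hirr⟩
  let Ω := AdjoinRoot p
  have hfd : Module.Finite κ Ω := (AdjoinRoot.powerBasis hp0).finite
  have hfr : Module.finrank κ Ω = 3 := by
    rw [(AdjoinRoot.powerBasis hp0).finrank, AdjoinRoot.powerBasis_dim, hpd]
  have hfin : Finite Ω := Module.finite_of_finite κ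
  have hft : Fintype Ω := Fintype.ofFinite Ω
  set q := Fintype.card κ with hq
  have hcard : Fintype.card Ω = q ^ 3 := by
    rw [Module.card_eq_pow_finrank (K := κ), hfr]
  let σ : Ω →ₐ[κ] Ω := FiniteField.frobeniusAlgHom κ Ω
  have hσ : ∀ x : Ω, σ x = x ^ q := fun x => rfl
  have hσ3 : ∀ x : Ω, σ (σ (σ x)) = x := by
    intro x
    rw [hσ, hσ, hσ, ← pow_mul, ← pow_mul]
    have : x ^ Fintype.card Ω = x := FiniteField.pow_card x
    rw [hcard] at this
    have e : q * (q * q) = q ^ 3 := by ring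
    rw [e]
    exact this
  have hfix : ∀ x : Ω, σ x = x → ∃ t : κ, algebraMap κ Ω t = x := fun x hx => ff1_fix x hx
  let θ : Ω := AdjoinRoot.root p
  have hθ : θ ^ 3 + algebraMap κ Ω a * θ ^ 2 + algebraMap κ Ω b * θ + algebraMap κ Ω c = 0 := by
    exact (ff1_eval a b c (AdjoinRoot.of p) θ).symm.trans (AdjoinRoot.eval₂_root p)
  have hθκ : ∀ t : κ, algebraMap κ Ω t ≠ θ := by
    intro t ht
    rw [← ht] at hθ
    apply hf t
    simp only [Cub.ev]
    apply (algebraMap κ Ω).injective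
    rw [map_zero, ← hθ]
    simp only [map_add, map_mul, map_pow]
  have hθ1 : σ θ ≠ θ := by
    intro h
    obtain ⟨t, ht⟩ := hfix θ h
    exact hθκ t ht
  have hθ2 : σ (σ θ) ≠ θ := by
    intro h
    apply hθ1
    have := hσ3 θ
    rw [h] at this
    exact this
  have hθ12 : σ (σ θ) ≠ σ θ := fun h => hθ1 (σ.toRingHom.injective h)
  have hroot : ∀ x : Ω, x ^ 3 + algebraMap κ Ω a * x ^ 2 + algebraMap κ Ω b * x + algebraMap κ Ω c = 0 →
      (σ x) ^ 3 + algebraMap κ Ω a * (σ x) ^ 2 + algebraMap κ Ω b * (σ x) + algebraMap κ Ω c = 0 := by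
    intro x hx
    have := congrArg σ hx
    simp only [map_add, map_mul, map_pow, map_zero, AlgHom.commutes] at this
    exact this
  obtain ⟨v1, v2, v3⟩ := ff1_vieta _ _ _ θ (σ θ) (σ (σ θ)) hθ1.symm hθ2.symm hθ12.symm hθ (hroot _ hθ)
    (hroot _ (hroot _ hθ))
  -- the classes
  set h : κ := B ^ 2 - 4 * A * (4 * a + 3 * ρ) + 4 * A * ρ with hh'
  set S : κ := B ^ 3 - 4 * A * B * (4 * a + 3 * ρ) + 8 * A ^ 2 * D with hS
  have hnorm : h ^ 3 + 16 * A * a * h ^ 2 + 256 * A ^ 2 * b * h + 4096 * A ^ 3 * c = S ^ 2 := by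
    rw [hh', hS]
    linear_combination (-(16 * A ^ 2 * (B ^ 2 - 4 * A * (4 * a + 3 * ρ) + 4 * A * ρ)) + 64 * A ^ 3 * ρ) * hb + (-(64 * A ^ 3)) * hc
  have h2Ω : (2 : Ω) ≠ 0 := by
    have : (2 : Ω) = algebraMap κ Ω 2 := by rw [map_ofNat]
    rw [this]
    exact fun h => h2 ((algebraMap κ Ω).injective (by rw [h, map_zero]))
  have h16Ω : (16 : Ω) ≠ 0 := by
    have : (16 : Ω) = 2 ^ 4 := by norm_num
    rw [this]
    exact pow_ne_zero 4 h2Ω
  have hAΩ : algebraMap κ Ω A ≠ 0 := fun h => hA ((algebraMap κ Ω).injective (by rw [h, map_zero]))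
  set ξ : Ω := algebraMap κ Ω h - 16 * algebraMap κ Ω A * θ with hξ
  have hσξ : σ ξ = algebraMap κ Ω h - 16 * algebraMap κ Ω A * σ θ := by
    rw [hξ]
    simp only [map_sub, map_mul, AlgHom.commutes, map_ofNat]
  have hσσξ : σ (σ ξ) = algebraMap κ Ω h - 16 * algebraMap κ Ω A * σ (σ θ) := by
    rw [hσξ]
    simp only [map_sub, map_mul, AlgHom.commutes, map_ofNat]
  have hξ0 : ξ ≠ 0 := by
    intro h0
    apply hθκ (h / (16 * A))
    rw [map_div₀, map_mul, map_ofNat]
    rw [hξ] at h0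
    rw [div_eq_iff (mul_ne_zero h16Ω hAΩ)]
    linear_combination h0
  have hprod : ξ * σ ξ * σ (σ ξ) = algebraMap κ Ω (S ^ 2) := by
    rw [hσσξ, hσξ, hξ, ← hnorm]
    simp only [map_add, map_mul, map_pow, map_ofNat]
    linear_combination (-(16 * algebraMap κ Ω A * (algebraMap κ Ω h) ^ 2)) * v1 +
      256 * (algebraMap κ Ω A) ^ 2 * algebraMap κ Ω h * v2 - 4096 * (algebraMap κ Ω A) ^ 3 * v3
  have hS0 : S ≠ 0 := by
    intro h0
    rw [h0] at hprod
    simp only [ne_eq, OfNat.ofNat_ne_zero, not_false_eq_true, zero_pow, map_zero] at hprod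
    have h1 : σ ξ ≠ 0 := fun h => hξ0 (σ.toRingHom.injective (by simpa using h))
    have h2' : σ (σ ξ) ≠ 0 := fun h => h1 (σ.toRingHom.injective (by simpa using h))
    exact mul_ne_zero (mul_ne_zero hξ0 h1) h2' hprod
  have hsq : IsSquare ξ := by
    have hrc : ringChar Ω ≠ 2 := by
      intro h
      apply h2Ω
      have := ringChar.Nat.cast_ringChar (R := Ω)
      rw [h] at this
      exact_mod_cast this
    have hrcκ : ringChar κ ≠ 2 := by
      intro h
      apply h2
      have := ringChar.Nat.cast_ringChar (R := κ)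
      rw [h] at this
      exact_mod_cast this
    rw [FiniteField.isSquare_iff hrc hξ0, hcard]
    have hodd : q % 2 = 1 := FiniteField.odd_card_of_char_ne_two hrcκ
    obtain ⟨m, hm⟩ : ∃ m, q = 2 * m + 1 := ⟨q / 2, by omega⟩
    have e1 : q ^ 3 / 2 = (1 + q + q * q) * m := by
      have : q ^ 3 = 2 * ((1 + q + q * q) * m) + 1 := by
        rw [hm]; ring
      rw [this]
      omega
    rw [e1, pow_mul]
    have e2 : ξ ^ (1 + q + q * q) = ξ * σ ξ * σ (σ ξ) := by
      rw [hσ, hσ, pow_add, pow_add, pow_one, ← pow_mul]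
    rw [e2, hprod, ← map_pow, ← pow_mul]
    have e3 : 2 * m = q - 1 := by omega
    rw [e3, FiniteField.pow_card_sub_one_eq_one S hS0, map_one]
  -- the square root with the right sign
  have hτ : ∃ τ : Ω, τ ^ 2 = ξ ∧ τ * σ τ * σ (σ τ) = - algebraMap κ Ω S := by
    obtain ⟨τ, hτ⟩ := hsq
    have h1 : (τ * σ τ * σ (σ τ)) ^ 2 = (algebraMap κ Ω S) ^ 2 := by
      rw [← map_pow, ← hprod, hτ, map_mul, map_mul]
      ring
    rcases sq_eq_sq_iff_eq_or_eq_neg.mp h1 with h3 | h3
    · refine ⟨-τ, by rw [hτ]; ring, ?_⟩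
      simp only [map_neg]
      rw [← h3]
      ring
    · exact ⟨τ, by rw [hτ]; ring, h3⟩
  obtain ⟨τ, hτ2, hτ3⟩ := hτ
  have hτ2' : (σ τ) ^ 2 = σ ξ := by rw [← map_pow, hτ2]
  have hτ2'' : (σ (σ τ)) ^ 2 = σ (σ ξ) := by rw [← map_pow, hτ2']
  obtain ⟨t, ht⟩ := hfix (τ + σ τ + σ (σ τ)) (by
    rw [map_add, map_add, hσ3]
    ring)
  have hkey : (t ^ 2 - (3 * h + 16 * A * a)) ^ 2 - 4 * (3 * h ^ 2 + 32 * A * a * h + 256 * A ^ 2 * b) + 8 * S * t = 0 := by
    apply (algebraMap κ Ω).injective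
    simp only [map_sub, map_add, map_mul, map_pow, map_ofNat, map_zero]
    rw [ht]
    set x := τ with hx
    set y := σ τ with hy
    set z := σ (σ τ) with hz
    rw [hσξ] at hτ2'
    rw [hσσξ] at hτ2''
    rw [hξ] at hτ2
    have hs1 : (x + y + z) ^ 2 - (3 * algebraMap κ Ω h + 16 * algebraMap κ Ω A * algebraMap κ Ω a) =
        2 * (x * y + x * z + y * z) := by
      linear_combination hτ2 + hτ2' + hτ2'' - 16 * algebraMap κ Ω A * v1
    rw [hs1]
    have hs2 : x ^ 2 * y ^ 2 + x ^ 2 * z ^ 2 + y ^ 2 * z ^ 2 = 3 * algebraMap κ Ω h ^ 2 +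
        32 * algebraMap κ Ω A * algebraMap κ Ω a * algebraMap κ Ω h + 256 * algebraMap κ Ω A ^ 2 * algebraMap κ Ω b := by
      rw [hτ2, hτ2', hτ2'']
      linear_combination (-(32 * algebraMap κ Ω A * algebraMap κ Ω h)) * v1 + 256 * algebraMap κ Ω A ^ 2 * v2
    linear_combination 4 * hs2 + 8 * (x + y + z) * hτ3
  refine ⟨(t - B) / (4 * A), 1, ?_, ?_⟩
  · rintro ⟨-, h⟩
    exact one_ne_zero h
  · simp only [Q4.ev]
    apply mul_left_cancel₀ (mul_ne_zero (pow_ne_zero 2 h16) (pow_ne_zero 3 hA))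
    rw [mul_zero, ← hkey, hh', hS]
    field_simp
    linear_combination (-(16384 * A ^ 2)) * hb

theorem t_ff1 : S_ff1 := by
  intro κ _ _ hκ h2 f hf s hs
  letI := hκ.toField
  exact ff1_main h2 f hf s hs

end Pool.Agent.H456.PP
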