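import Pool.Agent.H456.PP.Stm

/-!
(ff2) `S_ff2`: over a finite field a quartic with a root whose resolvent has exactly one root (and nonzero discriminant) has exactly two roots on the projective line.
-/

set_option autoImplicit false
set_option linter.all false

open Polynomial Finset Filter
open Pool.Agent.H456.EC (toK toK_inj sig toK_eq reflect_toK cls)
open Pool.Agent.H456.RN
open Pool.Agent.H456.BQ
open Pool.Agent.H456.Coh (TF)

namespace Pool.Agent.H456.PP

theorem ff2_main {κ : Type} [Field κ] [Fintype κ] (h2 : (2 : κ) ≠ 0) (f : Cub κ) (hd : f.disc ≠ 0)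
    (hr : ∃ r, f.ev r = 0) (hu : ∀ r r', f.ev r = 0 → f.ev r' = 0 → r = r')
    (s : Q4 κ × κ) (hs : s.1.res = (f.sc 4).tr s.2) (hrt : HasRt s.1) : nr s.1 = 2 := by
  classical
  obtain ⟨g, ρ⟩ := s
  simp only at hs hrt ⊢
  have h4 : (4 : κ) ≠ 0 := by
    have : (4 : κ) = 2 ^ 2 := by norm_num
    rw [this]
    exact pow_ne_zero 2 h2
  have hdisc : g.res.disc ≠ 0 := by
    rw [hs, Cub.disc_tr, Cub.disc_sc]
    exact mul_ne_zero (pow_ne_zero 6 h4) hd
  have hev : ∀ x, g.res.ev x = 64 * f.ev ((x + ρ) / 4) := by
    intro x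
    rw [hs, Cub.ev_tr]
    simp only [Cub.ev, Cub.sc]
    field_simp
    ring
  have h64 : (64 : κ) ≠ 0 := by
    have : (64 : κ) = 4 ^ 3 := by norm_num
    rw [this]
    exact pow_ne_zero 3 h4
  obtain ⟨x0, hx0, hx0u⟩ : ∃ x0, g.res.ev x0 = 0 ∧ ∀ x, g.res.ev x = 0 → x = x0 := by
    obtain ⟨r, hr⟩ := hr
    refine ⟨4 * r - ρ, ?_, ?_⟩
    · rw [hev]
      have : (4 * r - ρ + ρ) / 4 = r := by field_simp; ring
      rw [this, hr, mul_zero]
    · intro x hx
      rw [hev] at hx
      have h1 : f.ev ((x + ρ) / 4) = 0 := (mul_eq_zero.mp hx).resolve_left h64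
      have h3 := hu _ _ h1 hr
      rw [div_eq_iff h4] at h3
      linear_combination h3
  unfold nr
  by_cases hA : g.A = 0
  · rw [if_pos hA]
    have hB : g.B ≠ 0 := by
      intro hB
      apply hdisc
      simp only [Q4.res, Cub.disc, hA, hB]
      ring
    have hevB : ∀ u, g.res.ev (g.B * u) = g.B ^ 2 * g.ev u 1 := by
      intro u
      simp only [Q4.res, Cub.ev, Q4.ev, hA]
      ring
    have : (univ : Finset κ).filter (fun u => g.ev u 1 = 0) = {x0 / g.B} := by
      ext u
      rw [mem_filter, mem_singleton]
      constructor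
      · rintro ⟨-, h⟩
        have h1 := hevB u
        rw [h, mul_zero] at h1
        rw [← hx0u _ h1]
        field_simp
      · intro h
        refine ⟨mem_univ _, ?_⟩
        have h1 := hevB u
        have h3 : g.B * u = x0 := by
          rw [h]; field_simp
        rw [h3, hx0] at h1
        exact (mul_eq_zero.mp h1.symm).resolve_left (pow_ne_zero 2 hB)
    rw [this, card_singleton]
  · rw [if_neg hA]
    obtain ⟨u1, v1, huv, h1⟩ := hrt
    have hv1 : v1 ≠ 0 := by
      intro hv
      rw [hv] at h1
      simp only [Q4.ev] at h1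
      have h3 : g.A * u1 ^ 4 = 0 := by linear_combination h1
      have h5 : u1 = 0 := by
        rcases mul_eq_zero.mp h3 with h | h
        · exact absurd h hA
        · exact pow_eq_zero_iff (by norm_num) |>.mp h
      exact huv ⟨h5, hv⟩
    set u0 := u1 / v1 with hu0
    have hu0r : g.ev u0 1 = 0 := by
      have : v1 ^ 4 * g.ev u0 1 = g.ev u1 v1 := by
        simp only [Q4.ev, hu0]
        field_simp
      rw [h1] at this
      exact (mul_eq_zero.mp this).resolve_left (pow_ne_zero 4 hv1)
    set M : M2 κ := ⟨1, u0, 0, 1⟩ with hM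
    set g' := g.sub M with hg'
    have hdet : M.det = 1 := by simp [hM, M2.det]
    have hres : g'.res = g.res.tr (g.tau M) := by
      rw [hg', Q4.res_sub, hdet, one_pow, Cub.sc_one]
    have hA' : g'.A = g.A := by
      simp only [hg', hM, Q4.sub]; ring
    have hE' : g'.E = 0 := by
      rw [← hu0r]
      simp only [hg', hM, Q4.sub, Q4.ev]; ring
    have hevs : ∀ w, g.ev (u0 + w) 1 = g'.ev w 1 := by
      intro w
      rw [hg', Q4.ev_sub, hM]
      simp only
      congr 1
      · ring
      · ring
    have hd' : g'.res.disc ≠ 0 := by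
      rw [hres, Cub.disc_tr]
      exact hdisc
    have hD' : g'.D ≠ 0 := by
      intro hD
      apply hd'
      simp only [Q4.res, Cub.disc, hD, hE']
      ring
    set y0 := x0 - g.tau M with hy0
    have hy0r : g'.res.ev y0 = 0 := by
      rw [hres, Cub.ev_tr, hy0]
      have : x0 - g.tau M + g.tau M = x0 := by ring
      rw [this, hx0]
    have hy0u : ∀ y, g'.res.ev y = 0 → y = y0 := by
      intro y hy
      rw [hres, Cub.ev_tr] at hy
      have := hx0u _ hy
      rw [hy0, ← this]
      ring
    have hr0 : ∀ y, g'.res.ev y = y ^ 3 + g'.C * y ^ 2 + g'.B * g'.D * y + g.A * g'.D ^ 2 := by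
      intro y
      simp only [Q4.res, Cub.ev, hE', hA']
      ring
    have hy00 : y0 ≠ 0 := by
      intro h
      have := hr0 y0
      rw [hy0r, h] at this
      have h3 : g.A * g'.D ^ 2 = 0 := by linear_combination -this
      exact mul_ne_zero hA (pow_ne_zero 2 hD') h3
    have hfac : ∀ w, g'.ev w 1 = w * (g.A * w ^ 3 + g'.B * w ^ 2 + g'.C * w + g'.D) := by
      intro w
      simp only [Q4.ev, hE', hA']
      ring
    have hrw : ∀ w, w ≠ 0 → g'.res.ev (g'.D / w) * w ^ 3 = g'.D ^ 2 * (g.A * w ^ 3 + g'.B * w ^ 2 + g'.C * w + g'.D) := by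
      intro w hw
      rw [hr0]
      field_simp
      ring
    have : (univ : Finset κ).filter (fun u => g.ev u 1 = 0) = {u0, u0 + g'.D / y0} := by
      ext u
      rw [mem_filter, mem_insert, mem_singleton]
      have hw : g.ev u 1 = g'.ev (u - u0) 1 := by
        rw [← hevs]
        congr 1
        ring
      constructor
      · rintro ⟨-, h⟩
        rw [hw, hfac] at h
        by_cases hw0 : u - u0 = 0
        · left
          linear_combination hw0
        · right
          have h3 := (mul_eq_zero.mp h).resolve_left hw0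
          have h5 := hrw _ hw0
          rw [h3, mul_zero] at h5
          have h6 := hy0u _ ((mul_eq_zero.mp h5).resolve_right (pow_ne_zero 3 hw0))
          have h7 : u - u0 = g'.D / y0 := by
            rw [← h6]
            field_simp
          linear_combination h7
      · intro h
        refine ⟨mem_univ _, ?_⟩
        rcases h with h | h
        · rw [h]
          exact hu0r
        · rw [hw]
          have h7 : u - u0 = g'.D / y0 := by
            rw [h]; ring
          have hw0 : u - u0 ≠ 0 := by
            rw [h7]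
            exact div_ne_zero hD' hy00
          have h5 := hrw _ hw0
          have h8 : g'.D / (u - u0) = y0 := by
            rw [h7]
            field_simp
          rw [h8, hy0r, zero_mul] at h5
          rw [hfac, (mul_eq_zero.mp h5.symm).resolve_left (pow_ne_zero 2 hD'), mul_zero]
    rw [this, card_pair]
    intro h
    have h7 : g'.D / y0 = 0 := by linear_combination -h
    exact div_ne_zero hD' hy00 h7

theorem t_ff2 : S_ff2 := by
  intro κ _ _ hκ h2 f hd hr hu s hs hrt
  letI := hκ.toField
  exact ff2_main h2 f hd hr hu s hs hrt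

end Pool.Agent.H456.PP
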