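import Pool.Agent.H456.PP.Stm
import Pool.Agent.H456.BQ.T_indep

/-!
(good) `S_good`: a quartic with a root over the completion at `P`, whose resolvent has exactly one root modulo `P`, has exactly two roots modulo `P`.
-/

set_option autoImplicit false
set_option linter.all false

open Polynomial Finset Filter
open Pool.Agent.H456.EC (toK toK_inj sig toK_eq reflect_toK cls)
open Pool.Agent.H456.RN
open Pool.Agent.H456.BQ
open Pool.Agent.H456.Coh (TF)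

namespace Pool.Agent.H456.PP

/-- removing the common power of the uniformizer -/
theorem good_prim {F : Type} [Field F] {P : F[X]} {O : Type} [CommRing O] [IsDomain O] {π : O} {ι : F[X] →+* O}
    (hL : Lc P π ι) (a b : O) (hab : ¬ (a = 0 ∧ b = 0)) :
    ∃ (k : ℕ) (a' b' : O), a = π ^ k * a' ∧ b = π ^ k * b' ∧ ¬ (π ∣ a' ∧ π ∣ b') := by
  have hun : ∀ w : O, IsUnit w → ¬ π ∣ w := fun w hw h => hL.nonunit (isUnit_of_dvd_unit h hw)
  by_cases ha : a = 0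
  · have hb : b ≠ 0 := fun h => hab ⟨ha, h⟩
    obtain ⟨k, w, hw, hb'⟩ := hL.pow b hb
    refine ⟨k, 0, w, by rw [ha, mul_zero], by rw [hb']; ring, fun h => hun w hw h.2⟩
  by_cases hb : b = 0
  · obtain ⟨k, w, hw, ha'⟩ := hL.pow a ha
    refine ⟨k, w, 0, by rw [ha']; ring, by rw [hb, mul_zero], fun h => hun w hw h.1⟩
  obtain ⟨i, w, hw, ha'⟩ := hL.pow a ha
  obtain ⟨j, w', hw', hb'⟩ := hL.pow b hb
  rcases le_total i j with hij | hij
  · obtain ⟨m, rfl⟩ := Nat.exists_eq_add_of_le hij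
    refine ⟨i, w, w' * π ^ m, by rw [ha']; ring, by rw [hb']; ring, fun h => hun w hw h.1⟩
  · obtain ⟨m, rfl⟩ := Nat.exists_eq_add_of_le hij
    refine ⟨j, w * π ^ m, w', by rw [ha']; ring, by rw [hb']; ring, fun h => hun w' hw' h.2⟩

/-- the values of a quartic at congruent points are congruent -/
theorem good_congr {O : Type} [CommRing O] (g : Q4 O) (ϖ u v u' v' : O) (hu : ϖ ∣ u - u') (hv : ϖ ∣ v - v') :
    ϖ ∣ g.ev u v - g.ev u' v' := by
  obtain ⟨x, hx⟩ := hu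
  obtain ⟨y, hy⟩ := hv
  have e1 : u = u' + ϖ * x := by rw [← hx]; ring
  have e2 : v = v' + ϖ * y := by rw [← hy]; ring
  subst e1 e2
  have key : ∀ (s t : O) (k : ℕ), ϖ ∣ (s + ϖ * t) ^ k - s ^ k := fun s t k => by
    have h6 := sub_dvd_pow_sub_pow (s + ϖ * t) s k
    have h7 : (s + ϖ * t) - s = ϖ * t := by ring
    rw [h7] at h6
    exact (Dvd.intro _ rfl).trans h6
  obtain ⟨p₁, q₁⟩ := key u' x 1
  obtain ⟨p₂, q₂⟩ := key u' x 2
  obtain ⟨p₃, q₃⟩ := key u' x 3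
  obtain ⟨p₄, q₄⟩ := key u' x 4
  obtain ⟨r₁, s₁⟩ := key v' y 1
  obtain ⟨r₂, s₂⟩ := key v' y 2
  obtain ⟨r₃, s₃⟩ := key v' y 3
  obtain ⟨r₄, s₄⟩ := key v' y 4
  refine ⟨g.A * p₄ + g.B * (p₃ * (v' + ϖ * y) + u' ^ 3 * r₁) + g.C * (p₂ * (v' + ϖ * y) ^ 2 + u' ^ 2 * r₂) +
    g.D * (p₁ * (v' + ϖ * y) ^ 3 + u' * r₃) + g.E * r₄, ?_⟩
  simp only [Q4.ev]
  linear_combination g.A * q₄ + g.B * (q₃ * (v' + ϖ * y) + u' ^ 3 * s₁) +
    g.C * (q₂ * (v' + ϖ * y) ^ 2 + u' ^ 2 * s₂) + g.D * (q₁ * (v' + ϖ * y) ^ 3 + u' * s₃) + g.E * s₄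

theorem t_good : S_ff2 → S_good := by
  intro hff2 F _ _ h2 P O L _ _ _ _ _ π ι hL f hf p hp hrt
  obtain ⟨G, ρ⟩ := p
  simp only at hp hrt ⊢
  have hinj := IsFractionRing.injective O L
  obtain ⟨u, v, huv, he⟩ := hrt
  obtain ⟨s, a, b, c, hs, ha, hb, hc⟩ := indep_frac (O := O) u v (0 : L)
  have hs' : algebraMap O L s ≠ 0 := (map_ne_zero_iff _ hinj).2 hs
  have hab : ¬ (a = 0 ∧ b = 0) := by
    rintro ⟨h1, h3⟩
    apply huv
    rw [h1, map_zero] at ha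
    rw [h3, map_zero] at hb
    exact ⟨(mul_eq_zero.mp ha.symm).resolve_left hs', (mul_eq_zero.mp hb.symm).resolve_left hs'⟩
  have h1 : (G.map ι).ev a b = 0 := by
    apply hinj
    rw [← Q4.map_ev, ha, hb, map_zero]
    have h3 : ((G.map ι).map (algebraMap O L)).ev (algebraMap O L s * u) (algebraMap O L s * v) =
        algebraMap O L s ^ 4 * ((G.map ι).map (algebraMap O L)).ev u v := by
      simp only [Q4.ev]; ring
    rw [h3, he, mul_zero]
  obtain ⟨k, a', b', ha', hb', hab'⟩ := good_prim hL.toLc a b hab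
  have h3 : (G.map ι).ev a' b' = 0 := by
    have h4 : (G.map ι).ev a b = (π ^ k) ^ 4 * (G.map ι).ev a' b' := by
      rw [ha', hb']
      simp only [Q4.ev]; ring
    rw [h1] at h4
    exact (mul_eq_zero.mp h4.symm).resolve_left (pow_ne_zero 4 (pow_ne_zero k hL.toLc.ne))
  obtain ⟨u', hu'⟩ := hL.toLc.dense 1 a'
  obtain ⟨v', hv'⟩ := hL.toLc.dense 1 b'
  rw [pow_one] at hu' hv'
  have h5 : P.1 ^ 1 ∣ G.ev u' v' := by
    rw [← hL.toLc.dvd, pow_one, ← Q4.map_ev]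
    have h6 := good_congr (G.map ι) π a' b' (ι u') (ι v') hu' hv'
    rw [h3, zero_sub] at h6
    exact (dvd_neg).mp h6
  have h7 : ¬ (P.1 ^ 1 ∣ u' ∧ P.1 ^ 1 ∣ v') := by
    rintro ⟨h8, h9⟩
    rw [← hL.toLc.dvd, pow_one] at h8 h9
    apply hab'
    refine ⟨?_, ?_⟩
    · have : a' = (a' - ι u') + ι u' := by ring
      rw [this]
      exact dvd_add hu' h8
    · have : b' = (b' - ι v') + ι v' := by ring
      rw [this]
      exact dvd_add hv' h9
  set φ : F[X] →+* Rq (P.1 ^ 1) := Ideal.Quotient.mk (Ideal.span {P.1 ^ 1}) with hφ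
  have hφ0 : ∀ x : F[X], φ x = 0 ↔ P.1 ∣ x := by
    intro x
    have := mk_zero (m := P.1 ^ 1) (a := x)
    rw [← hφ] at this
    rw [this, pow_one]
  have hφs : ∀ x : Rq (P.1 ^ 1), ∃ y, φ y = x := fun x => Ideal.Quotient.mk_surjective x
  obtain ⟨hd, ⟨r, hr⟩, hu⟩ := hf
  have hres : (G.map φ).res = ((f.map φ).sc 4).tr (φ ρ) := by
    rw [Q4.map_res, hp, Cub.map_tr, Cub.map_sc, map_ofNat]
  have := hff2 (Rq (P.1 ^ 1)) (isField_Rq P) (two_ne_Rq h2 P 1 one_ne_zero) (f.map φ) (by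
      rw [Cub.map_disc]
      intro h
      exact hd ((hφ0 _).mp h)) ⟨φ r, by
      rw [Cub.map_ev]
      exact (hφ0 _).mpr hr⟩ (by
      intro x x' hx hx'
      obtain ⟨y, rfl⟩ := hφs x
      obtain ⟨y', rfl⟩ := hφs x'
      rw [Cub.map_ev, hφ0] at hx hx'
      have h8 := hu y y' hx hx'
      rw [← hφ0, map_sub] at h8
      exact sub_eq_zero.mp h8) (G.map φ, φ ρ) hres ⟨φ u', φ v', by
      rintro ⟨h8, h9⟩
      apply h7
      rw [pow_one]
      exact ⟨(hφ0 _).mp h8, (hφ0 _).mp h9⟩, by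
      rw [Q4.map_ev, hφ0]
      rw [pow_one] at h5
      exact h5⟩
  exact this

end Pool.Agent.H456.PP
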