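import Pool.Agent.H456.PP.Stm

/-!
(gpr) `S_gpr`: explicit identities (checked numerically). `g = (z², B, C, D, E)`, `x = hh s / (16 z²)`, `y = - sx g / (64 z³)`, `M = ⟨z, B/(4z), 0, 1⟩`, `det M = z`. Use the three components of `s.1.res = (f.sc 4).tr s.2`: `C = 4a + 3ρ`, `B D - 4 z² E = 16 b + 8 a ρ + 3ρ²`, `z² D² + B² E - 4 z² C E = 64 c + 16 b ρ + 4 a ρ² + ρ³`: eliminate `a = (C - 3ρ)/4`, `b`, `c`; then everything is `field_simp; ring`. (T_sol.lean, `sol_four`, is the special case `z = 1`, `B = 0`.)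
-/

set_option autoImplicit false
set_option linter.all false

open Polynomial Finset Filter
open Pool.Agent.H456.EC (toK toK_inj sig toK_eq reflect_toK cls)
open Pool.Agent.H456.RN
open Pool.Agent.H456.BQ
open Pool.Agent.H456.Coh (TF)

namespace Pool.Agent.H456.PP

theorem t_gpr : S_gpr := by
  intro K _ h2 f s hs z hz hA
  have h4 : (4 : K) ≠ 0 := by
    have : (4 : K) = 2 * 2 := by norm_num
    rw [this]; exact mul_ne_zero h2 h2
  have h8 : (8 : K) ≠ 0 := by
    have : (8 : K) = 4 * 2 := by norm_num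
    rw [this]; exact mul_ne_zero h4 h2
  have h16 : (16 : K) ≠ 0 := by
    have : (16 : K) = 4 * 4 := by norm_num
    rw [this]; exact mul_ne_zero h4 h4
  have h64 : (64 : K) ≠ 0 := by
    have : (64 : K) = 8 * 8 := by norm_num
    rw [this]; exact mul_ne_zero h8 h8
  obtain ⟨g, ρ⟩ := s
  obtain ⟨A, B, C, D, E⟩ := g
  obtain ⟨a, b, c⟩ := f
  simp only at hA
  subst hA
  have e1 := congrArg Cub.a hs
  have e2 := congrArg Cub.b hs
  have e3 := congrArg Cub.c hs
  simp only [Q4.res, Cub.tr, Cub.sc] at e1 e2 e3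
  have ha : a = (C - 3 * ρ) / 4 := by
    field_simp
    linear_combination -e1
  have hb : b = (B * D - 4 * z ^ 2 * E - 2 * (4 * a) * ρ - 3 * ρ ^ 2) / 16 := by
    field_simp
    linear_combination -e2
  have hc : c = (z ^ 2 * D ^ 2 + B ^ 2 * E - 4 * z ^ 2 * C * E - 16 * b * ρ - 4 * a * ρ ^ 2 - ρ ^ 3) / 64 := by
    field_simp
    linear_combination -e3
  subst hc
  subst hb
  subst ha
  clear e1 e2 e3 hs
  refine ⟨?_, ?_, ?_, ?_⟩
  · simp only [sx, hh, Cub.ev]
    field_simp
    ring
  · simp only [M2.det]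
    simpa using hz
  · ext
    · simp only [gp, Q4.sub, Q4.smul, M2.det, sx, hh]
      field_simp
      ring
    · simp only [gp, Q4.sub, Q4.smul, M2.det, sx, hh]
      field_simp
      ring
    · simp only [gp, Q4.sub, Q4.smul, M2.det, sx, hh]
      field_simp
      ring
    · simp only [gp, Q4.sub, Q4.smul, M2.det, sx, hh]
      field_simp
      ring
    · simp only [gp, Q4.sub, Q4.smul, M2.det, sx, hh]
      field_simp
      ring
  · simp only [gp, Q4.tau, M2.det, sx, hh]
    field_simp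
    ring

end Pool.Agent.H456.PP
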