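import Pool.Agent.H456.PP.Stm

/-!
(kap) Let `s = (g, ρ)`, `g = (A,B,C,D,E)`, `φ = ρ - 4θ`. The relation `s.1.res = (f.sc 4).tr s.2` and `f(θ) = 0` give `φ³ - C φ² + (BD - 4AE) φ + (4ACE - B²E - AD²) = 0`. `ξ = hh s - 16 A θ = B² - 4AC + 4Aφ`. For `M = (α, β; γ, δ)`, `d = det M ≠ 0`, `s' = (g', ρ')`, `g.sub M = g'.smul d²`, `g.tau M = (ρ' - ρ) d²`. Put `κ = (ξ α² + 2(Bφ - 2AD) αγ + (2Cφ - 2φ² - BD) γ²) / d`
(a polynomial of degree `≤ 2` in `θ` with coefficients in `K`: `φ = ρ - 4θ`, `φ² = ρ² - 8ρθ + 16θ²`). Then `ξ · ξ' = κ²`, `ξ' = hh s' - 16 A' θ` (checked numerically). PROOF: multiply by `d^4`; both sides are polynomials in `A,…,E, φ, α,β,γ,δ` and the difference is a multiple of the cubic relation for `φ` (find the cofactor; e.g. compute `d⁴ ξ' = B_M² - 4 A_M C_M + 4 A_M (d² φ + τ)` with `g.sub M = (A_M, B_M, …)`, which is a polynomial identity `= d² · (quartic covariant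 of (α,γ))`, the quartic covariant being
`(B² - 4AC + 4Aφ) u⁴ + 4(BC - 6AD + Bφ) … ` — compute it; then `ξ · cov(u,v) = κ₀(u,v)²` modulo the relation). It may help to do first `M = (1, 0; …)`-type generators: `PE` is generated by `(1,n;0,1)`, `diag`, `(0,-1;1,0)`, or to prove the two identities separately. (inv) Let `w(θ) = x + yθ + zθ²`. `(Tq f s₁ s₂).ev x y z` is the coefficient of `θ²` of `ζ w²`, `ζ = ξ₁ξ₂ = (hh s₁ - 16A₁θ)(hh s₂ - 16A₂θ)`, reduced modulo `f(θ)` (an identity, checked; `Tz` has this meaning for every `ζ = z₀ + z₁θ + z₂θ²`).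
Work in `R = AdjoinRoot (X³ + aX² + bX + c)` (free with basis `1, θ, θ²`) or with explicit triples and the multiplication modulo `f`. `N(h - 16Aθ) = h³ + 16Aah² + 256A²bh + 4096A³c = (sx g)²` (identity from the relation), so `ξ_i`, `ξ_i'` are units of `R` (explicit inverse: `(h - kθ)·(k²θ² + (k h + a k²)θ + (h² + a h k + b k²)) = h³ + a k h² + b k² h + c k³`, `k = 16A`). By (kap) `ξ₁ξ₁' = κ₁²`, `ξ₂ξ₂' = κ₂²`, so `κ_i` are units. Given a zero `w ≠ 0` for `(s₁,s₂)` put `w' = w ξ₁ξ₂ (κ₁κ₂)⁻¹`: `w' ≠ 0` and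
`ξ₁'ξ₂' w'² = ξ₁'ξ₂' ξ₁²ξ₂² w² / (κ₁κ₂)² = ξ₁ξ₂ w²`, whose coefficient of `θ²` is zero. (`f.disc ≠ 0` is not needed.)
-/

set_option autoImplicit false
set_option linter.all false

open Polynomial Finset Filter
open Pool.Agent.H456.EC (toK toK_inj sig toK_eq reflect_toK cls)
open Pool.Agent.H456.RN
open Pool.Agent.H456.BQ
open Pool.Agent.H456.Coh (TF)

namespace Pool.Agent.H456.PP

/-- the first part of the quartic covariant -/
def inv_H {R : Type*} [CommRing R] (A B C D E u v : R) : R :=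
  (B ^ 2 - 4 * A * C) * u ^ 4 - 8 * A * D * (u ^ 3 * v) - (16 * A * E + 2 * B * D) * (u ^ 2 * v ^ 2)
    - 8 * B * E * (u * v ^ 3) + (D ^ 2 - 4 * C * E) * v ^ 4

theorem inv_kid {R : Type*} [CommRing R] (A B C D E φ u v : R)
    (h : φ ^ 3 - C * φ ^ 2 + (B * D - 4 * A * E) * φ + (4 * A * C * E - B ^ 2 * E - A * D ^ 2) = 0) :
    (B ^ 2 - 4 * A * C + 4 * A * φ) * (inv_H A B C D E u v
      + 4 * φ * (A * u ^ 4 + B * u ^ 3 * v + C * u ^ 2 * v ^ 2 + D * u * v ^ 3 + E * v ^ 4)) =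
    ((B ^ 2 - 4 * A * C + 4 * A * φ) * u ^ 2 + 2 * (B * φ - 2 * A * D) * (u * v)
      + (2 * C * φ - 2 * φ ^ 2 - B * D) * v ^ 2) ^ 2 := by
  unfold inv_H
  linear_combination (16 * A * u ^ 2 * v ^ 2 + 8 * B * u * v ^ 3 + 4 * C * v ^ 4 - 4 * φ * v ^ 4) * h

theorem inv_cov {R : Type*} [CommRing R] (g : Q4 R) (M : M2 R) :
    (g.sub M).B ^ 2 - 4 * (g.sub M).A * (g.sub M).C + 4 * (g.sub M).A * g.tau M =
      M.det ^ 2 * inv_H g.A g.B g.C g.D g.E M.α M.γ := by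
  simp only [Q4.sub, Q4.tau, M2.det, inv_H]
  ring

theorem inv_core {R : Type*} [CommRing R] (A B C D E ρ θ u v d t t' A' x y z a b c : R)
    (r1 : C = 4 * a + 3 * ρ) (r2 : B * D - 4 * A * E = 4 ^ 2 * b + 2 * (4 * a) * ρ + 3 * ρ ^ 2)
    (r3 : A * D ^ 2 + B ^ 2 * E - 4 * A * C * E = 4 ^ 3 * c + 4 ^ 2 * b * ρ + 4 * a * ρ ^ 2 + ρ ^ 3)
    (hθ : θ ^ 3 + a * θ ^ 2 + b * θ + c = 0) (h0 : t = B ^ 2 - 4 * A * C + 4 * A * ρ)
    (h1 : d ^ 2 * t' = inv_H A B C D E u v +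
      4 * ρ * (A * u ^ 4 + B * u ^ 3 * v + C * u ^ 2 * v ^ 2 + D * u * v ^ 3 + E * v ^ 4))
    (h2 : d ^ 2 * A' = A * u ^ 4 + B * u ^ 3 * v + C * u ^ 2 * v ^ 2 + D * u * v ^ 3 + E * v ^ 4)
    (hx : x * d = t * u ^ 2 + 2 * (B * ρ - 2 * A * D) * (u * v) + (2 * C * ρ - 2 * ρ ^ 2 - B * D) * v ^ 2)
    (hy : y * d = -16 * A * u ^ 2 - 8 * B * (u * v) + (16 * ρ - 8 * C) * v ^ 2)
    (hz : z * d = -32 * v ^ 2) :
    d ^ 2 * ((t - 16 * A * θ) * (t' - 16 * A' * θ)) = d ^ 2 * (x + y * θ + z * θ ^ 2) ^ 2 := by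
  have hr : (ρ - 4 * θ) ^ 3 - C * (ρ - 4 * θ) ^ 2 + (B * D - 4 * A * E) * (ρ - 4 * θ) +
      (4 * A * C * E - B ^ 2 * E - A * D ^ 2) = 0 := by
    have e : 4 * A * C * E - B ^ 2 * E - A * D ^ 2 = -(A * D ^ 2 + B ^ 2 * E - 4 * A * C * E) := by ring
    rw [e, r3, r2, r1]
    linear_combination -64 * hθ
  have hk := inv_kid A B C D E (ρ - 4 * θ) u v hr
  have hW : d * (x + y * θ + z * θ ^ 2) = (B ^ 2 - 4 * A * C + 4 * A * (ρ - 4 * θ)) * u ^ 2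
      + 2 * (B * (ρ - 4 * θ) - 2 * A * D) * (u * v)
      + (2 * C * (ρ - 4 * θ) - 2 * (ρ - 4 * θ) ^ 2 - B * D) * v ^ 2 := by
    linear_combination hx + θ * hy + θ ^ 2 * hz + u ^ 2 * h0
  have hT : d ^ 2 * (t' - 16 * A' * θ) = inv_H A B C D E u v
      + 4 * (ρ - 4 * θ) * (A * u ^ 4 + B * u ^ 3 * v + C * u ^ 2 * v ^ 2 + D * u * v ^ 3 + E * v ^ 4) := by
    linear_combination h1 - 16 * θ * h2
  calc d ^ 2 * ((t - 16 * A * θ) * (t' - 16 * A' * θ))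
      = (t - 16 * A * θ) * (d ^ 2 * (t' - 16 * A' * θ)) := by ring
    _ = (B ^ 2 - 4 * A * C + 4 * A * (ρ - 4 * θ)) * (inv_H A B C D E u v
      + 4 * (ρ - 4 * θ) * (A * u ^ 4 + B * u ^ 3 * v + C * u ^ 2 * v ^ 2 + D * u * v ^ 3 + E * v ^ 4)) := by
        rw [hT, h0]; ring
    _ = (d * (x + y * θ + z * θ ^ 2)) ^ 2 := by rw [hk, hW]
    _ = _ := by ring

theorem inv_kap : S_kap := by
  intro K _ f s s' hs M hM
  obtain ⟨hd, hsub, htau⟩ := hM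
  have h2 : M.det ^ 2 * s'.1.A = s.1.A * M.α ^ 4 + s.1.B * M.α ^ 3 * M.γ + s.1.C * M.α ^ 2 * M.γ ^ 2 +
      s.1.D * M.α * M.γ ^ 3 + s.1.E * M.γ ^ 4 := by
    have h := congrArg Q4.A hsub
    simp only [Q4.sub, Q4.smul] at h
    linear_combination -h
  have h1 : M.det ^ 2 * hh s' = inv_H s.1.A s.1.B s.1.C s.1.D s.1.E M.α M.γ +
      4 * s.2 * (s.1.A * M.α ^ 4 + s.1.B * M.α ^ 3 * M.γ + s.1.C * M.α ^ 2 * M.γ ^ 2 +
      s.1.D * M.α * M.γ ^ 3 + s.1.E * M.γ ^ 4) := by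
    have hc := inv_cov s.1 M
    rw [hsub] at hc
    apply mul_left_cancel₀ (pow_ne_zero 2 hd)
    simp only [Q4.smul] at hc
    rw [htau] at hc
    unfold hh
    linear_combination hc + 4 * s.2 * M.det ^ 2 * h2
  have r1 := congrArg Cub.a hs
  have r2 := congrArg Cub.b hs
  have r3 := congrArg Cub.c hs
  simp only [Q4.res, Cub.tr, Cub.sc] at r1 r2 r3
  refine ⟨(hh s * M.α ^ 2 + 2 * (s.1.B * s.2 - 2 * s.1.A * s.1.D) * (M.α * M.γ) +
      (2 * s.1.C * s.2 - 2 * s.2 ^ 2 - s.1.B * s.1.D) * M.γ ^ 2) / M.det,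
    (-16 * s.1.A * M.α ^ 2 - 8 * s.1.B * (M.α * M.γ) + (16 * s.2 - 8 * s.1.C) * M.γ ^ 2) / M.det,
    (-32 * M.γ ^ 2) / M.det, ?_⟩
  intro R _ _ θ hθ
  have hu : IsUnit (algebraMap K R M.det ^ 2) := ((IsUnit.mk0 _ hd).map (algebraMap K R)).pow 2
  apply hu.mul_left_cancel
  have q1 := congrArg (algebraMap K R) r1
  have q2 := congrArg (algebraMap K R) r2
  have q3 := congrArg (algebraMap K R) r3
  have p1 := congrArg (algebraMap K R) h1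
  have p2 := congrArg (algebraMap K R) h2
  have p0 : algebraMap K R (hh s) = _ := congrArg (algebraMap K R) (show hh s = s.1.B ^ 2 - 4 * s.1.A * s.1.C +
    4 * s.1.A * s.2 from rfl)
  have px := congrArg (algebraMap K R) (div_mul_cancel₀ (hh s * M.α ^ 2 +
    2 * (s.1.B * s.2 - 2 * s.1.A * s.1.D) * (M.α * M.γ) +
      (2 * s.1.C * s.2 - 2 * s.2 ^ 2 - s.1.B * s.1.D) * M.γ ^ 2) hd)
  have py := congrArg (algebraMap K R) (div_mul_cancel₀ (-16 * s.1.A * M.α ^ 2 - 8 * s.1.B * (M.α * M.γ) +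
    (16 * s.2 - 8 * s.1.C) * M.γ ^ 2) hd)
  have pz := congrArg (algebraMap K R) (div_mul_cancel₀ (-32 * M.γ ^ 2) hd)
  rw [map_mul] at px py pz
  refine inv_core (algebraMap K R s.1.A) (algebraMap K R s.1.B) (algebraMap K R s.1.C) (algebraMap K R s.1.D)
    (algebraMap K R s.1.E) (algebraMap K R s.2) θ (algebraMap K R M.α) (algebraMap K R M.γ)
    (algebraMap K R M.det) (algebraMap K R (hh s)) (algebraMap K R (hh s')) (algebraMap K R s'.1.A) _ _ _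
    (algebraMap K R f.a) (algebraMap K R f.b) (algebraMap K R f.c) ?_ ?_ ?_ ?_ ?_ ?_ ?_ ?_ ?_ ?_
  · rw [q1]; simp only [map_mul, map_add, map_pow, map_ofNat]
  · simp only [map_mul, map_add, map_sub, map_pow, map_ofNat] at q2; exact q2
  · simp only [map_mul, map_add, map_sub, map_pow, map_ofNat] at q3; exact q3
  · simpa only [Cub.ev, Cub.map] using hθ
  · rw [p0]; simp only [map_mul, map_add, map_sub, map_pow, map_ofNat]
  · simp only [map_mul, map_add, map_sub, map_pow, map_ofNat, inv_H] at p1 ⊢; exact p1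
  · simp only [map_mul, map_add, map_sub, map_pow, map_ofNat] at p2; exact p2
  · rw [px]; simp only [map_mul, map_add, map_sub, map_pow, map_ofNat]
  · rw [py]; simp only [map_mul, map_add, map_sub, map_pow, map_ofNat, map_neg]
  · rw [pz]; simp only [map_mul, map_add, map_sub, map_pow, map_ofNat, map_neg]

/-- reduction of the product -/
theorem inv_red {K : Type} [Field K] (f : Cub K) (z₀ z₁ z₂ x y z : K) : ∃ c₀ c₁ : K,
    ∀ (R : Type) [CommRing R] [Algebra K R] (θ : R), (f.map (algebraMap K R)).ev θ = 0 →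
      (algebraMap K R z₀ + algebraMap K R z₁ * θ + algebraMap K R z₂ * θ ^ 2) *
        (algebraMap K R x + algebraMap K R y * θ + algebraMap K R z * θ ^ 2) ^ 2 =
      algebraMap K R c₀ + algebraMap K R c₁ * θ + algebraMap K R ((Tz f z₀ z₁ z₂).ev x y z) * θ ^ 2 := by
  refine ⟨z₀ * x ^ 2 + (z₀ * (2 * y * z) + z₁ * (y ^ 2 + 2 * x * z) + z₂ * (2 * x * y)) * (-f.c)
      + (z₀ * z ^ 2 + z₁ * (2 * y * z) + z₂ * (y ^ 2 + 2 * x * z)) * (f.a * f.c)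
      + (z₁ * z ^ 2 + z₂ * (2 * y * z)) * (-f.c * (f.a ^ 2 - f.b))
      + z₂ * z ^ 2 * (-f.c * (-f.a ^ 3 + 2 * f.a * f.b - f.c)),
    z₀ * (2 * x * y) + z₁ * x ^ 2 + (z₀ * (2 * y * z) + z₁ * (y ^ 2 + 2 * x * z) + z₂ * (2 * x * y)) * (-f.b)
      + (z₀ * z ^ 2 + z₁ * (2 * y * z) + z₂ * (y ^ 2 + 2 * x * z)) * (-f.c + f.a * f.b)
      + (z₁ * z ^ 2 + z₂ * (2 * y * z)) * (f.a * f.c - f.b * (f.a ^ 2 - f.b))
      + z₂ * z ^ 2 * (-f.c * (f.a ^ 2 - f.b) - f.b * (-f.a ^ 3 + 2 * f.a * f.b - f.c)), ?_⟩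
  intro R _ _ θ hθ
  simp only [Cub.ev, Cub.map] at hθ
  simp only [Tz, TF.ev, map_mul, map_add, map_sub, map_pow, map_neg, map_ofNat]
  generalize algebraMap K R f.a = a at *
  generalize algebraMap K R f.b = b at *
  generalize algebraMap K R f.c = c at *
  generalize algebraMap K R z₀ = Z0
  generalize algebraMap K R z₁ = Z1
  generalize algebraMap K R z₂ = Z2
  generalize algebraMap K R x = X0
  generalize algebraMap K R y = Y0
  generalize algebraMap K R z = W0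
  have h3 : θ ^ 3 = -c - b * θ - a * θ ^ 2 := by linear_combination hθ
  have h4 : θ ^ 4 = a * c + (-c + a * b) * θ + (a ^ 2 - b) * θ ^ 2 := by linear_combination (θ - a) * hθ
  have h5 : θ ^ 5 = -c * (a ^ 2 - b) + (a * c - b * (a ^ 2 - b)) * θ + (-a ^ 3 + 2 * a * b - c) * θ ^ 2 := by
    linear_combination (θ ^ 2 - a * θ + a ^ 2 - b) * hθ
  have h6 : θ ^ 6 = -c * (-a ^ 3 + 2 * a * b - c) + (-c * (a ^ 2 - b) - b * (-a ^ 3 + 2 * a * b - c)) * θ +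
      (a ^ 4 - 3 * a ^ 2 * b + b ^ 2 + 2 * a * c) * θ ^ 2 := by
    linear_combination (θ ^ 3 - a * θ ^ 2 + (a ^ 2 - b) * θ + (-a ^ 3 + 2 * a * b - c)) * hθ
  linear_combination (Z0 * (2 * Y0 * W0) + Z1 * (Y0 ^ 2 + 2 * X0 * W0) + Z2 * (2 * X0 * Y0)) * h3 +
    (Z0 * W0 ^ 2 + Z1 * (2 * Y0 * W0) + Z2 * (Y0 ^ 2 + 2 * X0 * W0)) * h4 +
    (Z1 * W0 ^ 2 + Z2 * (2 * Y0 * W0)) * h5 + Z2 * W0 ^ 2 * h6

/-- the cubic polynomial -/
noncomputable def inv_p {K : Type} [Field K] (f : Cub K) : K[X] := X ^ 3 + C f.a * X ^ 2 + C f.b * X + C f.c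

theorem inv_p_eq {K : Type} [Field K] (f : Cub K) :
    inv_p f = C 1 * X ^ 3 + C f.a * X ^ 2 + C f.b * X + C f.c := by
  unfold inv_p; rw [C_1, one_mul]

theorem inv_monic {K : Type} [Field K] (f : Cub K) : (inv_p f).Monic := by
  unfold Polynomial.Monic
  rw [inv_p_eq]
  exact leadingCoeff_cubic one_ne_zero

theorem inv_deg {K : Type} [Field K] (f : Cub K) : (inv_p f).degree = 3 := by
  rw [inv_p_eq]
  exact degree_cubic one_ne_zero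

theorem inv_rep {K : Type} [Field K] (f : Cub K) (r : AdjoinRoot (inv_p f)) : ∃ x y z : K,
    r = algebraMap K (AdjoinRoot (inv_p f)) x + algebraMap K (AdjoinRoot (inv_p f)) y * AdjoinRoot.root (inv_p f) +
      algebraMap K (AdjoinRoot (inv_p f)) z * AdjoinRoot.root (inv_p f) ^ 2 := by
  obtain ⟨q, rfl⟩ := AdjoinRoot.mk_surjective r
  have hd : (q %ₘ inv_p f).degree ≤ 2 := by
    have h := degree_modByMonic_lt q (inv_monic f)
    rw [inv_deg] at h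
    exact Order.lt_succ_iff.mp h
  have he := eq_quadratic_of_degree_le_two hd
  refine ⟨(q %ₘ inv_p f).coeff 0, (q %ₘ inv_p f).coeff 1, (q %ₘ inv_p f).coeff 2, ?_⟩
  have h1 : AdjoinRoot.mk (inv_p f) q = AdjoinRoot.mk (inv_p f) (q %ₘ inv_p f) := by
    rw [AdjoinRoot.mk_eq_mk]
    exact ⟨q /ₘ inv_p f, by rw [sub_eq_iff_eq_add']; exact (modByMonic_add_div q (inv_p f)).symm⟩
  rw [h1]
  conv_lhs => rw [he]
  simp only [map_add, map_mul, map_pow, AdjoinRoot.mk_C, AdjoinRoot.mk_X, AdjoinRoot.algebraMap_eq]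
  ring

theorem inv_inj {K : Type} [Field K] (f : Cub K) {x y z : K}
    (h : algebraMap K (AdjoinRoot (inv_p f)) x + algebraMap K (AdjoinRoot (inv_p f)) y * AdjoinRoot.root (inv_p f) +
      algebraMap K (AdjoinRoot (inv_p f)) z * AdjoinRoot.root (inv_p f) ^ 2 = 0) : x = 0 ∧ y = 0 ∧ z = 0 := by
  have h1 : AdjoinRoot.mk (inv_p f) (C z * X ^ 2 + C y * X + C x) = 0 := by
    simp only [map_add, map_mul, map_pow, AdjoinRoot.mk_C, AdjoinRoot.mk_X]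
    rw [← h]
    simp only [AdjoinRoot.algebraMap_eq]
    ring
  rw [AdjoinRoot.mk_eq_zero] at h1
  have h2 : (C z * X ^ 2 + C y * X + C x : K[X]) = 0 := by
    apply eq_zero_of_dvd_of_degree_lt h1
    rw [inv_deg]
    exact lt_of_le_of_lt degree_quadratic_le (by decide)
  have c0 := congrArg (fun q => q.coeff 0) h2
  have c1 := congrArg (fun q => q.coeff 1) h2
  have c2 := congrArg (fun q => q.coeff 2) h2
  simp [coeff_X, coeff_C] at c0 c1 c2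
  exact ⟨c0, c1, c2⟩

theorem inv_root {K : Type} [Field K] (f : Cub K) :
    (f.map (algebraMap K (AdjoinRoot (inv_p f)))).ev (AdjoinRoot.root (inv_p f)) = 0 := by
  have h : AdjoinRoot.mk (inv_p f) (inv_p f) = 0 := AdjoinRoot.mk_self
  conv_lhs at h => enter [2]; unfold inv_p
  simp only [map_add, map_mul, map_pow, AdjoinRoot.mk_C, AdjoinRoot.mk_X] at h
  simp only [Cub.ev, Cub.map, AdjoinRoot.algebraMap_eq]
  exact h

/-- the norm -/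
theorem inv_norm {R : Type*} [CommRing R] (A B C D E ρ θ t a b c : R)
    (r1 : C = 4 * a + 3 * ρ) (r2 : B * D - 4 * A * E = 4 ^ 2 * b + 2 * (4 * a) * ρ + 3 * ρ ^ 2)
    (r3 : A * D ^ 2 + B ^ 2 * E - 4 * A * C * E = 4 ^ 3 * c + 4 ^ 2 * b * ρ + 4 * a * ρ ^ 2 + ρ ^ 3)
    (hθ : θ ^ 3 + a * θ ^ 2 + b * θ + c = 0) (h0 : t = B ^ 2 - 4 * A * C + 4 * A * ρ) :
    (t - 16 * A * θ) * ((16 * A) ^ 2 * θ ^ 2 + ((16 * A) * t + a * (16 * A) ^ 2) * θ +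
      (t ^ 2 + a * t * (16 * A) + b * (16 * A) ^ 2)) = (B ^ 3 - 4 * A * B * C + 8 * A ^ 2 * D) ^ 2 := by
  have e1 : 16 * A * a = 4 * A * (C - 3 * ρ) := by linear_combination -4 * A * r1
  have e2 : (16 * A) ^ 2 * b = 16 * A ^ 2 * (B * D - 4 * A * E - 2 * (C - 3 * ρ) * ρ - 3 * ρ ^ 2) := by
    linear_combination -16 * A ^ 2 * r2 + 32 * A ^ 2 * ρ * r1
  have e3 : (16 * A) ^ 3 * c = 64 * A ^ 3 * ((A * D ^ 2 + B ^ 2 * E - 4 * A * C * E)
      - ρ * (B * D - 4 * A * E - 2 * (C - 3 * ρ) * ρ - 3 * ρ ^ 2) - ρ ^ 2 * (C - 3 * ρ) - ρ ^ 3) := by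
    linear_combination -64 * A ^ 3 * r3 + 64 * A ^ 3 * ρ * r2 - 64 * A ^ 3 * ρ ^ 2 * r1
  have e4 : t ^ 3 + 4 * A * (C - 3 * ρ) * t ^ 2 +
      16 * A ^ 2 * (B * D - 4 * A * E - 2 * (C - 3 * ρ) * ρ - 3 * ρ ^ 2) * t +
      64 * A ^ 3 * ((A * D ^ 2 + B ^ 2 * E - 4 * A * C * E)
      - ρ * (B * D - 4 * A * E - 2 * (C - 3 * ρ) * ρ - 3 * ρ ^ 2) - ρ ^ 2 * (C - 3 * ρ) - ρ ^ 3) =
      (B ^ 3 - 4 * A * B * C + 8 * A ^ 2 * D) ^ 2 := by
    rw [h0]; ring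
  linear_combination e4 + t ^ 2 * e1 + t * e2 + e3 - (16 * A) ^ 3 * hθ

/-- the classes are units -/
theorem inv_unit {K : Type} [Field K] {f : Cub K} {s : Q4 K × K} (hs : s.1.res = (f.sc 4).tr s.2)
    (hx : sx s.1 ≠ 0) (R : Type) [CommRing R] [Algebra K R] (θ : R) (hθ : (f.map (algebraMap K R)).ev θ = 0) :
    IsUnit (algebraMap K R (hh s) - 16 * algebraMap K R s.1.A * θ) := by
  have r1 := congrArg Cub.a hs
  have r2 := congrArg Cub.b hs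
  have r3 := congrArg Cub.c hs
  simp only [Q4.res, Cub.tr, Cub.sc] at r1 r2 r3
  have q1 := congrArg (algebraMap K R) r1
  have q2 := congrArg (algebraMap K R) r2
  have q3 := congrArg (algebraMap K R) r3
  have p0 : algebraMap K R (hh s) = _ := congrArg (algebraMap K R) (show hh s = s.1.B ^ 2 - 4 * s.1.A * s.1.C +
    4 * s.1.A * s.2 from rfl)
  simp only [map_mul, map_add, map_sub, map_pow, map_ofNat] at q1 q2 q3 p0
  have hn := inv_norm (algebraMap K R s.1.A) (algebraMap K R s.1.B) (algebraMap K R s.1.C)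
    (algebraMap K R s.1.D) (algebraMap K R s.1.E) (algebraMap K R s.2) θ (algebraMap K R (hh s))
    (algebraMap K R f.a) (algebraMap K R f.b) (algebraMap K R f.c) q1 q2 q3
    (by simpa only [Cub.ev, Cub.map] using hθ) p0
  have hu : IsUnit (algebraMap K R (sx s.1) ^ 2) := ((IsUnit.mk0 _ hx).map (algebraMap K R)).pow 2
  have he : algebraMap K R (sx s.1) = (algebraMap K R s.1.B) ^ 3 - 4 * algebraMap K R s.1.A * algebraMap K R s.1.B *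
      algebraMap K R s.1.C + 8 * (algebraMap K R s.1.A) ^ 2 * algebraMap K R s.1.D := by
    simp only [sx, map_mul, map_add, map_sub, map_pow, map_ofNat]
  rw [he, ← hn] at hu
  exact isUnit_of_mul_isUnit_left hu

/-- the value of the form -/
theorem inv_Tq {K : Type} [Field K] (f : Cub K) (s₁ s₂ : Q4 K × K) (x y z : K) : ∃ c₀ c₁ : K,
    ∀ (R : Type) [CommRing R] [Algebra K R] (θ : R), (f.map (algebraMap K R)).ev θ = 0 →
      (algebraMap K R (hh s₁) - 16 * algebraMap K R s₁.1.A * θ) *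
      (algebraMap K R (hh s₂) - 16 * algebraMap K R s₂.1.A * θ) *
        (algebraMap K R x + algebraMap K R y * θ + algebraMap K R z * θ ^ 2) ^ 2 =
      algebraMap K R c₀ + algebraMap K R c₁ * θ + algebraMap K R ((Tq f s₁ s₂).ev x y z) * θ ^ 2 := by
  obtain ⟨c₀, c₁, h⟩ := inv_red f (hh s₁ * hh s₂) (-16 * (s₁.1.A * hh s₂ + s₂.1.A * hh s₁))
    (256 * s₁.1.A * s₂.1.A) x y z
  refine ⟨c₀, c₁, fun R _ _ θ hθ => ?_⟩
  rw [Tq, ← h R θ hθ]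
  simp only [map_mul, map_add, map_neg, map_ofNat]
  ring

theorem inv_inv : S_inv := by
  intro K _ _ f _ s₁ s₂ s₁' s₂' hs₁ hs₂ M₁ M₂ hM₁ hM₂ hx₁ hx₂ hx₁' hx₂' hiso
  obtain ⟨x, y, z, hne, h0⟩ := hiso
  obtain ⟨x₁, y₁, z₁, hk₁⟩ := inv_kap K f s₁ s₁' hs₁ M₁ hM₁
  obtain ⟨x₂, y₂, z₂, hk₂⟩ := inv_kap K f s₂ s₂' hs₂ M₂ hM₂
  have hθ := inv_root f
  have hk₁ := hk₁ (AdjoinRoot (inv_p f)) (AdjoinRoot.root (inv_p f)) hθ
  have hk₂ := hk₂ (AdjoinRoot (inv_p f)) (AdjoinRoot.root (inv_p f)) hθ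
  have u₁ := inv_unit hs₁ hx₁ (AdjoinRoot (inv_p f)) (AdjoinRoot.root (inv_p f)) hθ
  have u₂ := inv_unit hs₂ hx₂ (AdjoinRoot (inv_p f)) (AdjoinRoot.root (inv_p f)) hθ
  have u₁' := inv_unit (hM₁.res hs₁) hx₁' (AdjoinRoot (inv_p f)) (AdjoinRoot.root (inv_p f)) hθ
  have u₂' := inv_unit (hM₂.res hs₂) hx₂' (AdjoinRoot (inv_p f)) (AdjoinRoot.root (inv_p f)) hθ
  obtain ⟨c₀, c₁, hc⟩ := inv_Tq f s₁ s₂ x y z
  have hc := hc (AdjoinRoot (inv_p f)) (AdjoinRoot.root (inv_p f)) hθ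
  rw [h0, map_zero, zero_mul, add_zero] at hc
  set ξ₁ := algebraMap K (AdjoinRoot (inv_p f)) (hh s₁) - 16 * algebraMap K (AdjoinRoot (inv_p f)) s₁.1.A *
    AdjoinRoot.root (inv_p f) with hξ₁
  set ξ₂ := algebraMap K (AdjoinRoot (inv_p f)) (hh s₂) - 16 * algebraMap K (AdjoinRoot (inv_p f)) s₂.1.A *
    AdjoinRoot.root (inv_p f) with hξ₂
  set ξ₁' := algebraMap K (AdjoinRoot (inv_p f)) (hh s₁') - 16 * algebraMap K (AdjoinRoot (inv_p f)) s₁'.1.A *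
    AdjoinRoot.root (inv_p f) with hξ₁'
  set ξ₂' := algebraMap K (AdjoinRoot (inv_p f)) (hh s₂') - 16 * algebraMap K (AdjoinRoot (inv_p f)) s₂'.1.A *
    AdjoinRoot.root (inv_p f) with hξ₂'
  set κ₁ := algebraMap K (AdjoinRoot (inv_p f)) x₁ + algebraMap K (AdjoinRoot (inv_p f)) y₁ *
    AdjoinRoot.root (inv_p f) + algebraMap K (AdjoinRoot (inv_p f)) z₁ * AdjoinRoot.root (inv_p f) ^ 2 with hκ₁
  set κ₂ := algebraMap K (AdjoinRoot (inv_p f)) x₂ + algebraMap K (AdjoinRoot (inv_p f)) y₂ *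
    AdjoinRoot.root (inv_p f) + algebraMap K (AdjoinRoot (inv_p f)) z₂ * AdjoinRoot.root (inv_p f) ^ 2 with hκ₂
  set w := algebraMap K (AdjoinRoot (inv_p f)) x + algebraMap K (AdjoinRoot (inv_p f)) y *
    AdjoinRoot.root (inv_p f) + algebraMap K (AdjoinRoot (inv_p f)) z * AdjoinRoot.root (inv_p f) ^ 2 with hw
  have v₁ : IsUnit κ₁ := by
    have h : IsUnit (κ₁ ^ 2) := by rw [← hk₁]; exact u₁.mul u₁'
    exact (isUnit_pow_iff two_ne_zero).mp h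
  have v₂ : IsUnit κ₂ := by
    have h : IsUnit (κ₂ ^ 2) := by rw [← hk₂]; exact u₂.mul u₂'
    exact (isUnit_pow_iff two_ne_zero).mp h
  obtain ⟨k, hk⟩ := v₁.mul v₂
  obtain ⟨x', y', z', hw'⟩ := inv_rep f (w * (ξ₁ * ξ₂) * (k⁻¹ : (AdjoinRoot (inv_p f))ˣ))
  have hkk : κ₁ * κ₂ * (k⁻¹ : (AdjoinRoot (inv_p f))ˣ) = 1 := by rw [← hk]; exact Units.mul_inv k
  refine ⟨x', y', z', ?_, ?_⟩
  · rintro ⟨rfl, rfl, rfl⟩
    simp only [map_zero, zero_mul, add_zero] at hw'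
    have hU : IsUnit ((ξ₁ * ξ₂) * ((k⁻¹ : (AdjoinRoot (inv_p f))ˣ) : AdjoinRoot (inv_p f))) :=
      (u₁.mul u₂).mul (Units.isUnit _)
    rw [mul_assoc] at hw'
    have h1 : w = 0 := (hU.mul_left_eq_zero).mp hw'
    exact hne (inv_inj f h1)
  · obtain ⟨c₀', c₁', hc'⟩ := inv_Tq f s₁' s₂' x' y' z'
    have hc' := hc' (AdjoinRoot (inv_p f)) (AdjoinRoot.root (inv_p f)) hθ
    rw [← hξ₁', ← hξ₂', ← hw'] at hc'
    have h1 : ξ₁' * ξ₂' * (w * (ξ₁ * ξ₂) * ((k⁻¹ : (AdjoinRoot (inv_p f))ˣ) : AdjoinRoot (inv_p f))) ^ 2 =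
        ξ₁ * ξ₂ * w ^ 2 := by
      calc ξ₁' * ξ₂' * (w * (ξ₁ * ξ₂) * ((k⁻¹ : (AdjoinRoot (inv_p f))ˣ) : AdjoinRoot (inv_p f))) ^ 2
          = ξ₁ * ξ₂ * w ^ 2 * ((ξ₁ * ξ₁') * (ξ₂ * ξ₂') *
            ((k⁻¹ : (AdjoinRoot (inv_p f))ˣ) : AdjoinRoot (inv_p f)) ^ 2) := by ring
        _ = ξ₁ * ξ₂ * w ^ 2 * (κ₁ * κ₂ * ((k⁻¹ : (AdjoinRoot (inv_p f))ˣ) : AdjoinRoot (inv_p f))) ^ 2 := by
            rw [hk₁, hk₂]; ring
        _ = ξ₁ * ξ₂ * w ^ 2 := by rw [hkk]; ring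
    rw [h1, hc] at hc'
    have h2 : algebraMap K (AdjoinRoot (inv_p f)) (c₀' - c₀) + algebraMap K (AdjoinRoot (inv_p f)) (c₁' - c₁) *
        AdjoinRoot.root (inv_p f) + algebraMap K (AdjoinRoot (inv_p f)) ((Tq f s₁' s₂').ev x' y' z') *
        AdjoinRoot.root (inv_p f) ^ 2 = 0 := by
      rw [map_sub, map_sub]
      linear_combination -hc'
    exact (inv_inj f h2).2.2

theorem t_inv : S_kap ∧ S_inv := ⟨inv_kap, inv_inv⟩

end Pool.Agent.H456.PP
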