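import Pool.Agent.H456.PP.Stm
import Pool.Agent.H456.BQ.T_sol
import Pool.Agent.H456.BQ.T_nz

/-!
(irr) `S_irr`: if the cubic is irreducible modulo `P` all the classes over the completion are trivial (helper271).
-/

set_option autoImplicit false
set_option linter.all false

open Polynomial Finset Filter
open Pool.Agent.H456.EC (toK toK_inj sig toK_eq reflect_toK cls)
open Pool.Agent.H456.RN
open Pool.Agent.H456.BQ
open Pool.Agent.H456.Coh (TF)

namespace Pool.Agent.H456.PP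

section loc

variable {F : Type} [Field F] {P : F[X]} {O : Type} [CommRing O] [IsDomain O] {π : O} {ι : F[X] →+* O}

theorem irr_unit (h : Lc P π ι) {x : O} (hx : ¬ π ∣ x) : IsUnit x := by
  obtain ⟨k, u, hu, rfl⟩ := h.pow x (by rintro rfl; exact hx (dvd_zero _))
  rcases k with _ | k
  · rwa [pow_zero, mul_one]
  · exact absurd (Dvd.intro_left (u * π ^ k) (by ring)) hx

theorem irr_ndvd (h : Lc P π ι) {x : O} (hx : IsUnit x) : ¬ π ∣ x := fun hd =>
  h.nonunit (isUnit_of_dvd_unit hd hx)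

theorem irr_isField (h : Lc P π ι) : IsField (O ⧸ Ideal.span {π}) := by
  have hz : ∀ x : O, Ideal.Quotient.mk (Ideal.span {π}) x = 0 ↔ π ∣ x := fun x => by
    rw [Ideal.Quotient.eq_zero_iff_mem, Ideal.mem_span_singleton]
  refine ⟨⟨0, 1, ?_⟩, mul_comm, ?_⟩
  · intro h0
    have h1 : Ideal.Quotient.mk (Ideal.span {π}) (1 : O) = 0 := by
      rw [map_one]
      exact h0.symm
    exact h.nonunit (isUnit_of_dvd_one ((hz 1).1 h1))
  · intro a ha
    obtain ⟨x, rfl⟩ := Ideal.Quotient.mk_surjective a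
    have hx : IsUnit x := irr_unit h (fun hd => ha ((hz x).2 hd))
    obtain ⟨y, hy⟩ := hx.exists_right_inv
    exact ⟨Ideal.Quotient.mk _ y, by rw [← map_mul, hy, map_one]⟩

theorem irr_finite [Finite F] (h : Lc P π ι) (hP : P.Monic) : Finite (O ⧸ Ideal.span {π}) := by
  have hfin : Finite (Rq P) := finite_Rq hP
  have hk : ∀ x ∈ Ideal.span {P}, ((Ideal.Quotient.mk (Ideal.span {π})).comp ι) x = 0 := by
    intro x hx
    rw [Ideal.mem_span_singleton] at hx
    have h1 := (h.dvd 1 x).2 (by rwa [pow_one])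
    rw [pow_one] at h1
    rw [RingHom.comp_apply, Ideal.Quotient.eq_zero_iff_mem, Ideal.mem_span_singleton]
    exact h1
  refine Finite.of_surjective (Ideal.Quotient.lift (Ideal.span {P}) ((Ideal.Quotient.mk (Ideal.span {π})).comp ι) hk) ?_
  intro a
  obtain ⟨x, rfl⟩ := Ideal.Quotient.mk_surjective a
  obtain ⟨y, hy⟩ := h.dense 1 x
  rw [pow_one] at hy
  refine ⟨Ideal.Quotient.mk _ y, ?_⟩
  rw [Ideal.Quotient.lift_mk, RingHom.comp_apply, eq_comm, Ideal.Quotient.eq, Ideal.mem_span_singleton]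
  exact hy

theorem irr_sc {f : Cub O} (h : Lc P π ι) (hf : NoR π f) {d : O} (hd : IsUnit d) : NoR π (f.sc d) := by
  obtain ⟨e, he⟩ := hd.exists_right_inv
  refine ⟨?_, ?_⟩
  · rw [Cub.disc_sc]
    exact irr_ndvd h ((hd.pow 6).mul (irr_unit h hf.1))
  · intro r
    have e1 : (f.sc d).ev r = d ^ 3 * f.ev (e * r) := by
      simp only [Cub.ev, Cub.sc]
      linear_combination (-(r ^ 3) * (1 + d * e + d ^ 2 * e ^ 2) - d * f.a * r ^ 2 * (1 + d * e) - d ^ 2 * f.b * r) * he
    rw [e1]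
    exact irr_ndvd h ((hd.pow 3).mul (irr_unit h (hf.2 _)))

/-- the case of good reduction -/
theorem irr_root [Finite F] (h : Lc4 P π ι) (hP : P.Monic) (hff : S_ff1) (h2 : (2 : F) ≠ 0) {f : Cub O} (hf : NoR π f)
    {x y : O} (hxy : y ^ 2 = f.ev x) : ∃ r : O, (gp f x y).ev r 1 = 0 := by
  have hL := h.toLc
  have hfin := irr_finite hL hP
  have hK := irr_isField hL
  have hFt : Fintype (O ⧸ Ideal.span {π}) := Fintype.ofFinite _
  set φ : O →+* O ⧸ Ideal.span {π} := Ideal.Quotient.mk (Ideal.span {π}) with hφ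
  have hz : ∀ x : O, φ x = 0 ↔ π ∣ x := fun x => by
    rw [hφ, Ideal.Quotient.eq_zero_iff_mem, Ideal.mem_span_singleton]
  have h2O : IsUnit (2 : O) := nz_two h2 ι
  have h2κ : (2 : O ⧸ Ideal.span {π}) ≠ 0 := by
    intro h0
    have : φ 2 = 0 := by rw [map_ofNat]; exact h0
    exact irr_ndvd hL h2O ((hz 2).1 this)
  have hfr : ∀ r, (f.map φ).ev r ≠ 0 := by
    intro r hr
    obtain ⟨r0, rfl⟩ := Ideal.Quotient.mk_surjective r
    have h3 : (f.map φ).ev (φ r0) = φ (f.ev r0) := Cub.map_ev φ f r0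
    change (f.map φ).ev (φ r0) = 0 at hr
    rw [h3] at hr
    exact hf.2 r0 ((hz _).1 hr)
  have hres : ((gp f x y).map φ).res = ((f.map φ).sc 4).tr (φ (-(2 * x + 2 * f.a))) := by
    rw [Q4.map_res, res_gp f x y hxy, Cub.map_tr, Cub.map_sc, map_ofNat]
  obtain ⟨u, v, huv, he⟩ := hff (O ⧸ Ideal.span {π}) hK h2κ (f.map φ) hfr ((gp f x y).map φ, φ (-(2 * x + 2 * f.a))) hres
  change ((gp f x y).map φ).ev u v = 0 at he
  letI := hK.toField
  have hv : v ≠ 0 := by
    intro hv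
    have h3 : ((gp f x y).map φ).ev u v = u ^ 4 := by
      rw [hv]
      simp only [Q4.ev, Q4.map, gp, map_one]
      ring
    rw [h3] at he
    obtain ⟨u0, rfl⟩ := Ideal.Quotient.mk_surjective u
    have h4 : φ (u0 ^ 4) = 0 := by rw [map_pow]; exact he
    have h5 : π ∣ u0 := by
      by_contra h6
      exact irr_ndvd hL ((irr_unit hL h6).pow 4) ((hz _).1 h4)
    exact huv ⟨(hz u0).2 h5, hv⟩
  obtain ⟨w, hw⟩ := hK.mul_inv_cancel hv
  have he2 : ((gp f x y).map φ).ev (u * w) 1 = 0 := by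
    have h3 : ((gp f x y).map φ).ev (u * w) (v * w) = w ^ 4 * ((gp f x y).map φ).ev u v := by
      simp only [Q4.ev]
      ring
    rw [hw, he, mul_zero] at h3
    exact h3
  obtain ⟨r0, hr0⟩ := Ideal.Quotient.mk_surjective (u * w)
  change φ r0 = u * w at hr0
  set g1 := (gp f x y).sub ⟨1, r0, 0, 1⟩ with hg1
  have hE : π ∣ g1.E := by
    rw [← hz]
    have h3 : g1.E = (gp f x y).ev r0 1 := by
      simp only [hg1, Q4.sub, Q4.ev]
      ring
    rw [h3, ← Q4.map_ev, map_one, hr0]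
    exact he2
  have hdet : (⟨1, r0, 0, 1⟩ : M2 O).det = 1 := by
    simp only [M2.det]
    ring
  have hdisc : g1.res.disc = 4 ^ 6 * f.disc := by
    rw [hg1, Q4.res_sub, Cub.disc_tr, Cub.disc_sc, hdet, res_gp f x y hxy, Cub.disc_tr, Cub.disc_sc]
    ring
  have hD : IsUnit g1.D := by
    refine irr_unit hL fun hd => ?_
    have h3 : π ∣ g1.res.disc := by
      obtain ⟨a, ha⟩ := hd
      obtain ⟨b, hb⟩ := hE
      have h4 : g1.res.b = π * (g1.B * a - 4 * g1.A * b) := by
        simp only [Q4.res]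
        rw [ha, hb]
        ring
      have h5 : g1.res.c = π * (π * g1.A * a ^ 2 + g1.B ^ 2 * b - 4 * g1.A * g1.C * b) := by
        simp only [Q4.res]
        rw [ha, hb]
        ring
      have h6 : π ∣ g1.res.b := ⟨_, h4⟩
      have h7 : π ∣ g1.res.c := ⟨_, h5⟩
      have h8 : g1.res.disc = g1.res.b * (g1.res.a ^ 2 * g1.res.b - 4 * g1.res.b ^ 2) +
          g1.res.c * (-4 * g1.res.a ^ 3 - 27 * g1.res.c + 18 * g1.res.a * g1.res.b) := by
        simp only [Cub.disc]
        ring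
      rw [h8]
      exact dvd_add (h6.mul_right _) (h7.mul_right _)
    rw [hdisc] at h3
    have h4O : IsUnit (4 : O) := by
      have : (4 : O) = 2 * 2 := by norm_num
      rw [this]
      exact h2O.mul h2O
    exact irr_ndvd hL ((h4O.pow 6).mul (irr_unit hL hf.1)) h3
  obtain ⟨w', hw', e'⟩ := h.hensel4 g1.E g1.D g1.C g1.B g1.A hE hD
  refine ⟨1 * w' + r0 * 1, ?_⟩
  have h9 := Q4.ev_sub (gp f x y) ⟨1, r0, 0, 1⟩ w' 1
  have h10 : (gp f x y).ev (1 * w' + r0 * 1) (0 * w' + 1 * 1) = 0 := by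
    rw [← h9, ← hg1]
    simp only [Q4.ev]
    linear_combination e'
  have h11 : (0 * w' + 1 * 1 : O) = 1 := by ring
  rwa [h11] at h10

variable {L : Type} [Field L] [Algebra O L] [IsFractionRing O L]

theorem irr_inj : Function.Injective (algebraMap O L) := IsFractionRing.injective O L

theorem irr_p (h : Lc P π ι) : algebraMap O L π ≠ 0 := by
  intro h0
  exact h.ne (irr_inj (by rw [h0, map_zero]))

theorem irr_val (h : Lc P π ι) {x : L} (hx : x ≠ 0) :
    ∃ (k : ℤ) (u : O), IsUnit u ∧ x = algebraMap O L u * (algebraMap O L π) ^ k := by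
  obtain ⟨a, b, hb, rfl⟩ := IsFractionRing.div_surjective (A := O) x
  have hb0 : b ≠ 0 := nonZeroDivisors.ne_zero hb
  have ha0 : a ≠ 0 := by
    rintro rfl
    rw [map_zero, zero_div] at hx
    exact hx rfl
  obtain ⟨k, u, hu, rfl⟩ := h.pow a ha0
  obtain ⟨l, v, hv, rfl⟩ := h.pow b hb0
  obtain ⟨w, hw⟩ := hv.exists_right_inv
  have hp := irr_p (L := L) h
  have hv0 : algebraMap O L v ≠ 0 := by
    intro h0
    exact hv.ne_zero (irr_inj (by rw [h0, map_zero]))
  have hw2 : algebraMap O L v * algebraMap O L w = 1 := by rw [← map_mul, hw, map_one]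
  have hwu : IsUnit w := IsUnit.of_mul_eq_one v (by rw [mul_comm]; exact hw)
  refine ⟨(k : ℤ) - l, u * w, hu.mul hwu, ?_⟩
  rw [zpow_sub₀ hp, zpow_natCast, zpow_natCast, map_mul, map_mul, map_mul, map_pow, map_pow]
  have hpl : (algebraMap O L π) ^ l ≠ 0 := pow_ne_zero _ hp
  field_simp
  linear_combination (-algebraMap O L u) * hw2

theorem irr_uniq_le (h : Lc P π ι) {u v : O} (hu : IsUnit u) {k : ℤ} {n : ℕ}
    (e : algebraMap O L u * (algebraMap O L π) ^ k = algebraMap O L v * (algebraMap O L π) ^ (k + n)) : n = 0 := by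
  have hp := irr_p (L := L) h
  rw [zpow_add₀ hp, zpow_natCast] at e
  have hpk : (algebraMap O L π) ^ k ≠ 0 := zpow_ne_zero _ hp
  have e2 : algebraMap O L u = algebraMap O L (v * π ^ n) := by
    rw [map_mul, map_pow]
    apply mul_right_cancel₀ hpk
    rw [e]
    ring
  have e3 := irr_inj e2
  by_contra hn
  obtain ⟨m, rfl⟩ := Nat.exists_eq_succ_of_ne_zero hn
  exact irr_ndvd h hu ⟨v * π ^ m, by rw [e3, pow_succ]; ring⟩

theorem irr_uniq (h : Lc P π ι) {u v : O} (hu : IsUnit u) (hv : IsUnit v) {k l : ℤ}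
    (e : algebraMap O L u * (algebraMap O L π) ^ k = algebraMap O L v * (algebraMap O L π) ^ l) : k = l := by
  rcases le_total k l with h1 | h1
  · obtain ⟨n, hn⟩ := Int.le.dest h1
    rw [← hn] at e
    have := irr_uniq_le h hu e
    rw [← hn, this]
    simp
  · obtain ⟨n, hn⟩ := Int.le.dest h1
    rw [← hn] at e
    have := irr_uniq_le h hv e.symm
    rw [← hn, this]
    simp

theorem irr_scale {R : Type*} [CommRing R] (f : Cub R) (c x y h : R) :
    (gp (f.sc (c ^ 2)) (c ^ 2 * x) (c ^ 3 * y)).ev (c * h) 1 = c ^ 4 * (gp f x y).ev h 1 := by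
  simp only [gp, Cub.sc, Q4.ev]
  ring

/-- from a root of the scaled quartic over `O` to a root over `L` -/
theorem irr_fin (f : Cub O) {c D X Y : L} (hc : c ≠ 0) {d x y r : O} (h1 : c ^ 2 * D = algebraMap O L d)
    (h2 : c ^ 2 * X = algebraMap O L x) (h3 : c ^ 3 * Y = algebraMap O L y) (hr : (gp (f.sc d) x y).ev r 1 = 0) :
    ∃ t : L, (gp ((f.map (algebraMap O L)).sc D) X Y).ev t 1 = 0 := by
  refine ⟨algebraMap O L r / c, ?_⟩
  have e := irr_scale ((f.map (algebraMap O L)).sc D) c X Y (algebraMap O L r / c)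
  have e2 : (gp (((f.map (algebraMap O L)).sc D).sc (c ^ 2)) (c ^ 2 * X) (c ^ 3 * Y)).ev (c * (algebraMap O L r / c)) 1 =
      algebraMap O L ((gp (f.sc d) x y).ev r 1) := by
    have e3 : c * (algebraMap O L r / c) = algebraMap O L r := by field_simp
    rw [e3, Cub.sc_sc, mul_comm D, h1, h2, h3]
    simp only [gp, Cub.sc, Q4.ev, Cub.map, map_add, map_mul, map_pow, map_neg, map_sub, map_one, map_ofNat, map_zero]
  rw [e2, hr, map_zero] at e
  rcases mul_eq_zero.1 e.symm with h | h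
  · exact absurd h (pow_ne_zero _ hc)
  · exact h

end loc

theorem irr_hasrt {K : Type*} [Field K] {f : Cub K} {X Y ρ : K} {M : M2 K} {g : Q4 K} {D : K} (hD : D ≠ 0)
    (h : Rep f X Y M (g.smul D) ρ) {t : K} (ht : (gp f X Y).ev t 1 = 0) :
    ∃ u v : K, ¬ (u = 0 ∧ v = 0) ∧ g.ev u v = 0 := by
  refine ⟨M.δ * t - M.β, -M.γ * t + M.α, ?_, ?_⟩
  · rintro ⟨h1, h2⟩
    apply h.det
    simp only [M2.det]
    linear_combination M.γ * h1 + M.δ * h2
  · have e1 := Q4.ev_sub (gp f X Y) M (M.δ * t - M.β) (-M.γ * t + M.α)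
    rw [h.sub, Q4.ev_smul, Q4.ev_smul] at e1
    have e2 : (gp f X Y).ev (M.α * (M.δ * t - M.β) + M.β * (-M.γ * t + M.α))
        (M.γ * (M.δ * t - M.β) + M.δ * (-M.γ * t + M.α)) = M.det ^ 4 * (gp f X Y).ev t 1 := by
      simp only [Q4.ev, M2.det]
      ring
    rw [e2, ht, mul_zero] at e1
    rcases mul_eq_zero.1 e1 with h3 | h3
    · exact absurd h3 (pow_ne_zero _ h.det)
    · rcases mul_eq_zero.1 h3 with h4 | h4
      · exact absurd h4 hD
      · exact h4

theorem t_irr : S_nz → S_gpr → S_cusp → S_ff1 → S_irr := by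
  intro hnz hgpr hcusp hff F _ _ h2 P O L _ _ _ _ _ π ι hL4 f hf s hs D hD hsol
  have hL := hL4.toLc
  have h2O : IsUnit (2 : O) := nz_two h2 ι
  have h2L : (2 : L) ≠ 0 := by
    have h3 : algebraMap O L 2 ≠ 0 := by
      intro h0
      exact h2O.ne_zero (irr_inj (by rw [h0, map_zero]))
    rwa [map_ofNat] at h3
  have hfd : IsUnit f.disc := irr_unit hL hf.1
  have hsD : (s.1.smul D).res = (((f.map (algebraMap O L)).sc D).sc 4).tr (D * s.2) := by
    rw [Q4.res_smul, hs, Cub.sc_tr, Cub.sc_sc, Cub.sc_sc, mul_comm 4 D]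
  have hdisc : (s.1.smul D).res.disc ≠ 0 := by
    rw [hsD, Cub.disc_tr, Cub.disc_sc, Cub.disc_sc, Cub.map_disc]
    have h4 : (4 : L) ≠ 0 := by
      have : (4 : L) = 2 * 2 := by norm_num
      rw [this]
      exact mul_ne_zero h2L h2L
    have h5 : algebraMap O L f.disc ≠ 0 := by
      intro h0
      exact hfd.ne_zero (irr_inj (by rw [h0, map_zero]))
    exact mul_ne_zero (pow_ne_zero _ h4) (mul_ne_zero (pow_ne_zero _ hD) h5)
  obtain ⟨u, v, z, huv, hz, e⟩ := hnz F h2 P.1 O L π ι hL (s.1.smul D) hdisc hsol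
  obtain ⟨X, Y, M, hXY, hrep⟩ := t_sol L h2L ((f.map (algebraMap O L)).sc D) (s.1.smul D, D * s.2) hsD u v z huv hz e
  suffices hroot : ∃ t : L, (gp ((f.map (algebraMap O L)).sc D) X Y).ev t 1 = 0 by
    obtain ⟨t, ht⟩ := hroot
    exact irr_hasrt hD hrep ht
  set p := algebraMap O L π with hpdef
  have hp : p ≠ 0 := irr_p hL
  obtain ⟨m', d, hd, hDd⟩ := irr_val (L := L) hL hD
  rw [← hpdef] at hDd
  have hpow2 : ∀ (A : L) (a b : ℤ), (p ^ a) ^ 2 * (A * p ^ b) = A * p ^ (2 * a + b) := by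
    intro A a b
    rw [zpow_add₀ hp, two_mul, zpow_add₀ hp]
    ring
  have hpow3 : ∀ (A : L) (a b : ℤ), (p ^ a) ^ 3 * (A * p ^ b) = A * p ^ (3 * a + b) := by
    intro A a b
    rw [zpow_add₀ hp, show (3 : ℤ) * a = a + a + a by ring, zpow_add₀ hp, zpow_add₀ hp]
    ring
  set x := X / D with hxdef
  have hX : X = D * x := by
    rw [hxdef]
    field_simp
  have hev : ((f.map (algebraMap O L)).sc D).ev X = D ^ 3 * (f.map (algebraMap O L)).ev x := by
    rw [hX]
    simp only [Cub.ev, Cub.sc]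
    ring
  rw [hev] at hXY
  by_cases hxO : ∃ x0 : O, x = algebraMap O L x0
  · obtain ⟨x0, hx0⟩ := hxO
    have hw : IsUnit (f.ev x0) := irr_unit hL (hf.2 x0)
    rw [hx0, Cub.map_ev] at hXY
    have hw0 : algebraMap O L (f.ev x0) ≠ 0 := by
      intro h0
      exact hw.ne_zero (irr_inj (by rw [h0, map_zero]))
    have hY : Y ≠ 0 := by
      rintro rfl
      have : D ^ 3 * algebraMap O L (f.ev x0) ≠ 0 := mul_ne_zero (pow_ne_zero _ hD) hw0
      exact this (by rw [← hXY]; ring)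
    obtain ⟨l, y, hy, hYy⟩ := irr_val (L := L) hL hY
    rw [← hpdef] at hYy
    have e1 : algebraMap O L (y ^ 2) * p ^ (2 * l) = algebraMap O L (d ^ 3 * f.ev x0) * p ^ (3 * m') := by
      have h3 : p ^ (2 * l) = p ^ l * p ^ l := by rw [two_mul, zpow_add₀ hp]
      have h4 : p ^ (3 * m') = p ^ m' * p ^ m' * p ^ m' := by
        rw [show (3 : ℤ) * m' = m' + m' + m' by ring, zpow_add₀ hp, zpow_add₀ hp]
      rw [h3, h4, map_mul, map_pow, map_pow]
      rw [hYy, hDd] at hXY
      linear_combination hXY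
    have e2 : 2 * l = 3 * m' := irr_uniq hL (hy.pow 2) ((hd.pow 3).mul hw) e1
    have e3 : y ^ 2 = (f.sc d).ev (d * x0) := by
      rw [e2] at e1
      have h3 : p ^ (3 * m') ≠ 0 := zpow_ne_zero _ hp
      have h4 := irr_inj (mul_right_cancel₀ h3 e1)
      rw [h4]
      simp only [Cub.ev, Cub.sc]
      ring
    obtain ⟨r, hr⟩ := irr_root hL4 P.2.1 hff h2 (irr_sc hL hf hd) e3
    refine irr_fin f (c := p ^ (m' - l)) (zpow_ne_zero _ hp) (d := d) (x := d * x0) (y := y) ?_ ?_ ?_ hr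
    · rw [hDd, hpow2, show 2 * (m' - l) + m' = 0 by omega, zpow_zero, mul_one]
    · rw [hX, hx0, hDd, ← mul_assoc, hpow2, show 2 * (m' - l) + m' = 0 by omega, zpow_zero, mul_one, map_mul]
    · rw [hYy, hpow3, show 3 * (m' - l) + l = 0 by omega, zpow_zero, mul_one]
  · have hx00 : x ≠ 0 := by
      intro h0
      exact hxO ⟨0, by rw [h0, map_zero]⟩
    obtain ⟨k, u', hu', hxu⟩ := irr_val (L := L) hL hx00
    rw [← hpdef] at hxu
    have hk : k < 0 := by
      by_contra hk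
      push Not at hk
      obtain ⟨n, rfl⟩ := Int.eq_ofNat_of_zero_le hk
      apply hxO
      refine ⟨u' * π ^ n, ?_⟩
      rw [hxu, map_mul, map_pow, zpow_natCast]
    obtain ⟨m, hm⟩ := Int.eq_ofNat_of_zero_le (show 0 ≤ -k - 1 by omega)
    have hkm : k = -((m : ℤ) + 1) := by omega
    set w := u' ^ 3 + f.a * π ^ (m + 1) * u' ^ 2 + f.b * π ^ (2 * (m + 1)) * u' + f.c * π ^ (3 * (m + 1)) with hwdef
    have hw : IsUnit w := by
      refine irr_unit hL fun hdv => ?_
      have h3 : π ∣ f.a * π ^ (m + 1) * u' ^ 2 + f.b * π ^ (2 * (m + 1)) * u' + f.c * π ^ (3 * (m + 1)) := by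
        refine dvd_add (dvd_add ?_ ?_) ?_
        · exact ((dvd_pow_self π (by omega)).mul_left _).mul_right _
        · exact ((dvd_pow_self π (by omega)).mul_left _).mul_right _
        · exact (dvd_pow_self π (by omega)).mul_left _
      have h4 : π ∣ u' ^ 3 := by
        have h5 := dvd_sub hdv h3
        have h6 : w - (f.a * π ^ (m + 1) * u' ^ 2 + f.b * π ^ (2 * (m + 1)) * u' + f.c * π ^ (3 * (m + 1))) = u' ^ 3 := by
          rw [hwdef]
          ring
        rwa [h6] at h5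
      exact irr_ndvd hL (hu'.pow 3) h4
    -- the value of the cubic
    have hq : p ^ k * p ^ (m + 1) = 1 := by
      rw [hkm, ← zpow_natCast, ← zpow_add₀ hp]
      rw [show -((m : ℤ) + 1) + ((m + 1 : ℕ) : ℤ) = 0 by push_cast; ring, zpow_zero]
    have hval : (f.map (algebraMap O L)).ev x = algebraMap O L w * (p ^ k) ^ 3 := by
      rw [hxu, hwdef]
      simp only [Cub.ev, Cub.map, map_add, map_mul, map_pow]
      rw [← hpdef]
      set q := p ^ k with hqdef
      set a := algebraMap O L f.a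
      set b := algebraMap O L f.b
      set c := algebraMap O L f.c
      set U := algebraMap O L u'
      have h5 : p ^ (2 * (m + 1)) = (p ^ (m + 1)) ^ 2 := by rw [← pow_mul, mul_comm]
      have h6 : p ^ (3 * (m + 1)) = (p ^ (m + 1)) ^ 3 := by rw [← pow_mul, mul_comm]
      rw [h5, h6]
      set s' := p ^ (m + 1)
      linear_combination (-(a * U ^ 2 * q ^ 2) - b * U * q * (q * s' + 1) - c * ((q * s') ^ 2 + q * s' + 1)) * hq
    rw [hval] at hXY
    have hw0 : algebraMap O L w ≠ 0 := by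
      intro h0
      exact hw.ne_zero (irr_inj (by rw [h0, map_zero]))
    have hY : Y ≠ 0 := by
      rintro rfl
      have : D ^ 3 * (algebraMap O L w * (p ^ k) ^ 3) ≠ 0 :=
        mul_ne_zero (pow_ne_zero _ hD) (mul_ne_zero hw0 (pow_ne_zero _ (zpow_ne_zero _ hp)))
      exact this (by rw [← hXY]; ring)
    obtain ⟨l, y, hy, hYy⟩ := irr_val (L := L) hL hY
    rw [← hpdef] at hYy
    have e1 : algebraMap O L (y ^ 2) * p ^ (2 * l) = algebraMap O L (d ^ 3 * w) * p ^ (3 * (m' + k)) := by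
      have h3 : p ^ (2 * l) = p ^ l * p ^ l := by rw [two_mul, zpow_add₀ hp]
      have h4 : p ^ (3 * (m' + k)) = (p ^ m' * p ^ k) * (p ^ m' * p ^ k) * (p ^ m' * p ^ k) := by
        rw [show (3 : ℤ) * (m' + k) = (m' + k) + (m' + k) + (m' + k) by ring, zpow_add₀ hp, zpow_add₀ hp, zpow_add₀ hp]
      rw [h3, h4, map_mul, map_pow, map_pow]
      rw [hYy, hDd] at hXY
      linear_combination hXY
    have e2 : 2 * l = 3 * (m' + k) := irr_uniq hL (hy.pow 2) ((hd.pow 3).mul hw) e1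
    have e3 : y ^ 2 = (f.sc (d * π ^ (m + 1))).ev (d * u') := by
      rw [e2] at e1
      have h3 : p ^ (3 * (m' + k)) ≠ 0 := zpow_ne_zero _ hp
      have h4 := irr_inj (mul_right_cancel₀ h3 e1)
      rw [h4, hwdef]
      simp only [Cub.ev, Cub.sc]
      ring
    have hdv : π ∣ d * π ^ (m + 1) := (dvd_pow_self π (by omega)).mul_left _
    obtain ⟨r, hr⟩ := hcusp F h2 P.1 O π ι hL4 (f.sc (d * π ^ (m + 1))) (d * u') y (hdv.mul_right _)
      ((dvd_pow hdv (by norm_num)).mul_right _) ((dvd_pow hdv (by norm_num)).mul_right _) e3 (hd.mul hu')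
    refine irr_fin f (c := p ^ (m' + k - l)) (zpow_ne_zero _ hp) (d := d * π ^ (m + 1)) (x := d * u') (y := y) ?_ ?_ ?_ hr
    · rw [hDd, hpow2, show 2 * (m' + k - l) + m' = ((m + 1 : ℕ) : ℤ) by push_cast; omega, zpow_natCast, map_mul, map_pow]
    · rw [hX, hxu, hDd]
      have h7 : algebraMap O L d * p ^ m' * (algebraMap O L u' * p ^ k) = (algebraMap O L d * algebraMap O L u') * p ^ (m' + k) := by
        rw [zpow_add₀ hp]
        ring
      rw [h7, hpow2, show 2 * (m' + k - l) + (m' + k) = 0 by omega, zpow_zero, mul_one, map_mul]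
    · rw [hYy, hpow3, show 3 * (m' + k - l) + l = 0 by omega, zpow_zero, mul_one]

end Pool.Agent.H456.PP
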