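import Pool.Agent.H456.PP.Stm

/-!
(pt) `S_pt`. Let `g = s.1`. By `S_nz` for `g.smul D` (`res.disc ≠ 0`: `res_smul`, `disc_sc`, `disc_tr`) there are `(u,v) ≠ 0`, `z ≠ 0` with `z² = D g(u,v)`. (1) There are infinitely many `t ∈ L` such that `D g(t,1)` is a nonzero square: for `(u',v')` with `u' - u`, `v' - v` divisible by a high power `π^k` (times `O`), `D g(u',v') = z² (1 + π w)`, `w ∈ O`, and `1 + πw` is a square in `O` (hensel for `T² = 1 + πw`, i.e. `c₀ = -πw`, `c₁ = 2`, `c₂ = 1`: `(1+x)² = 1 + πw`; `2` is a unit). If `v ≠ 0` take `(u + π^k α, v)`, `α ∈ O` arbitrary,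
`t = (u + π^k α)/v` (`g` is homogeneous of degree 4); if `v = 0` take `(u, π^k α)`, `α ≠ 0`, `t = u/(π^k α)`. `O` is infinite (powers of `π`). (2) For `t ∈ L` let `M_t = ⟨t, -1, 1, 0⟩` (det 1), `s_t = (g.sub M_t, ρ + g.tau M_t)`: `PE M_t s s_t`, `(g.sub M_t).A = g(t, 1)`. `sx (g.sub M_t)` is a polynomial in `t` of degree `≤ 6` whose coefficient of `t⁶` is `± sx g ≠ 0` (the covariant of degree six; compute it: `sx` of `g.sub M_t` with `B_t = -(4At³ + 3Bt² + 2Ct + D)`, …), so it has finitely many zeros. Choose `t` with `D g(t,1)` a nonzero square and `sx ≠ 0`.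
(If `v = 0` the pair `s` itself can be used.)
-/

set_option autoImplicit false
set_option linter.all false

open Polynomial Finset Filter
open Pool.Agent.H456.EC (toK toK_inj sig toK_eq reflect_toK cls)
open Pool.Agent.H456.RN
open Pool.Agent.H456.BQ
open Pool.Agent.H456.Coh (TF)

namespace Pool.Agent.H456.PP

/-- the covariant of degree six -/
noncomputable def pt_six {L : Type} [Field L] (g : Q4 L) : L[X] :=
  C (sx g) * X ^ 6 + C (2 * (16 * g.A ^ 2 * g.E + 2 * g.A * g.B * g.D - 4 * g.A * g.C ^ 2 + g.B ^ 2 * g.C)) * X ^ 5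
    + C (5 * (8 * g.A * g.B * g.E + g.B ^ 2 * g.D - 4 * g.A * g.C * g.D)) * X ^ 4
    + C (20 * (g.B ^ 2 * g.E - g.A * g.D ^ 2)) * X ^ 3
    + C (-5 * (8 * g.A * g.D * g.E + g.B * g.D ^ 2 - 4 * g.B * g.C * g.E)) * X ^ 2
    + C (-2 * (16 * g.A * g.E ^ 2 + 2 * g.B * g.D * g.E - 4 * g.C ^ 2 * g.E + g.C * g.D ^ 2)) * X
    + C (-(g.D ^ 3 + 8 * g.B * g.E ^ 2 - 4 * g.C * g.D * g.E))

theorem pt_six_eval {L : Type} [Field L] (g : Q4 L) (t : L) :
    (pt_six g).eval t = sx (g.sub ⟨t, -1, 1, 0⟩) := by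
  simp only [pt_six, eval_add, eval_mul, eval_C, eval_pow, eval_X, sx, Q4.sub]
  ring

theorem pt_six_ne {L : Type} [Field L] (g : Q4 L) (h : sx g ≠ 0) : pt_six g ≠ 0 := by
  intro h0
  apply h
  have h1 := congrArg (fun p => coeff p 6) h0
  simp only [pt_six, coeff_add, coeff_C_mul, coeff_X_pow, coeff_X, coeff_C, coeff_zero] at h1
  norm_num at h1
  exact h1

theorem pt_PE {L : Type} [Field L] (s : Q4 L × L) (t : L) :
    PE ⟨t, -1, 1, 0⟩ s (s.1.sub ⟨t, -1, 1, 0⟩, s.2 + s.1.tau ⟨t, -1, 1, 0⟩) := by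
  have hd : (⟨t, -1, 1, 0⟩ : M2 L).det = 1 := by simp only [M2.det]; ring
  refine ⟨?_, ?_, ?_⟩
  · rw [hd]; exact one_ne_zero
  · rw [hd, one_pow, Q4.smul_one]
  · rw [hd]; ring

/-- every element becomes integral after the multiplication by a power of the uniformizer -/
theorem pt_den {F : Type} [Field F] {P : F[X]} {O L : Type} [CommRing O] [IsDomain O]
    [Field L] [Algebra O L] [IsFractionRing O L] {π : O} {ι : F[X] →+* O} (h : Lc P π ι) (x : L) :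
    ∃ (k : ℕ) (y : O), x * algebraMap O L π ^ k = algebraMap O L y := by
  obtain ⟨a, b, hb, rfl⟩ := IsFractionRing.div_surjective (A := O) x
  have hb0 : b ≠ 0 := nonZeroDivisors.ne_zero hb
  obtain ⟨k, u, hu, hbu⟩ := h.pow b hb0
  obtain ⟨v, rfl⟩ := hu
  refine ⟨k, a * (↑v⁻¹ : O), ?_⟩
  have hbL : algebraMap O L b ≠ 0 := by
    rw [Ne, IsFractionRing.to_map_eq_zero_iff]
    exact hb0
  have h1 : algebraMap O L b * algebraMap O L (↑v⁻¹ : O) = algebraMap O L π ^ k := by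
    rw [← map_mul, hbu, ← map_pow]
    congr 1
    calc (v : O) * π ^ k * (↑v⁻¹ : O) = ((v : O) * (↑v⁻¹ : O)) * π ^ k := by ring
      _ = π ^ k := by rw [Units.mul_inv, one_mul]
  rw [← h1, map_mul]
  field_simp

theorem pt_den' {F : Type} [Field F] {P : F[X]} {O L : Type} [CommRing O] [IsDomain O]
    [Field L] [Algebra O L] [IsFractionRing O L] {π : O} {ι : F[X] →+* O} (h : Lc P π ι) (x : L) :
    ∃ k : ℕ, ∀ n, k ≤ n → ∃ y : O, x * algebraMap O L π ^ n = algebraMap O L y := by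
  obtain ⟨k, y, hy⟩ := pt_den h x
  refine ⟨k, fun n hn => ⟨y * π ^ (n - k), ?_⟩⟩
  rw [map_mul, map_pow, ← hy, mul_assoc, ← pow_add]
  congr 2
  omega

theorem pt_two {F : Type} [Field F] (h2 : (2 : F) ≠ 0) {O : Type} [CommRing O] (ι : F[X] →+* O) :
    IsUnit (2 : O) := by
  have h3 : IsUnit (C (2 : F)) := by
    rw [isUnit_C]
    exact isUnit_iff_ne_zero.2 h2
  have h4 := h3.map ι
  have e : ι (C (2 : F)) = 2 := by
    rw [show (C (2 : F) : F[X]) = 2 from rfl, map_ofNat]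
  rwa [e] at h4

theorem pt_sq {F : Type} [Field F] (h2 : (2 : F) ≠ 0) {P : F[X]} {O : Type} [CommRing O] [IsDomain O]
    {π : O} {ι : F[X] →+* O} (h : Lc P π ι) (x : O) : ∃ y : O, y ≠ 0 ∧ y ^ 2 = 1 + π * x := by
  obtain ⟨w, ⟨a, ha⟩, hw⟩ := h.hensel (-(π * x)) 2 1 0 ⟨-x, by ring⟩ (pt_two h2 ι)
  refine ⟨1 + w, ?_, by linear_combination hw⟩
  intro h0
  apply h.nonunit
  refine IsUnit.of_mul_eq_one (-a) ?_
  linear_combination ha - h0

theorem pt_inj {F : Type} [Field F] {P : F[X]} {O : Type} [CommRing O] [IsDomain O]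
    {π : O} {ι : F[X] →+* O} (h : Lc P π ι) : Function.Injective (fun n : ℕ => π ^ n) := by
  intro m n hmn
  by_contra hne
  have key : ∀ a b : ℕ, a < b → π ^ a ≠ π ^ b := by
    intro a b hab he
    obtain ⟨c, rfl⟩ := Nat.exists_eq_add_of_lt hab
    apply h.nonunit
    have h3 : π ^ a * (π * π ^ c) = π ^ a * 1 := by
      calc π ^ a * (π * π ^ c) = π ^ (a + c + 1) := by ring
        _ = π ^ a := he.symm
        _ = π ^ a * 1 := (mul_one _).symm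
    exact IsUnit.of_mul_eq_one _ (mul_left_cancel₀ (pow_ne_zero a h.ne) h3)
  rcases lt_or_gt_of_ne hne with h1 | h1
  · exact key m n h1 hmn
  · exact key n m h1 hmn.symm

theorem t_pt : S_nz → S_pt := by
  intro hnz F _ h2 P O L _ _ _ _ _ π ι hL f hf s hs hsx D hD hsol
  have h2O : IsUnit (2 : O) := pt_two h2 ι
  have h2L : (2 : L) ≠ 0 := by
    have h3 := h2O.map (algebraMap O L)
    rw [map_ofNat] at h3
    exact h3.ne_zero
  have hdisc : (s.1.smul D).res.disc ≠ 0 := by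
    rw [Q4.res_smul, Cub.disc_sc, hs, Cub.disc_tr, Cub.disc_sc]
    have h4 : (4 : L) ≠ 0 := by
      have : (4 : L) = 2 * 2 := by norm_num
      rw [this]
      exact mul_ne_zero h2L h2L
    exact mul_ne_zero (pow_ne_zero _ hD) (mul_ne_zero (pow_ne_zero _ h4) hf)
  obtain ⟨u, v, z, huv, hz, hzg⟩ := hnz F h2 P O L π ι hL.toLc (s.1.smul D) hdisc hsol
  rw [Q4.ev_smul] at hzg
  by_cases hv : v = 0
  · subst hv
    have hu : u ≠ 0 := fun hu => huv ⟨hu, rfl⟩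
    refine ⟨⟨1, 0, 0, 1⟩, s, z / u ^ 2, PE.refl s, div_ne_zero hz (pow_ne_zero _ hu), ?_, hsx⟩
    have h3 : z ^ 2 = D * (s.1.A * u ^ 4) := by
      rw [hzg, Q4.ev]
      ring
    rw [div_pow, h3]
    field_simp
  · -- the point `t₀`
    obtain ⟨t₀, ht₀⟩ : ∃ t₀ : L, t₀ = u / v := ⟨_, rfl⟩
    obtain ⟨z₀, hz₀⟩ : ∃ z₀ : L, z₀ = z / v ^ 2 := ⟨_, rfl⟩
    have hz₀0 : z₀ ≠ 0 := by
      rw [hz₀]
      exact div_ne_zero hz (pow_ne_zero _ hv)
    have hzt : z₀ ^ 2 = D * s.1.ev t₀ 1 := by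
      rw [hz₀, ht₀, div_pow, hzg, Q4.ev, Q4.ev]
      field_simp
    obtain ⟨k₁, hk₁⟩ := pt_den' hL.toLc (L := L)
      (D / z₀ ^ 2 * (4 * s.1.A * t₀ ^ 3 + 3 * s.1.B * t₀ ^ 2 + 2 * s.1.C * t₀ + s.1.D))
    obtain ⟨k₂, hk₂⟩ := pt_den' hL.toLc (L := L)
      (D / z₀ ^ 2 * (6 * s.1.A * t₀ ^ 2 + 3 * s.1.B * t₀ + s.1.C))
    obtain ⟨k₃, hk₃⟩ := pt_den' hL.toLc (L := L) (D / z₀ ^ 2 * (4 * s.1.A * t₀ + s.1.B))
    obtain ⟨k₄, hk₄⟩ := pt_den' hL.toLc (L := L) (D / z₀ ^ 2 * s.1.A)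
    have hsq : ∀ n : ℕ, k₁ ≤ n → k₂ ≤ n → k₃ ≤ n → k₄ ≤ n →
        ∃ z' : L, z' ≠ 0 ∧ D * s.1.ev (t₀ + algebraMap O L (π ^ (n + 1))) 1 = z' ^ 2 := by
      intro n h1 h2' h3 h4
      obtain ⟨y₁, hy₁⟩ := hk₁ n h1
      obtain ⟨y₂, hy₂⟩ := hk₂ n h2'
      obtain ⟨y₃, hy₃⟩ := hk₃ n h3
      obtain ⟨y₄, hy₄⟩ := hk₄ n h4
      obtain ⟨y, hy0, hy⟩ := pt_sq h2 hL.toLc
        (y₁ + y₂ * π ^ (n + 1) + y₃ * (π ^ (n + 1)) ^ 2 + y₄ * (π ^ (n + 1)) ^ 3)
      refine ⟨z₀ * algebraMap O L y, mul_ne_zero hz₀0 ?_, ?_⟩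
      · rw [Ne, IsFractionRing.to_map_eq_zero_iff]
        exact hy0
      · rw [mul_pow, ← map_pow, hy]
        simp only [map_add, map_mul, map_one, map_pow]
        rw [← hy₁, ← hy₂, ← hy₃, ← hy₄]
        have hq : z₀ ^ 2 * (D / z₀ ^ 2) = D := by field_simp
        have e1 : ∀ X' Y' : L, z₀ ^ 2 * (1 + X' * (D / z₀ ^ 2 * Y')) = z₀ ^ 2 + D * (X' * Y') := by
          intro X' Y'
          linear_combination X' * Y' * hq
        generalize algebraMap O L π = p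
        have e2 : p * (D / z₀ ^ 2 * (4 * s.1.A * t₀ ^ 3 + 3 * s.1.B * t₀ ^ 2 + 2 * s.1.C * t₀ + s.1.D) * p ^ n +
            D / z₀ ^ 2 * (6 * s.1.A * t₀ ^ 2 + 3 * s.1.B * t₀ + s.1.C) * p ^ n * p ^ (n + 1) +
            D / z₀ ^ 2 * (4 * s.1.A * t₀ + s.1.B) * p ^ n * (p ^ (n + 1)) ^ 2 +
            D / z₀ ^ 2 * s.1.A * p ^ n * (p ^ (n + 1)) ^ 3) =
          p ^ (n + 1) * (D / z₀ ^ 2 *
            ((4 * s.1.A * t₀ ^ 3 + 3 * s.1.B * t₀ ^ 2 + 2 * s.1.C * t₀ + s.1.D) +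
            (6 * s.1.A * t₀ ^ 2 + 3 * s.1.B * t₀ + s.1.C) * p ^ (n + 1) +
            (4 * s.1.A * t₀ + s.1.B) * (p ^ (n + 1)) ^ 2 + s.1.A * (p ^ (n + 1)) ^ 3)) := by
          rw [pow_succ p n]
          ring
        rw [e2, e1, hzt]
        generalize p ^ (n + 1) = q
        simp only [Q4.ev]
        ring
    -- infinitely many points
    by_contra hcon
    apply pt_six_ne s.1 hsx
    apply Polynomial.eq_zero_of_infinite_isRoot
    have hinj : Function.Injective (fun n : ℕ => t₀ + algebraMap O L (π ^ (n + (k₁ + k₂ + k₃ + k₄) + 1))) := by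
      intro m n hmn
      have h3 : algebraMap O L (π ^ (m + (k₁ + k₂ + k₃ + k₄) + 1)) =
          algebraMap O L (π ^ (n + (k₁ + k₂ + k₃ + k₄) + 1)) := add_left_cancel hmn
      have h4 := pt_inj hL.toLc (IsFractionRing.injective O L h3)
      omega
    refine (Set.infinite_range_of_injective hinj).mono ?_
    rintro _ ⟨n, rfl⟩
    by_contra hroot
    apply hcon
    obtain ⟨z', hz', he⟩ := hsq (n + (k₁ + k₂ + k₃ + k₄)) (by omega) (by omega) (by omega) (by omega)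
    refine ⟨_, _, z', pt_PE s (t₀ + algebraMap O L (π ^ (n + (k₁ + k₂ + k₃ + k₄) + 1))), hz', ?_, ?_⟩
    · rw [← he]
      simp only [Q4.sub, Q4.ev]
      ring
    · have h5 : ¬ (pt_six s.1).eval (t₀ + algebraMap O L (π ^ (n + (k₁ + k₂ + k₃ + k₄) + 1))) = 0 := hroot
      rwa [pt_six_eval] at h5

end Pool.Agent.H456.PP
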