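import Pool.Agent.H456.PP.Stm
import Pool.Agent.H456.Coh.T_hasse

/-!
(rec) `S_rec`. (A) The Hasse principle with arbitrary models: `(∀ P : Pl F, IsoP P q) → Iso3 q` for `q : TF (RatFunc F)`. T_hasse.lean proves this with the completions of Mathlib (`hasse_Loc`, used only through `hasse_local1`, which applies the general lemma `hasse_local` to `(plv P).adicCompletionIntegers`). Redo this part with `hasse_Loc' a b c := ∀ P : Pl F, ∃ a model (O, L, …, π, ι) with Lc4 P.1 π ι and hasse_Iso L (algebraMap (ι a)) (algebraMap (ι b)) (algebraMap (ι c))` (all other lemmas are general: `hasse_crt`, `hasse_main`, `hasse_toDiag`, `hasse_ofDiag`, `hasse_sq`, `hasse_pp`, `hasse_swap12`, …);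
`j (toK x) = algebraMap (ι x)` connects `q.map j` with the diagonal form. NOTE: infinity is not needed. (B) Transport. Let `σ : K ≃ K` (`K = RatFunc F`) be the `F`-automorphism `t ↦ c + 1/t`, with inverse `t ↦ 1/(t - c)`. Claim: `IsoP P (q.map σ)` for all `P`. Case `P ≠ X`: let `d = deg P` and `P'` the monic multiple by a constant of `(t - c)^d P(1/(t - c))` (= `reverse P` composed with `t - c`; degree `d` because `P(0) ≠ 0`), irreducible, `≠ t - c`. By hypothesis there is a model `(O, L, π, ι', j')` with `Lc4 P' π ι'` and `q.map j'` isotropic. `ι'(t - c)` is a unit of `O` (`P' ∤ t - c`).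
`ι : F[X] →+* O`, `t ↦ ι'(t - c)⁻¹` (`eval₂`), `j = j' ∘ σ⁻¹`: `j (toK x) = algebraMap (ι x)`, `(q.map σ).map j = q.map (j ∘ σ) = q.map j'`. `Lc4 P π ι`: `pow, nonunit, ne, hensel, hensel4` are the same; `dvd`: for `n ≥ deg x`, `ι'((t-c)^n · x(1/(t-c))) = ι'(t-c)^n ι(x)`, so `π^k ∣ ι x ↔ P'^k ∣ x^♯ ↔ P^k ∣ x` where `x^♯ = (t-c)^n x(1/(t-c))` (the operation `♯` is multiplicative up to powers of `t - c`; `(x^♯)` transformed back by `t ↦ c + 1/t` gives `x` up to powers of `t`); `dense`: `F[X]/P^k → O/π^k` (via `ι`) is injective by `dvd` and both sides have `q^(dk)` elements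
(`O/π^k ≅ F[X]/P'^k` by `dense`, `dvd` of `ι'`), or directly: given `x ∈ O` take `y` with `π^k ∣ x - ι' y`, and write `y(t)` modulo `P'^k` as a polynomial in `1/(t-c)` (`t - c` is invertible modulo `P'^k`, with an inverse which is a polynomial in …). Case `P = X`: let `(O, L, π, ι', j')` be a model with `Lc4 X π ι'`, `(q.map τ).map j'` isotropic, `τ = locI_tau F : t ↦ 1/t`. `j = j' ∘ τ ∘ σ⁻¹`, `t ↦ j'(t/(1 - c t))`; `ι : t ↦ ι'(t)·(1 - c ι'(t))⁻¹` (`1 - cι'(t)` is a unit). `Lc4 X π ι`: `ι(t)` and `ι'(t)` differ by a unit, `≡ 1` mod `π`; `dvd`: `x = t^k y`,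
`y(0) ≠ 0` → `ι y` is a unit; `dense`: by induction on `k`: the residue field of `O` is `F`: `x = ι(C a₀) + ι(t) x₁`, and so on (`π = ` unit `· ι(t)`). For the model with `(q.map σ).map j = q.map (j ∘ σ) = q.map (j' ∘ τ)`. (C) By (A) `q.map σ` is isotropic over `K`; apply `σ⁻¹` to the zero. (For the automorphisms: `RatFunc.map`/`liftRingHom`, see `locI_tau` in T_locI.lean for `t ↦ 1/t`; you may use only `c`-shifts composed with `locI_tau`.)
-/

set_option autoImplicit false
set_option linter.all false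

open Polynomial Finset Filter
open Pool.Agent.H456.EC (toK toK_inj sig toK_eq reflect_toK cls)
open Pool.Agent.H456.RN
open Pool.Agent.H456.BQ
open Pool.Agent.H456.Coh (TF)

namespace Pool.Agent.H456.PP


section recA

open Pool.Agent.H456.Coh

/-- isotropy of a diagonal form in some model at `P` -/
def rec_Mod {F : Type} [Field F] (P : F[X]) (a b c : F[X]) : Prop :=
  ∃ (O L : Type) (_ : CommRing O) (_ : IsDomain O) (_ : Field L) (_ : Algebra O L) (_ : IsFractionRing O L)
    (π : O) (ι : F[X] →+* O), Lc4 P π ι ∧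
      hasse_Iso L (algebraMap O L (ι a)) (algebraMap O L (ι b)) (algebraMap O L (ι c))

/-- isotropy at all finite places -/
def rec_Loc {F : Type} [Field F] (a b c : F[X]) : Prop := ∀ P : Pl F, rec_Mod P.1 a b c

theorem rec_Mod12 {F : Type} [Field F] {P a b c : F[X]} (h : rec_Mod P a b c) : rec_Mod P b a c := by
  obtain ⟨O, L, i1, i2, i3, i4, i5, π, ι, h1, h2⟩ := h
  exact ⟨O, L, i1, i2, i3, i4, i5, π, ι, h1, hasse_swap12 h2⟩

theorem rec_Mod23 {F : Type} [Field F] {P a b c : F[X]} (h : rec_Mod P a b c) : rec_Mod P a c b := by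
  obtain ⟨O, L, i1, i2, i3, i4, i5, π, ι, h1, h2⟩ := h
  exact ⟨O, L, i1, i2, i3, i4, i5, π, ι, h1, hasse_swap23 h2⟩

theorem rec_ι_ne {F : Type} [Field F] {P : F[X]} (hP : Irreducible P) {O : Type} [CommRing O] [IsDomain O] {π : O}
    {ι : F[X] →+* O} (dvd : ∀ (k : ℕ) (x : F[X]), π ^ k ∣ ι x ↔ P ^ k ∣ x) {x : F[X]} (hx : x ≠ 0) : ι x ≠ 0 := by
  intro h
  have h1 : P ^ (x.natDegree + 1) ∣ x := by rw [← dvd, h]; exact dvd_zero _
  have h2 := natDegree_le_of_dvd h1 hx
  rw [natDegree_pow] at h2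
  have h3 := hP.natDegree_pos
  nlinarith

theorem rec_ι_ne' {F : Type} [Field F] {P : F[X]} (hP : Irreducible P) {O L : Type} [CommRing O] [IsDomain O] [Field L]
    [Algebra O L] [IsFractionRing O L] {π : O}
    {ι : F[X] →+* O} (dvd : ∀ (k : ℕ) (x : F[X]), π ^ k ∣ ι x ↔ P ^ k ∣ x) {x : F[X]} (hx : x ≠ 0) :
    algebraMap O L (ι x) ≠ 0 := by
  rw [Ne, map_eq_zero_iff _ (IsFractionRing.injective O L)]
  exact rec_ι_ne hP dvd hx

theorem rec_local1 {F : Type} [Field F] [Finite F] {P : F[X]} (hP : Irreducible P) (a b c : F[X])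
    (ha : P ∣ a) (ha2 : ¬ P ^ 2 ∣ a) (hb : ¬ P ∣ b) (hc : ¬ P ∣ c) (h : rec_Loc a b c) :
    ∃ u v w : F[X], ∀ x y z : F[X], P ∣ u * x + v * y + w * z →
      P ∣ a * x ^ 2 + b * y ^ 2 + c * z ^ 2 := by
  classical
  have hP0 := hP.ne_zero
  have hass : Associated (normalize P) P := normalize_associated P
  set p : Pl F := ⟨normalize P, monic_normalize hP0, hass.symm.irreducible hP⟩ with hp
  have hdvd : ∀ x : F[X], p.1 ∣ x ↔ P ∣ x := fun x => hass.dvd_iff_dvd_left
  have hdvd2 : ∀ x : F[X], p.1 ^ 2 ∣ x ↔ P ^ 2 ∣ x := fun x => (hass.pow_pow).dvd_iff_dvd_left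
  obtain ⟨O, L, i1, i2, i3, i4, i5, π, ι, hL, hloc⟩ := h p
  obtain ⟨u, v, w, H⟩ := hasse_local (L := L) p.2.2 hL.pow
    hL.nonunit hL.ne hL.dvd hL.dense a b c ((hdvd a).2 ha) (fun h => ha2 ((hdvd2 a).1 h))
    (fun h => hb ((hdvd b).1 h)) (fun h => hc ((hdvd c).1 h)) hloc
  refine ⟨u, v, w, fun x y z hd => ?_⟩
  rw [← hdvd] at hd ⊢
  exact H x y z hd

theorem rec_local3 {F : Type} [Field F] [Finite F] {P : F[X]} (hP : Irreducible P) (a b c : F[X])
    (hN : Squarefree (a * b * c)) (hd : P ∣ a * b * c) (h : rec_Loc a b c) :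
    ∃ u v w : F[X], ∀ x y z : F[X], P ∣ u * x + v * y + w * z →
      P ∣ a * x ^ 2 + b * y ^ 2 + c * z ^ 2 := by
  have hPp := hP.prime
  have sq : ∀ r : F[X], a * b * c ≠ P * P * r := by
    intro r hr
    exact hP.not_isUnit (hN P ⟨r, hr⟩)
  have ab : ¬ (P ∣ a ∧ P ∣ b) := by
    rintro ⟨⟨s, hs⟩, ⟨t, ht⟩⟩
    exact sq (s * t * c) (by rw [hs, ht]; ring)
  have ac : ¬ (P ∣ a ∧ P ∣ c) := by
    rintro ⟨⟨s, hs⟩, ⟨t, ht⟩⟩
    exact sq (s * t * b) (by rw [hs, ht]; ring)
  have bc : ¬ (P ∣ b ∧ P ∣ c) := by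
    rintro ⟨⟨s, hs⟩, ⟨t, ht⟩⟩
    exact sq (s * t * a) (by rw [hs, ht]; ring)
  rcases hPp.dvd_or_dvd hd with h1 | h1
  · rcases hPp.dvd_or_dvd h1 with h1 | h1
    · refine rec_local1 hP a b c h1 ?_ (fun h => ab ⟨h1, h⟩) (fun h => ac ⟨h1, h⟩) h
      rintro ⟨r, hr⟩
      exact sq (r * b * c) (by rw [hr]; ring)
    · obtain ⟨u, v, w, H⟩ := rec_local1 hP b a c h1 (by
        rintro ⟨r, hr⟩
        exact sq (r * a * c) (by rw [hr]; ring)) (fun h => ab ⟨h, h1⟩) (fun h => bc ⟨h1, h⟩)
        (fun v => rec_Mod12 (h v))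
      refine ⟨v, u, w, fun x y z hd => ?_⟩
      have := H y x z (by rw [add_comm (u * y)]; exact hd)
      rwa [add_comm (b * y ^ 2)] at this
  · obtain ⟨u, v, w, H⟩ := rec_local1 hP c a b h1 (by
        rintro ⟨r, hr⟩
        exact sq (r * a * b) (by rw [hr]; ring)) (fun h => ac ⟨h, h1⟩) (fun h => bc ⟨h, h1⟩)
        (fun v => rec_Mod12 (rec_Mod23 (h v)))
    refine ⟨v, w, u, fun x y z hd => ?_⟩
    have := H z x y (by
      have e : u * z + v * x + w * y = v * x + w * y + u * z := by ring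
      rw [e]; exact hd)
    have e : a * x ^ 2 + b * y ^ 2 + c * z ^ 2 = c * z ^ 2 + a * x ^ 2 + b * y ^ 2 := by ring
    rw [e]; exact this

/-- the Hasse principle for one form -/
def rec_H {F : Type} [Field F] (a b c : F[X]) : Prop :=
  rec_Loc a b c → hasse_Iso (RatFunc F) (algebraMap F[X] (RatFunc F) a)
    (algebraMap F[X] (RatFunc F) b) (algebraMap F[X] (RatFunc F) c)

theorem rec_H12 {F : Type} [Field F] {a b c : F[X]} (h : rec_H a b c) : rec_H b a c :=
  fun hl => hasse_swap12 (h fun v => rec_Mod12 (hl v))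

theorem rec_H23 {F : Type} [Field F] {a b c : F[X]} (h : rec_H a b c) : rec_H a c b :=
  fun hl => hasse_swap23 (h fun v => rec_Mod23 (hl v))

theorem rec_Hsq {F : Type} [Field F] {a b c p : F[X]} (hp : p ≠ 0) (h : rec_H a b c) :
    rec_H (p ^ 2 * a) b c := by
  intro hl
  rw [map_mul, map_pow, hasse_sq (by
    rw [Ne, map_eq_zero_iff _ (RatFunc.algebraMap_injective F)]; exact hp)]
  refine h fun P => ?_
  obtain ⟨O, L, i1, i2, i3, i4, i5, π, ι, hL, this⟩ := hl P
  refine ⟨O, L, i1, i2, i3, i4, i5, π, ι, hL, ?_⟩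
  rw [map_mul, map_pow, map_mul, map_pow, hasse_sq (rec_ι_ne' P.2.2 hL.dvd hp)] at this
  exact this

theorem rec_Hpp {F : Type} [Field F] {a b c p : F[X]} (hp : p ≠ 0) (h : rec_H a b (p * c)) :
    rec_H (p * a) (p * b) c := by
  intro hl
  rw [map_mul, map_mul, hasse_pp (by
    rw [Ne, map_eq_zero_iff _ (RatFunc.algebraMap_injective F)]; exact hp), ← map_mul]
  refine h fun P => ?_
  obtain ⟨O, L, i1, i2, i3, i4, i5, π, ι, hL, this⟩ := hl P
  refine ⟨O, L, i1, i2, i3, i4, i5, π, ι, hL, ?_⟩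
  rw [map_mul, map_mul, map_mul, map_mul, hasse_pp (rec_ι_ne' P.2.2 hL.dvd hp)] at this
  rw [map_mul ι, map_mul (algebraMap O L)]
  exact this

theorem rec_all {F : Type} [Field F] [Finite F] (h2 : (2 : F) ≠ 0) (n : ℕ) : ∀ a b c : F[X],
    a ≠ 0 → b ≠ 0 → c ≠ 0 → a.natDegree + b.natDegree + c.natDegree = n → rec_H a b c := by
  induction n using Nat.strong_induction_on with
  | _ n ih =>
  have step1 : ∀ a b c : F[X], a ≠ 0 → b ≠ 0 → c ≠ 0 →
      a.natDegree + b.natDegree + c.natDegree = n → ∀ P : F[X], Irreducible P → P ^ 2 ∣ a →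
      rec_H a b c := by
    intro a b c ha hb hc hn P hP hd
    obtain ⟨a', rfl⟩ := hd
    have ha' : a' ≠ 0 := right_ne_zero_of_mul ha
    have hpos : 0 < P.natDegree := hP.natDegree_pos
    refine rec_Hsq hP.ne_zero (ih _ ?_ a' b c ha' hb hc rfl)
    rw [natDegree_mul (pow_ne_zero 2 hP.ne_zero) ha', natDegree_pow] at hn
    omega
  have step2 : ∀ a b c : F[X], a ≠ 0 → b ≠ 0 → c ≠ 0 →
      a.natDegree + b.natDegree + c.natDegree = n → ∀ P : F[X], Irreducible P → P ∣ a → P ∣ b →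
      rec_H a b c := by
    intro a b c ha hb hc hn P hP hd hd'
    obtain ⟨a', rfl⟩ := hd
    obtain ⟨b', rfl⟩ := hd'
    have ha' : a' ≠ 0 := right_ne_zero_of_mul ha
    have hb' : b' ≠ 0 := right_ne_zero_of_mul hb
    have hpos : 0 < P.natDegree := hP.natDegree_pos
    refine rec_Hpp hP.ne_zero (ih _ ?_ a' b' (P * c) ha' hb' (mul_ne_zero hP.ne_zero hc) rfl)
    rw [natDegree_mul hP.ne_zero ha', natDegree_mul hP.ne_zero hb'] at hn
    rw [natDegree_mul hP.ne_zero hc]
    omega
  intro a b c ha hb hc hn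
  have hN0 : a * b * c ≠ 0 := mul_ne_zero (mul_ne_zero ha hb) hc
  by_cases hsf : Squarefree (a * b * c)
  · intro hl
    obtain ⟨u, v, w, H⟩ := hasse_crt a b c (a * b * c) hsf
      (fun P hP hd => rec_local3 hP a b c hsf hd hl)
    obtain ⟨x, y, z, h0, h1⟩ := hasse_main h2 a b c ha hb hc u v w H
    have inj := RatFunc.algebraMap_injective F
    refine ⟨algebraMap F[X] (RatFunc F) x, algebraMap F[X] (RatFunc F) y,
      algebraMap F[X] (RatFunc F) z, ?_, ?_⟩
    · rintro ⟨e1, e2, e3⟩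
      rw [map_eq_zero_iff _ inj] at e1 e2 e3
      exact h0 ⟨e1, e2, e3⟩
    · rw [← map_pow, ← map_pow, ← map_pow, ← map_mul, ← map_mul, ← map_mul, ← map_add, ← map_add,
        h1, map_zero]
  · rw [squarefree_iff_irreducible_sq_not_dvd_of_ne_zero hN0] at hsf
    push Not at hsf
    obtain ⟨P, hP, hd⟩ := hsf
    rw [← pow_two] at hd
    have hPp := hP.prime
    rcases hasse_prime hPp hd with h1 | h1 | ⟨h1, h2'⟩
    · rcases hasse_prime hPp h1 with h1 | h1 | ⟨h1, h1'⟩
      · exact step1 a b c ha hb hc hn P hP h1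
      · exact rec_H12 (step1 b a c hb ha hc (by omega) P hP h1)
      · exact step2 a b c ha hb hc hn P hP h1 h1'
    · exact rec_H23 (rec_H12 (step1 c a b hc ha hb (by omega) P hP h1))
    · rcases hPp.dvd_or_dvd h1 with h3 | h3
      · exact rec_H23 (step2 a c b ha hc hb (by omega) P hP h3 h2')
      · exact rec_H12 (rec_H23 (step2 b c a hb hc ha (by omega) P hP h3 h2'))

/-- the Hasse principle with arbitrary models of the completions -/
theorem rec_hasse {F : Type} [Field F] [Finite F] (h2 : (2 : F) ≠ 0) (q : TF (RatFunc F))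
    (hq : ∀ P : Pl F, IsoP P q) : Iso3 q := by
  have hK2 : (2 : RatFunc F) ≠ 0 := by
    have e : algebraMap F (RatFunc F) 2 = 2 := map_ofNat _ 2
    rw [← e, Ne, map_eq_zero_iff _ (algebraMap F (RatFunc F)).injective]
    exact h2
  by_cases hA : q.A = 0
  · exact hasse_A0 q hA
  by_cases hb : hasse_b q = 0
  · exact hasse_b0 hK2 q hA hb
  by_cases hc : hasse_c q = 0
  · exact hasse_c0 hK2 q hA hb hc
  apply hasse_ofDiag hK2 q hA hb
  have h4b : 4 * hasse_b q ≠ 0 := by
    have : 4 * hasse_b q = 2 * 2 * hasse_b q := by ring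
    rw [this]
    exact mul_ne_zero (mul_ne_zero hK2 hK2) hb
  obtain ⟨n₁, d₁, hd₁, e₁⟩ := IsFractionRing.div_surjective (A := F[X]) (4 * hasse_b q)
  obtain ⟨n₂, d₂, hd₂, e₂⟩ := IsFractionRing.div_surjective (A := F[X]) (hasse_c q)
  have k₁ : d₁ ≠ 0 := nonZeroDivisors.ne_zero hd₁
  have k₂ : d₂ ≠ 0 := nonZeroDivisors.ne_zero hd₂
  have inj := RatFunc.algebraMap_injective F
  have l₁ : algebraMap F[X] (RatFunc F) d₁ ≠ 0 := by rw [Ne, map_eq_zero_iff _ inj]; exact k₁
  have l₂ : algebraMap F[X] (RatFunc F) d₂ ≠ 0 := by rw [Ne, map_eq_zero_iff _ inj]; exact k₂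
  have m₁ : n₁ ≠ 0 := by
    intro h; rw [h, map_zero, zero_div] at e₁; exact h4b e₁.symm
  have m₂ : n₂ ≠ 0 := by
    intro h; rw [h, map_zero, zero_div] at e₂; exact hc e₂.symm
  have f₁ : algebraMap F[X] (RatFunc F) (n₁ * d₁) =
      algebraMap F[X] (RatFunc F) d₁ ^ 2 * (4 * hasse_b q) := by
    rw [← e₁, map_mul]; field_simp
  have f₂ : algebraMap F[X] (RatFunc F) (n₂ * d₂) =
      algebraMap F[X] (RatFunc F) d₂ ^ 2 * hasse_c q := by
    rw [← e₂, map_mul]; field_simp
  have hH := rec_all h2 _ (n₁ * d₁) 1 (n₂ * d₂) (mul_ne_zero m₁ k₁) one_ne_zero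
    (mul_ne_zero m₂ k₂) rfl
  have hglob := hH ?_
  · rw [f₁, f₂, map_one] at hglob
    rw [hasse_sq l₁] at hglob
    have h3 := hasse_swap12 (hasse_swap23 hglob)
    rw [hasse_sq l₂] at h3
    exact hasse_swap23 (hasse_swap12 h3)
  · intro P
    obtain ⟨O, L, i1, i2, i3, i4, i5, π, ι, j, hL, hj, hiso⟩ := hq P
    refine ⟨O, L, i1, i2, i3, i4, i5, π, ι, hL, ?_⟩
    have hL2 : (2 : L) ≠ 0 := by
      have e : j 2 = 2 := map_ofNat _ 2
      rw [← e, Ne, map_eq_zero_iff _ j.injective]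
      exact hK2
    have h3 := hasse_toDiag hL2 (q.map j)
      (by
        change j q.A ≠ 0
        rw [Ne, map_eq_zero_iff _ j.injective]
        exact hA)
      (by
        rw [(hasse_map _ q).1, Ne, map_eq_zero_iff _ j.injective]
        exact hb) hiso
    rw [(hasse_map _ q).1, (hasse_map _ q).2] at h3
    have e4 : (4 : L) * j (hasse_b q) = j (4 * hasse_b q) := by
      rw [map_mul, map_ofNat]
    rw [e4] at h3
    have g₁ : algebraMap O L (ι (n₁ * d₁)) = j (toK F d₁) ^ 2 * j (4 * hasse_b q) := by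
      rw [← hj]
      change j (algebraMap F[X] (RatFunc F) (n₁ * d₁)) = _
      rw [f₁, map_mul, map_pow]
    have g₂ : algebraMap O L (ι (n₂ * d₂)) = j (toK F d₂) ^ 2 * j (hasse_c q) := by
      rw [← hj]
      change j (algebraMap F[X] (RatFunc F) (n₂ * d₂)) = _
      rw [f₂, map_mul, map_pow]
    have j₁ : j (toK F d₁) ≠ 0 := by rw [Ne, map_eq_zero_iff _ j.injective]; exact l₁
    have j₂ : j (toK F d₂) ≠ 0 := by rw [Ne, map_eq_zero_iff _ j.injective]; exact l₂
    rw [g₁, g₂, map_one, map_one, hasse_sq j₁]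
    have h5 := hasse_swap12 (hasse_swap23 h3)
    rw [← hasse_sq j₂] at h5
    exact hasse_swap23 (hasse_swap12 h5)

end recA

section recB

variable {F : Type} [Field F]

/-- a non-multiple of `P` becomes a unit -/
theorem rec_unit {P : F[X]} {O : Type} [CommRing O] {π : O} {ι : F[X] →+* O} (h : Lc P π ι) {x : F[X]}
    (hx : ¬ P ∣ x) : IsUnit (ι x) := by
  have h0 : ¬ π ∣ ι x := by
    have := h.dvd 1 x
    rw [pow_one, pow_one] at this
    rwa [this]
  have h1 : ι x ≠ 0 := fun e => h0 (e ▸ dvd_zero _)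
  obtain ⟨k, u, hu, e⟩ := h.pow _ h1
  rcases Nat.eq_zero_or_pos k with rfl | hk
  · rw [e, pow_zero, mul_one]; exact hu
  · exact absurd ⟨u * π ^ (k - 1), by
      rw [e]
      obtain ⟨m, rfl⟩ : ∃ m, k = m + 1 := ⟨k - 1, by omega⟩
      rw [Nat.add_sub_cancel, pow_succ]; ring⟩ h0

/-- change of the homomorphism in a model -/
theorem rec_model {P P' : F[X]} (hP : Irreducible P) {O : Type} [CommRing O] [IsDomain O] {π : O}
    {ι' ι : F[X] →+* O} (h : Lc4 P' π ι') (h1 : π ∣ ι P) (h2 : ¬ π ^ 2 ∣ ι P)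
    (hC : ∀ a : F, ι (C a) = ι' (C a)) (s : O) (hs : IsUnit s) (n d : F[X]) (hn : π ∣ s - ι n)
    (hd : ι' X * s = ι d) : Lc4 P π ι := by
  have hu0 : ∃ u : O, IsUnit u ∧ ι P = u * π := by
    have hne : ι P ≠ 0 := fun e => h2 (e ▸ dvd_zero _)
    obtain ⟨k, u, hu, e⟩ := h.pow _ hne
    rcases k with _ | _ | k
    · rw [pow_zero, mul_one] at e
      rw [e] at h1
      exact absurd (isUnit_of_dvd_unit h1 hu) h.nonunit
    · exact ⟨u, hu, by rw [e, zero_add, pow_one]⟩
    · exact absurd ⟨u * π ^ k, by rw [e, pow_add, pow_add]; ring⟩ h2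
  obtain ⟨u₀, hu₀, eP⟩ := hu0
  -- non-multiples of `P` give units
  have key : ∀ x : F[X], ¬ P ∣ x → ∃ b : F[X], π ∣ 1 - ι x * ι b := by
    intro x hx
    obtain ⟨a, b, e⟩ := (hP.coprime_iff_not_dvd.2 hx)
    refine ⟨b, ?_⟩
    have : 1 - ι x * ι b = ι a * ι P := by
      have := congrArg ι e
      rw [map_add, map_mul, map_mul, map_one] at this
      linear_combination -this
    rw [this]
    exact Dvd.dvd.mul_left h1 _
  have nd : ∀ x : F[X], ¬ P ∣ x → ¬ π ∣ ι x := by
    intro x hx hd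
    obtain ⟨b, hb⟩ := key x hx
    apply h.nonunit
    apply isUnit_of_dvd_one
    have := dvd_add hb (Dvd.dvd.mul_right hd (ι b))
    rwa [sub_add_cancel] at this
  have hunit : ∀ x : F[X], ¬ P ∣ x → IsUnit (ι x) := by
    intro x hx
    have h0 := nd x hx
    have h1 : ι x ≠ 0 := fun e => h0 (e ▸ dvd_zero _)
    obtain ⟨k, u, hu, e⟩ := h.pow _ h1
    rcases k with _ | k
    · rw [e, pow_zero, mul_one]; exact hu
    · exact absurd ⟨u * π ^ k, by rw [e, pow_succ]; ring⟩ h0
  have hdvd : ∀ (k : ℕ) (x : F[X]), π ^ k ∣ ι x ↔ P ^ k ∣ x := by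
    intro k
    induction k with
    | zero => intro x; simp
    | succ k ih =>
      intro x
      by_cases hx : P ∣ x
      · obtain ⟨y, rfl⟩ := hx
        rw [map_mul, eP]
        constructor
        · rintro ⟨z, hz⟩
          rw [pow_succ']
          apply mul_dvd_mul_left
          rw [← ih]
          have h3 : π * (u₀ * ι y) = π * (π ^ k * z) := by rw [pow_succ] at hz; linear_combination hz
          have h4 := mul_left_cancel₀ h.ne h3
          obtain ⟨v, rfl⟩ := hu₀
          refine ⟨↑v⁻¹ * z, ?_⟩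
          calc ι y = (↑v⁻¹ : O) * (↑v * ι y) := by rw [← mul_assoc, Units.inv_mul, one_mul]
            _ = _ := by rw [h4]; ring
        · intro hy
          rw [pow_succ'] at hy
          have h3 := (mul_dvd_mul_iff_left hP.ne_zero).1 hy
          rw [← ih] at h3
          rw [pow_succ, mul_comm (u₀ * π)]
          exact mul_dvd_mul h3 (Dvd.intro_left u₀ rfl)
      · constructor
        · intro h3
          exact absurd (dvd_trans (dvd_pow_self π (by omega)) h3) (nd x hx)
        · intro h3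
          exact absurd (dvd_trans (dvd_pow_self P (by omega)) h3) hx
  -- the residues
  have hsn : ¬ P ∣ n := by
    intro h3
    have h4 : π ∣ ι n := by
      have := (hdvd 1 n).2 (by rwa [pow_one]); rwa [pow_one] at this
    have h5 := dvd_add hn h4
    rw [sub_add_cancel] at h5
    exact h.nonunit (isUnit_of_dvd_unit h5 hs)
  obtain ⟨m, hm⟩ := key n hsn
  have hX : π ∣ ι' X - ι (d * m) := by
    -- `ι' X * s = ι d`, `s ≡ ι n`, `ι n ι m ≡ 1`
    have : ι' X - ι (d * m) = ι' X * ((1 - ι n * ι m) - (s - ι n) * ι m) := by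
      rw [map_mul, ← hd]; ring
    rw [this]
    exact Dvd.dvd.mul_left (dvd_sub hm (Dvd.dvd.mul_right hn _)) _
  have dense0 : ∀ y : F[X], ∃ z : F[X], π ∣ ι' y - ι z := by
    intro y
    induction y using Polynomial.induction_on' with
    | add p q hp hq =>
      obtain ⟨z₁, hz₁⟩ := hp
      obtain ⟨z₂, hz₂⟩ := hq
      refine ⟨z₁ + z₂, ?_⟩
      rw [map_add, map_add]
      have := dvd_add hz₁ hz₂
      rwa [show ι' p - ι z₁ + (ι' q - ι z₂) = ι' p + ι' q - (ι z₁ + ι z₂) by ring] at this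
    | monomial k a =>
      refine ⟨C a * (d * m) ^ k, ?_⟩
      rw [← C_mul_X_pow_eq_monomial, map_mul, map_mul, map_pow, map_pow, hC, ← mul_sub]
      exact Dvd.dvd.mul_left (dvd_trans hX (sub_dvd_pow_sub_pow _ _ k)) _
  have dense1 : ∀ x : O, ∃ z : F[X], π ∣ x - ι z := by
    intro x
    obtain ⟨y, hy⟩ := h.dense 1 x
    rw [pow_one] at hy
    obtain ⟨z, hz⟩ := dense0 y
    refine ⟨z, ?_⟩
    have := dvd_add hy hz
    rwa [sub_add_sub_cancel] at this
  have hdense : ∀ (k : ℕ) (x : O), ∃ y : F[X], π ^ k ∣ x - ι y := by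
    intro k
    induction k with
    | zero => intro x; exact ⟨0, by simp⟩
    | succ k ih =>
      intro x
      obtain ⟨z, w, hw⟩ := dense1 x
      obtain ⟨v, rfl⟩ := hu₀
      obtain ⟨y, hy⟩ := ih (↑v⁻¹ * w)
      refine ⟨z + P * y, ?_⟩
      have : x - ι (z + P * y) = ↑v * π * (↑v⁻¹ * w - ι y) := by
        rw [map_add, map_mul, eP]
        have h3 : (↑v : O) * ↑v⁻¹ = 1 := Units.mul_inv v
        linear_combination hw - π * w * h3
      rw [this, pow_succ, mul_comm (↑v * π)]
      exact mul_dvd_mul hy (Dvd.intro_left _ rfl)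
  exact { pow := h.pow, nonunit := h.nonunit, ne := h.ne, dvd := hdvd, dense := hdense, hensel := h.hensel,
          hensel4 := h.hensel4 }

/-- the shift `t ↦ t + c` of polynomials in `F(t)` -/
noncomputable def rec_shp (c : F) : F[X] →+* RatFunc F := eval₂RingHom RatFunc.C (RatFunc.X + RatFunc.C c)

theorem rec_shp_eq (c : F) (p : F[X]) : rec_shp c p = toK F (p.comp (X + C c)) := by
  have : rec_shp c = (toK F).comp (compRingHom (X + C c)) := by
    apply Polynomial.ringHom_ext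
    · intro a
      rw [rec_shp, coe_eval₂RingHom, eval₂_C, RingHom.comp_apply, coe_compRingHom_apply, C_comp, locI_toK_C]
    · rw [rec_shp, coe_eval₂RingHom, eval₂_X, RingHom.comp_apply, coe_compRingHom_apply, X_comp, map_add, locI_toK_C,
        locI_toK_X]
  rw [this]
  rfl

theorem rec_shp_inj (c : F) : Function.Injective (rec_shp c) := by
  intro p q h
  rw [rec_shp_eq, rec_shp_eq] at h
  have h1 := toK_inj h
  have h2 := congrArg (fun r => r.comp (X - C c)) h1
  simp only [comp_assoc, add_comp, X_comp, C_comp, sub_add_cancel, comp_X] at h2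
  exact h2

/-- the automorphism `t ↦ t + c` -/
noncomputable def rec_sh (c : F) : RatFunc F →+* RatFunc F :=
  IsFractionRing.lift (A := F[X]) (K := RatFunc F) (g := rec_shp c) (rec_shp_inj c)

theorem rec_sh_toK (c : F) (p : F[X]) : rec_sh c (toK F p) = rec_shp c p :=
  IsFractionRing.lift_algebraMap (rec_shp_inj c) p

theorem rec_sh_C (c a : F) : rec_sh c (RatFunc.C a) = RatFunc.C a := by
  rw [← locI_toK_C, rec_sh_toK, rec_shp, coe_eval₂RingHom, eval₂_C, locI_toK_C]

theorem rec_sh_X (c : F) : rec_sh c RatFunc.X = RatFunc.X + RatFunc.C c := by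
  rw [← locI_toK_X, rec_sh_toK, rec_shp, coe_eval₂RingHom, eval₂_X, locI_toK_X]

theorem rec_sh_sh (c : F) (x : RatFunc F) : rec_sh (-c) (rec_sh c x) = x := by
  have h : ∀ p : F[X], rec_sh (-c) (rec_shp c p) = toK F p := by
    intro p
    have h : (rec_sh (-c)).comp (rec_shp c) = toK F := by
      apply Polynomial.ringHom_ext
      · intro a
        rw [RingHom.comp_apply, rec_shp, coe_eval₂RingHom, eval₂_C, rec_sh_C, locI_toK_C]
      · rw [RingHom.comp_apply, rec_shp, coe_eval₂RingHom, eval₂_X, map_add, rec_sh_C, rec_sh_X, locI_toK_X,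
          map_neg, neg_add_cancel_right]
    exact RingHom.congr_fun h p
  have h3 := RatFunc.num_div_denom x
  have h4 : toK F x.num / toK F x.denom = x := h3
  rw [← h4]
  simp only [map_div₀, rec_sh_toK, h]

/-- the automorphism `t ↦ c + 1/t` -/
noncomputable def rec_s (c : F) : RatFunc F →+* RatFunc F := (locI_tau F).comp (rec_sh c)

/-- the automorphism `t ↦ 1/(t - c)` -/
noncomputable def rec_r (c : F) : RatFunc F →+* RatFunc F := (rec_sh (-c)).comp (locI_tau F)

theorem rec_r_s (c : F) (x : RatFunc F) : rec_r c (rec_s c x) = x := by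
  rw [rec_r, rec_s, RingHom.comp_apply, RingHom.comp_apply, locI_tau_tau, rec_sh_sh]

theorem rec_r_C (c a : F) : rec_r c (RatFunc.C a) = RatFunc.C a := by
  rw [rec_r, RingHom.comp_apply, locI_tau_C, rec_sh_C]

theorem rec_r_X (c : F) : rec_r c RatFunc.X = (RatFunc.X - RatFunc.C c)⁻¹ := by
  rw [rec_r, RingHom.comp_apply, locI_tau_X, map_inv₀, rec_sh_X, map_neg, sub_eq_add_neg]

theorem rec_map_map {R S T : Type} [CommRing R] [CommRing S] [CommRing T] (φ : R →+* S) (ψ : S →+* T) (q : TF R) :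
    (q.map φ).map ψ = q.map (ψ.comp φ) := rfl

theorem rec_irr_reverse {P : F[X]} (hP : Irreducible P) (h0 : P.coeff 0 ≠ 0) : Irreducible P.reverse := by
  have hP0 := hP.ne_zero
  have hr0 : P.reverse ≠ 0 := by rw [Ne, reverse_eq_zero]; exact hP0
  have hrc : P.reverse.coeff 0 ≠ 0 := by rw [coeff_zero_reverse]; exact leadingCoeff_ne_zero.2 hP0
  have ht : ∀ Q : F[X], Q.coeff 0 ≠ 0 → Q.reverse.natDegree = Q.natDegree := by
    intro Q hQ
    rw [reverse_natDegree, natTrailingDegree_eq_zero.2 (Or.inr hQ), Nat.sub_zero]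
  have hrr : ∀ Q : F[X], Q.coeff 0 ≠ 0 → Q.reverse.reverse = Q := by
    intro Q hQ
    rw [reverse, ht Q hQ, reverse, reflect_reflect]
  constructor
  · intro hu
    have h1 := natDegree_eq_zero_of_isUnit hu
    rw [ht P h0] at h1
    exact absurd h1 hP.natDegree_pos.ne'
  · intro A B hAB
    have hA0 : A.coeff 0 ≠ 0 := by
      intro h; apply hrc; rw [hAB, mul_coeff_zero, h, zero_mul]
    have hB0 : B.coeff 0 ≠ 0 := by
      intro h; apply hrc; rw [hAB, mul_coeff_zero, h, mul_zero]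
    have h1 : P = A.reverse * B.reverse := by
      rw [← hrr P h0, hAB, reverse_mul_of_domain]
    have h2 : ∀ Q : F[X], Q.coeff 0 ≠ 0 → IsUnit Q.reverse → IsUnit Q := by
      intro Q hQ hu
      have h3 := natDegree_eq_zero_of_isUnit hu
      rw [ht Q hQ] at h3
      rw [eq_C_of_natDegree_eq_zero h3, isUnit_C]
      exact isUnit_iff_ne_zero.2 hQ
    rcases hP.isUnit_or_isUnit h1 with h | h
    · exact Or.inl (h2 A hA0 h)
    · exact Or.inr (h2 B hB0 h)

theorem rec_irr_comp {P : F[X]} (hP : Irreducible P) (c : F) : Irreducible (P.comp (X - C c)) := by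
  have h := (MulEquiv.irreducible_iff (algEquivAevalXAddC (-c) : F[X] ≃ₐ[F] F[X]) (x := P)).2 hP
  have e : (algEquivAevalXAddC (-c) : F[X] ≃ₐ[F] F[X]) P = P.comp (X - C c) := by
    rw [algEquivAevalXAddC_apply, map_neg, ← sub_eq_add_neg]
    rfl
  rwa [e] at h

/-- the places different from zero -/
theorem rec_case1 (c : F) (q : TF (RatFunc F)) (h : ∀ P : Pl F, P.1 ≠ X - C c → IsoP P q) (P : Pl F)
    (hPX : P.1 ≠ X) : IsoP P (q.map (rec_s c)) := by
  classical
  obtain ⟨P, hPm, hPi⟩ := P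
  change P ≠ X at hPX
  have h0 : P.coeff 0 ≠ 0 := by
    intro h0
    have h1 : X ∣ P := X_dvd_iff.2 h0
    have h2 : Associated X P := (irreducible_X.associated_of_dvd hPi h1)
    exact hPX (eq_of_monic_of_associated hPm monic_X h2.symm)
  set R : F[X] := P.reverse.comp (X - C c) with hR
  have hRi : Irreducible R := rec_irr_comp (rec_irr_reverse hPi h0) c
  have hass : Associated (normalize R) R := normalize_associated R
  set P' : Pl F := ⟨normalize R, monic_normalize hRi.ne_zero, hass.symm.irreducible hRi⟩ with hP'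
  have hP'c : P'.1 ≠ X - C c := by
    intro h1
    have h2 : X - C c ∣ R := by rw [← h1]; exact hass.dvd
    rw [dvd_iff_isRoot, IsRoot.def, hR, eval_comp, eval_sub, eval_X, eval_C, sub_self, ← coeff_zero_eq_eval_zero,
      coeff_zero_reverse, hPm.leadingCoeff] at h2
    exact one_ne_zero h2
  obtain ⟨O, L, i1, i2, i3, i4, i5, π, ι', j', hL, hj', hiso⟩ := h P' hP'c
  have hdvd : ∀ k : ℕ, ∀ x : F[X], π ^ k ∣ ι' x ↔ R ^ k ∣ x := fun k x =>
    (hL.dvd k x).trans (hass.pow_pow).dvd_iff_dvd_left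
  have hnd : ¬ P'.1 ∣ X - C c := by
    intro h1
    exact hP'c (eq_of_monic_of_associated P'.2.1 (monic_X_sub_C c)
      (P'.2.2.associated_of_dvd (irreducible_X_sub_C c) h1))
  have hunit : IsUnit (ι' (X - C c)) := rec_unit hL.toLc hnd
  obtain ⟨v, hv⟩ := hunit
  set s : O := ↑v⁻¹ with hs
  have hsv : s * ι' (X - C c) = 1 := by rw [← hv, hs, Units.inv_mul]
  have hsu : IsUnit s := ⟨v⁻¹, rfl⟩
  set ι : F[X] →+* O := eval₂RingHom (ι'.comp C) s with hι
  have hιC : ∀ a : F, ι (C a) = ι' (C a) := by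
    intro a; rw [hι, coe_eval₂RingHom, eval₂_C]; rfl
  have hιX : ι X = s := by rw [hι, coe_eval₂RingHom, eval₂_X]
  have hιP : ι P = ι' R * s ^ P.natDegree := by
    let _ : Invertible s := ⟨ι' (X - C c), by rw [mul_comm]; exact hsv, hsv⟩
    have h1 := eval₂_reverse_mul_pow (ι'.comp C) s P
    have h2 : (⅟ s) = ι' (X - C c) := rfl
    rw [h2] at h1
    have h3 : eval₂ (ι'.comp C) (ι' (X - C c)) P.reverse = ι' R := by
      have : (eval₂RingHom (ι'.comp C) (ι' (X - C c))) = ι'.comp (compRingHom (X - C c)) := by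
        apply Polynomial.ringHom_ext
        · intro a
          rw [coe_eval₂RingHom, eval₂_C, RingHom.comp_apply, RingHom.comp_apply, coe_compRingHom_apply, C_comp]
        · rw [coe_eval₂RingHom, eval₂_X, RingHom.comp_apply, coe_compRingHom_apply, X_comp]
      have h4 := RingHom.congr_fun this P.reverse
      exact h4
    rw [h3] at h1
    exact h1.symm
  obtain ⟨w, hw⟩ := hsu
  have hd1 : π ∣ ι P := by
    rw [hιP]
    apply Dvd.dvd.mul_right
    have := (hdvd 1 R).2 (by rw [pow_one])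
    rwa [pow_one] at this
  have hd2 : ¬ π ^ 2 ∣ ι P := by
    rw [hιP, (IsUnit.pow P.natDegree ⟨w, hw⟩).dvd_mul_right, hdvd 2 R]
    intro h1
    have h2 := natDegree_le_of_dvd h1 hRi.ne_zero
    rw [natDegree_pow] at h2
    have := hRi.natDegree_pos
    omega
  have hM : Lc4 P π ι := by
    refine rec_model hPi hL hd1 hd2 hιC s ⟨w, hw⟩ X (C c * X + 1) ?_ ?_
    · rw [hιX, sub_self]; exact dvd_zero _
    · rw [map_add, map_mul, hιX, hιC, map_one]
      have : ι' X = ι' (X - C c) + ι' (C c) := by rw [map_sub]; ring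
      rw [this]
      linear_combination hsv
  refine ⟨O, L, i1, i2, i3, i4, i5, π, ι, j'.comp (rec_r c), hM, ?_, ?_⟩
  · intro x
    have : (j'.comp (rec_r c)).comp (toK F) = (algebraMap O L).comp ι := by
      apply Polynomial.ringHom_ext
      · intro a
        rw [RingHom.comp_apply, RingHom.comp_apply, RingHom.comp_apply, hιC, ← hj', locI_toK_C, rec_r_C]
      · rw [RingHom.comp_apply, RingHom.comp_apply, RingHom.comp_apply, locI_toK_X, rec_r_X, map_inv₀, hιX]
        have h1 : j' (RatFunc.X - RatFunc.C c) = algebraMap O L (ι' (X - C c)) := by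
          rw [← hj', map_sub (toK F), locI_toK_C, locI_toK_X]
        rw [h1]
        apply inv_eq_of_mul_eq_one_left
        rw [← map_mul, hsv, map_one]
    exact RingHom.congr_fun this x
  · rw [rec_map_map]
    have : (j'.comp (rec_r c)).comp (rec_s c) = j' := by
      apply RingHom.ext
      intro x
      rw [RingHom.comp_apply, RingHom.comp_apply, rec_r_s]
    rw [this]
    exact hiso

/-- the place zero -/
theorem rec_case2 (c : F) (q : TF (RatFunc F)) (h : IsoP (PlX F) (q.map (locI_tau F))) :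
    IsoP (PlX F) (q.map (rec_s c)) := by
  obtain ⟨O, L, i1, i2, i3, i4, i5, π, ι', j', hL, hj', hiso⟩ := h
  change Lc4 X π ι' at hL
  have hnd : ¬ (X : F[X]) ∣ 1 - C c * X := by
    rw [X_dvd_iff]
    simp
  have hunit : IsUnit (ι' (1 - C c * X)) := rec_unit hL.toLc hnd
  obtain ⟨v, hv⟩ := hunit
  set s : O := ↑v⁻¹ with hs
  have hsv : s * ι' (1 - C c * X) = 1 := by rw [← hv, hs, Units.inv_mul]
  have hsu : IsUnit s := ⟨v⁻¹, rfl⟩
  set ι : F[X] →+* O := eval₂RingHom (ι'.comp C) (ι' X * s) with hι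
  have hιC : ∀ a : F, ι (C a) = ι' (C a) := by
    intro a; rw [hι, coe_eval₂RingHom, eval₂_C]; rfl
  have hιX : ι X = ι' X * s := by rw [hι, coe_eval₂RingHom, eval₂_X]
  have hd1 : π ∣ ι X := by
    rw [hιX]
    apply Dvd.dvd.mul_right
    have := (hL.dvd 1 X).2 (by rw [pow_one])
    rwa [pow_one] at this
  have hd2 : ¬ π ^ 2 ∣ ι X := by
    rw [hιX, hsu.dvd_mul_right, hL.dvd 2 X]
    intro h1
    have h2 := natDegree_le_of_dvd h1 X_ne_zero
    rw [natDegree_pow, natDegree_X] at h2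
    omega
  have hM : Lc4 (X : F[X]) π ι := by
    refine rec_model irreducible_X hL hd1 hd2 hιC s hsu (1 + C c * X) X ?_ ?_
    · have : s - ι (1 + C c * X) = 0 := by
        rw [map_add, map_mul, map_one, hιX, hιC]
        rw [map_sub, map_one, map_mul] at hsv
        linear_combination hsv
      rw [this]; exact dvd_zero _
    · rw [hιX]
  refine ⟨O, L, i1, i2, i3, i4, i5, π, ι, (j'.comp (locI_tau F)).comp (rec_r c), hM, ?_, ?_⟩
  · intro x
    have : ((j'.comp (locI_tau F)).comp (rec_r c)).comp (toK F) = (algebraMap O L).comp ι := by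
      apply Polynomial.ringHom_ext
      · intro a
        rw [RingHom.comp_apply, RingHom.comp_apply, RingHom.comp_apply, RingHom.comp_apply, hιC, ← hj', locI_toK_C,
          rec_r_C, locI_tau_C]
      · rw [RingHom.comp_apply, RingHom.comp_apply, RingHom.comp_apply, RingHom.comp_apply, locI_toK_X, rec_r_X,
          map_inv₀, map_inv₀, hιX, map_sub, locI_tau_X, locI_tau_C]
        have hX : j' RatFunc.X = algebraMap O L (ι' X) := by rw [← hj', locI_toK_X]
        have hX0 : j' RatFunc.X ≠ 0 := by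
          rw [Ne, map_eq_zero_iff _ j'.injective]; exact RatFunc.X_ne_zero
        have hC' : j' (RatFunc.C c) = algebraMap O L (ι' (C c)) := by rw [← hj', locI_toK_C]
        rw [map_sub, map_inv₀, map_mul, ← hX, hC']
        have h1 := congrArg (algebraMap O L) hsv
        rw [map_mul, map_sub, map_one, map_mul, map_sub, map_one, map_mul, ← hX] at h1
        apply inv_eq_of_mul_eq_one_left
        field_simp
        linear_combination h1
    exact RingHom.congr_fun this x
  · rw [rec_map_map]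
    have : ((j'.comp (locI_tau F)).comp (rec_r c)).comp (rec_s c) = j'.comp (locI_tau F) := by
      apply RingHom.ext
      intro x
      rw [RingHom.comp_apply, RingHom.comp_apply, rec_r_s]
    rw [this]
    exact hiso

end recB

theorem t_rec : S_rec := by
  intro F _ _ h2 c q h hX
  have h1 : ∀ P : Pl F, IsoP P (q.map (rec_s c)) := by
    intro P
    by_cases hP : P.1 = X
    · have : P = PlX F := Subtype.ext hP
      rw [this]
      exact rec_case2 c q hX
    · exact rec_case1 c q h P hP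
  obtain ⟨x, y, z, h0, h3⟩ := rec_hasse h2 (q.map (rec_s c)) h1
  refine ⟨rec_r c x, rec_r c y, rec_r c z, ?_, ?_⟩
  · rintro ⟨e1, e2, e3⟩
    rw [map_eq_zero_iff _ (rec_r c).injective] at e1 e2 e3
    exact h0 ⟨e1, e2, e3⟩
  · have h4 := congrArg (rec_r c) h3
    rw [map_zero] at h4
    rw [← h4]
    simp only [TF.ev, TF.map, map_add, map_mul, map_pow, rec_r_s]

end Pool.Agent.H456.PP
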