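import Pool.Agent.H456.PP.Stm
import Pool.Agent.H456.BQ.T_indep

/-!
(unr) `S_unr`. Apply `S_locKS` (Stm4.lean) to the cubic `f_D = f.sc D` over `F[X]` (`disc f_D = D^6 disc f`, not divisible by `P²` as `P ∤ D`; take `k = 1`, `M = 3`) and the pair `s_D = (s.1.smul D, D ρ)` (`res_smul`, `sc_tr`, `sc_sc`), which is `LS P` by hypothesis: since `∑ sp(H_i) ≥ 1 > 0` there is an index `i`: `N = N_i`, `g_i`, `H_i` with `det N ≠ 0`, `s_D.1.sub N = g_i.smul (det N)²`, `RedTo P g_i H_i` (so `g_i` has coefficients in the local ring `LocP P`). Then `s.1.sub N = (g').smul (det N)²` with `g' = g_i.smul D⁻¹`, again with coefficients in `LocP P`.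
Multiply `g'` by the square of a polynomial `δ` prime to `P` clearing the denominators: `G = δ² g' ∈ Q4 F[X]` (`G.map toK = g'.smul δ²`). `G.res = (δ²)-scaling of g'.res`, and `g'.res` is related to `f` by `res_sub`: `G.res.disc = (δ·…)^… · 4^6 f.disc` up to a unit at `P`: precisely `s.1.sub N = g'.smul (det N)²` gives `g'.res = (f.sc 4).tr ρ'` (`PE.res`, or `res_sub`, `res_smul`), so `G.res.disc = (δ²)^6 · 4^6 · f.disc`, hence `P² ∤ G.res.disc`. If `P ∤ G.res.disc` then the reduction of `G` in `Rq (P^1)` has nonzero `res.disc` and `S_lang` (needs a `Field` structure on `Rq (P^1)`; see how T_els.lean uses `S_lang`) gives `1 ≤ sp`; if `P ∣ G.res.disc`, `S_node` gives `1 ≤ sp`.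
`S_hens` gives `LS P (G.map toK)`. Solubility is invariant under squares and substitutions (`LS.of_sub` in SDef.lean, with `N` and its adjugate; `Q4.Sol.of_sub`), so `LS P s.1`. (`S_indep` is probably not needed; keep it as a hypothesis. T_els.lean and T_one.lean contain similar arguments.)
-/

set_option autoImplicit false
set_option linter.all false

open Polynomial Finset Filter
open Pool.Agent.H456.EC (toK toK_inj sig toK_eq reflect_toK cls)
open Pool.Agent.H456.RN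
open Pool.Agent.H456.BQ
open Pool.Agent.H456.Coh (TF)

namespace Pool.Agent.H456.PP

theorem unr_lang (hlang : S_lang) (κ : Type) [CommRing κ] [Fintype κ] (hκ : IsField κ) (h2 : (2 : κ) ≠ 0)
    (g : Q4 κ) (hg : g.res.disc ≠ 0) : 1 ≤ g.sp := by
  letI := hκ.toField
  exact hlang κ h2 g hg

section unr

variable {F : Type} [Field F]

theorem unr_toK (P : Pl F) (a : F[X]) : toK F a ∈ LocP P :=
  mem_LocP.2 ⟨a, 1, fun h => P.2.2.not_isUnit (isUnit_of_dvd_one h), by rw [map_one, one_mul]⟩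

theorem unr_locI {P : Pl F} {x : RatFunc F} {a : F[X]} (h : LocI P (x - toK F a)) : x ∈ LocP P := by
  obtain ⟨c, b, hb, e⟩ := h
  have h1 : x - toK F a ∈ LocP P := mem_LocP.2 ⟨P.1 * c, b, hb, e⟩
  have h2 := (LocP P).add_mem h1 (unr_toK P a)
  rwa [sub_add_cancel] at h2

theorem unr_inv {P : Pl F} {D : F[X]} (hD : ¬ P.1 ∣ D) : (toK F D)⁻¹ ∈ LocP P := by
  have h0 : toK F D ≠ 0 := (map_ne_zero_iff _ toK_inj).2 (fun h => hD (h ▸ dvd_zero _))
  exact mem_LocP.2 ⟨1, D, hD, by rw [mul_inv_cancel₀ h0, map_one]⟩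

/-- the denominators of the coefficients -/
theorem unr_clear {P : Pl F} {g : Q4 (RatFunc F)} (hA : g.A ∈ LocP P) (hB : g.B ∈ LocP P) (hC : g.C ∈ LocP P)
    (hD : g.D ∈ LocP P) (hE : g.E ∈ LocP P) :
    ∃ (δ : F[X]) (G : Q4 F[X]), ¬ P.1 ∣ δ ∧ G.map (toK F) = g.smul (toK F δ ^ 2) := by
  obtain ⟨a1, b1, n1, e1⟩ := mem_LocP.1 hA
  obtain ⟨a2, b2, n2, e2⟩ := mem_LocP.1 hB
  obtain ⟨a3, b3, n3, e3⟩ := mem_LocP.1 hC
  obtain ⟨a4, b4, n4, e4⟩ := mem_LocP.1 hD
  obtain ⟨a5, b5, n5, e5⟩ := mem_LocP.1 hE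
  have hp := P.2.2.prime
  refine ⟨b1 * b2 * b3 * b4 * b5,
    ⟨a1 * (b2 * b3 * b4 * b5) * (b1 * b2 * b3 * b4 * b5), a2 * (b1 * b3 * b4 * b5) * (b1 * b2 * b3 * b4 * b5),
     a3 * (b1 * b2 * b4 * b5) * (b1 * b2 * b3 * b4 * b5), a4 * (b1 * b2 * b3 * b5) * (b1 * b2 * b3 * b4 * b5),
     a5 * (b1 * b2 * b3 * b4) * (b1 * b2 * b3 * b4 * b5)⟩, ?_, ?_⟩
  · intro h
    rcases hp.dvd_or_dvd h with h | h
    · rcases hp.dvd_or_dvd h with h | h
      · rcases hp.dvd_or_dvd h with h | h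
        · rcases hp.dvd_or_dvd h with h | h
          · exact n1 h
          · exact n2 h
        · exact n3 h
      · exact n4 h
    · exact n5 h
  · ext <;> simp only [Q4.map, Q4.smul, map_mul]
    · rw [← e1]; ring
    · rw [← e2]; ring
    · rw [← e3]; ring
    · rw [← e4]; ring
    · rw [← e5]; ring

/-- the square of a place does not divide a multiple prime to the place -/
theorem unr_sq {P : Pl F} {u d : F[X]} (hu : ¬ P.1 ∣ u) (hd : ¬ P.1 ^ 2 ∣ d) : ¬ P.1 ^ 2 ∣ u * d := by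
  intro h
  have h1 : IsCoprime P.1 u := (Irreducible.coprime_iff_not_dvd P.2.2).2 hu
  exact hd ((h1.pow_left (m := 2)).dvd_of_dvd_mul_left h)

/-- the discriminant of the resolvent is multiplied by a unit under a substitution -/
theorem unr_disc {s : Q4 (RatFunc F)} {g : Q4 (RatFunc F)} {N : M2 (RatFunc F)} (hN : N.det ≠ 0)
    (h : s.sub N = g.smul (N.det ^ 2)) : g.res.disc = s.res.disc := by
  have h1 := congrArg (fun q => q.res.disc) h
  simp only [Q4.res_sub, Q4.res_smul, Cub.disc_tr, Cub.disc_sc] at h1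
  exact (mul_left_cancel₀ (pow_ne_zero _ (pow_ne_zero _ hN)) h1).symm

theorem unr_adj {s : Q4 (RatFunc F)} {g : Q4 (RatFunc F)} {N : M2 (RatFunc F)} (hN : N.det ≠ 0)
    (h : s.sub N = g.smul (N.det ^ 2)) : g.sub N.adj = s.smul (N.det ^ 2) := by
  apply Q4.smul_cancel (pow_ne_zero 2 hN)
  have h2 : s.sub (N.mul N.adj) = (g.sub N.adj).smul (N.det ^ 2) := by
    rw [← Q4.sub_mul, h, Q4.smul_sub]
  rw [← h2, M2.mul_adj, Q4.sub_scalar, Q4.smul_smul]
  congr 1; ring

end unr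

theorem t_unr : S_locKS → S_indep → S_lang → S_node → S_hens → S_unr := by
  intro hloc _ hlang hnode hhens F _ _ h2 P f hf D hD s hs hLS
  have hD0 : toK F D ≠ 0 := (map_ne_zero_iff _ toK_inj).2 (fun h => hD (h ▸ dvd_zero _))
  -- the twisted pair
  have hfD : ¬ P.1 ^ (1 + 1) ∣ (f.sc D).disc := by
    rw [Cub.disc_sc]
    exact unr_sq (fun h => hD (P.2.2.prime.dvd_of_dvd_pow h)) hf
  have hres : (s.1.smul (toK F D)).res = (((f.sc D).map (toK F)).sc 4).tr (toK F D * s.2) := by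
    rw [Q4.res_smul, hs, Cub.sc_tr, Cub.sc_sc, Cub.map_sc, Cub.sc_sc, mul_comm 4 (toK F D)]
  obtain ⟨n, N, g, H, h3, h4, h5, -, h6⟩ := hloc F h2 P 3 1 (by norm_num) (f.sc D) hfD
    (s.1.smul (toK F D), toK F D * s.2) hres hLS
  have hn : n ≠ 0 := by
    rintro rfl
    have h7 : (0 : ℝ) ≤ (((f.sc D).map (Ideal.Quotient.mk (Ideal.span {P.1 ^ 3}))).nA : ℝ) /
        ((Fintype.card F : ℝ) ^ P.1.natDegree) ^ (3 - 1) := by positivity
    rw [Finset.univ_eq_empty, Finset.sum_empty] at h6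
    linarith
  obtain ⟨i, -⟩ : ∃ i : Fin n, True := ⟨⟨0, Nat.pos_of_ne_zero hn⟩, trivial⟩
  have hN := h3 i
  have hsub := h4 i
  have hred := h5 i
  simp only at hsub
  -- the untwisted quartic
  have hsub' : s.1.sub (N i) = ((g i).smul (toK F D)⁻¹).smul ((N i).det ^ 2) := by
    apply Q4.smul_cancel hD0
    rw [← Q4.smul_sub, hsub, Q4.smul_smul, Q4.smul_smul]
    congr 1
    field_simp
  have hinv := unr_inv hD
  obtain ⟨δ, G, hδ, hG⟩ := unr_clear (P := P) (g := (g i).smul (toK F D)⁻¹)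
    ((LocP P).mul_mem hinv (unr_locI hred.1)) ((LocP P).mul_mem hinv (unr_locI hred.2.1))
    ((LocP P).mul_mem hinv (unr_locI hred.2.2.1)) ((LocP P).mul_mem hinv (unr_locI hred.2.2.2.1))
    ((LocP P).mul_mem hinv (unr_locI hred.2.2.2.2))
  have hδ0 : toK F δ ≠ 0 := (map_ne_zero_iff _ toK_inj).2 (fun h => hδ (h ▸ dvd_zero _))
  -- its discriminant
  have hdisc : G.res.disc = (δ ^ 12 * 4 ^ 6) * f.disc := by
    apply toK_inj
    rw [← Cub.map_disc, ← Q4.map_res, hG, Q4.res_smul, Cub.disc_sc, unr_disc hN hsub', hs, Cub.disc_tr,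
      Cub.disc_sc, Cub.map_disc, map_mul, map_mul, map_pow, map_pow, map_ofNat]
    ring
  have hG2 : ¬ P.1 ^ 2 ∣ G.res.disc := by
    rw [hdisc]
    refine unr_sq ?_ hf
    intro h
    rcases P.2.2.prime.dvd_or_dvd h with h | h
    · exact hδ (P.2.2.prime.dvd_of_dvd_pow h)
    · have h8 := P.2.2.prime.dvd_of_dvd_pow h
      have h9 : (4 : F[X]) = C (4 : F) := by rw [C_ofNat]
      have h10 : (4 : F) ≠ 0 := by
        have : (4 : F) = 2 ^ 2 := by norm_num
        rw [this]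
        exact pow_ne_zero _ h2
      rw [h9] at h8
      exact P.2.2.not_isUnit (isUnit_of_dvd_unit h8 (isUnit_C.2 (isUnit_iff_ne_zero.2 h10)))
  have hsp : 1 ≤ (G.map (Ideal.Quotient.mk (Ideal.span {P.1 ^ 1}))).sp := by
    by_cases hd : P.1 ∣ G.res.disc
    · exact hnode F h2 P G hd hG2
    · refine unr_lang hlang _ (isField_Rq P) (two_ne_Rq h2 P 1 one_ne_zero) _ ?_
      rw [Q4.map_res, Cub.map_disc, Ne, Pool.Agent.H456.BQ.mk_zero, pow_one]
      exact hd
  have k1 := hhens F h2 P G hsp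
  have k2 : LS P ((g i).smul (toK F D)⁻¹) := by
    refine LS.of_sub (M := ⟨1, 0, 0, 1⟩) (c := toK F δ) ?_ hδ0 ?_ k1
    · simp only [M2.det, one_mul, mul_zero, sub_zero]
      exact one_ne_zero
    · rw [Q4.sub_one, hG]
  refine LS.of_sub (M := (N i).adj) (c := (N i).det) ?_ hN ?_ k2
  · rw [M2.det_adj]
    exact hN
  · exact unr_adj hN hsub'

end Pool.Agent.H456.PP
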