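import Pool.Agent.H456.PP.T_rho
import Pool.Agent.H456.PP.T_T3
import Pool.Agent.H456.PP.T_csq
import Pool.Agent.H456.PP.T_rec
import Pool.Agent.H456.PP.T_unr
import Pool.Agent.H456.PP.T_inv
import Pool.Agent.H456.PP.T_T12
import Pool.Agent.H456.PP.T_pt
import Pool.Agent.H456.PP.T_avr2
import Pool.Agent.H456.PP.T_ff1
import Pool.Agent.H456.PP.T_ff2
import Pool.Agent.H456.PP.T_good
import Pool.Agent.H456.PP.T_dloc
import Pool.Agent.H456.PP.T_gpr
import Pool.Agent.H456.PP.T_cusp
import Pool.Agent.H456.PP.T_mtw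
import Pool.Agent.H456.PP.T_clsT
import Pool.Agent.H456.PP.T_irr
import Pool.Agent.H456.Coh.All

/-!
# The lemmas of the project PP without hypotheses
-/

set_option autoImplicit false
set_option linter.all false

namespace Pool.Agent.H456.PP

open Pool.Agent.H456.BQ

theorem a_pt : S_pt := t_pt t_nz
theorem a_T1 : S_T1 := t_T12.1 a_pt t_inv.2
theorem a_T2 : S_T2 := t_T12.2 t_inv.2
theorem a_T3 : S_T3 := t_T3 a_pt t_inv.2 t_gpr t_cusp
theorem a_unr : S_unr := t_unr locKS_all (t_indep t_nz) t_lang t_node t_hens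
theorem a_irr : S_irr := t_irr t_nz t_gpr t_cusp t_ff1
theorem a_good : S_good := t_good t_ff2
theorem a_csq : S_csq := t_csq t_dloc

end Pool.Agent.H456.PP
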