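import Pool.Agent.H456.BQ.XFam
import Pool.Agent.H456.BQ.SAll
import Pool.Agent.H456.Coh.Stm

/-!
# A positive proportion of elliptic curves over `F(t)` with trivial 2-Selmer group: definitions
-/

set_option autoImplicit false
set_option linter.all false

open Polynomial Finset Filter
open Pool.Agent.H456.EC (toK toK_inj sig toK_eq reflect_toK)
open Pool.Agent.H456.RN
open Pool.Agent.H456.BQ
open Pool.Agent.H456.Coh (TF)

namespace Pool.Agent.H456.PP

section ring

variable {R : Type} [CommRing R]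

/-- modulo `p` the cubic has a nonzero discriminant and exactly one root -/
def OneR (p : R) (f : Cub R) : Prop :=
  ¬ p ∣ f.disc ∧ (∃ r, p ∣ f.ev r) ∧ ∀ r r', p ∣ f.ev r → p ∣ f.ev r' → p ∣ r - r'

/-- modulo `p` the cubic has a nonzero discriminant and no roots -/
def NoR (p : R) (f : Cub R) : Prop := ¬ p ∣ f.disc ∧ ∀ r, ¬ p ∣ f.ev r

/-- the quartic has a root on the projective line -/
def HasRt (g : Q4 R) : Prop := ∃ u v : R, ¬ (u = 0 ∧ v = 0) ∧ g.ev u v = 0

/-- the value at `(1, 0)` of the covariant of degree six -/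
def sx (g : Q4 R) : R := g.B ^ 3 - 4 * g.A * g.B * g.C + 8 * g.A ^ 2 * g.D

/-- the class of the pair `(g, ρ)` is the class of `hh - 16 A θ`, where `θ` is the root of `f` -/
def hh (s : Q4 R × R) : R := s.1.B ^ 2 - 4 * s.1.A * s.1.C + 4 * s.1.A * s.2

/-- the ternary form: the coefficient of `θ²` in `(z₀ + z₁ θ + z₂ θ²) (x + y θ + z θ²)²` modulo `f(θ)` -/
def Tz (f : Cub R) (z₀ z₁ z₂ : R) : TF R :=
  let t3 := -f.a
  let t4 := f.a ^ 2 - f.b
  let t5 := -f.a ^ 3 + 2 * f.a * f.b - f.c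
  let t6 := f.a ^ 4 - 3 * f.a ^ 2 * f.b + f.b ^ 2 + 2 * f.a * f.c
  ⟨z₂, z₀ + z₁ * t3 + z₂ * t4, z₀ * t4 + z₁ * t5 + z₂ * t6, 2 * (z₁ + z₂ * t3), 2 * (z₀ + z₁ * t3 + z₂ * t4),
    2 * (z₀ * t3 + z₁ * t4 + z₂ * t5)⟩

/-- the form attached to the product of the classes of two pairs -/
def Tq (f : Cub R) (s₁ s₂ : Q4 R × R) : TF R :=
  Tz f (hh s₁ * hh s₂) (-16 * (s₁.1.A * hh s₂ + s₂.1.A * hh s₁)) (256 * s₁.1.A * s₂.1.A)

/-- the form has a nontrivial zero -/
def Iso3 (q : TF R) : Prop := ∃ x y z : R, ¬ (x = 0 ∧ y = 0 ∧ z = 0) ∧ q.ev x y z = 0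

end ring

/-- the number of the roots on the projective line -/
noncomputable def nr {κ : Type} [CommRing κ] [Fintype κ] (g : Q4 κ) : ℕ := by
  classical exact ((univ : Finset κ).filter (fun u => g.ev u 1 = 0)).card + (if g.A = 0 then 1 else 0)

section global

variable {F : Type} [Field F]

/-- the place `t = 1` -/
noncomputable def PlO (F : Type) [Field F] : Pl F := ⟨X - C 1, monic_X_sub_C 1, irreducible_X_sub_C 1⟩

/-- the form is isotropic over a completion at `P` -/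
def IsoP (P : Pl F) (q : TF (RatFunc F)) : Prop :=
  ∃ (O L : Type) (_ : CommRing O) (_ : IsDomain O) (_ : Field L) (_ : Algebra O L) (_ : IsFractionRing O L)
    (π : O) (ι : F[X] →+* O) (j : RatFunc F →+* L), Lc4 P.1 π ι ∧ (∀ x : F[X], j (toK F x) = algebraMap O L (ι x)) ∧
      Iso3 (q.map j)

variable [Fintype F]

/-- the number of the roots of `G` modulo `P` -/
noncomputable def nrP (P : Pl F) (G : Q4 F[X]) : ℕ := nr (G.map (Ideal.Quotient.mk (Ideal.span {P.1 ^ 1})))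

/-- the factor of the weight -/
noncomputable def R2 (G : Q4 F[X]) : ℝ := ((nrP (PlX F) G : ℝ) / 2) * ((nrP (PlO F) G : ℝ) / 2)

/-- the classes which are trivial at the two special places -/
def Good (f : Cub F[X]) (σ : Sel (f.map (toK F))) : Prop :=
  ∀ p ∈ ClS f σ, nrP (PlX F) p.1 = 2 ∧ nrP (PlO F) p.1 = 2

/-- the conditions at the finite places -/
def cP (D : ℕ) (P : Pl F) (f : Cub F[X]) : Prop :=
  (P = PlX F ∨ P = PlO F → OneR P.1 f) ∧ (P ≠ PlX F → P ≠ PlO F → P.1.natDegree ≤ D → ¬ P.1 ^ 2 ∣ f.disc)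

/-- the cubics used for the twists -/
structure InU (n : ℕ) (f : Cub F[X]) : Prop where
  deg : CDg n f
  x : OneR X f
  o : OneR (X - C 1) f
  i : NoR X (crev n f)
  sq : ∀ P : Pl F, P ≠ PlX F → P ≠ PlO F → ¬ P.1 ^ 2 ∣ f.disc
  no : NoTwo f

end global

end Pool.Agent.H456.PP
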