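import Pool.Agent.H456.PP.Def

/-!
# A positive proportion of elliptic curves over `F(t)` with trivial 2-Selmer group: statements
-/

set_option autoImplicit false
set_option linter.all false

open Polynomial Finset Filter
open Pool.Agent.H456.EC (toK toK_inj sig toK_eq reflect_toK cls)
open Pool.Agent.H456.RN
open Pool.Agent.H456.BQ
open Pool.Agent.H456.Coh (TF)

namespace Pool.Agent.H456.PP

/-- **(rho)** the weighted average of the number of the roots of a quartic is one. -/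
def S_rho : Prop := ∀ (F : Type) [Field F] [Fintype F], (2 : F) ≠ 0 → ∀ (P : Pl F) (M : ℕ) (hM : 1 ≤ M)
  (Φ : Cub (Rq (P.1 ^ M)) → ℝ), (∀ f r, Φ (f.tr r) = Φ f) → (∀ f, ¬ IsUnit f.disc → Φ f = 0) →
    ∑ g : Q4 (Rq (P.1 ^ M)), ((g.map (redP P.1 hM)).sp : ℝ) * (nr (g.map (redP P.1 hM)) : ℝ) * Φ g.res =
      ∑ g : Q4 (Rq (P.1 ^ M)), ((g.map (redP P.1 hM)).sp : ℝ) * Φ g.res

/-- **(avr2)** the average of the weight with the factor `R2`. -/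
def S_avr2 : Prop := ∀ (F : Type) [Field F] [Fintype F], (2 : F) ≠ 0 → ∀ (m : ℕ) (c : Pl F → Cub F[X] → Prop)
  (ci : Cub F[X] → Prop), (∀ P, Cnd P.1 m (c P)) → Cnd X m ci → (∀ f, c (PlX F) f → ¬ X ∣ f.disc) →
  (∀ f, c (PlO F) f → ¬ (X - C 1) ∣ f.disc) → ∀ (S : Finset (Pl F)), PlX F ∈ S → PlO F ∈ S →
  ∀ (M : ℕ) (hM : 1 ≤ M) (n e : ℕ), m ≤ M → e ≤ n → dS S M ≤ 2 * n - 2 * e + 1 →
    AV n e (fun G => Ph S hM (fun P => WPc P M (c P)) (WPc (PlX F) M ci) (redV S M n e G) * R2 G) = IPhc S M c ci / 4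

/-- **(good)** a quartic with a root over the completion has exactly two roots modulo `P`. -/
def S_good : Prop := ∀ (F : Type) [Field F] [Fintype F], (2 : F) ≠ 0 → ∀ (P : Pl F) (O L : Type) [CommRing O] [IsDomain O]
  [Field L] [Algebra O L] [IsFractionRing O L] (π : O) (ι : F[X] →+* O), Lc4 P.1 π ι → ∀ f : Cub F[X], OneR P.1 f →
    ∀ p : Q4 F[X] × F[X], p.1.res = (f.sc 4).tr p.2 → HasRt ((p.1.map ι).map (algebraMap O L)) → nrP P p.1 = 2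

/-- **(dloc)** few cubics modulo `P²` have zero discriminant. -/
def S_dloc : Prop := ∀ (F : Type) [Field F] [Fintype F], (2 : F) ≠ 0 → ∀ P : Pl F,
  (({g : Cub (Rq (P.1 ^ 2)) | g.disc = 0}).ncard : ℝ) ≤ 3 * ((Fintype.card F : ℝ) ^ P.1.natDegree) ^ 4

open Classical in
/-- **(csq)** few cubics have a discriminant divisible by the square of a place of large degree. -/
def S_csq : Prop := ∀ (F : Type) [Field F] [Fintype F], (2 : F) ≠ 0 → ∀ ε : ℝ, 0 < ε → ∃ D : ℕ, ∀ᶠ n in atTop,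
  (((Sb F n).filter (fun f => ∃ P : Pl F, D < P.1.natDegree ∧ P.1 ^ 2 ∣ f.disc)).card : ℝ) ≤
    ε * (Fintype.card F : ℝ) ^ (12 * n + 3)

open Classical in
/-- **(dens)** the density of the family is bounded from below. -/
def S_dens : Prop := ∀ (F : Type) [Field F] [Fintype F], (2 : F) ≠ 0 →
  (∀ (D : ℕ) (P : Pl F), Cnd P.1 2 (cP D P)) ∧ Cnd (X : F[X]) 2 (NoR X) ∧
  ∃ μ : ℝ, 0 < μ ∧ ∀ D : ℕ, ∀ᶠ n in atTop, μ * (Fintype.card F : ℝ) ^ (12 * n + 3) ≤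
    (((Msh F n).filter (fun f => Fam (cP D) (NoR X) n f)).card : ℝ)

/-- **(T1)** the form of two soluble classes is isotropic. -/
def S_T1 : Prop := ∀ (F : Type) [Field F], (2 : F) ≠ 0 → ∀ (P : F[X]) (O L : Type) [CommRing O] [IsDomain O]
  [Field L] [Algebra O L] [IsFractionRing O L] (π : O) (ι : F[X] →+* O), Lc4 P π ι → ∀ f : Cub L, f.disc ≠ 0 →
    ∀ s₁ s₂ : Q4 L × L, s₁.1.res = (f.sc 4).tr s₁.2 → s₂.1.res = (f.sc 4).tr s₂.2 → sx s₁.1 ≠ 0 → sx s₂.1 ≠ 0 →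
    ∀ D : L, D ≠ 0 → (s₁.1.smul D).Sol → (s₂.1.smul D).Sol → Iso3 (Tq f s₁ s₂)

/-- **(T2)** the form is isotropic if one of the classes is trivial. -/
def S_T2 : Prop := ∀ (L : Type) [Field L], (2 : L) ≠ 0 → ∀ f : Cub L, f.disc ≠ 0 →
    ∀ s₁ s₂ : Q4 L × L, s₁.1.res = (f.sc 4).tr s₁.2 → s₂.1.res = (f.sc 4).tr s₂.2 → sx s₁.1 ≠ 0 → sx s₂.1 ≠ 0 →
    HasRt s₁.1 → Iso3 (Tq f s₁ s₂)

/-- **(kap)** the classes of equivalent pairs differ by a square. -/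
def S_kap : Prop := ∀ (K : Type) [Field K] (f : Cub K) (s s' : Q4 K × K), s.1.res = (f.sc 4).tr s.2 →
  ∀ M : M2 K, PE M s s' → ∃ x y z : K, ∀ (R : Type) [CommRing R] [Algebra K R] (θ : R),
    (f.map (algebraMap K R)).ev θ = 0 →
    (algebraMap K R (hh s) - 16 * algebraMap K R s.1.A * θ) * (algebraMap K R (hh s') - 16 * algebraMap K R s'.1.A * θ) =
      (algebraMap K R x + algebraMap K R y * θ + algebraMap K R z * θ ^ 2) ^ 2

/-- **(inv)** the isotropy of the form depends only on the classes. -/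
def S_inv : Prop := ∀ (K : Type) [Field K], (2 : K) ≠ 0 → ∀ (f : Cub K), f.disc ≠ 0 → ∀ (s₁ s₂ s₁' s₂' : Q4 K × K),
  s₁.1.res = (f.sc 4).tr s₁.2 → s₂.1.res = (f.sc 4).tr s₂.2 → ∀ M₁ M₂ : M2 K, PE M₁ s₁ s₁' → PE M₂ s₂ s₂' →
  sx s₁.1 ≠ 0 → sx s₂.1 ≠ 0 → sx s₁'.1 ≠ 0 → sx s₂'.1 ≠ 0 → Iso3 (Tq f s₁ s₂) → Iso3 (Tq f s₁' s₂')

/-- **(pt)** a point of a soluble pair over a completion, moved to `(1, 0)`, in general position. -/
def S_pt : Prop := ∀ (F : Type) [Field F], (2 : F) ≠ 0 → ∀ (P : F[X]) (O L : Type) [CommRing O] [IsDomain O]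
  [Field L] [Algebra O L] [IsFractionRing O L] (π : O) (ι : F[X] →+* O), Lc4 P π ι → ∀ f : Cub L, f.disc ≠ 0 →
    ∀ s : Q4 L × L, s.1.res = (f.sc 4).tr s.2 → sx s.1 ≠ 0 → ∀ D : L, D ≠ 0 → (s.1.smul D).Sol →
    ∃ (M : M2 L) (s' : Q4 L × L) (z : L), PE M s s' ∧ z ≠ 0 ∧ D * s'.1.A = z ^ 2 ∧ sx s'.1 ≠ 0

/-- **(gpr)** a pair whose first coefficient is a square is the pair of an explicit point. -/
def S_gpr : Prop := ∀ (K : Type) [Field K], (2 : K) ≠ 0 → ∀ (f : Cub K) (s : Q4 K × K), s.1.res = (f.sc 4).tr s.2 →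
  ∀ z : K, z ≠ 0 → s.1.A = z ^ 2 → (-(sx s.1 / (64 * z ^ 3))) ^ 2 = f.ev (hh s / (16 * z ^ 2)) ∧
    Rep f (hh s / (16 * z ^ 2)) (-(sx s.1 / (64 * z ^ 3))) ⟨z, s.1.B / (4 * z), 0, 1⟩ s.1 s.2

/-- **(cusp)** a point with nonsingular reduction on a cuspidal curve is divisible by two. -/
def S_cusp : Prop := ∀ (F : Type) [Field F], (2 : F) ≠ 0 → ∀ (P : F[X]) (O : Type) [CommRing O] [IsDomain O]
  (π : O) (ι : F[X] →+* O), Lc4 P π ι → ∀ (f : Cub O) (x y : O), π ∣ f.a → π ∣ f.b → π ∣ f.c → y ^ 2 = f.ev x → IsUnit x →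
    ∃ h : O, (gp f x y).ev h 1 = 0

/-- **(T3)** the form is anisotropic if the classes are nontrivial of different types. -/
def S_T3 : Prop := ∀ (F : Type) [Field F] [Fintype F], (2 : F) ≠ 0 → ∀ (P : Pl F) (O L : Type) [CommRing O] [IsDomain O]
  [Field L] [Algebra O L] [IsFractionRing O L] (π : O) (ι : F[X] →+* O), Lc4 P.1 π ι → ∀ f : Cub O, OneR π f →
    ∀ s₁ s₂ : Q4 L × L, s₁.1.res = ((f.map (algebraMap O L)).sc 4).tr s₁.2 →
    s₂.1.res = ((f.map (algebraMap O L)).sc 4).tr s₂.2 → sx s₁.1 ≠ 0 → sx s₂.1 ≠ 0 → s₁.1.Sol → ¬ HasRt s₁.1 →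
    ∀ D : O, π ∣ D → ¬ π ^ 2 ∣ D → (s₂.1.smul (algebraMap O L D)).Sol → ¬ HasRt s₂.1 →
      ¬ Iso3 (Tq (f.map (algebraMap O L)) s₁ s₂)

/-- **(irr)** if the cubic is irreducible modulo `P` all the classes are trivial. -/
def S_irr : Prop := ∀ (F : Type) [Field F] [Fintype F], (2 : F) ≠ 0 → ∀ (P : Pl F) (O L : Type) [CommRing O] [IsDomain O]
  [Field L] [Algebra O L] [IsFractionRing O L] (π : O) (ι : F[X] →+* O), Lc4 P.1 π ι → ∀ f : Cub O, NoR π f →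
    ∀ s : Q4 L × L, s.1.res = ((f.map (algebraMap O L)).sc 4).tr s.2 → ∀ D : L, D ≠ 0 → (s.1.smul D).Sol → HasRt s.1

/-- **(ff1)** over a finite field a quartic whose resolvent has no roots has a root. -/
def S_ff1 : Prop := ∀ (κ : Type) [CommRing κ] [Fintype κ], IsField κ → (2 : κ) ≠ 0 → ∀ (f : Cub κ), (∀ r, f.ev r ≠ 0) →
  ∀ s : Q4 κ × κ, s.1.res = (f.sc 4).tr s.2 → HasRt s.1

/-- **(ff2)** over a finite field a quartic with a root whose resolvent has exactly one root has two roots. -/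
def S_ff2 : Prop := ∀ (κ : Type) [CommRing κ] [Fintype κ], IsField κ → (2 : κ) ≠ 0 → ∀ (f : Cub κ), f.disc ≠ 0 →
  (∃ r, f.ev r = 0) → (∀ r r', f.ev r = 0 → f.ev r' = 0 → r = r') → ∀ s : Q4 κ × κ, s.1.res = (f.sc 4).tr s.2 →
    HasRt s.1 → nr s.1 = 2

/-- **(unr)** twists which are unramified at `P`. -/
def S_unr : Prop := ∀ (F : Type) [Field F] [Fintype F], (2 : F) ≠ 0 → ∀ (P : Pl F) (f : Cub F[X]), ¬ P.1 ^ 2 ∣ f.disc →
  ∀ D : F[X], ¬ P.1 ∣ D → ∀ s : Q4 (RatFunc F) × RatFunc F, s.1.res = ((f.map (toK F)).sc 4).tr s.2 →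
    LS P (s.1.smul (toK F D)) → LS P s.1

/-- **(rec)** reciprocity: a ternary form which is isotropic at all places but one (of degree one) is isotropic. -/
def S_rec : Prop := ∀ (F : Type) [Field F] [Fintype F], (2 : F) ≠ 0 → ∀ (c : F) (q : TF (RatFunc F)),
  (∀ P : Pl F, P.1 ≠ X - C c → IsoP P q) → IsoP (PlX F) (q.map (locI_tau F)) → Iso3 q

/-- **(mtw)** the twists are minimal. -/
def S_mtw : Prop := ∀ (F : Type) [Field F] [Fintype F], (2 : F) ≠ 0 → ∀ (n : ℕ) (f : Cub F[X]), InU n f →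
  f ∈ Msh F n ∧ f.sc X ∈ Msh F (n + 1) ∧ f.sc (1 - X) ∈ Msh F (n + 1) ∧ f.sc (X * (1 - X)) ∈ Msh F (n + 1)

open Classical in
/-- **(clsT)** transfer of a lower bound to the isomorphism classes. -/
def S_clsT : Prop := ∀ (F : Type) [Field F] [Fintype F], (2 : F) ≠ 0 → ∀ v : KC F → ℝ, (∀ κ, 0 ≤ v κ) → ∀ δ : ℝ, 0 < δ →
  (∀ᶠ n in atTop, δ * (Fintype.card F : ℝ) ^ (12 * n + 3) ≤
    ∑ f ∈ Msh F n, v (cls (crv f)) + ∑ f ∈ Msh F (n + 1), v (cls (crv f))) →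
  ∃ δ' : ℝ, 0 < δ' ∧ ∀ᶠ d in atTop, δ' * (CL F d).card ≤ ∑ κ ∈ CL F d, v κ

end Pool.Agent.H456.PP
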