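import Pool.Agent.H456.PP.Stm

/-!
(mtw) `S_mtw`. `f ∈ Msh F n ↔ CDg n f ∧ f.disc ≠ 0 ∧ MinAll n (crv f)` (`mem_Msh`), `(MinAll_crv h2)`: `MinAll n (crv f) ↔ (∀ P : Pl F, ¬ NMc P.1 f) ∧ ¬ NMc X (crev n f)`. `NMc p g → p^12 ∣ g.disc` (`g.tr r = h.sc (p²)`, `disc_tr`, `disc_sc`: `(p²)^6`). `InU`: `X ∤ disc`, `(X - 1) ∤ disc`, `P² ∤ disc` for the other `P`, so `P^12 ∤ D^6 disc f = (f.sc D).disc` for `D ∈ {1, X, 1-X, X(1-X)}` and all `P` (for `P = X` or `X - 1`: `P^6` exactly). `f.disc ≠ 0`. Degrees: `deg (D a) ≤ 2n + 2`, `deg (D²b) ≤ 4n + 4`, `deg (D³c) ≤ 6n + 6`.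
At infinity: `reflect (2n+2) (D a) = D^♯ reflect (2n) a` with `D^♯ = reflect 2 D`: `X^♯ = X`, `(1 - X)^♯ = X² - X`, `(X(1-X))^♯ = X - 1`, and `reflect (4n+4) (D²b) = (D^♯)² reflect (4n) b`, … (`reflect_mul`), so `crev (n+1) (f.sc D) = (crev n f).sc D^♯`, whose discriminant is `(D^♯)^6 (crev n f).disc`, exactly divisible by `X^6` or `X^0` (`X ∤ (crev n f).disc` by `NoR`), so not by `X^12`.
-/

set_option autoImplicit false
set_option linter.all false

open Polynomial Finset Filter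
open Pool.Agent.H456.EC (toK toK_inj sig toK_eq reflect_toK cls)
open Pool.Agent.H456.RN
open Pool.Agent.H456.BQ
open Pool.Agent.H456.Coh (TF)

namespace Pool.Agent.H456.PP

/-- a nonminimal cubic has a discriminant divisible by a high power -/
theorem mtw_NMc {R : Type} [CommRing R] {p : R} {g : Cub R} (h : NMc p g) : p ^ 12 ∣ g.disc := by
  obtain ⟨r, k, e⟩ := h
  refine ⟨k.disc, ?_⟩
  rw [← Cub.disc_tr r g, e, Cub.disc_sc]
  ring

/-- the finite places -/
theorem mtw_fin {F : Type} [Field F] (d : F[X]) (hx : ¬ X ∣ d) (ho : ¬ (X - C 1) ∣ d)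
    (hsq : ∀ P : Pl F, P ≠ PlX F → P ≠ PlO F → ¬ P.1 ^ 2 ∣ d) (P : Pl F)
    (h : P.1 ^ 12 ∣ (X * (1 - X)) ^ 6 * d) : False := by
  have e1 : (1 : F[X]) - X = - (X - C 1) := by rw [C_1]; ring
  have hX1 : ¬ (X : F[X]) ∣ X - C 1 := by
    intro hd
    rw [X_dvd_iff] at hd
    simp at hd
  have h1X : ¬ (X - C 1 : F[X]) ∣ X := by
    intro hd
    rw [dvd_iff_isRoot] at hd
    simp at hd
  by_cases h1 : P = PlX F
  · subst h1
    have h2 : (X : F[X]) ^ 6 * X ^ 6 ∣ X ^ 6 * ((1 - X) ^ 6 * d) := by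
      have e2 : (X : F[X]) ^ 6 * X ^ 6 = X ^ 12 := by ring
      have e3 : (X : F[X]) ^ 6 * ((1 - X) ^ 6 * d) = (X * (1 - X)) ^ 6 * d := by ring
      rw [e2, e3]
      exact h
    have h3 : (X : F[X]) ^ 6 ∣ (1 - X) ^ 6 * d :=
      (mul_dvd_mul_iff_left (pow_ne_zero 6 X_ne_zero)).1 h2
    have h4 : (X : F[X]) ∣ (1 - X) ^ 6 * d := (dvd_pow_self X (by norm_num)).trans h3
    rcases prime_X.dvd_or_dvd h4 with h5 | h5
    · have h6 := prime_X.dvd_of_dvd_pow h5
      rw [e1, dvd_neg] at h6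
      exact hX1 h6
    · exact hx h5
  · by_cases h2 : P = PlO F
    · subst h2
      have hp : Prime (X - C 1 : F[X]) := prime_X_sub_C 1
      have h3 : (X - C 1 : F[X]) ^ 6 * (X - C 1) ^ 6 ∣ (X - C 1) ^ 6 * (X ^ 6 * d) := by
        have e2 : (X - C 1 : F[X]) ^ 6 * (X - C 1) ^ 6 = (X - C 1) ^ 12 := by ring
        have e3 : (X - C 1 : F[X]) ^ 6 * (X ^ 6 * d) = (X * (1 - X)) ^ 6 * d := by rw [e1]; ring
        rw [e2, e3]
        exact h
      have h4 : (X - C 1 : F[X]) ^ 6 ∣ X ^ 6 * d :=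
        (mul_dvd_mul_iff_left (pow_ne_zero 6 hp.ne_zero)).1 h3
      have h5 : (X - C 1 : F[X]) ∣ X ^ 6 * d := (dvd_pow_self _ (by norm_num)).trans h4
      rcases hp.dvd_or_dvd h5 with h6 | h6
      · exact h1X (hp.dvd_of_dvd_pow h6)
      · exact ho h6
    · have hP : Prime P.1 := P.2.2.prime
      have hPX : ¬ P.1 ∣ X := by
        intro hd
        apply h1
        have := eq_of_monic_of_associated P.2.1 monic_X (P.2.2.associated_of_dvd irreducible_X hd)
        exact Subtype.ext this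
      have hPO : ¬ P.1 ∣ X - C 1 := by
        intro hd
        apply h2
        have := eq_of_monic_of_associated P.2.1 (monic_X_sub_C 1)
          (P.2.2.associated_of_dvd (irreducible_X_sub_C 1) hd)
        exact Subtype.ext this
      have h3 : ¬ P.1 ∣ (X * (1 - X)) ^ 6 := by
        intro hd
        have h4 := hP.dvd_of_dvd_pow hd
        rcases hP.dvd_or_dvd h4 with h5 | h5
        · exact hPX h5
        · rw [e1, dvd_neg] at h5
          exact hPO h5
      have h4 : IsCoprime (P.1 ^ 12) ((X * (1 - X)) ^ 6) :=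
        IsCoprime.pow_left ((P.2.2.coprime_iff_not_dvd).2 h3)
      have h5 : P.1 ^ 12 ∣ d := h4.dvd_of_dvd_mul_left h
      exact hsq P h1 h2 ((pow_dvd_pow P.1 (by norm_num)).trans h5)

/-- the place at infinity -/
theorem mtw_inf {F : Type} [Field F] (d : F[X]) (hx : ¬ X ∣ d)
    (h : X ^ 12 ∣ (X * (X - 1)) ^ 6 * d) : False := by
  have hX1 : ¬ (X : F[X]) ∣ X - 1 := by
    intro hd
    rw [X_dvd_iff] at hd
    simp at hd
  have h2 : (X : F[X]) ^ 6 * X ^ 6 ∣ X ^ 6 * ((X - 1) ^ 6 * d) := by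
    have e2 : (X : F[X]) ^ 6 * X ^ 6 = X ^ 12 := by ring
    have e3 : (X : F[X]) ^ 6 * ((X - 1) ^ 6 * d) = (X * (X - 1)) ^ 6 * d := by ring
    rw [e2, e3]
    exact h
  have h3 : (X : F[X]) ^ 6 ∣ (X - 1) ^ 6 * d :=
    (mul_dvd_mul_iff_left (pow_ne_zero 6 X_ne_zero)).1 h2
  have h4 : (X : F[X]) ∣ (X - 1) ^ 6 * d := (dvd_pow_self X (by norm_num)).trans h3
  rcases prime_X.dvd_or_dvd h4 with h5 | h5
  · exact hX1 (prime_X.dvd_of_dvd_pow h5)
  · exact hx h5

/-- the reversal of a twist -/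
theorem mtw_crev {F : Type} [Field F] {n : ℕ} {f : Cub F[X]} (hf : CDg n f) (D : F[X])
    (hD : D.natDegree ≤ 2) : crev (n + 1) (f.sc D) = (crev n f).sc (reflect 2 D) := by
  have e2 : 2 * (n + 1) = 2 + 2 * n := by ring
  have e4 : 4 * (n + 1) = (2 + 2) + 4 * n := by ring
  have e6 : 6 * (n + 1) = (2 + (2 + 2)) + 6 * n := by ring
  have d2 : (D * D).natDegree ≤ 2 + 2 := natDegree_mul_le.trans (add_le_add hD hD)
  have d3 : (D * (D * D)).natDegree ≤ 2 + (2 + 2) := natDegree_mul_le.trans (add_le_add hD d2)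
  ext1
  · simp only [crev, Cub.sc]
    rw [e2, reflect_mul D f.a hD hf.1]
  · simp only [crev, Cub.sc]
    rw [e4, sq, reflect_mul (D * D) f.b d2 hf.2.1, reflect_mul D D hD hD, sq]
  · simp only [crev, Cub.sc]
    have p3 : D ^ 3 = D * (D * D) := by ring
    have q3 : (reflect 2 D) ^ 3 = reflect 2 D * (reflect 2 D * reflect 2 D) := by ring
    rw [e6, p3, q3, reflect_mul (D * (D * D)) f.c d3 hf.2.2, reflect_mul D (D * D) hD d2,
      reflect_mul D D hD hD]

theorem mtw_main {F : Type} [Field F] [Fintype F] (h2 : (2 : F) ≠ 0) {n : ℕ} {f : Cub F[X]}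
    (hf : InU n f) (D : F[X]) (hD : D.natDegree ≤ 2) (hD0 : D ≠ 0) (hd : D ∣ X * (1 - X))
    (hr : reflect 2 D ∣ X * (X - 1)) : f.sc D ∈ Msh F (n + 1) := by
  have hdisc : f.disc ≠ 0 := by
    intro h
    exact hf.x.1 (by rw [h]; exact dvd_zero _)
  rw [mem_Msh]
  refine ⟨⟨?_, ?_, ?_⟩, ?_, (MinAll_crv h2).2 ⟨?_, ?_⟩⟩
  · simp only [Cub.sc]
    exact natDegree_mul_le.trans ((add_le_add hD hf.deg.1).trans (by omega))
  · simp only [Cub.sc]
    have h3 : (D ^ 2).natDegree ≤ 2 * 2 := natDegree_pow_le.trans (Nat.mul_le_mul_left 2 hD)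
    exact natDegree_mul_le.trans ((add_le_add h3 hf.deg.2.1).trans (by omega))
  · simp only [Cub.sc]
    have h3 : (D ^ 3).natDegree ≤ 3 * 2 := natDegree_pow_le.trans (Nat.mul_le_mul_left 3 hD)
    exact natDegree_mul_le.trans ((add_le_add h3 hf.deg.2.2).trans (by omega))
  · rw [Cub.disc_sc]
    exact mul_ne_zero (pow_ne_zero 6 hD0) hdisc
  · intro P hP
    have h3 := mtw_NMc hP
    rw [Cub.disc_sc] at h3
    exact mtw_fin f.disc hf.x.1 hf.o.1 hf.sq P (h3.trans (mul_dvd_mul_right (pow_dvd_pow_of_dvd hd 6) _))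
  · intro hP
    have h3 := mtw_NMc hP
    rw [mtw_crev hf.deg D hD, Cub.disc_sc] at h3
    exact mtw_inf (crev n f).disc hf.i.1 (h3.trans (mul_dvd_mul_right (pow_dvd_pow_of_dvd hr 6) _))

theorem t_mtw : S_mtw := by
  intro F _ _ h2 n f hf
  have hdisc : f.disc ≠ 0 := by
    intro h
    exact hf.x.1 (by rw [h]; exact dvd_zero _)
  have dX : (X : F[X]).natDegree ≤ 1 := natDegree_X_le
  have d1 : (1 - X : F[X]).natDegree ≤ 1 := by
    refine (natDegree_sub_le _ _).trans ?_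
    rw [natDegree_one]
    exact max_le (by omega) dX
  have r1 : reflect 2 (1 : F[X]) = X ^ 2 := reflect_one 2
  have rX : reflect 2 (X : F[X]) = X := by
    have h3 := reflect_monomial (R := F) 2 1
    rw [revAt_le (show 1 ≤ 2 by norm_num), pow_one] at h3
    exact h3
  have rX2 : reflect 2 (X ^ 2 : F[X]) = 1 := by
    have h3 := reflect_monomial (R := F) 2 2
    rw [revAt_le (show 2 ≤ 2 by norm_num)] at h3
    exact h3.trans (pow_zero _)
  refine ⟨?_, ?_, ?_, ?_⟩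
  · rw [mem_Msh]
    refine ⟨hf.deg, hdisc, (MinAll_crv h2).2 ⟨?_, ?_⟩⟩
    · intro P hP
      have h3 := mtw_NMc hP
      exact mtw_fin f.disc hf.x.1 hf.o.1 hf.sq P (h3.trans (dvd_mul_left _ _))
    · intro hP
      have h3 := mtw_NMc hP
      exact hf.i.1 ((dvd_pow_self X (by norm_num)).trans h3)
  · refine mtw_main h2 hf X (by omega) X_ne_zero (dvd_mul_right _ _) ?_
    rw [rX]
    exact dvd_mul_right _ _
  · refine mtw_main h2 hf (1 - X) (by omega) ?_ (dvd_mul_left _ _) ?_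
    · intro h
      have h3 := congrArg (fun p : F[X] => p.coeff 1) h
      simp [coeff_one, coeff_X] at h3
    · rw [reflect_sub, r1, rX]
      exact ⟨1, by ring⟩
  · refine mtw_main h2 hf (X * (1 - X)) ?_ ?_ dvd_rfl ?_
    · exact natDegree_mul_le.trans (by omega)
    · intro h
      have h3 := congrArg (fun p : F[X] => p.coeff 1) h
      simp [coeff_one, coeff_X] at h3
    · have e : (X * (1 - X) : F[X]) = X - X ^ 2 := by ring
      rw [e, reflect_sub, rX, rX2]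
      exact dvd_mul_left _ _

end Pool.Agent.H456.PP
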