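import Pool.Agent.H456.PP.Stm
import Pool.Agent.H456.BQ.T_star
import Pool.Agent.H456.BQ.T_spinv

/-!
(rho) `S_rho`: the weighted average of the number of the roots of a quartic over `F[X] / (P ^ M)` is one.
-/

set_option autoImplicit false
set_option linter.all false

open Polynomial Finset Filter
open Pool.Agent.H456.EC (toK toK_inj sig toK_eq reflect_toK cls)
open Pool.Agent.H456.RN
open Pool.Agent.H456.BQ
open Pool.Agent.H456.Coh (TF)

namespace Pool.Agent.H456.PP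

section rho

/-- transport of a sum along an injective map -/
theorem rho_bij {X : Type} [DecidableEq X] (s t : Finset X) (ψ : X → X) (hψ : ∀ x ∈ s, ψ x ∈ t)
    (hinj : Set.InjOn ψ (s : Set X)) (hc : t.card ≤ s.card) (W : X → ℝ) (hW : ∀ x ∈ s, W (ψ x) = W x) :
    ∑ x ∈ t, W x = ∑ x ∈ s, W x := by
  have h1 : s.image ψ = t := by
    apply Finset.eq_of_subset_of_card_le
    · intro y hy
      obtain ⟨x, hx, rfl⟩ := Finset.mem_image.1 hy
      exact hψ x hx
    · rw [Finset.card_image_of_injOn hinj]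
      exact hc
  rw [← h1, Finset.sum_image (fun x hx y hy e => hinj hx hy e)]
  exact Finset.sum_congr rfl hW

variable {R κ : Type} [CommRing R] [CommRing κ] {φ : R →+* κ} [Fintype R] [Fintype κ]

open Classical in
/-- Hensel's lemma in the form used here -/
theorem rho_hensel (h : StarH φ) (c1 c2 c3 c4 : R) (hc1 : φ c1 ≠ 0) :
    (∀ w w' : R, φ w = 0 → φ w' = 0 → c1 * w + c2 * w ^ 2 + c3 * w ^ 3 + c4 * w ^ 4 =
      c1 * w' + c2 * w' ^ 2 + c3 * w' ^ 3 + c4 * w' ^ 4 → w = w') ∧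
    (∀ A : R, φ A = 0 → ∃ w, φ w = 0 ∧ c1 * w + c2 * w ^ 2 + c3 * w ^ 3 + c4 * w ^ 4 = A) := by
  have hinj : ∀ w w' : R, φ w = 0 → φ w' = 0 → c1 * w + c2 * w ^ 2 + c3 * w ^ 3 + c4 * w ^ 4 =
      c1 * w' + c2 * w' ^ 2 + c3 * w' ^ 3 + c4 * w' ^ 4 → w = w' := by
    intro w w' hw hw' e
    have h1 : (c1 + c2 * (w + w') + c3 * (w ^ 2 + w * w' + w' ^ 2) +
        c4 * (w ^ 3 + w ^ 2 * w' + w * w' ^ 2 + w' ^ 3)) * (w - w') = 0 := by
      linear_combination e
    have h2 : IsUnit (c1 + c2 * (w + w') + c3 * (w ^ 2 + w * w' + w' ^ 2) +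
        c4 * (w ^ 3 + w ^ 2 * w' + w * w' ^ 2 + w' ^ 3)) := by
      apply h.unit
      simp only [map_add, map_mul, map_pow, hw, hw']
      intro h0
      apply hc1
      linear_combination h0
    exact sub_eq_zero.1 (h2.mul_right_eq_zero.1 h1)
  refine ⟨hinj, ?_⟩
  intro A hA
  have h1 : ((univ : Finset R).filter (fun r => φ r = 0)).image
      (fun w => c1 * w + c2 * w ^ 2 + c3 * w ^ 3 + c4 * w ^ 4) = (univ : Finset R).filter (fun r => φ r = 0) := by
    apply Finset.eq_of_subset_of_card_le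
    · intro y hy
      obtain ⟨x, hx, rfl⟩ := Finset.mem_image.1 hy
      simp only [mem_filter, mem_univ, true_and] at hx ⊢
      simp only [map_add, map_mul, map_pow, hx]
      ring
    · rw [Finset.card_image_of_injOn]
      intro w hw w' hw' e
      simp only [coe_filter, mem_univ, true_and, Set.mem_setOf_eq] at hw hw'
      exact hinj w w' hw hw' e
  have h2 : A ∈ ((univ : Finset R).filter (fun r => φ r = 0)).image
      (fun w => c1 * w + c2 * w ^ 2 + c3 * w ^ 3 + c4 * w ^ 4) := by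
    rw [h1]
    simp only [mem_filter, mem_univ, true_and]
    exact hA
  obtain ⟨w, hw, e⟩ := Finset.mem_image.1 h2
  simp only [mem_filter, mem_univ, true_and] at hw
  exact ⟨w, hw, e⟩

theorem rho_fld (h : StarH φ) : IsField κ := by
  haveI := h.nt
  refine ⟨⟨0, 1, zero_ne_one⟩, mul_comm, ?_⟩
  intro a ha
  obtain ⟨v, hv⟩ := h.fld a ha
  exact ⟨(↑v⁻¹ : κ), by rw [← hv, Units.mul_inv]⟩

theorem rho_two (h : StarH φ) : (2 : κ) ≠ 0 := by
  haveI := h.nt
  have := star_two_ne h (one_ne_zero (α := κ))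
  rwa [mul_one] at this

theorem rho_mul (h : StarH φ) {x y : κ} (hxy : x * y = 0) : x = 0 ∨ y = 0 := by
  by_cases hx : x = 0
  · exact Or.inl hx
  · exact Or.inr ((h.fld x hx).mul_right_eq_zero.1 hxy)

theorem rho_sp (h : StarH φ) (g : Q4 κ) (V : M2 κ) (hV : V.det = -1) : (g.sub V).sp = g.sp := by
  have h1 := t_spinv κ (rho_fld h) (rho_two h) g V (-1) (by rw [hV]; ring)
  have h2 : (-1 : κ) ^ 2 = 1 := by ring
  rwa [h2, Q4.smul_one] at h1

open Classical in
/-- the points are equivalent -/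
theorem rho_move (h : StarH φ) (Φ : Cub R → ℝ) (hΦ : ∀ f r, Φ (Cub.tr r f) = Φ f) (u : κ) :
    ∑ g : Q4 R, ((g.map φ).sp : ℝ) * (if (g.map φ).ev u 1 = 0 then 1 else 0) * Φ g.res =
    ∑ g : Q4 R, ((g.map φ).sp : ℝ) * (if φ g.A = 0 then 1 else 0) * Φ g.res := by
  obtain ⟨t, rfl⟩ := h.surj u
  let e : Q4 R ≃ Q4 R :=
    { toFun := fun g => g.sub ⟨t, 1, 1, 0⟩
      invFun := fun g => g.sub ⟨0, 1, 1, -t⟩
      left_inv := fun g => by
        change (g.sub _).sub _ = g
        rw [Q4.sub_mul]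
        have : M2.mul ⟨t, 1, 1, 0⟩ ⟨0, 1, 1, -t⟩ = (⟨1, 0, 0, 1⟩ : M2 R) := by
          ext <;> simp only [M2.mul] <;> ring
        rw [this, Q4.sub_one]
      right_inv := fun g => by
        change (g.sub _).sub _ = g
        rw [Q4.sub_mul]
        have : M2.mul ⟨0, 1, 1, -t⟩ ⟨t, 1, 1, 0⟩ = (⟨1, 0, 0, 1⟩ : M2 R) := by
          ext <;> simp only [M2.mul] <;> ring
        rw [this, Q4.sub_one] }
  rw [← e.sum_comp (fun g => ((g.map φ).sp : ℝ) * (if φ g.A = 0 then 1 else 0) * Φ g.res)]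
  apply Finset.sum_congr rfl
  intro g _
  have h1 : Φ (e g).res = Φ g.res := by
    change Φ (g.sub ⟨t, 1, 1, 0⟩).res = _
    rw [Q4.res_sub, hΦ]
    have : (M2.det (⟨t, 1, 1, 0⟩ : M2 R)) ^ 2 = 1 := by simp only [M2.det]; ring
    rw [this, Cub.sc_one]
  have h2 : φ (e g).A = (g.map φ).ev (φ t) 1 := by
    change φ (g.sub ⟨t, 1, 1, 0⟩).A = _
    rw [← map_one φ, Q4.map_ev]
    congr 1
    simp only [Q4.sub, Q4.ev]
    ring
  have h3 : ((e g).map φ).sp = (g.map φ).sp := by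
    change ((g.sub ⟨t, 1, 1, 0⟩).map φ).sp = _
    rw [Q4.map_sub]
    apply rho_sp h
    simp only [M2.det, M2.map, map_one, map_zero]
    ring
  rw [h1, h2, h3]

open Classical in
/-- the affine points of the curve are equivalent -/
theorem rho_aff (h : StarH φ) (Φ : Cub R → ℝ) (hΦ : ∀ f r, Φ (Cub.tr r f) = Φ f) (u : κ) :
    ∑ g : Q4 R, (star_c ((g.map φ).ev u 1)
      (4 * (g.map φ).A * u ^ 3 + 3 * (g.map φ).B * u ^ 2 + 2 * (g.map φ).C * u + (g.map φ).D) : ℝ) *
      (if φ g.A = 0 then 1 else 0) * Φ g.res =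
    ∑ g : Q4 R, (star_c (φ g.E) (φ g.D) : ℝ) * (if φ g.A = 0 then 1 else 0) * Φ g.res := by
  obtain ⟨t, rfl⟩ := h.surj u
  let e : Q4 R ≃ Q4 R :=
    { toFun := fun g => g.sub ⟨1, t, 0, 1⟩
      invFun := fun g => g.sub ⟨1, -t, 0, 1⟩
      left_inv := fun g => by
        change (g.sub _).sub _ = g
        rw [Q4.sub_mul]
        have : M2.mul ⟨1, t, 0, 1⟩ ⟨1, -t, 0, 1⟩ = (⟨1, 0, 0, 1⟩ : M2 R) := by
          ext <;> simp only [M2.mul] <;> ring
        rw [this, Q4.sub_one]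
      right_inv := fun g => by
        change (g.sub _).sub _ = g
        rw [Q4.sub_mul]
        have : M2.mul ⟨1, -t, 0, 1⟩ ⟨1, t, 0, 1⟩ = (⟨1, 0, 0, 1⟩ : M2 R) := by
          ext <;> simp only [M2.mul] <;> ring
        rw [this, Q4.sub_one] }
  rw [← e.sum_comp (fun g => (star_c (φ g.E) (φ g.D) : ℝ) * (if φ g.A = 0 then 1 else 0) * Φ g.res)]
  apply Finset.sum_congr rfl
  intro g _
  have h1 : Φ (e g).res = Φ g.res := by
    change Φ (g.sub ⟨1, t, 0, 1⟩).res = _
    rw [Q4.res_sub, hΦ]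
    have : (M2.det (⟨1, t, 0, 1⟩ : M2 R)) ^ 2 = 1 := by simp only [M2.det]; ring
    rw [this, Cub.sc_one]
  have h2 : φ (e g).E = (g.map φ).ev (φ t) 1 := by
    change φ (g.sub ⟨1, t, 0, 1⟩).E = _
    rw [← map_one φ, Q4.map_ev]
    congr 1
    simp only [Q4.sub, Q4.ev]
    ring
  have h3 : φ (e g).D = 4 * (g.map φ).A * (φ t) ^ 3 + 3 * (g.map φ).B * (φ t) ^ 2 + 2 * (g.map φ).C * (φ t) +
      (g.map φ).D := by
    have : (e g).D = 4 * g.A * t ^ 3 + 3 * g.B * t ^ 2 + 2 * g.C * t + g.D := by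
      change (g.sub ⟨1, t, 0, 1⟩).D = _
      simp only [Q4.sub]
      ring
    rw [this]
    simp only [Q4.map, map_add, map_mul, map_pow, map_ofNat]
  have h4 : (e g).A = g.A := by
    change (g.sub ⟨1, t, 0, 1⟩).A = _
    simp only [Q4.sub]
    ring
  rw [h1, h2, h3, h4]

open Classical in
/-- the sum over the quartics with a first coefficient in the maximal ideal -/
theorem rho_A (h : StarH φ) (Φ : Cub R → ℝ) (hΦ : ∀ f r, Φ (Cub.tr r f) = Φ f)
    (hΦ0 : ∀ f, ¬ IsUnit (Cub.disc f) → Φ f = 0) :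
    ∑ g : Q4 R, (star_c (φ g.E) (φ g.D) : ℝ) * (if φ g.A = 0 then 1 else 0) * Φ g.res =
      ((univ : Finset R).filter (fun r => φ r = 0)).card *
        ∑ g ∈ (univ : Finset (Q4 R)).filter (fun g => g.A = 0 ∧ φ g.B ≠ 0),
          (star_c (φ g.E) (φ g.D) : ℝ) * Φ g.res := by
  haveI := h.nt
  have e1 : ∑ g : Q4 R, (star_c (φ g.E) (φ g.D) : ℝ) * (if φ g.A = 0 then 1 else 0) * Φ g.res =
      ∑ g ∈ (univ : Finset (Q4 R)).filter (fun g => φ g.A = 0 ∧ φ g.B ≠ 0),
        (star_c (φ g.E) (φ g.D) : ℝ) * Φ g.res := by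
    rw [Finset.sum_filter]
    apply Finset.sum_congr rfl
    intro g _
    by_cases hA : φ g.A = 0
    · by_cases hB : φ g.B = 0
      · have : Φ g.res = 0 := by
          apply hΦ0
          intro hu
          have h1 := hu.map φ
          rw [← Cub.map_disc, ← Q4.map_res] at h1
          have h2 : (g.map φ).res.disc = 0 := by
            simp only [Q4.map, Q4.res, Cub.disc, hA, hB]
            ring
          rw [h2] at h1
          exact not_isUnit_zero h1
        rw [this, mul_zero, mul_zero, ite_self]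
      · rw [if_pos hA, if_pos ⟨hA, hB⟩, mul_one]
    · rw [if_neg hA, if_neg (fun hh => hA hh.1), mul_zero, zero_mul]
  rw [e1, ← Finset.sum_fiberwise_of_maps_to (s := (univ : Finset (Q4 R)).filter (fun g => φ g.A = 0 ∧ φ g.B ≠ 0))
    (t := (univ : Finset R).filter (fun r => φ r = 0)) (g := fun g => g.A) (fun g hg => by
      simp only [mem_filter, mem_univ, true_and] at hg ⊢
      exact hg.1)]
  have e2 : ∀ A ∈ (univ : Finset R).filter (fun r => φ r = 0),
      ∑ g ∈ ((univ : Finset (Q4 R)).filter (fun g => φ g.A = 0 ∧ φ g.B ≠ 0)).filter (fun g => g.A = A),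
        (star_c (φ g.E) (φ g.D) : ℝ) * Φ g.res =
      ∑ g ∈ (univ : Finset (Q4 R)).filter (fun g => g.A = 0 ∧ φ g.B ≠ 0),
          (star_c (φ g.E) (φ g.D) : ℝ) * Φ g.res := by
    intro A hA
    simp only [mem_filter, mem_univ, true_and] at hA
    have hex : ∀ g : Q4 R, ∃ w, (φ g.B ≠ 0 → φ w = 0 ∧ g.B * w + g.C * w ^ 2 + g.D * w ^ 3 + g.E * w ^ 4 = A) := by
      intro g
      by_cases hB : φ g.B = 0
      · exact ⟨0, fun hh => absurd hB hh⟩
      · obtain ⟨w, hw⟩ := (rho_hensel h g.B g.C g.D g.E hB).2 A hA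
        exact ⟨w, fun _ => hw⟩
    choose w hw using hex
    apply rho_bij _ _ (fun g => g.sub ⟨1, 0, w g, 1⟩)
    · intro g hg
      simp only [mem_filter, mem_univ, true_and] at hg ⊢
      obtain ⟨hg0, hgB⟩ := hg
      obtain ⟨hw1, hw2⟩ := hw g hgB
      have k1 : (g.sub ⟨1, 0, w g, 1⟩).A = A := by
        rw [← hw2]
        simp only [Q4.sub]
        rw [hg0]
        ring
      have k2 : φ (g.sub ⟨1, 0, w g, 1⟩).B = φ g.B := by
        simp only [Q4.sub, map_add, map_mul, map_pow, map_ofNat, hw1, map_one, map_zero]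
        ring
      exact ⟨⟨by rw [k1]; exact hA, by rw [k2]; exact hgB⟩, k1⟩
    · intro g hg g' hg' e
      simp only [coe_filter, mem_univ, true_and, Set.mem_setOf_eq] at hg hg'
      obtain ⟨hw1, hw2⟩ := hw g hg.2
      obtain ⟨hw1', hw2'⟩ := hw g' hg'.2
      have k1 : g' = g.sub ⟨1, 0, w g - w g', 1⟩ := by
        have e' : (g.sub ⟨1, 0, w g, 1⟩).sub ⟨1, 0, -w g', 1⟩ = (g'.sub ⟨1, 0, w g', 1⟩).sub ⟨1, 0, -w g', 1⟩ := by
          exact congrArg (fun x => Q4.sub x ⟨1, 0, -w g', 1⟩) e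
        rw [Q4.sub_mul, Q4.sub_mul] at e'
        have m1 : M2.mul ⟨1, 0, w g', 1⟩ ⟨1, 0, -w g', 1⟩ = (⟨1, 0, 0, 1⟩ : M2 R) := by
          ext <;> simp only [M2.mul] <;> ring
        have m2 : M2.mul ⟨1, 0, w g, 1⟩ ⟨1, 0, -w g', 1⟩ = (⟨1, 0, w g - w g', 1⟩ : M2 R) := by
          ext <;> simp only [M2.mul] <;> ring
        rw [m1, m2, Q4.sub_one] at e'
        exact e'.symm
      have k2 : g.B * (w g - w g') + g.C * (w g - w g') ^ 2 + g.D * (w g - w g') ^ 3 + g.E * (w g - w g') ^ 4 =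
          g.B * 0 + g.C * 0 ^ 2 + g.D * 0 ^ 3 + g.E * 0 ^ 4 := by
        have k3 := congrArg Q4.A k1
        rw [hg'.1] at k3
        simp only [Q4.sub] at k3
        rw [hg.1] at k3
        linear_combination -k3
      have k4 := (rho_hensel h g.B g.C g.D g.E hg.2).1 (w g - w g') 0
        (by rw [map_sub, hw1, hw1', sub_zero]) (map_zero φ) k2
      rw [k4, Q4.sub_one] at k1
      exact k1.symm
    · apply Finset.card_le_card_of_injOn (fun g => (⟨0, g.B, g.C, g.D, g.E⟩ : Q4 R))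
      · intro g hg
        simp only [coe_filter, mem_filter, mem_univ, true_and, Set.mem_setOf_eq] at hg ⊢
        exact hg.1.2
      · intro g hg g' hg' e
        simp only [coe_filter, mem_filter, mem_univ, true_and, Set.mem_setOf_eq] at hg hg'
        simp only [Q4.mk.injEq, true_and] at e
        obtain ⟨e1, e2, e3, e4⟩ := e
        ext
        · rw [hg.2, hg'.2]
        · exact e1
        · exact e2
        · exact e3
        · exact e4
    · intro g hg
      simp only [mem_filter, mem_univ, true_and] at hg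
      obtain ⟨hw1, hw2⟩ := hw g hg.2
      have k1 : Φ (g.sub ⟨1, 0, w g, 1⟩).res = Φ g.res := by
        rw [Q4.res_sub, hΦ]
        have : (M2.det (⟨1, 0, w g, 1⟩ : M2 R)) ^ 2 = 1 := by simp only [M2.det]; ring
        rw [this, Cub.sc_one]
      have k2 : φ (g.sub ⟨1, 0, w g, 1⟩).E = φ g.E := by
        simp only [Q4.sub, map_add, map_mul, map_pow, map_ofNat, hw1, map_one, map_zero]
        ring
      have k3 : φ (g.sub ⟨1, 0, w g, 1⟩).D = φ g.D := by
        simp only [Q4.sub, map_add, map_mul, map_pow, map_ofNat, hw1, map_one, map_zero]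
        ring
      show (star_c (φ (g.sub ⟨1, 0, w g, 1⟩).E) (φ (g.sub ⟨1, 0, w g, 1⟩).D) : ℝ) * Φ (g.sub ⟨1, 0, w g, 1⟩).res = _
      rw [k1, k2, k3]
  rw [Finset.sum_congr rfl e2, Finset.sum_const, nsmul_eq_mul]

open Classical in
/-- the sum over the cubics with a last coefficient in the maximal ideal -/
theorem rho_c (h : StarH φ) (Φ : Cub R → ℝ) (hΦ : ∀ f r, Φ (Cub.tr r f) = Φ f) {c : R} (hc : φ c = 0) :
    ∑ f ∈ (univ : Finset (Cub R)).filter (fun f => f.c = c ∧ φ f.b ≠ 0), Φ f =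
      ∑ f ∈ (univ : Finset (Cub R)).filter (fun f => f.c = 0 ∧ φ f.b ≠ 0), Φ f := by
  haveI := h.nt
  have hb0 : ∀ f : Cub R, φ f.b ≠ 0 → φ (-f.b) ≠ 0 := by
    intro f hf h0
    rw [map_neg, neg_eq_zero] at h0
    exact hf h0
  have hex : ∀ f : Cub R, ∃ w, (φ f.b ≠ 0 → φ w = 0 ∧ (-f.b) * w + f.a * w ^ 2 + (-1) * w ^ 3 + 0 * w ^ 4 = c) := by
    intro f
    by_cases hB : φ f.b = 0
    · exact ⟨0, fun hh => absurd hB hh⟩
    · obtain ⟨w, hw⟩ := (rho_hensel h (-f.b) f.a (-1) 0 (hb0 f hB)).2 c hc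
      exact ⟨w, fun _ => hw⟩
  choose w hw using hex
  apply rho_bij _ _ (fun f => f.tr (-w f))
  · intro f hf
    simp only [mem_filter, mem_univ, true_and] at hf ⊢
    obtain ⟨hw1, hw2⟩ := hw f hf.2
    constructor
    · rw [← hw2]
      simp only [Cub.tr]
      rw [hf.1]
      ring
    · have k2 : φ (f.tr (-w f)).b = φ f.b := by
        simp only [Cub.tr, map_add, map_mul, map_pow, map_ofNat, map_neg, hw1]
        ring
      rw [k2]
      exact hf.2
  · intro f hf f' hf' e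
    simp only [coe_filter, mem_univ, true_and, Set.mem_setOf_eq] at hf hf'
    obtain ⟨hw1, hw2⟩ := hw f hf.2
    obtain ⟨hw1', hw2'⟩ := hw f' hf'.2
    have k1 : f' = f.tr (-(w f - w f')) := by
      have e' : (f.tr (-w f)).tr (w f') = (f'.tr (-w f')).tr (w f') := congrArg (Cub.tr (w f')) e
      rw [Cub.tr_tr, Cub.tr_tr, neg_add_cancel, Cub.tr_zero] at e'
      have e9 : -(w f - w f') = -w f + w f' := by ring
      rw [e9]
      exact e'.symm
    have k2 : (-f.b) * (w f - w f') + f.a * (w f - w f') ^ 2 + (-1) * (w f - w f') ^ 3 + 0 * (w f - w f') ^ 4 =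
        (-f.b) * 0 + f.a * 0 ^ 2 + (-1) * 0 ^ 3 + 0 * 0 ^ 4 := by
      have k3 := congrArg Cub.c k1
      rw [hf'.1] at k3
      simp only [Cub.tr] at k3
      rw [hf.1] at k3
      linear_combination -k3
    have k4 := (rho_hensel h (-f.b) f.a (-1) 0 (hb0 f hf.2)).1 (w f - w f') 0
      (by rw [map_sub, hw1, hw1', sub_zero]) (map_zero φ) k2
    rw [k4, neg_zero, Cub.tr_zero] at k1
    exact k1.symm
  · apply Finset.card_le_card_of_injOn (fun f => (⟨f.a, f.b, 0⟩ : Cub R))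
    · intro f hf
      simp only [coe_filter, mem_filter, mem_univ, true_and, Set.mem_setOf_eq] at hf ⊢
      exact hf.2
    · intro f hf f' hf' e
      simp only [coe_filter, mem_filter, mem_univ, true_and, Set.mem_setOf_eq] at hf hf'
      simp only [Cub.mk.injEq, and_true] at e
      obtain ⟨e1, e2⟩ := e
      ext
      · exact e1
      · exact e2
      · rw [hf.1, hf'.1]
  · intro f _
    exact hΦ f _

open Classical in
/-- scaling -/
theorem rho_scale (h : StarH φ) (a d b : κ) (hb : b ≠ 0) : star_c (b ^ 2 * a) (b * d) = star_c a d := by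
  obtain ⟨v, hv⟩ := h.fld b hb
  unfold star_c
  symm
  refine Finset.card_bij (fun z _ => b * z) ?_ ?_ ?_
  · intro z hz
    simp only [mem_filter, mem_univ, true_and] at hz ⊢
    refine ⟨by rw [mul_pow, hz.1], ?_⟩
    rcases hz.2 with h1 | h1
    · left
      intro h0
      exact h1 ((h.fld b hb).mul_right_eq_zero.1 h0)
    · right
      intro h0
      exact h1 ((h.fld b hb).mul_right_eq_zero.1 h0)
  · intro z _ z' _ e
    exact (h.fld b hb).mul_left_cancel e
  · intro z hz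
    simp only [mem_filter, mem_univ, true_and] at hz
    have hbv : b * (↑v⁻¹ : κ) = 1 := by rw [← hv, Units.mul_inv]
    refine ⟨(↑v⁻¹ : κ) * z, ?_, by rw [← mul_assoc, hbv, one_mul]⟩
    simp only [mem_filter, mem_univ, true_and]
    refine ⟨?_, ?_⟩
    · rw [mul_pow, hz.1]
      linear_combination (b * (↑v⁻¹ : κ) + 1) * a * hbv
    · rcases hz.2 with h1 | h1
      · left
        intro h0
        apply h1
        have : z = b * ((↑v⁻¹ : κ) * z) := by rw [← mul_assoc, hbv, one_mul]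
        rw [this, h0, mul_zero]
      · right
        intro h0
        apply h1
        rw [h0, mul_zero]

open Classical in
/-- the quartics with vanishing first coefficient -/
theorem rho_zero (h : StarH φ) (Φ : Cub R → ℝ) :
    ∑ g ∈ (univ : Finset (Q4 R)).filter (fun g => g.A = 0 ∧ φ g.B ≠ 0), (star_c (φ g.E) (φ g.D) : ℝ) * Φ g.res =
      (((Fintype.card κ : ℝ) - 1) * ((univ : Finset R).filter (fun r => φ r = 0)).card) *
        ∑ f : Cub R, (star_c (φ f.c) (φ f.b) : ℝ) * Φ f := by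
  rw [Finset.sum_filter, sum_Q4]
  have e1 : ∀ A : R, A ≠ 0 → ∑ B : R, ∑ C : R, ∑ D : R, ∑ E : R,
      (if (⟨A, B, C, D, E⟩ : Q4 R).A = 0 ∧ φ (⟨A, B, C, D, E⟩ : Q4 R).B ≠ 0 then
        (star_c (φ (⟨A, B, C, D, E⟩ : Q4 R).E) (φ (⟨A, B, C, D, E⟩ : Q4 R).D) : ℝ) *
          Φ (⟨A, B, C, D, E⟩ : Q4 R).res else 0) = 0 := by
    intro A hA
    refine Finset.sum_eq_zero fun B _ => Finset.sum_eq_zero fun C _ => Finset.sum_eq_zero fun D _ =>
      Finset.sum_eq_zero fun E _ => if_neg fun hh => hA hh.1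
  rw [Finset.sum_eq_single (0 : R) (fun A _ hA => e1 A hA) (fun hh => absurd (mem_univ _) hh)]
  have e2 : ∀ B : R, ∑ C : R, ∑ D : R, ∑ E : R,
      (if (⟨0, B, C, D, E⟩ : Q4 R).A = 0 ∧ φ (⟨0, B, C, D, E⟩ : Q4 R).B ≠ 0 then
        (star_c (φ (⟨0, B, C, D, E⟩ : Q4 R).E) (φ (⟨0, B, C, D, E⟩ : Q4 R).D) : ℝ) *
          Φ (⟨0, B, C, D, E⟩ : Q4 R).res else 0) =
      if φ B ≠ 0 then ∑ f : Cub R, (star_c (φ f.c) (φ f.b) : ℝ) * Φ f else 0 := by
    intro B
    by_cases hB : φ B = 0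
    · rw [if_neg (not_not.2 hB)]
      refine Finset.sum_eq_zero fun C _ => Finset.sum_eq_zero fun D _ =>
        Finset.sum_eq_zero fun E _ => if_neg fun hh => hh.2 hB
    · rw [if_pos hB, sum_Cub]
      have hBu := h.unit hB
      apply Finset.sum_congr rfl
      intro C _
      rw [← star_mul hBu (fun b => ∑ c : R, (star_c (φ (⟨C, b, c⟩ : Cub R).c) (φ (⟨C, b, c⟩ : Cub R).b) : ℝ) *
        Φ ⟨C, b, c⟩)]
      apply Finset.sum_congr rfl
      intro D _
      rw [← star_mul (hBu.pow 2) (fun c => (star_c (φ (⟨C, B * D, c⟩ : Cub R).c) (φ (⟨C, B * D, c⟩ : Cub R).b) : ℝ) *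
        Φ ⟨C, B * D, c⟩)]
      apply Finset.sum_congr rfl
      intro E _
      rw [if_pos ⟨rfl, hB⟩]
      have k1 : (⟨0, B, C, D, E⟩ : Q4 R).res = ⟨C, B * D, B ^ 2 * E⟩ := by
        ext <;> simp only [Q4.res] <;> ring
      rw [k1]
      have k2 := rho_scale h (φ E) (φ D) (φ B) hB
      simp only [map_mul, map_pow]
      rw [k2]
  rw [Finset.sum_congr rfl (fun B _ => e2 B), ← Finset.sum_filter, Finset.sum_const, nsmul_eq_mul, star_units h]

open Classical in
/-- the sum over the cubics -/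
theorem rho_cub (h : StarH φ) (Φ : Cub R → ℝ) (hΦ : ∀ f r, Φ (Cub.tr r f) = Φ f)
    (hΦ0 : ∀ f, ¬ IsUnit (Cub.disc f) → Φ f = 0) :
    ∑ f : Cub R, (star_c (φ f.c) (φ f.b) : ℝ) * Φ f = ∑ a : R, ∑ b : R, ∑ y : R, Φ ⟨a, b, y ^ 2⟩ := by
  haveI := h.nt
  set N0 : ℝ := ∑ f ∈ (univ : Finset (Cub R)).filter (fun f => f.c = 0 ∧ φ f.b ≠ 0), Φ f with hN0
  -- the value for a last coefficient in the maximal ideal
  have hN : ∀ c : R, φ c = 0 → ∑ a : R, ∑ b : R, (if φ b ≠ 0 then Φ ⟨a, b, c⟩ else 0) = N0 := by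
    intro c hc
    rw [hN0, ← rho_c h Φ hΦ hc, Finset.sum_filter, sum_Cub]
    apply Finset.sum_congr rfl
    intro a _
    apply Finset.sum_congr rfl
    intro b _
    rw [Finset.sum_eq_single c]
    · by_cases hb : φ b = 0
      · rw [if_neg (not_not.2 hb), if_neg (fun hh => hh.2 hb)]
      · rw [if_pos hb, if_pos ⟨rfl, hb⟩]
    · intro c' _ hc'
      exact if_neg fun hh => hc' hh.1
    · intro hh
      exact absurd (mem_univ _) hh
  have hN' : ∀ c : R, φ c = 0 → ∑ a : R, ∑ b : R, Φ ⟨a, b, c⟩ = N0 := by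
    intro c hc
    rw [← hN c hc]
    apply Finset.sum_congr rfl
    intro a _
    apply Finset.sum_congr rfl
    intro b _
    by_cases hb : φ b = 0
    · rw [if_neg (not_not.2 hb)]
      apply hΦ0
      intro hu
      have h1 := hu.map φ
      rw [← Cub.map_disc] at h1
      have h2 : (Cub.map φ (⟨a, b, c⟩ : Cub R)).disc = 0 := by
        simp only [Cub.map, Cub.disc, hb, hc]
        ring
      rw [h2] at h1
      exact not_isUnit_zero h1
    · rw [if_pos hb]
  have e1 : ∑ f : Cub R, (star_c (φ f.c) (φ f.b) : ℝ) * Φ f =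
      (∑ a : R, ∑ b : R, ∑ y ∈ (univ : Finset R).filter (fun r => φ r ≠ 0), Φ ⟨a, b, y ^ 2⟩) +
        ((univ : Finset R).filter (fun r => φ r = 0)).card * N0 := by
    rw [sum_Cub]
    have k1 : ∀ a b : R, ∑ c : R, (star_c (φ (⟨a, b, c⟩ : Cub R).c) (φ (⟨a, b, c⟩ : Cub R).b) : ℝ) * Φ ⟨a, b, c⟩ =
        ∑ y ∈ (univ : Finset R).filter (fun r => φ r ≠ 0), Φ ⟨a, b, y ^ 2⟩ +
          ∑ c ∈ (univ : Finset R).filter (fun r => φ r = 0), (if φ b ≠ 0 then Φ ⟨a, b, c⟩ else 0) := by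
      intro a b
      rw [← star_sq h (fun c => Φ ⟨a, b, c⟩), Finset.sum_filter, ← Finset.sum_add_distrib]
      apply Finset.sum_congr rfl
      intro c _
      rw [star_c_eq _ _ h.fld, Nat.cast_add, add_mul]
      congr 1
      show ((if φ c = 0 ∧ φ b ≠ 0 then 1 else 0 : ℕ) : ℝ) * Φ ⟨a, b, c⟩ = _
      by_cases hc : φ c = 0
      · by_cases hb : φ b = 0
        · rw [if_neg (fun hh => hh.2 hb), if_pos hc, if_neg (not_not.2 hb), Nat.cast_zero, zero_mul]
        · rw [if_pos ⟨hc, hb⟩, if_pos hc, if_pos hb, Nat.cast_one, one_mul]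
      · rw [if_neg (fun hh => hc hh.1), if_neg hc, Nat.cast_zero, zero_mul]
    rw [Finset.sum_congr rfl (fun a _ => Finset.sum_congr rfl (fun b _ => k1 a b))]
    simp only [Finset.sum_add_distrib]
    congr 1
    have k2 : ∑ a : R, ∑ b : R, ∑ c ∈ (univ : Finset R).filter (fun r => φ r = 0),
        (if φ b ≠ 0 then Φ ⟨a, b, c⟩ else 0) =
        ∑ c ∈ (univ : Finset R).filter (fun r => φ r = 0), ∑ a : R, ∑ b : R,
          (if φ b ≠ 0 then Φ ⟨a, b, c⟩ else 0) := by
      rw [Finset.sum_congr rfl (fun a _ => Finset.sum_comm), Finset.sum_comm]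
    rw [k2, Finset.sum_congr rfl (fun c hc => hN c (by
      simp only [mem_filter, mem_univ, true_and] at hc
      exact hc)), Finset.sum_const, nsmul_eq_mul]
  have e2 : ∑ a : R, ∑ b : R, ∑ y : R, Φ ⟨a, b, y ^ 2⟩ =
      (∑ a : R, ∑ b : R, ∑ y ∈ (univ : Finset R).filter (fun r => φ r ≠ 0), Φ ⟨a, b, y ^ 2⟩) +
        ((univ : Finset R).filter (fun r => φ r = 0)).card * N0 := by
    have k1 : ∀ a b : R, ∑ y : R, Φ ⟨a, b, y ^ 2⟩ =
        ∑ y ∈ (univ : Finset R).filter (fun r => φ r ≠ 0), Φ ⟨a, b, y ^ 2⟩ +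
          ∑ y ∈ (univ : Finset R).filter (fun r => φ r = 0), Φ ⟨a, b, y ^ 2⟩ := by
      intro a b
      rw [add_comm, ← Finset.sum_filter_add_sum_filter_not univ (fun r => φ r = 0)]
    rw [Finset.sum_congr rfl (fun a _ => Finset.sum_congr rfl (fun b _ => k1 a b))]
    simp only [Finset.sum_add_distrib]
    congr 1
    have k2 : ∑ a : R, ∑ b : R, ∑ y ∈ (univ : Finset R).filter (fun r => φ r = 0), Φ ⟨a, b, y ^ 2⟩ =
        ∑ y ∈ (univ : Finset R).filter (fun r => φ r = 0), ∑ a : R, ∑ b : R, Φ ⟨a, b, y ^ 2⟩ := by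
      rw [Finset.sum_congr rfl (fun a _ => Finset.sum_comm), Finset.sum_comm]
    rw [k2, Finset.sum_congr rfl (fun y hy => hN' (y ^ 2) (by
      simp only [mem_filter, mem_univ, true_and] at hy
      rw [map_pow, hy]
      ring)), Finset.sum_const, nsmul_eq_mul]
  rw [e1, e2]

/-- scaling by `4` -/
theorem rho_four (h : StarH φ) (Φ : Cub R → ℝ) :
    ∑ x : R × R × R, Φ ((⟨x.1, x.2.1, x.2.2 ^ 2⟩ : Cub R).sc 4) = ∑ a : R, ∑ b : R, ∑ y : R, Φ ⟨a, b, y ^ 2⟩ := by
  have h4 : IsUnit (4 : R) := by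
    have : (4 : R) = 2 * 2 := by norm_num
    rw [this]
    exact h.two.mul h.two
  have h8 : IsUnit (8 : R) := by
    have : (8 : R) = 2 * 4 := by norm_num
    rw [this]
    exact h.two.mul h4
  rw [Fintype.sum_prod_type, ← star_mul h4 (fun a => ∑ b : R, ∑ y : R, Φ ⟨a, b, y ^ 2⟩)]
  apply Finset.sum_congr rfl
  intro a _
  rw [Fintype.sum_prod_type, ← star_mul (h4.pow 2) (fun b => ∑ y : R, Φ ⟨4 * a, b, y ^ 2⟩)]
  apply Finset.sum_congr rfl
  intro b _
  rw [← star_mul h8 (fun y => Φ ⟨4 * a, 4 ^ 2 * b, y ^ 2⟩)]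
  apply Finset.sum_congr rfl
  intro y _
  congr 1
  ext
  · rfl
  · rfl
  · simp only [Cub.sc]
    ring

open Classical in
/-- the points at infinity -/
theorem rho_inf (h : StarH φ) (Φ : Cub R → ℝ) (hΦ : ∀ f r, Φ (Cub.tr r f) = Φ f) :
    ∑ g : Q4 R, (star_c (φ g.A) (φ g.B) : ℝ) * (if φ g.A = 0 then 1 else 0) * Φ g.res =
      ((univ : Finset R).filter (fun r => φ r = 0)).card * (((Fintype.card κ : ℝ) - 1) *
          ((univ : Finset R).filter (fun r => φ r = 0)).card) * ∑ f : Cub R, Φ (f.sc 4) := by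
  haveI := h.nt
  have s2 : ∑ g : Q4 R, (star_c (φ g.A) (φ g.B) : ℝ) * (if φ g.A = 0 then 1 else 0) * Φ g.res =
      ∑ A ∈ (univ : Finset R).filter (fun r => φ r = 0), ∑ B ∈ (univ : Finset R).filter (fun r => φ r ≠ 0),
        ∑ C, ∑ D, ∑ E, Φ (Q4.res ⟨A, B, C, D, E⟩) := by
    rw [sum_Q4, Finset.sum_filter]
    apply Finset.sum_congr rfl
    intro A _
    by_cases hA : φ A = 0
    · rw [if_pos hA, Finset.sum_filter]
      apply Finset.sum_congr rfl
      intro B _
      have k0 : ((univ : Finset κ).filter (fun z => z ^ 2 = φ A ∧ z ≠ 0)).card = 0 := by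
        rw [Finset.card_eq_zero]
        apply Finset.filter_eq_empty_iff.2
        rintro z _ ⟨h1, h2⟩
        rw [hA, pow_two] at h1
        rcases rho_mul h h1 with h3 | h3
        · exact h2 h3
        · exact h2 h3
      by_cases hB : φ B = 0
      · rw [if_neg (not_not.2 hB)]
        refine Finset.sum_eq_zero fun C _ => Finset.sum_eq_zero fun D _ => Finset.sum_eq_zero fun E _ => ?_
        show (star_c (φ A) (φ B) : ℝ) * _ * _ = 0
        rw [star_c_eq _ _ h.fld, k0, if_neg (fun hh => hh.2 hB)]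
        simp
      · rw [if_pos hB]
        refine Finset.sum_congr rfl fun C _ => Finset.sum_congr rfl fun D _ => Finset.sum_congr rfl fun E _ => ?_
        show (star_c (φ A) (φ B) : ℝ) * (if φ A = 0 then 1 else 0) * _ = _
        rw [star_c_eq _ _ h.fld, k0, if_pos ⟨hA, hB⟩, if_pos hA]
        simp
    · rw [if_neg hA]
      refine Finset.sum_eq_zero fun B _ => Finset.sum_eq_zero fun C _ => Finset.sum_eq_zero fun D _ =>
        Finset.sum_eq_zero fun E _ => ?_
      show (star_c (φ A) (φ B) : ℝ) * (if φ A = 0 then 1 else 0) * _ = _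
      rw [if_neg hA, mul_zero, zero_mul]
  have e1 : ∀ A ∈ (univ : Finset R).filter (fun r => φ r = 0), ∑ B ∈ (univ : Finset R).filter (fun r => φ r ≠ 0),
      ∑ C, ∑ D, ∑ E, Φ (Q4.res ⟨A, B, C, D, E⟩) =
        (((Fintype.card κ : ℝ) - 1) * ((univ : Finset R).filter (fun r => φ r = 0)).card) *
          ∑ f : Cub R, Φ (f.sc 4) := by
    intro A hA
    simp only [mem_filter, mem_univ, true_and] at hA
    have e2 : ∀ B ∈ (univ : Finset R).filter (fun r => φ r ≠ 0),
        ∑ C, ∑ D, ∑ E, Φ (Q4.res ⟨A, B, C, D, E⟩) = ∑ f : Cub R, Φ (f.sc 4) := by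
      intro B hB
      simp only [mem_filter, mem_univ, true_and] at hB
      exact star_zero h Φ hA hB
    rw [Finset.sum_congr rfl e2, Finset.sum_const, nsmul_eq_mul, star_units h]
  rw [s2, Finset.sum_congr rfl e1, Finset.sum_const, nsmul_eq_mul]
  ring

open Classical in
theorem rho_main (h : StarH φ) (Φ : Cub R → ℝ) (hΦ : ∀ f r, Φ (Cub.tr r f) = Φ f)
    (hΦ0 : ∀ f, ¬ IsUnit (Cub.disc f) → Φ f = 0) :
    ∑ g : Q4 R, ((g.map φ).sp : ℝ) * (nr (g.map φ) : ℝ) * Φ g.res = ∑ g : Q4 R, ((g.map φ).sp : ℝ) * Φ g.res := by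
  have s1 : ∑ g : Q4 R, ((g.map φ).sp : ℝ) * (nr (g.map φ) : ℝ) * Φ g.res =
      ((Fintype.card κ : ℝ) + 1) * ∑ g : Q4 R, ((g.map φ).sp : ℝ) * (if φ g.A = 0 then 1 else 0) * Φ g.res := by
    have e1 : ∀ g : Q4 R, ((g.map φ).sp : ℝ) * (nr (g.map φ) : ℝ) * Φ g.res =
        ∑ u : κ, ((g.map φ).sp : ℝ) * (if (g.map φ).ev u 1 = 0 then 1 else 0) * Φ g.res +
          ((g.map φ).sp : ℝ) * (if φ g.A = 0 then 1 else 0) * Φ g.res := by
      intro g
      rw [← Finset.sum_mul, ← Finset.mul_sum, ← add_mul, ← mul_add]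
      congr 2
      unfold nr
      rw [Nat.cast_add, Finset.card_filter, Nat.cast_sum]
      congr 1
      · apply Finset.sum_congr rfl
        intro u _
        by_cases hu : (g.map φ).ev u 1 = 0
        · rw [if_pos hu, if_pos hu, Nat.cast_one]
        · rw [if_neg hu, if_neg hu, Nat.cast_zero]
      · show (((if φ g.A = 0 then 1 else 0 : ℕ)) : ℝ) = _
        by_cases hu : φ g.A = 0
        · rw [if_pos hu, if_pos hu, Nat.cast_one]
        · rw [if_neg hu, if_neg hu, Nat.cast_zero]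
    rw [Finset.sum_congr rfl (fun g _ => e1 g), Finset.sum_add_distrib, Finset.sum_comm,
      Finset.sum_congr rfl (fun u _ => rho_move h Φ hΦ u), Finset.sum_const, Finset.card_univ, nsmul_eq_mul]
    ring
  have s2 : ∑ g : Q4 R, ((g.map φ).sp : ℝ) * (if φ g.A = 0 then 1 else 0) * Φ g.res =
      (Fintype.card κ : ℝ) * ∑ g : Q4 R, (star_c (φ g.E) (φ g.D) : ℝ) * (if φ g.A = 0 then 1 else 0) * Φ g.res +
      ∑ g : Q4 R, (star_c (φ g.A) (φ g.B) : ℝ) * (if φ g.A = 0 then 1 else 0) * Φ g.res := by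
    have e1 : ∀ g : Q4 R, ((g.map φ).sp : ℝ) * (if φ g.A = 0 then 1 else 0) * Φ g.res =
        ∑ u : κ, (star_c ((g.map φ).ev u 1)
          (4 * (g.map φ).A * u ^ 3 + 3 * (g.map φ).B * u ^ 2 + 2 * (g.map φ).C * u + (g.map φ).D) : ℝ) *
            (if φ g.A = 0 then 1 else 0) * Φ g.res +
        (star_c (φ g.A) (φ g.B) : ℝ) * (if φ g.A = 0 then 1 else 0) * Φ g.res := by
      intro g
      rw [star_sp, Nat.cast_add, add_mul, add_mul, Nat.cast_sum, Finset.sum_mul, Finset.sum_mul]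
      rfl
    rw [Finset.sum_congr rfl (fun g _ => e1 g), Finset.sum_add_distrib, Finset.sum_comm,
      Finset.sum_congr rfl (fun u _ => rho_aff h Φ hΦ u), Finset.sum_const, Finset.card_univ, nsmul_eq_mul]
  rw [s1, star_main h Φ hΦ, s2, rho_A h Φ hΦ hΦ0, rho_zero h Φ, rho_cub h Φ hΦ hΦ0, rho_inf h Φ hΦ, rho_four h Φ]
  have c3 := star_card h
  have c3' : (Fintype.card R : ℝ) = (Fintype.card κ : ℝ) *
      ((univ : Finset R).filter (fun r => φ r = 0)).card := by
    exact_mod_cast c3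
  rw [c3']
  ring

end rho

theorem t_rho : S_rho := by
  intro F _ _ h2 P M hM Φ hΦ hΦ0
  exact rho_main (star_hyp h2 P M hM) Φ hΦ hΦ0

end Pool.Agent.H456.PP
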